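import Pool.Agent.GE.Defs
import Pool.Agent.GT.Step
import Pool.Agent.GT.Doubling
import Pool.Agent.GT.ProdSpan

/-!
Project GE (MP_e3c919_ag), row E14: bounded complexity of the shifts at one level.
-/

set_option autoImplicit false

open Filter MvPolynomial

namespace Pool.Agent.GE

open Pool.Agent.GT

theorem BC_not_bad {K ι : Type} [Field K] {y : ℕ → ι → K} {S : Finset ℕ} {l : ℕ}
    {Φ : ι → MvPolynomial ι K} {n : ℕ} (hn : n ∈ S) (hb : n ∉ bad y S l Φ) :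
    ∃ c : K, c ≠ 0 ∧ ∀ i, eval (y n) (Φ i) = c * y (n + l) i := by
  classical
  by_contra hc
  exact hb (by unfold bad; exact Finset.mem_filter.mpr ⟨hn, hc⟩)

/-- the step lemma at one level -/
theorem BC_step {K T ι : Type} [Field K] [Fintype ι] {δ : T → ℕ}
    {F : T → ι → MvPolynomial ι K} {y : ℕ → ι → K} (h : Orb δ F y) (d : ℕ)
    (hd : ∀ t, δ t ≤ d) {𝔭 : Ideal (MvPolynomial ι K)} (S : Finset ℕ)
    (hv : ∀ G ∈ 𝔭, ∀ n ∈ S, eval (y n) G = 0) (x : ℝ) (hx : 0 < x) (L g D : ℕ) (hD : 1 ≤ D)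
    (hg : d * D ≤ g)
    (hFZ : ∀ e ≤ g, ∀ G : MvPolynomial ι K, G.IsHomogeneous e → G ∉ 𝔭 →
      ∀ Z ⊆ S, (∀ n ∈ Z, eval (y n) G = 0) → (Z.card : ℝ) < x)
    (hcard : x * (3 * L + 1) < (S.card : ℝ)) (hno : ∃ l ≤ L, NoRep y S D l x) :
    ∃ (l a : ℕ) (Φ : ι → MvPolynomial ι K) (i₀ : ι), l ≤ L ∧ a ≤ d * D ∧
      (∀ i, (Φ i).IsHomogeneous a) ∧ Φ i₀ ∉ 𝔭 ∧
      ((bad y S l Φ).card : ℝ) ≤ (3 * (l : ℝ) - 1) * x ∧ NoRep y S D l x := by
  classical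
  obtain ⟨l₁, hl₁, hno⟩ := hno
  obtain ⟨l, hl1, hlL, hnol, hrep⟩ := step_least y S D hD x hx.le (L : ℝ)
    ⟨l₁, by exact_mod_cast hl₁, hno⟩
  have hlL' : l ≤ L := by exact_mod_cast hlL
  unfold NoRep at hrep
  push Not at hrep
  obtain ⟨a, ha1, ha2, Φ', hΦ', hbad⟩ := hrep
  have hcast : ((l - 1 : ℕ) : ℝ) = (l : ℝ) - 1 := by rw [Nat.cast_sub hl1, Nat.cast_one]
  rw [hcast] at hbad
  obtain ⟨n₀, hn₀⟩ : (S \ bad y S (l - 1) Φ').Nonempty := by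
    rw [← Finset.card_pos]
    have h1 := Finset.le_card_sdiff (bad y S (l - 1) Φ') S
    by_contra h0
    have h2 : S.card ≤ (bad y S (l - 1) Φ').card := by omega
    have h3 : (S.card : ℝ) ≤ (bad y S (l - 1) Φ').card := by exact_mod_cast h2
    have h4 : 0 ≤ x * ((L : ℝ) - l) := mul_nonneg hx.le (by linarith)
    nlinarith
  obtain ⟨hn₀S, hn₀b⟩ := Finset.mem_sdiff.mp hn₀
  obtain ⟨t, i₀, hi₀⟩ := h.step (n₀ + (l - 1))
  set Φ : ι → MvPolynomial ι K := fun i => bind₁ Φ' (F t i) with hΦ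
  have hval : ∀ n ∈ S, n ∉ bad y S (l - 1) Φ' → ∃ c : K, c ≠ 0 ∧
      ∀ i, eval (y n) (Φ i) = c * eval (y (n + (l - 1))) (F t i) := by
    intro n hn hnb
    obtain ⟨c, hc, h1⟩ := BC_not_bad hn hnb
    refine ⟨c ^ δ t, pow_ne_zero _ hc, fun i => ?_⟩
    simp only [hΦ]
    rw [eval_bind, show (fun i => eval (y n) (Φ' i)) = fun i => c * y (n + (l - 1)) i from
      funext h1, eval_smul_form (h.hom t i)]
  have hhom : ∀ i, (Φ i).IsHomogeneous (a * δ t) := fun i => bind_hom hΦ' (h.hom t i)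
  have hi₀𝔭 : Φ i₀ ∉ 𝔭 := by
    intro hm
    obtain ⟨c, hc, h1⟩ := hval n₀ hn₀S hn₀b
    have h2 := hv _ hm n₀ hn₀S
    rw [h1 i₀] at h2
    exact (mul_ne_zero hc hi₀) h2
  have hdeg : a * δ t ≤ d * D := by
    calc a * δ t ≤ D * d := Nat.mul_le_mul ha2 (hd t)
      _ = d * D := mul_comm _ _
  have hzero := hFZ (a * δ t) (hdeg.trans hg) (Φ i₀) (hhom i₀) hi₀𝔭
    (S.filter fun n => eval (y n) (Φ i₀) = 0) (Finset.filter_subset _ _)
    (fun n hn => (Finset.mem_filter.mp hn).2)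
  refine ⟨l, a * δ t, Φ, i₀, hlL', hdeg, hhom, hi₀𝔭, ?_, hnol⟩
  have hsub : bad y S l Φ ⊆ bad y S (l - 1) Φ' ∪ S.filter fun n => eval (y n) (Φ i₀) = 0 := by
    intro n hn
    have hn' := hn
    unfold bad at hn'
    have hnS : n ∈ S := (Finset.mem_filter.mp hn').1
    by_contra hcon
    rw [Finset.mem_union, not_or] at hcon
    obtain ⟨hb, hz⟩ := hcon
    have hz' : eval (y n) (Φ i₀) ≠ 0 := fun h0 => hz (Finset.mem_filter.mpr ⟨hnS, h0⟩)
    apply (Finset.mem_filter.mp hn').2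
    obtain ⟨c, hc, h1⟩ := hval n hnS hb
    obtain ⟨e, he⟩ := h.prop (n + (l - 1)) t
    rw [show n + (l - 1) + 1 = n + l by omega] at he
    refine ⟨c * e, ?_, fun i => by rw [h1 i, he i, mul_assoc]⟩
    intro h0
    apply hz'
    rw [h1 i₀, he i₀, ← mul_assoc, h0, zero_mul]
  have h5 : ((bad y S l Φ).card : ℝ) ≤ (bad y S (l - 1) Φ').card +
      (S.filter fun n => eval (y n) (Φ i₀) = 0).card := by
    exact_mod_cast (Finset.card_le_card hsub).trans (Finset.card_union_le _ _)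
  nlinarith

/-- doubling at one level -/
theorem BC_double {K T ι : Type} [Field K] [Fintype ι] {δ : T → ℕ}
    {F : T → ι → MvPolynomial ι K} {y : ℕ → ι → K} (h : Orb δ F y) (d : ℕ)
    (hd : ∀ t, δ t ≤ d) {𝔭 : Ideal (MvPolynomial ι K)} (h𝔭 : HPrime 𝔭) (S : Finset ℕ)
    (hv : ∀ G ∈ 𝔭, ∀ n ∈ S, eval (y n) G = 0) (x : ℝ) (hx : 0 < x) (L g α : ℕ)
    (hg : (d + 1) * (Fintype.card ι * α + 1) ≤ g)
    (hFZ : ∀ e ≤ g, ∀ G : MvPolynomial ι K, G.IsHomogeneous e → G ∉ 𝔭 →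
      ∀ Z ⊆ S, (∀ n ∈ Z, eval (y n) G = 0) → (Z.card : ℝ) < x)
    (hcard : x * (3 * L + 1) < (S.card : ℝ))
    (hno : ∃ l ≤ L, NoRep y S (Fintype.card ι * α + 1) l x)
    (W : Submodule K (MvPolynomial ι K)) (hW : W ≤ homogeneousSubmodule ι K α)
    (hW0 : 1 ≤ rk 𝔭 W) :
    ∃ (l a : ℕ) (Φ : ι → MvPolynomial ι K), l ≤ L ∧ a ≤ d * (Fintype.card ι * α + 1) ∧
      (∀ i, (Φ i).IsHomogeneous a) ∧
      ((bad y S l Φ).card : ℝ) ≤ (3 * (l : ℝ) - 1) * x ∧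
      2 * rk 𝔭 W ≤ rk 𝔭 (W * Submodule.span K (Set.range Φ)) := by
  classical
  obtain ⟨l, a, Φ, i₀, hl, ha, hΦ, hi₀, hbad, hnol⟩ := BC_step h d hd S hv x hx L g
    (Fintype.card ι * α + 1) (by omega) (le_trans (Nat.mul_le_mul_right _ (by omega)) hg) hFZ
    hcard hno
  refine ⟨l, a, Φ, hl, ha, hΦ, hbad, ?_⟩
  by_contra hlt
  push Not at hlt
  -- a coordinate outside the prime
  obtain ⟨n₀, hn₀⟩ : S.Nonempty := by
    rw [← Finset.card_pos]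
    have h1 : (0 : ℝ) < S.card := lt_of_le_of_lt (by positivity) hcard
    exact_mod_cast h1
  obtain ⟨j₀, hj₀⟩ : ∃ j₀, y n₀ j₀ ≠ 0 := Function.ne_iff.mp (h.ne n₀)
  have hj₀𝔭 : (X j₀ : MvPolynomial ι K) ∉ 𝔭 := by
    intro hm
    have h1 := hv _ hm n₀ hn₀
    rw [eval_X] at h1
    exact hj₀ h1
  obtain ⟨Ψ, V, b, hΨ, hV, hV𝔭, hrel⟩ := doubling h𝔭.prime α a W hW hW0 Φ hΦ i₀ hi₀ j₀ hj₀𝔭 hlt
  -- replace `V` by `Ψ i₀`
  have hVΨ : Ψ i₀ - V ∈ 𝔭 := by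
    have h1 : Φ i₀ * (Ψ i₀ - V) ∈ 𝔭 := by
      have h2 := hrel i₀
      have h3 : Φ i₀ * (Ψ i₀ - V) = Ψ i₀ * Φ i₀ - Φ i₀ * V := by ring
      rw [h3]
      exact h2
    exact (h𝔭.prime.mem_or_mem h1).resolve_left hi₀
  have hΨ𝔭 : Ψ i₀ ∉ 𝔭 := by
    intro hm
    apply hV𝔭
    have h1 := 𝔭.sub_mem hm hVΨ
    rwa [sub_sub_cancel] at h1
  have hrel' : ∀ i, Ψ i * Φ i₀ - Φ i * Ψ i₀ ∈ 𝔭 := by
    intro i
    have h1 := 𝔭.sub_mem (hrel i) (𝔭.mul_mem_left (Φ i) hVΨ)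
    have h2 : Ψ i * Φ i₀ - Φ i * V - Φ i * (Ψ i₀ - V) = Ψ i * Φ i₀ - Φ i * Ψ i₀ := by ring
    rwa [h2] at h1
  have hprod : Ψ i₀ * Φ i₀ ∉ 𝔭 := fun hm => (h𝔭.prime.mem_or_mem hm).elim hΨ𝔭 hi₀
  have hdeg : Fintype.card ι * α + 1 + a ≤ g := by
    refine le_trans ?_ hg
    rw [add_mul, one_mul]
    omega
  have hzero := hFZ _ hdeg (Ψ i₀ * Φ i₀) ((hΨ i₀).mul (hΦ i₀)) hprod
    (S.filter fun n => eval (y n) (Ψ i₀ * Φ i₀) = 0) (Finset.filter_subset _ _)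
    (fun n hn => (Finset.mem_filter.mp hn).2)
  have hN := hnol (Fintype.card ι * α + 1) (by omega) le_rfl Ψ hΨ
  have hsub : bad y S l Ψ ⊆ bad y S l Φ ∪ S.filter fun n => eval (y n) (Ψ i₀ * Φ i₀) = 0 := by
    intro n hn
    have hn' := hn
    unfold bad at hn'
    have hnS : n ∈ S := (Finset.mem_filter.mp hn').1
    by_contra hcon
    rw [Finset.mem_union, not_or] at hcon
    obtain ⟨hb, hz⟩ := hcon
    have hz' : eval (y n) (Ψ i₀ * Φ i₀) ≠ 0 := fun h0 => hz (Finset.mem_filter.mpr ⟨hnS, h0⟩)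
    rw [map_mul] at hz'
    have h7 := (mul_ne_zero_iff.mp hz').1
    have h8 := (mul_ne_zero_iff.mp hz').2
    apply (Finset.mem_filter.mp hn').2
    obtain ⟨c, hc, h5⟩ := BC_not_bad hnS hb
    refine ⟨eval (y n) (Ψ i₀) / eval (y n) (Φ i₀) * c, mul_ne_zero (div_ne_zero h7 h8) hc, ?_⟩
    intro i
    have h9 := hv _ (hrel' i) n hnS
    rw [map_sub, map_mul, map_mul, sub_eq_zero] at h9
    rw [mul_assoc, ← h5 i, div_mul_eq_mul_div, eq_div_iff h8, h9]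
    ring
  have h5 : ((bad y S l Ψ).card : ℝ) ≤ (bad y S l Φ).card +
      (S.filter fun n => eval (y n) (Ψ i₀ * Φ i₀) = 0).card := by
    exact_mod_cast (Finset.card_le_card hsub).trans (Finset.card_union_le _ _)
  nlinarith

theorem BC_dg_mono (m d i j : ℕ) (hij : i ≤ j) : dg m d i ≤ dg m d j := by
  unfold dg
  have h1 : (1 + d * (m + 1)) ^ i ≤ (1 + d * (m + 1)) ^ j :=
    Nat.pow_le_pow_right (by omega) hij
  have h2 := Nat.mul_le_mul_left m h1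
  omega

/-- the chain of records at one level -/
theorem BC_records {K T ι : Type} [Field K] [Fintype ι] {δ : T → ℕ}
    {F : T → ι → MvPolynomial ι K} {y : ℕ → ι → K} (h : Orb δ F y) (d : ℕ)
    (hd : ∀ t, δ t ≤ d) {𝔭 : Ideal (MvPolynomial ι K)} (h𝔭 : HPrime 𝔭) (S : Finset ℕ)
    (hv : ∀ G ∈ 𝔭, ∀ n ∈ S, eval (y n) G = 0) (x : ℝ) (hx : 0 < x) (L j g : ℕ)
    (hg : (d + 1) * dg (Fintype.card ι) d j ≤ g)
    (hFZ : ∀ e ≤ g, ∀ G : MvPolynomial ι K, G.IsHomogeneous e → G ∉ 𝔭 →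
      ∀ Z ⊆ S, (∀ n ∈ Z, eval (y n) G = 0) → (Z.card : ℝ) < x)
    (hcard : 1 ≤ j → x * (3 * L + 1) < (S.card : ℝ))
    (hno : ∃ l ≤ L, NoRep y S (dg (Fintype.card ι) d j) l x) (i : ℕ) (hij : i ≤ j) :
    ∃ (lam a : Fin i → ℕ) (Φ : Fin i → ι → MvPolynomial ι K), (∀ u, lam u ≤ L) ∧
      (∀ u v, (Φ u v).IsHomogeneous (a u)) ∧
      (∀ u, ((bad y S (lam u) (Φ u)).card : ℝ) ≤ (3 * (lam u : ℝ) - 1) * x) ∧
      ∑ u, a u + 1 ≤ (1 + d * (Fintype.card ι + 1)) ^ i ∧ 2 ^ i ≤ rk 𝔭 (prodSpan Φ) := by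
  induction i with
  | zero =>
    refine ⟨fun i => i.elim0, fun i => i.elim0, fun i => i.elim0, fun i => i.elim0,
      fun i => i.elim0, fun i => i.elim0, by simp, ?_⟩
    rw [rk_prodSpan_zero h𝔭.prime, pow_zero]
  | succ i ih =>
    obtain ⟨lam, a, Φ, h1, h2, h3, h4, h5⟩ := ih (by omega)
    set m := Fintype.card ι with hm
    have hDi : m * (∑ u, a u) + 1 ≤ dg m d j := by
      refine le_trans ?_ (BC_dg_mono m d i j (by omega))
      unfold dg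
      have h6 : m * (∑ u, a u) ≤ m * (1 + d * (m + 1)) ^ i :=
        Nat.mul_le_mul_left m (by omega)
      omega
    have hno' : ∃ l ≤ L, NoRep y S (m * (∑ u, a u) + 1) l x := by
      obtain ⟨l, hl, hN⟩ := hno
      exact ⟨l, hl, fun a' ha1 ha2 Ψ hΨ => hN a' ha1 (ha2.trans hDi) Ψ hΨ⟩
    obtain ⟨l', a', Φ', k1, k2, k3, k4, k5⟩ := BC_double h d hd h𝔭 S hv x hx L g (∑ u, a u)
      (le_trans (Nat.mul_le_mul_left _ hDi) hg) hFZ (hcard (by omega)) hno' (prodSpan Φ)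
      (prodSpan_hom Φ a h2) (le_trans Nat.one_le_two_pow h5)
    refine ⟨Fin.snoc (α := fun _ => ℕ) lam l', Fin.snoc (α := fun _ => ℕ) a a',
      Fin.snoc (α := fun _ => ι → MvPolynomial ι K) Φ Φ', ?_, ?_, ?_, ?_, ?_⟩
    · intro u
      refine Fin.lastCases ?_ (fun u => ?_) u
      · simpa using k1
      · simpa using h1 u
    · intro u
      refine Fin.lastCases ?_ (fun u => ?_) u
      · simpa using k3
      · simpa using h2 u
    · intro u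
      refine Fin.lastCases ?_ (fun u => ?_) u
      · simpa using k4
      · simpa using h3 u
    · rw [Fin.sum_univ_castSucc]
      simp only [Fin.snoc_castSucc, Fin.snoc_last]
      rw [pow_succ]
      set α := ∑ u, a u with hα
      have h6 : (α + 1) * (1 + d * (m + 1)) ≤ (1 + d * (m + 1)) ^ i * (1 + d * (m + 1)) :=
        Nat.mul_le_mul_right _ h4
      refine le_trans ?_ h6
      have h7 : d * (m * α + 1) ≤ d * ((α + 1) * (m + 1)) := by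
        apply Nat.mul_le_mul_left
        nlinarith
      have h8 : a' ≤ d * (m * α + 1) := k2
      have h9 : a' ≤ d * ((α + 1) * (m + 1)) := h8.trans h7
      calc α + a' + 1 ≤ (α + 1) + d * ((α + 1) * (m + 1)) := by omega
        _ = (α + 1) * (1 + d * (m + 1)) := by ring
    · rw [prodSpan_snoc, pow_succ]
      omega

theorem bc_fin {K T ι : Type} [Field K] [Finite T] [Fintype ι] {δ : T → ℕ}
    {F : T → ι → MvPolynomial ι K} {y : ℕ → ι → K} (h : Orb δ F y) (d : ℕ)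
    (hd : ∀ t, δ t ≤ d) {𝔭 : Ideal (MvPolynomial ι K)} (h𝔭 : HPrime 𝔭) (S : Finset ℕ)
    (hv : ∀ G ∈ 𝔭, ∀ n ∈ S, eval (y n) G = 0) (x : ℝ) (hx : 0 < x) (L j s g : ℕ)
    (hs : s ≤ 2 ^ j) (hg : (d + 1) * dg (Fintype.card ι) d j ≤ g)
    (hFZ : ∀ e ≤ g, ∀ G : MvPolynomial ι K, G.IsHomogeneous e → G ∉ 𝔭 →
      ∀ Z ⊆ S, (∀ n ∈ Z, eval (y n) G = 0) → (Z.card : ℝ) < x)
    (S₁ : Finset ℕ) (hS₁ : S₁ ⊆ S) (hcard : x * (2 + j * (3 * L + 1)) ≤ (S₁.card : ℝ))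
    (hrel : ∀ lam : Fin j → ℕ, (∀ i, lam i ≤ L) → ∀ φ : Fin s → Fin j → ι,
      ∃ c : Fin s → K, c ≠ 0 ∧ ∀ n ∈ S₁, ∑ u, c u * ∏ i, y (n + lam i) (φ u i) = 0) :
    ∀ l ≤ L, ∃ a, 1 ≤ a ∧ a ≤ dg (Fintype.card ι) d j ∧ ∃ Φ : ι → MvPolynomial ι K,
      (∀ i, (Φ i).IsHomogeneous a) ∧
        ((bad y S l Φ).card : ℝ) ≤ (3 * (l : ℝ) + 1) * x := by
  classical
  intro l hl
  by_contra hcon
  have hno : ∃ l ≤ L, NoRep y S (dg (Fintype.card ι) d j) l x := by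
    refine ⟨l, hl, fun a ha1 ha2 Φ hΦ => ?_⟩
    by_contra h1
    exact hcon ⟨a, ha1, ha2, Φ, hΦ, not_lt.mp h1⟩
  have hS₁S : (S₁.card : ℝ) ≤ S.card := by exact_mod_cast Finset.card_le_card hS₁
  have hcard' : 1 ≤ j → x * (3 * L + 1) < (S.card : ℝ) := by
    intro hj
    have h1 : (1 : ℝ) ≤ j := by exact_mod_cast hj
    have h2 : 0 ≤ x * (((j : ℝ) - 1) * (3 * L + 1)) :=
      mul_nonneg hx.le (mul_nonneg (by linarith) (by positivity))
    nlinarith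
  obtain ⟨lam, a, Φ, h1, h2, h3, h4, h5⟩ := BC_records h d hd h𝔭 S hv x hx L j g hg hFZ hcard'
    hno j le_rfl
  obtain ⟨φ, hφ⟩ := pick_indep 𝔭 Φ (hs.trans h5)
  obtain ⟨c, hc0, hc⟩ := hrel lam h1 φ
  set G : MvPolynomial ι K := ∑ u, C (c u) * ∏ i, Φ i (φ u i) with hGdef
  have hGhom : G.IsHomogeneous (∑ i, a i) := by
    refine IsHomogeneous.sum _ _ _ fun u _ => ?_
    exact (IsHomogeneous.prod _ _ _ fun i _ => h2 i (φ u i)).C_mul _
  have hm : 1 ≤ Fintype.card ι := by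
    obtain ⟨j₀, -⟩ : ∃ j₀, y 0 j₀ ≠ 0 := Function.ne_iff.mp (h.ne 0)
    exact Fintype.card_pos_iff.mpr ⟨j₀⟩
  have hdeg : ∑ i, a i ≤ g := by
    refine le_trans ?_ hg
    unfold dg
    have h6 : (1 + d * (Fintype.card ι + 1)) ^ j ≤
        Fintype.card ι * (1 + d * (Fintype.card ι + 1)) ^ j := Nat.le_mul_of_pos_left _ hm
    have h7 : Fintype.card ι * (1 + d * (Fintype.card ι + 1)) ^ j + 1 ≤
        (d + 1) * (Fintype.card ι * (1 + d * (Fintype.card ι + 1)) ^ j + 1) :=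
      Nat.le_mul_of_pos_left _ (by omega)
    omega
  have hGmem : G ∈ 𝔭 := by
    by_contra hG𝔭
    have h6 := hFZ _ hdeg G hGhom hG𝔭
      (S₁ \ Finset.univ.biUnion fun i => bad y S (lam i) (Φ i))
      (Finset.sdiff_subset.trans hS₁) (by
        intro n hn
        obtain ⟨hn1, hn2⟩ := Finset.mem_sdiff.mp hn
        have h7 : ∀ i, ∃ e : K, e ≠ 0 ∧ ∀ u, eval (y n) (Φ i u) = e * y (n + lam i) u :=
          fun i => BC_not_bad (hS₁ hn1) fun hb =>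
            hn2 (Finset.mem_biUnion.mpr ⟨i, Finset.mem_univ i, hb⟩)
        choose e he0 he using h7
        rw [hGdef, map_sum]
        have h8 : ∀ u, eval (y n) (C (c u) * ∏ i, Φ i (φ u i)) =
            (∏ i, e i) * (c u * ∏ i, y (n + lam i) (φ u i)) := by
          intro u
          rw [map_mul, eval_C, map_prod, Finset.prod_congr rfl fun i _ => he i (φ u i),
            Finset.prod_mul_distrib]
          ring
        rw [Finset.sum_congr rfl fun u _ => h8 u, ← Finset.mul_sum, hc n hn1, mul_zero])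
    have h7 : ((Finset.univ.biUnion fun i => bad y S (lam i) (Φ i)).card : ℝ) ≤
        j * ((3 * L + 1) * x) := by
      have h8 : ((Finset.univ.biUnion fun i => bad y S (lam i) (Φ i)).card : ℝ) ≤
          ∑ i, ((bad y S (lam i) (Φ i)).card : ℝ) := by
        exact_mod_cast Finset.card_biUnion_le
      refine h8.trans ((Finset.sum_le_card_nsmul _ _ ((3 * L + 1) * x) fun i _ => ?_).trans ?_)
      · refine (h3 i).trans (mul_le_mul_of_nonneg_right ?_ hx.le)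
        have h9 : (lam i : ℝ) ≤ L := by exact_mod_cast h1 i
        linarith
      · rw [Finset.card_univ, Fintype.card_fin, nsmul_eq_mul]
    have h8 : (S₁.card : ℝ) ≤ (Finset.univ.biUnion fun i => bad y S (lam i) (Φ i)).card +
        (S₁ \ Finset.univ.biUnion fun i => bad y S (lam i) (Φ i)).card := by
      have h9 := Finset.le_card_sdiff (Finset.univ.biUnion fun i => bad y S (lam i) (Φ i)) S₁
      exact_mod_cast (by omega : S₁.card ≤
        (Finset.univ.biUnion fun i => bad y S (lam i) (Φ i)).card +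
        (S₁ \ Finset.univ.biUnion fun i => bad y S (lam i) (Φ i)).card)
    nlinarith
  exact hc0 (hφ c hGmem)

end Pool.Agent.GE
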