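import Pool.Agent.GE.SelEff

/-!
Choice of a place and of a pigeonhole class: the heights are bounded along the segments which
start in the given set, and the constants do not depend on the orbit (the proofs of `few_bad_eff`,
row E10, helper29, and of `sel_eff`, row E11, helper28, with these changes).
-/

set_option autoImplicit false
set_option maxHeartbeats 400000

open Filter MvPolynomial Height Height.AdmissibleAbsValues

namespace Pool.Agent.GE

open Pool.Agent.GT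

theorem few_bad_u {K T ι : Type} [Field K] [NumberField K] [Finite T] [Fintype ι] [Nonempty ι]
    {δ : T → ℕ} {F : T → ι → MvPolynomial ι K} (hF : ∀ t i, (F t i).IsHomogeneous (δ t)) :
    ∃ C : ℝ, 0 < C ∧ ∀ y : ℕ → ι → K, Orb δ F y →
      ∀ (m : ℕ) (H Y : ℝ), 1 ≤ Y → logHeight (y m) ≤ H →
      ∀ V : Finset (AbsoluteValue K ℝ),
      (∀ v ∈ V, v ∈ nonarchAbsVal (K := K) ∧ ∀ t,
        (⨆ i, v (eval (y m) (F t i))) * Y ≤ (⨆ i, v (y m i)) ^ δ t) →
      (V.card : ℝ) * Real.log Y ≤ C + C * H := by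
  classical
  have := Fintype.ofFinite T
  choose Cf hCf hb using fun t => bad_bound (δ t) (F t) (hF t)
  obtain ⟨E, hE⟩ : ∃ E : ℕ, ∀ t, δ t ≤ E := ⟨∑ t, δ t, fun t =>
    Finset.single_le_sum (f := δ) (fun _ _ => Nat.zero_le _) (Finset.mem_univ t)⟩
  have hlog : ∀ t, 0 ≤ Real.log (Cf t) := fun t => Real.log_nonneg (hCf t)
  have hsum : 0 ≤ ∑ t, Real.log (Cf t) := Finset.sum_nonneg fun t _ => hlog t
  refine ⟨1 + E + ∑ t, Real.log (Cf t), by positivity, ?_⟩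
  intro y h m H Y hY hH V hV
  obtain ⟨t, i, hti⟩ := h.step m
  have h1 := hb t (y m) (fun h0 => hti (congrFun h0 i)) V Y hY
    (fun v hv => ⟨(hV v hv).1, (hV v hv).2 t⟩)
  have hY0 : 0 < Y := lt_of_lt_of_le one_pos hY
  have hCf0 : 0 < Cf t := lt_of_lt_of_le one_pos (hCf t)
  have hH0 : 0 ≤ logHeight (y m) := Real.log_nonneg (one_le_mulHeight _)
  have h2 := Real.log_le_log (pow_pos hY0 _) h1
  rw [Real.log_pow, Real.log_mul hCf0.ne' (pow_pos (mulHeight_pos _) _).ne', Real.log_pow] at h2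
  have h3 : Real.log (Cf t) ≤ ∑ t, Real.log (Cf t) :=
    Finset.single_le_sum (f := fun t => Real.log (Cf t)) (fun t _ => hlog t) (Finset.mem_univ t)
  have h4 : (δ t : ℝ) * Real.log (mulHeight (y m)) ≤ E * H := by
    have h5 : (δ t : ℝ) ≤ E := by exact_mod_cast hE t
    exact mul_le_mul h5 hH hH0 (Nat.cast_nonneg E)
  have hH1 : 0 ≤ H := hH0.trans hH
  have h6 : 0 ≤ (E : ℝ) := Nat.cast_nonneg E
  nlinarith [mul_nonneg hsum hH1, mul_nonneg h6 hH1]

theorem sel_u {K T ι : Type} [Field K] [NumberField K] [Finite T] [Fintype ι] [Nonempty ι]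
    {δ : T → ℕ} {F : T → ι → MvPolynomial ι K} (hF : ∀ t i, (F t i).IsHomogeneous (δ t)) :
    ∃ c₁ : ℝ, 0 < c₁ ∧ ∀ η : ℝ, 0 < η → η ≤ 1 → ∀ κ : ℕ, ∃ C : ℝ, 0 < C ∧
      ∀ᶠ N : ℕ in atTop, ∀ y : ℕ → ι → K, Orb δ F y →
        ∀ H : ℝ, 1 ≤ H → C * H ≤ (N : ℝ) ^ (η / 2) →
        ∀ S : Finset ℕ, (∀ n ∈ S, n ≤ κ * N) →
        (∀ n ∈ S, ∀ m ≤ ⌊(N : ℝ) ^ η⌋₊, logHeight (y (n + m)) ≤ H) →
        ∃ S' ⊆ S, (S.card : ℝ) ≤ C * (N : ℝ) ^ (c₁ * η) * S'.card ∧
          ∃ v ∈ nonarchAbsVal (K := K), ∃ i₀,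
            PCls δ F y v ((N : ℝ) ^ (2 * η)) ⌊(N : ℝ) ^ η⌋₊ i₀ S' := by
  classical
  have := Fintype.ofFinite T
  set d := Module.finrank ℚ K with hd
  set r := Fintype.card ι with hr
  have hd1 : 0 < d := Module.finrank_pos
  have hr1 : 0 < r := Fintype.card_pos
  refine ⟨4 * d * r, by positivity, fun η hη hη1 κ => ?_⟩
  obtain ⟨B, hB, hBint⟩ := sl_int F
  obtain ⟨Y₁, hY₁⟩ := KST.finite_bad_primes B hB
  obtain ⟨Y₀, hY₀⟩ := many_primes
  obtain ⟨C', hC', hfew⟩ := few_bad_u hF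
  have hpl : ∀ p : ℕ, ∃ v : AbsoluteValue K ℝ, p.Prime →
      (v ∈ nonarchAbsVal (K := K) ∧ v (p : K) < 1 ∧ ∃ q : ℕ, p ≤ q ∧
      q ≤ p ^ d ∧ (∀ a : K, v a < 1 → v a ≤ 1 / (q : ℝ)) ∧
      ∃ cls : K → Fin q, ∀ a b, v a ≤ 1 → v b ≤ 1 → cls a = cls b → v (a - b) < 1) := by
    intro p
    by_cases hp : p.Prime
    · obtain ⟨v, hv, hv'⟩ := KST.exists_place K p hp
      exact ⟨v, fun _ => ⟨hv, hv'⟩⟩
    · exact ⟨AbsoluteValue.trivial, fun h => absurd h hp⟩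
  choose v hv using hpl
  refine ⟨2 * (r * 2 ^ (2 * d * r)) + 2 * C' / η, by positivity, ?_⟩
  filter_upwards [selEff_num η hη (Y₀ + Y₁)] with N hnum y h H hH hCH S hS hheight
  obtain ⟨hN, hYY⟩ := hnum
  set C₁ := ⌊C' * H / η⌋₊ with hC₁
  have hLC : 2 * (⌊(N : ℝ) ^ η⌋₊ * C₁) ≤ ⌈(N : ℝ) ^ (2 * η)⌉₊ :=
    selEff_loc hη hC' hH (le_add_of_nonneg_left (by positivity)) hN hCH
  have hN3 : (3 : ℝ) ≤ N := by exact_mod_cast hN
  have hN1 : (1 : ℝ) ≤ N := by linarith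
  have hN0 : (0 : ℝ) < N := by linarith
  set L := ⌊(N : ℝ) ^ η⌋₊ with hL
  set Y := ⌈(N : ℝ) ^ (2 * η)⌉₊ with hY
  have hYN : (N : ℝ) ^ (2 * η) ≤ Y := Nat.le_ceil _
  have hY1 : 1 ≤ (N : ℝ) ^ (2 * η) := Real.one_le_rpow hN1 (by linarith)
  have hY2 : 0 < (N : ℝ) ^ (2 * η) := Real.rpow_pos_of_pos hN0 _
  have hLN : L ≤ N := by
    have h1 : (N : ℝ) ^ η ≤ N := by
      calc (N : ℝ) ^ η ≤ (N : ℝ) ^ (1 : ℝ) := Real.rpow_le_rpow_of_exponent_le hN1 hη1
        _ = N := Real.rpow_one _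
    have h2 : (L : ℝ) ≤ (N : ℝ) ^ η := Nat.floor_le (Real.rpow_nonneg hN0.le _)
    exact_mod_cast h2.trans h1
  obtain ⟨P, hPc, hP⟩ := hY₀ Y (by omega)
  have hPne : P.Nonempty := by
    rw [← Finset.card_pos]
    have h1 : (0 : ℝ) < Y := hY2.trans_le hYN
    have h2 : 0 < Y := by exact_mod_cast h1
    omega
  have hint : ∀ p ∈ P, ∀ t i m, v p ((F t i).coeff m) ≤ 1 := by
    intro p hp
    obtain ⟨hpp, hYp, -⟩ := hP p hp
    obtain ⟨h1, h2, -⟩ := hv p hpp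
    exact hBint (v p) h1 (hY₁ p hpp (by omega) (v p) h1 h2)
  have hinj : Set.InjOn v (P : Set ℕ) := by
    intro p hp p' hp' hpp'
    obtain ⟨h1, h2, -⟩ := hv p (hP p hp).1
    obtain ⟨h1', h2', -⟩ := hv p' (hP p' hp').1
    rw [← hpp'] at h2'
    exact KST.place_unique (v p) (isNonarchimedean _ h1) p p' (hP p hp).1 (hP p' hp').1 h2 h2'
  have hone : ∀ m, logHeight (y m) ≤ H → (P.filter fun p => ∀ t,
      (⨆ i, v p (eval (y m) (F t i))) ≠ (⨆ i, v p (y m i)) ^ δ t).card ≤ C₁ := by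
    intro m hm
    rw [← Finset.card_image_of_injOn (f := v) (hinj.mono fun p hp =>
      Finset.mem_of_mem_filter p hp)]
    apply selEff_card hη hC' hH hN
    apply hfew y h m H _ hY1 hm
    intro w hw
    obtain ⟨p, hp, rfl⟩ := Finset.mem_image.mp hw
    obtain ⟨hpP, hpt⟩ := Finset.mem_filter.mp hp
    obtain ⟨hpp, hYp, -⟩ := hP p hpP
    obtain ⟨h1, h2, q, hq1, hq2, hq3, -⟩ := hv p hpp
    refine ⟨h1, fun t => ?_⟩
    have hq0 : (0 : ℝ) < q := by
      have : 0 < q := lt_of_lt_of_le hpp.pos hq1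
      exact_mod_cast this
    have hNq : (N : ℝ) ^ (2 * η) ≤ q := by
      refine hYN.trans ?_
      have : Y ≤ q := by omega
      exact_mod_cast this
    have h3 := sl_good (isNonarchimedean _ h1) hq0 hq3 (h.hom t) (hint p hpP t) (h.ne m) (hpt t)
    refine le_trans (mul_le_mul_of_nonneg_left hNq ?_) h3
    exact Real.iSup_nonneg fun i => (v p).nonneg _
  obtain ⟨p, hp, hpS⟩ := sl_double S P hPne (fun n p => ∀ m < L, ∃ t,
    (⨆ i, v p (eval (y (n + m)) (F t i))) = (⨆ i, v p (y (n + m) i)) ^ δ t) (by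
      intro n hn
      have h1 : (P.filter fun p => ¬ ∀ m < L, ∃ t,
          (⨆ i, v p (eval (y (n + m)) (F t i))) = (⨆ i, v p (y (n + m) i)) ^ δ t) ⊆
          (Finset.range L).biUnion fun m => P.filter fun p => ∀ t,
            (⨆ i, v p (eval (y (n + m)) (F t i))) ≠ (⨆ i, v p (y (n + m) i)) ^ δ t := by
        intro p hp
        obtain ⟨hpP, hp2⟩ := Finset.mem_filter.mp hp
        push Not at hp2
        obtain ⟨m, hm, hp3⟩ := hp2
        exact Finset.mem_biUnion.mpr ⟨m, Finset.mem_range.mpr hm,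
          Finset.mem_filter.mpr ⟨hpP, hp3⟩⟩
      have h2 := (Finset.card_le_card h1).trans (Finset.card_biUnion_le_card_mul
        (Finset.range L) _ C₁ (by
          intro m hm
          apply hone
          exact hheight n hn m (Finset.mem_range.mp hm).le))
      rw [Finset.card_range] at h2
      omega)
  obtain ⟨hpp, hYp, hpY⟩ := hP p hp
  obtain ⟨hvn, hvp, q, hq1, hq2, hq3, cls, hcls⟩ := hv p hpp
  have hq0 : 0 < q := lt_of_lt_of_le hpp.pos hq1
  have hNq : (N : ℝ) ^ (2 * η) ≤ q := by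
    refine hYN.trans ?_
    have : Y ≤ q := by omega
    exact_mod_cast this
  have hmax : ∀ n, ∃ i₀, ∀ i, v p (y n i) ≤ v p (y n i₀) := fun n =>
    Finite.exists_max fun i => v p (y n i)
  choose piv hpiv using hmax
  have hpiv0 : ∀ n, y n (piv n) ≠ 0 := by
    intro n h0
    apply h.ne n
    funext i
    have h1 := hpiv n i
    rw [h0, map_zero] at h1
    exact (v p).eq_zero.mp (le_antisymm h1 ((v p).nonneg _))
  have : Nonempty (Fin q) := ⟨⟨0, hq0⟩⟩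
  obtain ⟨⟨i₀, γ⟩, hb⟩ := sl_pigeon (S.filter fun n => ∀ m < L, ∃ t,
    (⨆ i, v p (eval (y (n + m)) (F t i))) = (⨆ i, v p (y (n + m) i)) ^ δ t)
    (fun n => (piv n, fun i => cls (y n i / y n (piv n))))
  set S₁ := S.filter fun n => ∀ m < L, ∃ t,
    (⨆ i, v p (eval (y (n + m)) (F t i))) = (⨆ i, v p (y (n + m) i)) ^ δ t with hS₁
  set S' := S₁.filter fun n => (piv n, fun i => cls (y n i / y n (piv n))) = (i₀, γ) with hS'
  have hmem : ∀ n ∈ S', (∀ m < L, ∃ t,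
      (⨆ i, v p (eval (y (n + m)) (F t i))) = (⨆ i, v p (y (n + m) i)) ^ δ t) ∧
      piv n = i₀ ∧ ∀ i, cls (y n i / y n i₀) = γ i := by
    intro n hn
    obtain ⟨h1, h2⟩ := Finset.mem_filter.mp hn
    obtain ⟨h3, h4⟩ := Finset.mem_filter.mp h1
    have h5 := (Prod.ext_iff.mp h2).1
    have h6 := (Prod.ext_iff.mp h2).2
    simp only at h5 h6
    refine ⟨h4, h5, fun i => ?_⟩
    rw [← h6, h5]
  refine ⟨S', (Finset.filter_subset _ _).trans (Finset.filter_subset _ _), ?_, v p, hvn, i₀, ?_⟩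
  · have hcard : Fintype.card (ι × (ι → Fin q)) = r * q ^ r := by
      simp [hr]
    rw [hcard] at hb
    have h1 : (S.card : ℝ) ≤ 2 * (((r * q ^ r : ℕ) : ℝ) * S'.card) := by
      have h2 : S.card ≤ 2 * (r * q ^ r * S'.card) := by omega
      exact_mod_cast h2
    have h2 := sl_count η hη d r N q p (by omega) hpY hq2
    have h3 : (0 : ℝ) ≤ S'.card := by positivity
    have h4 : (0 : ℝ) ≤ (N : ℝ) ^ (4 * d * r * η) := by positivity
    have h5 : (0 : ℝ) ≤ 2 * C' / η := by positivity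
    calc (S.card : ℝ) ≤ 2 * (((r * q ^ r : ℕ) : ℝ) * S'.card) := h1
      _ ≤ 2 * ((r * 2 ^ (2 * d * r) * (N : ℝ) ^ (4 * d * r * η)) * S'.card) := by
        apply mul_le_mul_of_nonneg_left _ (by norm_num)
        exact mul_le_mul_of_nonneg_right h2 h3
      _ = 2 * (r * 2 ^ (2 * d * r)) * (N : ℝ) ^ (4 * d * r * η) * S'.card := by ring
      _ ≤ (2 * (r * 2 ^ (2 * d * r)) + 2 * C' / η) * (N : ℝ) ^ (4 * d * r * η) * S'.card := by
        apply mul_le_mul_of_nonneg_right _ h3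
        apply mul_le_mul_of_nonneg_right _ h4
        linarith
  · refine ⟨hint p hp, ?_, fun n hn => (hmem n hn).1, ?_⟩
    · intro n hn
      obtain ⟨-, h2, -⟩ := hmem n hn
      rw [← h2]
      exact ⟨hpiv0 n, hpiv n⟩
    · have hle : ∀ n ∈ S', ∀ i, v p (y n i / y n i₀) ≤ 1 := by
        intro n hn i
        obtain ⟨-, h2, -⟩ := hmem n hn
        rw [← h2, map_div₀, div_le_one ((v p).pos (hpiv0 n))]
        exact hpiv n i
      intro n hn n' hn' i
      have h1 := hcls _ _ (hle n hn i) (hle n' hn' i)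
        (((hmem n hn).2.2 i).trans ((hmem n' hn').2.2 i).symm)
      refine (hq3 _ h1).trans ?_
      exact one_div_le_one_div_of_le hY2 hNq

end Pool.Agent.GE
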