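import Pool.Agent.GE.SmallLem
import Pool.Agent.GE.SelEff2
import Pool.Agent.GT.CL

/-!
Linear relations between products of iterates, effective form.
-/

set_option autoImplicit false

open Filter MvPolynomial Height Height.AdmissibleAbsValues

namespace Pool.Agent.GE

open Pool.Agent.GT

theorem mulHeight_le_exp {K ι : Type} [Field K] [NumberField K] [Finite ι] (x : ι → K) (H : ℝ)
    (h : logHeight x ≤ H) : mulHeight x ≤ Real.exp H := by
  have h1 : logHeight x = Real.log (mulHeight x) := rfl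
  rw [h1] at h
  calc mulHeight x = Real.exp (Real.log (mulHeight x)) := (Real.exp_log (mulHeight_pos x)).symm
    _ ≤ Real.exp H := Real.exp_le_exp.mpr h

/-- the inequality which excludes a nonzero determinant -/
theorem cleff_num (m w j t : ℕ) (ht : 1 ≤ t) (η H l : ℝ)
    (hl : 2 * ((w : ℝ) * (1 + m)) ≤ η * l) (h : 2 * H * j < η * t * l)
    (h2 : 2 * η * l * (t * (2 * t ^ m - t ^ m : ℕ) : ℕ) ≤
      w * Real.log ((2 * t ^ m).factorial : ℝ) + H * ((2 * t ^ m : ℕ) * j : ℕ)) : False := by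
  set P : ℕ := t ^ m with hP
  have hP1 : 1 ≤ P := Nat.one_le_pow m t ht
  have hPr : (1 : ℝ) ≤ P := by exact_mod_cast hP1
  have htr : (1 : ℝ) ≤ t := by exact_mod_cast ht
  have e1 : ((t * (2 * P - P : ℕ) : ℕ) : ℝ) = t * P := by
    rw [show 2 * P - P = P by omega]
    push_cast
    ring
  rw [e1] at h2
  have h3 : Real.log ((2 * P).factorial : ℝ) ≤ 2 * P * ((1 + m) * t) := by
    have h4 : ((2 * P).factorial : ℝ) ≤ ((2 * P : ℕ) : ℝ) ^ (2 * P) := by
      exact_mod_cast Nat.factorial_le_pow (2 * P)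
    have h5 : (0 : ℝ) < (2 * P).factorial := by exact_mod_cast Nat.factorial_pos _
    have h6 := Real.log_le_log h5 h4
    rw [Real.log_pow] at h6
    refine h6.trans ?_
    have h7 : Real.log ((2 * P : ℕ) : ℝ) ≤ (1 + m) * t := by
      rw [hP]
      push_cast
      rw [Real.log_mul (by norm_num) (by positivity), Real.log_pow]
      have h8 : Real.log 2 ≤ 1 := by
        have := Real.log_two_lt_d9
        linarith
      have h9 : Real.log t ≤ t := (Real.log_le_sub_one_of_pos (by linarith)).trans (by linarith)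
      have h10 : (m : ℝ) * Real.log t ≤ m * t := mul_le_mul_of_nonneg_left h9 (Nat.cast_nonneg m)
      nlinarith
    push_cast at h7 ⊢
    exact mul_le_mul_of_nonneg_left h7 (by positivity)
  have h4 : (w : ℝ) * Real.log ((2 * P).factorial : ℝ) ≤ w * (2 * P * ((1 + m) * t)) :=
    mul_le_mul_of_nonneg_left h3 (Nat.cast_nonneg w)
  have h5 : H * (((2 * P : ℕ) * j : ℕ) : ℝ) = P * (2 * H * j) := by
    push_cast
    ring
  rw [h5] at h2
  have h6 : (P : ℝ) * (2 * H * j) < P * (η * t * l) :=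
    mul_lt_mul_of_pos_left h (by linarith)
  have h7 : (w : ℝ) * (2 * P * ((1 + m) * t)) ≤ P * t * (η * l) := by
    have : 0 ≤ (P : ℝ) * t := by positivity
    nlinarith [mul_le_mul_of_nonneg_left hl this]
  nlinarith

theorem cleff_prod {K ι : Type} [Field K] [NumberField K] [Finite ι] (y : ℕ → ι → K) (s j : ℕ)
    (L : ℕ) (H : ℝ) (n : Fin s → ℕ) (hht : ∀ u, ∀ m ≤ L, logHeight (y (n u + m)) ≤ H)
    (lam : Fin j → ℕ) (hlam : ∀ i, lam i ≤ L) :
    ∏ u : Fin s, ∏ i : Fin j, mulHeight (y (n u + lam i)) ≤ Real.exp (H * ((s * j : ℕ) : ℝ)) := by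
  have h5 : ∀ (u : Fin s) (i : Fin j), mulHeight (y (n u + lam i)) ≤ Real.exp H := by
    intro u i
    apply mulHeight_le_exp
    exact hht u _ (hlam i)
  calc ∏ u : Fin s, ∏ i : Fin j, mulHeight (y (n u + lam i))
      ≤ ∏ _u : Fin s, ∏ _i : Fin j, Real.exp H :=
        Finset.prod_le_prod (fun u _ => Finset.prod_nonneg fun i _ => (mulHeight_pos _).le)
          fun u _ => Finset.prod_le_prod (fun i _ => (mulHeight_pos _).le) fun i _ => h5 u i
    _ = Real.exp (H * ((s * j : ℕ) : ℝ)) := by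
        rw [Finset.prod_const, Finset.prod_const, Finset.card_univ, Finset.card_univ,
          Fintype.card_fin, Fintype.card_fin, ← pow_mul, ← Real.exp_nat_mul]
        congr 1
        push_cast
        ring

theorem cl_eff {K T ι : Type} [Field K] [NumberField K] [Finite T] [Fintype ι] [Nonempty ι]
    {δ : T → ℕ} {F : T → ι → MvPolynomial ι K} (hF : ∀ t i, (F t i).IsHomogeneous (δ t)) :
    ∃ c₁ : ℝ, 0 < c₁ ∧ ∀ η : ℝ, 0 < η → η ≤ 1 → ∀ κ : ℕ, ∃ C : ℝ, 0 < C ∧
      ∀ᶠ N : ℕ in atTop, ∀ y : ℕ → ι → K, Orb δ F y →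
        ∀ H : ℝ, 1 ≤ H → C * H ≤ (N : ℝ) ^ (η / 2) →
        ∀ S : Finset ℕ, (∀ n ∈ S, n ≤ κ * N) →
        (∀ n ∈ S, ∀ m ≤ ⌊(N : ℝ) ^ η⌋₊, logHeight (y (n + m)) ≤ H) →
        ∃ S' ⊆ S, (S.card : ℝ) ≤ C * (N : ℝ) ^ (c₁ * η) * S'.card ∧
          ∀ j t : ℕ, 1 ≤ t → 2 * H * j < η * t * Real.log N →
            ∀ lam : Fin j → ℕ, (∀ i, (lam i : ℝ) ≤ (N : ℝ) ^ η) →
              ∀ φ : Fin (2 * t ^ Fintype.card ι) → Fin j → ι,
                ∃ c : Fin (2 * t ^ Fintype.card ι) → K, c ≠ 0 ∧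
                  ∀ n ∈ S', ∑ u, c u * ∏ i, y (n + lam i) (φ u i) = 0 := by
  classical
  obtain ⟨c₁, hc₁, hsel⟩ := sel_u hF
  refine ⟨c₁, hc₁, ?_⟩
  intro η hη hη1 κ
  obtain ⟨C, hC, hsel2⟩ := hsel η hη hη1 κ
  refine ⟨C, hC, ?_⟩
  have hlog : ∀ᶠ N : ℕ in atTop,
      2 * (((totalWeight K : ℕ) : ℝ) * (1 + (Fintype.card ι : ℕ))) / η ≤ Real.log (N : ℝ) :=
    (Real.tendsto_log_atTop.comp tendsto_natCast_atTop_atTop).eventually_ge_atTop _
  filter_upwards [hsel2, hlog, eventually_ge_atTop 2] with N h1 h2 hN2 y h H hH hCH S hS hht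
  obtain ⟨S', hS'S, hcard, v, hv, i₀, hp⟩ := h1 y h H hH hCH S hS hht
  refine ⟨S', hS'S, hcard, ?_⟩
  intro j t ht hjt lam hlam φ
  have hN1 : (1 : ℝ) < N := by exact_mod_cast hN2
  have hY1 : (1 : ℝ) < (N : ℝ) ^ (2 * η) := Real.one_lt_rpow hN1 (by linarith)
  obtain ⟨τ, hc⟩ := pcls_cls h (isNonarchimedean v hv) hY1 hp
  obtain ⟨c, hc0, hrel⟩ := exists_rel (↑S' : Set ℕ)
    (fun (u : Fin (2 * t ^ Fintype.card ι)) n => ∏ i, y (n + lam i) (φ u i)) (by
      intro n hn
      by_contra hdet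
      have h3 := cls_det h hv hY1.le hc (2 * t ^ Fintype.card ι) j t lam
        (fun i => Nat.le_floor (hlam i)) n (fun u => Finset.mem_coe.mp (hn u)) φ hdet
      have h4 := cleff_prod y (2 * t ^ Fintype.card ι) j ⌊(N : ℝ) ^ η⌋₊ H n
        (fun u => hht _ (hS'S (Finset.mem_coe.mp (hn u)))) lam (fun i => Nat.le_floor (hlam i))
      have h5 := h3.trans (mul_le_mul_of_nonneg_left h4 (by positivity))
      have hNpos : (0 : ℝ) < N := by linarith
      have h6 := Real.log_le_log (by positivity) h5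
      rw [Real.log_pow, Real.log_rpow hNpos, Real.log_mul (by positivity) (Real.exp_ne_zero _),
        Real.log_pow, Real.log_exp] at h6
      refine cleff_num (Fintype.card ι) (totalWeight K) j t ht η H (Real.log N) ?_ hjt ?_
      · rw [div_le_iff₀ hη] at h2
        linarith
      · refine le_trans (le_of_eq ?_) h6
        ring)
  exact ⟨c, hc0, fun n hn => hrel n (Finset.mem_coe.mpr hn)⟩

end Pool.Agent.GE
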