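import Pool.Agent.GE.Defs
import Pool.Agent.GT.Tools
import Pool.Agent.GT.Hilb
import Pool.Agent.GT.Drop

/-!
Inverse images of homogeneous primes under substitutions between polynomial rings in different
variables, and the growth of the Hilbert function of a larger prime with constants.
-/

set_option autoImplicit false

open Filter MvPolynomial

namespace Pool.Agent.GE

open Pool.Agent.GT

theorem e1_comp_bind {k ι τ : Type} [Field k] (Φ : ι → MvPolynomial τ k) (a : ℕ) (ha : 1 ≤ a)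
    (hΦ : ∀ i, (Φ i).IsHomogeneous a) (G : MvPolynomial ι k) (b : ℕ) :
    homogeneousComponent (a * b) (bind₁ Φ G) = bind₁ Φ (homogeneousComponent b G) := by
  conv_lhs => rw [← sum_homogeneousComponent G]
  rw [map_sum, map_sum]
  have h1 : ∀ c : ℕ, homogeneousComponent (a * b) (bind₁ Φ (homogeneousComponent c G)) =
      if c = b then bind₁ Φ (homogeneousComponent b G) else 0 := by
    intro c
    have h2 : (bind₁ Φ (homogeneousComponent c G)).IsHomogeneous (a * c) :=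
      bind_hom hΦ (homogeneousComponent_isHomogeneous c G)
    rw [homogeneousComponent_of_mem ((mem_homogeneousSubmodule _ _).mpr h2)]
    by_cases hc : c = b
    · subst hc
      simp
    · rw [if_neg hc, if_neg]
      intro h3
      exact hc (Nat.eq_of_mul_eq_mul_left (by omega) h3).symm
  rw [Finset.sum_congr rfl fun c _ => h1 c, Finset.sum_ite_eq']
  split_ifs with h
  · rfl
  · rw [Finset.mem_range, not_lt] at h
    rw [homogeneousComponent_eq_zero b G (by omega), map_zero]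

theorem hprime_comap' {k ι τ : Type} [Field k] {𝔭 : Ideal (MvPolynomial τ k)} (h𝔭 : HPrime 𝔭)
    (Φ : ι → MvPolynomial τ k) (a : ℕ) (ha : 1 ≤ a) (hΦ : ∀ i, (Φ i).IsHomogeneous a) :
    HPrime (𝔭.comap (bind₁ Φ)) := by
  have := h𝔭.prime
  refine ⟨Ideal.comap_isPrime _ _, fun G hG b => ?_⟩
  rw [Ideal.mem_comap] at hG ⊢
  have h1 := h𝔭.comp _ hG (a * b)
  have h2 := e1_comp_bind Φ a ha hΦ G b
  rw [← h2]
  exact h1

theorem HF_comap' {k ι τ : Type} [Field k] [Finite ι] [Finite τ] (𝔭 : Ideal (MvPolynomial τ k))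
    (Φ : ι → MvPolynomial τ k) (a : ℕ) (hΦ : ∀ i, (Φ i).IsHomogeneous a) (b : ℕ) :
    HF (𝔭.comap (bind₁ Φ)) b ≤ HF 𝔭 (a * b) := by
  unfold HF rk
  set 𝔮 := 𝔭.comap (bind₁ Φ) with h𝔮
  let g : (MvPolynomial ι k ⧸ 𝔮) →ₐ[k] (MvPolynomial τ k ⧸ 𝔭) :=
    Ideal.quotientMapₐ 𝔭 (bind₁ Φ) le_rfl
  have hg : Function.Injective g.toLinearMap := by
    intro x y hxy
    obtain ⟨P, rfl⟩ := Ideal.Quotient.mk_surjective x
    obtain ⟨Q, rfl⟩ := Ideal.Quotient.mk_surjective y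
    have h1 : Ideal.Quotient.mk 𝔭 (bind₁ Φ P) = Ideal.Quotient.mk 𝔭 (bind₁ Φ Q) := hxy
    rw [Ideal.Quotient.eq, ← map_sub] at h1
    exact Ideal.Quotient.eq.2 h1
  have h1 := (Submodule.equivMapOfInjective g.toLinearMap hg
    ((homogeneousSubmodule ι k b).map (Ideal.Quotient.mkₐ k 𝔮).toLinearMap)).finrank_eq
  rw [h1]
  have h2 := hilb_fin 𝔭 (a * b)
  refine Submodule.finrank_mono ?_
  rintro _ ⟨_, ⟨G, hG, rfl⟩, rfl⟩
  refine ⟨bind₁ Φ G, ?_, rfl⟩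
  have h3 : G.IsHomogeneous b := (mem_homogeneousSubmodule b G).1 hG
  change bind₁ Φ G ∈ homogeneousSubmodule τ k (a * b)
  rw [mem_homogeneousSubmodule, ← aeval_eq_bind₁]
  exact h3.aeval Φ hΦ

theorem e1_HF_le {k ι : Type} [Field k] [Finite ι] {𝔭 𝔮 : Ideal (MvPolynomial ι k)}
    (hle : 𝔭 ≤ 𝔮) (b : ℕ) : HF 𝔮 b ≤ HF 𝔭 b := by
  unfold HF rk
  have := hilb_fin 𝔭 b
  set ψ : (MvPolynomial ι k ⧸ 𝔭) →ₗ[k] (MvPolynomial ι k ⧸ 𝔮) :=
    (Ideal.Quotient.factorₐ k hle).toLinearMap with hψ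
  have h2 : ((homogeneousSubmodule ι k b).map (Ideal.Quotient.mkₐ k 𝔭).toLinearMap).map ψ =
      (homogeneousSubmodule ι k b).map (Ideal.Quotient.mkₐ k 𝔮).toLinearMap := by
    ext u
    constructor
    · rintro ⟨_, ⟨H, hH, rfl⟩, rfl⟩
      exact ⟨H, hH, rfl⟩
    · rintro ⟨H, hH, rfl⟩
      exact ⟨_, ⟨H, hH, rfl⟩, rfl⟩
  rw [← h2]
  exact Submodule.finrank_map_le _ _

theorem e1_drop_sum {k ι : Type} [Field k] [Finite ι] {𝔭 𝔮 : Ideal (MvPolynomial ι k)}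
    (h𝔭 : HPrime 𝔭) (h𝔮 : HPrime 𝔮) (hle : 𝔭 ≤ 𝔮) (i : ι) (hi : X i ∉ 𝔮) (g : ℕ)
    (G : MvPolynomial ι k) (hG : G.IsHomogeneous g) (hG𝔮 : G ∈ 𝔮) (hG𝔭 : G ∉ 𝔭) (b e m : ℕ)
    (he : b ≤ e) : (m + 1) * HF 𝔮 b ≤ HF 𝔭 (e + m * g) := by
  have hmono : Monotone (HF 𝔮) := monotone_nat_of_le_succ (drop_mono h𝔮 i hi)
  induction m with
  | zero =>
    have h1 := hmono he
    have h2 := e1_HF_le hle e
    simp only [zero_mul, zero_add, one_mul, add_zero]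
    exact h1.trans h2
  | succ m ih =>
    have h1 := drop_step h𝔭 hle g G hG hG𝔮 hG𝔭 (e + m * g)
    have h2 : HF 𝔮 b ≤ HF 𝔮 (e + m * g + g) := hmono (by omega)
    have h3 : e + (m + 1) * g = e + m * g + g := by ring
    have h4 : (m + 1 + 1) * HF 𝔮 b = (m + 1) * HF 𝔮 b + HF 𝔮 b := by ring
    rw [h3, h4]
    omega

theorem HBc_drop {k ι : Type} [Field k] [Finite ι] {𝔭 𝔮 : Ideal (MvPolynomial ι k)}
    (h𝔭 : HPrime 𝔭) (h𝔮 : HPrime 𝔮) (hle : 𝔭 ≤ 𝔮) (g : ℕ) (G : MvPolynomial ι k)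
    (hG : G.IsHomogeneous g) (hG𝔮 : G ∈ 𝔮) (hG𝔭 : G ∉ 𝔭) (i : ι) (hi : X i ∉ 𝔮) (w c : ℕ)
    (hw : HBc 𝔭 (w + 1) c) : HBc 𝔮 w (g * c * 2 ^ w) := by
  have hg : 0 < g := by
    rcases Nat.eq_zero_or_pos g with rfl | h
    · exfalso
      have h1 : G = C (coeff 0 G) := by
        have h2 : G.totalDegree = 0 := by
          have := hG.totalDegree_le
          omega
        exact totalDegree_eq_zero_iff_eq_C.1 h2
      have h3 : coeff 0 G ≠ 0 := by
        intro h0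
        rw [h0, map_zero] at h1
        exact hG𝔭 (h1 ▸ Ideal.zero_mem _)
      refine h𝔮.prime.ne_top (Ideal.eq_top_of_isUnit_mem _ hG𝔮 ?_)
      rw [h1]
      exact (isUnit_iff_ne_zero.2 h3).map C
    · exact h
  intro b
  rcases Nat.eq_zero_or_pos b with rfl | hb
  · rw [zero_mul]
    exact Nat.zero_le _
  have hmod : b / g * g ≤ b := Nat.div_mul_le_self b g
  have h1 := e1_drop_sum h𝔭 h𝔮 hle i hi g G hG hG𝔮 hG𝔭 b (2 * b - b / g * g) (b / g) (by omega)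
  have h2 : 2 * b - b / g * g + b / g * g = 2 * b := by omega
  rw [h2] at h1
  have h3 : b ≤ g * (b / g + 1) := by
    have h := Nat.lt_mul_div_succ b hg
    exact h.le
  have h4 := hw (2 * b)
  have h5 : HF 𝔭 (2 * b) ≤ c * (2 * b) ^ w := by
    refine Nat.le_of_mul_le_mul_left ?_ (show 0 < 2 * b by omega)
    calc 2 * b * HF 𝔭 (2 * b) ≤ c * (2 * b) ^ (w + 1) := h4
      _ = 2 * b * (c * (2 * b) ^ w) := by ring
  calc b * HF 𝔮 b ≤ g * (b / g + 1) * HF 𝔮 b := Nat.mul_le_mul_right _ h3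
    _ = g * ((b / g + 1) * HF 𝔮 b) := by ring
    _ ≤ g * HF 𝔭 (2 * b) := Nat.mul_le_mul_left _ h1
    _ ≤ g * (c * (2 * b) ^ w) := Nat.mul_le_mul_left _ h5
    _ = g * c * 2 ^ w * b ^ w := by rw [mul_pow]; ring

end Pool.Agent.GE
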