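import Pool.Agent.GE.Defs
import Pool.Agent.GT.Tools
import Pool.Agent.GT.Hilb

/-!
Count: forms of bounded degree in `w + 2` linear forms which lie in an ideal with small Hilbert
function.
-/

set_option autoImplicit false

open Filter MvPolynomial

namespace Pool.Agent.GE

open Pool.Agent.GT

/-- exponents: the last `w + 1` are given, the sum is `b` -/
private noncomputable def cntEx (w M b : ℕ) (g : Fin (w + 1) → Fin (M + 1)) : Fin (w + 2) →₀ ℕ :=
  Finsupp.equivFunOnFinite.symm
    (Fin.cons (b - ∑ i, (g i : ℕ)) (fun i => (g i : ℕ)) : Fin (w + 2) → ℕ)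

private theorem cntEx_inj (w M b : ℕ) : Function.Injective (cntEx w M b) := by
  intro g g' h
  funext i
  have h1 := DFunLike.congr_fun h i.succ
  have h2 : cntEx w M b g i.succ = (g i : ℕ) := by
    unfold cntEx
    rw [Finsupp.equivFunOnFinite_symm_apply_apply, Fin.cons_succ]
  have h3 : cntEx w M b g' i.succ = (g' i : ℕ) := by
    unfold cntEx
    rw [Finsupp.equivFunOnFinite_symm_apply_apply, Fin.cons_succ]
  rw [h2, h3] at h1
  exact Fin.ext h1

private theorem cntEx_sum (w M b : ℕ) (hb : (w + 1) * M = b) (g : Fin (w + 1) → Fin (M + 1)) :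
    (cntEx w M b g).degree = b := by
  have h1 : ∑ i, (g i : ℕ) ≤ b := by
    calc ∑ i, (g i : ℕ) ≤ ∑ _i : Fin (w + 1), M :=
          Finset.sum_le_sum fun i _ => Nat.lt_succ_iff.1 (g i).2
      _ = b := by
        rw [Finset.sum_const, Finset.card_univ, Fintype.card_fin, smul_eq_mul, hb]
  rw [Finsupp.degree_eq_sum, Fin.sum_univ_succ]
  have h2 : ∀ i : Fin (w + 1), cntEx w M b g i.succ = (g i : ℕ) := by
    intro i
    unfold cntEx
    rw [Finsupp.equivFunOnFinite_symm_apply_apply, Fin.cons_succ]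
  have h3 : cntEx w M b g 0 = b - ∑ i, (g i : ℕ) := by
    unfold cntEx
    rw [Finsupp.equivFunOnFinite_symm_apply_apply, Fin.cons_zero]
  simp only [h2, h3]
  omega

private theorem cnt_mon (k : Type) [Field k] (w M b : ℕ) (hb : (w + 1) * M = b)
    (g : Fin (w + 1) → Fin (M + 1)) :
    (monomial (cntEx w M b g) (1 : k)).IsHomogeneous b :=
  isHomogeneous_monomial _ (cntEx_sum w M b hb g)

private theorem cnt_num (w c h : ℕ) (hc : bz w c * h ≤ c * bz w c ^ (w + 1)) :
    h < (c * (w + 1) ^ w + 1 + 1) ^ (w + 1) := by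
  set M := c * (w + 1) ^ w + 1 with hM
  have hb : bz w c = (w + 1) * M := rfl
  have h0 : 0 < bz w c := by
    rw [hb]
    positivity
  have h1 : h ≤ c * bz w c ^ w := by
    refine Nat.le_of_mul_le_mul_left ?_ h0
    calc bz w c * h ≤ c * bz w c ^ (w + 1) := hc
      _ = bz w c * (c * bz w c ^ w) := by rw [pow_succ]; ring
  calc h ≤ c * bz w c ^ w := h1
    _ = (c * (w + 1) ^ w) * M ^ w := by rw [hb, mul_pow]; ring
    _ < M * M ^ w := by
        refine Nat.mul_lt_mul_of_pos_right (by omega) ?_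
        positivity
    _ = M ^ (w + 1) := by rw [pow_succ]; ring
    _ ≤ (M + 1) ^ (w + 1) := Nat.pow_le_pow_left (by omega) _

theorem exists_form_relation {k ι : Type} [Field k] [Finite ι] (I : Ideal (MvPolynomial ι k))
    (w c : ℕ) (hc : bz w c * HF I (bz w c) ≤ c * bz w c ^ (w + 1))
    (ℓ : Fin (w + 2) → MvPolynomial ι k) (hℓ : ∀ t, (ℓ t).IsHomogeneous 1) :
    ∃ P : MvPolynomial (Fin (w + 2)) k, P.IsHomogeneous (bz w c) ∧ P ≠ 0 ∧ bind₁ ℓ P ∈ I := by
  classical
  have hnum := cnt_num w c _ hc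
  have hb : (w + 1) * (c * (w + 1) ^ w + 1) = bz w c := rfl
  generalize c * (w + 1) ^ w + 1 = M at hnum hb
  generalize bz w c = b at hnum hb
  have hfin := hilb_fin I b
  have hmem : ∀ g : Fin (w + 1) → Fin (M + 1),
      (Ideal.Quotient.mkₐ k I).toLinearMap (bind₁ ℓ (monomial (cntEx w M b g) (1 : k))) ∈
        (homogeneousSubmodule ι k b).map (Ideal.Quotient.mkₐ k I).toLinearMap := by
    intro g
    refine Submodule.mem_map_of_mem ?_
    rw [mem_homogeneousSubmodule]
    have h1 := bind_hom hℓ (cnt_mon k w M b hb g)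
    rwa [one_mul] at h1
  let f : (Fin (w + 1) → Fin (M + 1)) →
      (homogeneousSubmodule ι k b).map (Ideal.Quotient.mkₐ k I).toLinearMap :=
    fun g => ⟨_, hmem g⟩
  have hnl : ¬ LinearIndependent k f := by
    intro h
    have h1 := h.fintype_card_le_finrank
    rw [Fintype.card_fun, Fintype.card_fin, Fintype.card_fin] at h1
    exact absurd hnum (not_lt.2 h1)
  obtain ⟨a, ha, i, hi⟩ := Fintype.not_linearIndependent_iff.1 hnl
  refine ⟨∑ g, a g • monomial (cntEx w M b g) (1 : k), ?_, ?_, ?_⟩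
  · rw [← mem_homogeneousSubmodule]
    refine Submodule.sum_mem _ fun g _ => Submodule.smul_mem _ _ ?_
    rw [mem_homogeneousSubmodule]
    exact cnt_mon k w M b hb g
  · intro h0
    have h1 := congrArg (coeff (cntEx w M b i)) h0
    rw [coeff_sum, coeff_zero, Finset.sum_eq_single i] at h1
    · rw [coeff_smul, coeff_monomial, if_pos rfl, smul_eq_mul, mul_one] at h1
      exact hi h1
    · intro g _ hg
      rw [coeff_smul, coeff_monomial, if_neg (fun h => hg (cntEx_inj w M b h)), smul_zero]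
    · intro h
      exact absurd (Finset.mem_univ _) h
  · have h1 := congrArg Subtype.val ha
    rw [← Ideal.Quotient.eq_zero_iff_mem]
    rw [Submodule.coe_sum] at h1
    have h2 : Ideal.Quotient.mk I (bind₁ ℓ (∑ g, a g • monomial (cntEx w M b g) (1 : k))) =
        ∑ g, a g • (Ideal.Quotient.mkₐ k I).toLinearMap
          (bind₁ ℓ (monomial (cntEx w M b g) (1 : k))) := by
      have h3 : bind₁ ℓ (∑ g, a g • monomial (cntEx w M b g) (1 : k)) =
          ∑ g, a g • bind₁ ℓ (monomial (cntEx w M b g) (1 : k)) := by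
        rw [map_sum]
        exact Finset.sum_congr rfl fun g _ => map_smul _ _ _
      rw [h3]
      change (Ideal.Quotient.mkₐ k I).toLinearMap _ = _
      rw [map_sum]
      exact Finset.sum_congr rfl fun g _ => map_smul _ _ _
    rw [h2]
    exact h1

end Pool.Agent.GE
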