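import Pool.Agent.GT.Basic

/-!
Orbits of subpolynomial height: definitions for the effective version. The level `k` has the
scale `σ k`; `U` is an ultrafilter on the levels.
-/

set_option autoImplicit false

open Filter MvPolynomial

namespace Pool.Agent.GE

open Pool.Agent.GT

/-- a sequence which is at most every positive power of the scale -/
def Small (σ : ℕ → ℕ) (a : ℕ → ℝ) : Prop :=
  ∀ ε : ℝ, 0 < ε → ∀ᶠ k : ℕ in U, a k ≤ (σ k : ℝ) ^ ε

/-- a family with at least `σ ^ (1 - θ - o(1))` elements -/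
def LargeS (σ : ℕ → ℕ) (θ : ℝ) (S : ℕ → Finset ℕ) : Prop :=
  ∀ ε : ℝ, 0 < ε → ∀ᶠ k : ℕ in U, (σ k : ℝ) ^ (1 - θ - ε) ≤ ((S k).card : ℝ)

/-- a family in the window of size `κ σ` -/
def InWS (σ : ℕ → ℕ) (κ : ℕ) (S : ℕ → Finset ℕ) : Prop :=
  ∀ᶠ k : ℕ in U, ∀ n ∈ S k, n ≤ κ * σ k

/-- the ideal of the cone over the points `y n`, `n ∈ S` -/
noncomputable def IS {K ι : Type} [Field K] (y : ℕ → ι → K) (S : Finset ℕ) :
    Ideal (MvPolynomial ι K) :=
  ⨅ n ∈ S, ⨅ t : K, RingHom.ker (eval fun i => t * y n i)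

/-- the Hilbert functions of the sets `S k` grow at most like the one of a variety of dimension
`w - 1` for small degrees -/
def HBs {K ι : Type} [Field K] (σ : ℕ → ℕ) (y : ℕ → ι → K) (S : ℕ → Finset ℕ) (w : ℕ) : Prop :=
  ∃ c : ℕ → ℕ, Small σ (fun k => c k) ∧ ∀ b : ℕ → ℕ, Small σ (fun k => b k) →
    ∀ᶠ k : ℕ in U, b k * HF (IS y (S k)) (b k) ≤ c k * b k ^ w

/-- no large family has dimension `w - 1` -/
def MinS {K ι : Type} [Field K] (σ : ℕ → ℕ) (y : ℕ → ι → K) (w : ℕ) (θ : ℝ) : Prop :=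
  ∀ (κ : ℕ) (S : ℕ → Finset ℕ), InWS σ κ S → LargeS σ θ S → ¬ HBs σ y S w

/-- the degree of the relations between `w + 2` linear forms -/
def bz (w c : ℕ) : ℕ := (w + 1) * (c * (w + 1) ^ w + 1)

/-- the bound for the degrees of the representations after `j` steps; `m` is the number of
coordinates, `d` the degree of the map -/
def dg (m d j : ℕ) : ℕ := m * (1 + d * (m + 1)) ^ j + 1

/-- the constant in the hull lemma -/
def eb (m w c g : ℕ) : ℕ :=
  (g * bz w c ^ m + 1) ^ 2 * (g + (m + 2) * bz w c + 1) * 8 ^ (w + 1)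

end Pool.Agent.GE
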