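import Pool.Agent.GE.Defs
import Pool.Agent.GT.Doubling

/-!
Project GE (MP_e3c919_ag), row E9: doubling with the degree of the denominator.
-/

set_option autoImplicit false

open Filter MvPolynomial

namespace Pool.Agent.GE

open Pool.Agent.GT

theorem doubling_deg {k ι : Type} [Field k] [Fintype ι] {𝔭 : Ideal (MvPolynomial ι k)}
    (h𝔭 : 𝔭.IsPrime) (α : ℕ) (W : Submodule k (MvPolynomial ι k))
    (hW : W ≤ homogeneousSubmodule ι k α) (hW0 : 1 ≤ rk 𝔭 W) (Φ : ι → MvPolynomial ι k)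
    (i₀ : ι) (hi₀ : Φ i₀ ∉ 𝔭) (j₀ : ι) (hj₀ : X j₀ ∉ 𝔭)
    (hrk : rk 𝔭 (W * Submodule.span k (Set.range Φ)) < 2 * rk 𝔭 W) :
    ∃ (Ψ : ι → MvPolynomial ι k) (V : MvPolynomial ι k),
      (∀ i, (Ψ i).IsHomogeneous (Fintype.card ι * α + 1)) ∧
      V.IsHomogeneous (Fintype.card ι * α + 1) ∧ V ∉ 𝔭 ∧ ∀ i, Ψ i * Φ i₀ - Φ i * V ∈ 𝔭 := by
  classical
  set π := Ideal.Quotient.mkₐ k 𝔭 with hπ
  have hmem : ∀ x : MvPolynomial ι k, π x = 0 ↔ x ∈ 𝔭 := fun x =>
    Ideal.Quotient.eq_zero_iff_mem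
  have : IsDomain (MvPolynomial ι k ⧸ 𝔭) := Ideal.Quotient.isDomain 𝔭
  have hfin : FiniteDimensional k (homogeneousSubmodule ι k α) :=
    Module.Finite.iff_fg.2 (homogeneousSubmodule_fg (R := k) (σ := ι) α)
  have : FiniteDimensional k W := Submodule.finiteDimensional_of_le hW
  have hWfg : W.FG := Module.Finite.iff_fg.1 inferInstance
  have : FiniteDimensional k (W.map π.toLinearMap) :=
    Module.Finite.iff_fg.2 (hWfg.map _)
  have : FiniteDimensional k ((W * Submodule.span k (Set.range Φ)).map π.toLinearMap) :=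
    Module.Finite.iff_fg.2 ((hWfg.mul (Submodule.fg_span (Set.finite_range Φ))).map _)
  -- the syzygies
  have key : ∀ j, ∃ u ∈ W, ∃ w ∈ W, u ∉ 𝔭 ∧ u * Φ j - w * Φ i₀ ∈ 𝔭 := by
    intro j
    by_cases hj : Φ j ∈ 𝔭
    · have hne : W.map π.toLinearMap ≠ ⊥ := by
        intro h0
        have : rk 𝔭 W = 0 := by
          rw [rk]
          change Module.finrank k (W.map π.toLinearMap) = 0
          rw [h0, finrank_bot]
        omega
      obtain ⟨x, ⟨u, hu, hux⟩, hx0⟩ := Submodule.exists_mem_ne_zero_of_ne_bot hne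
      refine ⟨u, hu, 0, W.zero_mem, ?_, ?_⟩
      · intro hup
        exact hx0 (hux ▸ (hmem u).2 hup)
      · rw [zero_mul, sub_zero]
        exact 𝔭.mul_mem_left _ hj
    · have hin : ∀ i, ∀ w ∈ W.map π.toLinearMap,
          w * π (Φ i) ∈ (W * Submodule.span k (Set.range Φ)).map π.toLinearMap := by
        rintro i _ ⟨w, hw, rfl⟩
        refine ⟨w * Φ i, Submodule.mul_mem_mul hw (Submodule.subset_span ⟨i, rfl⟩), ?_⟩
        change π (w * Φ i) = π w * π (Φ i)
        exact map_mul π w (Φ i)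
      obtain ⟨_, ⟨u, hu, rfl⟩, _, ⟨w, hw, rfl⟩, hu0, huw⟩ :=
        doubling_meet (W.map π.toLinearMap)
          ((W * Submodule.span k (Set.range Φ)).map π.toLinearMap) (π (Φ j)) (π (Φ i₀))
          (fun h0 => hj ((hmem _).1 h0)) (fun h0 => hi₀ ((hmem _).1 h0)) (hin j) (hin i₀) hrk
      refine ⟨u, hu, w, hw, fun hup => hu0 ((hmem u).2 hup), ?_⟩
      rw [← hmem, map_sub, map_mul, map_mul, sub_eq_zero]
      exact huw
  choose u huW w hwW hu𝔭 huw using key
  have hu : ∀ j, (u j).IsHomogeneous α := fun j => (mem_homogeneousSubmodule _ _).1 (hW (huW j))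
  have hw : ∀ j, (w j).IsHomogeneous α := fun j => (mem_homogeneousSubmodule _ _).1 (hW (hwW j))
  have hX : (X j₀ : MvPolynomial ι k).IsHomogeneous 1 := isHomogeneous_X k j₀
  have hprod : ∀ s : Finset ι, (∏ l ∈ s, u l).IsHomogeneous (s.card * α) := by
    intro s
    have := IsHomogeneous.prod s u (fun _ => α) fun l _ => hu l
    rwa [Finset.sum_const, smul_eq_mul] at this
  refine ⟨fun j => X j₀ * (w j * ∏ l ∈ Finset.univ.erase j, u l), X j₀ * ∏ l, u l,
    fun j => ?_, ?_, ?_, fun j => ?_⟩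
  · have h1 := hX.mul ((hw j).mul (hprod (Finset.univ.erase j)))
    have h2 : 1 + (α + (Finset.univ.erase j).card * α) = Fintype.card ι * α + 1 := by
      rw [Finset.card_erase_of_mem (Finset.mem_univ j), Finset.card_univ]
      have hc : 1 ≤ Fintype.card ι := Fintype.card_pos_iff.2 ⟨j⟩
      obtain ⟨c, hc'⟩ : ∃ c, Fintype.card ι = c + 1 := ⟨Fintype.card ι - 1, by omega⟩
      rw [hc', Nat.add_sub_cancel]
      ring
    rw [h2] at h1
    exact h1
  · have h1 := hX.mul (hprod Finset.univ)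
    rwa [Finset.card_univ, Nat.add_comm] at h1
  · intro hV
    rcases h𝔭.mem_or_mem hV with h | h
    · exact hj₀ h
    · obtain ⟨l, _, hl⟩ := (Ideal.IsPrime.prod_mem_iff (hp := h𝔭)).1 h
      exact hu𝔭 l hl
  · have h1 : X j₀ * (w j * ∏ l ∈ Finset.univ.erase j, u l) * Φ i₀ - Φ j * (X j₀ * ∏ l, u l) =
        -(X j₀ * ∏ l ∈ Finset.univ.erase j, u l) * (u j * Φ j - w j * Φ i₀) := by
      rw [← Finset.mul_prod_erase Finset.univ u (Finset.mem_univ j)]
      ring
    rw [h1]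
    exact 𝔭.mul_mem_left _ (huw j)

end Pool.Agent.GE
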