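import Pool.Agent.GE.Defs
import Pool.Agent.GT.Tools

/-!
Project GE, row E7: elimination of linear forms with control of the degrees.
-/

set_option autoImplicit false

open Filter MvPolynomial

namespace Pool.Agent.GE

open Pool.Agent.GT

section
variable {k ι : Type} [Field k] {m : ℕ}

/-- modulo `I`, `f` is a combination of the powers `A ^ e`, `e < j`, whose coefficients are forms
of degree `b - e` in `L` -/
def ElRp (I : Ideal (MvPolynomial ι k)) (A : MvPolynomial ι k) (L : Fin m → MvPolynomial ι k)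
    (j b : ℕ) (f : MvPolynomial ι k) : Prop :=
  ∃ Q : ℕ → MvPolynomial (Fin m) k, (∀ e, (Q e).IsHomogeneous (b - e) ∧ (b < e → Q e = 0)) ∧
    f - ∑ e ∈ Finset.range j, A ^ e * bind₁ L (Q e) ∈ I

variable {I : Ideal (MvPolynomial ι k)} {A : MvPolynomial ι k} {L : Fin m → MvPolynomial ι k}
  {j b : ℕ}

theorem elim_zero : ElRp I A L j b 0 := by
  refine ⟨fun _ => 0, fun e => ⟨isHomogeneous_zero _ _ _, fun _ => rfl⟩, ?_⟩
  simp

theorem elim_add {f g : MvPolynomial ι k} (hf : ElRp I A L j b f) (hg : ElRp I A L j b g) :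
    ElRp I A L j b (f + g) := by
  obtain ⟨Q, hQ, hI⟩ := hf
  obtain ⟨Q', hQ', hI'⟩ := hg
  refine ⟨fun e => Q e + Q' e, fun e => ⟨(hQ e).1.add (hQ' e).1, fun h => ?_⟩, ?_⟩
  · simp only
    rw [(hQ e).2 h, (hQ' e).2 h, add_zero]
  · have e1 : f + g - ∑ e ∈ Finset.range j, A ^ e * bind₁ L (Q e + Q' e) =
        (f - ∑ e ∈ Finset.range j, A ^ e * bind₁ L (Q e)) +
        (g - ∑ e ∈ Finset.range j, A ^ e * bind₁ L (Q' e)) := by
      simp_rw [map_add, mul_add]
      rw [Finset.sum_add_distrib]
      ring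
    rw [e1]
    exact I.add_mem hI hI'

theorem elim_sum {τ : Type} (s : Finset τ) (f : τ → MvPolynomial ι k)
    (hf : ∀ i ∈ s, ElRp I A L j b (f i)) : ElRp I A L j b (∑ i ∈ s, f i) := by
  classical
  induction s using Finset.induction_on with
  | empty => simpa using elim_zero
  | insert i s hi ih =>
    rw [Finset.sum_insert hi]
    exact elim_add (hf i (Finset.mem_insert_self i s))
      (ih fun i' hi' => hf i' (Finset.mem_insert_of_mem hi'))

theorem elim_smul (c : k) {f : MvPolynomial ι k} (hf : ElRp I A L j b f) :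
    ElRp I A L j b (C c * f) := by
  obtain ⟨Q, hQ, hI⟩ := hf
  refine ⟨fun e => C c * Q e, fun e => ⟨?_, fun h => ?_⟩, ?_⟩
  · have := (isHomogeneous_C (Fin m) c).mul (hQ e).1
    rwa [zero_add] at this
  · simp only
    rw [(hQ e).2 h, mul_zero]
  · have e1 : C c * f - ∑ e ∈ Finset.range j, A ^ e * bind₁ L (C c * Q e) =
        C c * (f - ∑ e ∈ Finset.range j, A ^ e * bind₁ L (Q e)) := by
      rw [mul_sub, Finset.mul_sum]
      congr 1
      refine Finset.sum_congr rfl fun e _ => ?_
      rw [map_mul, bind₁_C_right]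
      ring
    rw [e1]
    exact I.mul_mem_left _ hI

theorem elim_congr {f g : MvPolynomial ι k} (h : f - g ∈ I) (hg : ElRp I A L j b g) :
    ElRp I A L j b f := by
  obtain ⟨Q, hQ, hI⟩ := hg
  refine ⟨Q, hQ, ?_⟩
  have e1 : f - ∑ e ∈ Finset.range j, A ^ e * bind₁ L (Q e) = (f - g) +
      (g - ∑ e ∈ Finset.range j, A ^ e * bind₁ L (Q e)) := by ring
  rw [e1]
  exact I.add_mem h hI

theorem elim_basic {e t : ℕ} (he : e < j) {q : MvPolynomial (Fin m) k} (hq : q.IsHomogeneous t) :
    ElRp I A L j (e + t) (A ^ e * bind₁ L q) := by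
  refine ⟨fun e' => if e' = e then q else 0, fun e' => ⟨?_, fun h => ?_⟩, ?_⟩
  · simp only
    split_ifs with h
    · subst h
      rwa [Nat.add_sub_cancel_left]
    · exact isHomogeneous_zero _ _ _
  · simp only
    rw [if_neg]
    omega
  · rw [Finset.sum_eq_single_of_mem e (Finset.mem_range.2 he) fun e' _ hne => by
      simp only
      rw [if_neg hne, map_zero, mul_zero]]
    simp

theorem elim_red {b₀ : ℕ} (h : ElRp I A L b₀ b₀ (A ^ b₀)) (j : ℕ) :
    ∀ (t : ℕ) (q : MvPolynomial (Fin m) k), q.IsHomogeneous t →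
      ElRp I A L b₀ (j + t) (A ^ j * bind₁ L q) := by
  induction j using Nat.strong_induction_on with
  | _ j ih =>
    intro t q hq
    rcases lt_or_ge j b₀ with hj | hj
    · exact elim_basic hj hq
    · obtain ⟨Q, hQ, hI⟩ := h
      have h1 : ElRp I A L b₀ (j + t)
          (∑ e ∈ Finset.range b₀, A ^ (j - b₀ + e) * bind₁ L (Q e * q)) := by
        refine elim_sum _ _ fun e he => ?_
        rw [Finset.mem_range] at he
        have h2 := ih (j - b₀ + e) (by omega) (b₀ - e + t) (Q e * q) ((hQ e).1.mul hq)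
        rwa [show j - b₀ + e + (b₀ - e + t) = j + t by omega] at h2
      refine elim_congr ?_ h1
      have e1 : A ^ j * bind₁ L q -
          ∑ e ∈ Finset.range b₀, A ^ (j - b₀ + e) * bind₁ L (Q e * q) =
          (A ^ (j - b₀) * bind₁ L q) *
            (A ^ b₀ - ∑ e ∈ Finset.range b₀, A ^ e * bind₁ L (Q e)) := by
        rw [mul_sub, Finset.mul_sum]
        congr 1
        · rw [mul_right_comm, ← pow_add, Nat.sub_add_cancel hj]
        · refine Finset.sum_congr rfl fun e _ => ?_
          rw [map_mul, pow_add]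
          ring
      rw [e1]
      exact I.mul_mem_left _ hI

theorem elim_mono (d : Option (Fin m) →₀ ℕ) (c : k) :
    bind₁ (fun o : Option (Fin m) => o.elim A L) (monomial d c) =
      A ^ d none * bind₁ L (monomial d.some c) := by
  rw [bind₁_monomial, bind₁_monomial, ← Finsupp.prod, ← Finsupp.prod,
    Finsupp.prod_option_index]
  · simp only [Option.elim]
    ring
  · intro a
    simp
  · intro a b c
    exact pow_add _ _ _

theorem elim_deg (d : Option (Fin m) →₀ ℕ) : d.degree = d none + d.some.degree := by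
  have h1 : d.degree = d.sum fun _ e => e := rfl
  have h2 : d.some.degree = d.some.sum fun _ e => e := rfl
  rw [h1, h2, Finsupp.sum_option_index]
  · intro a; rfl
  · intro a b c; rfl

theorem elim_eval {b₀ : ℕ} {P : MvPolynomial (Option (Fin m)) k} (hP : P.IsHomogeneous b₀) :
    eval (fun o : Option (Fin m) => o.elim 1 fun _ => 0) P =
      coeff (Finsupp.single none b₀) P := by
  rw [eval_eq']
  rw [Finset.sum_eq_single (Finsupp.single none b₀)]
  · rw [Finset.prod_eq_one, mul_one]
    intro o _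
    rcases o with _ | t
    · simp
    · simp
  · intro d hd hne
    have h1 : ∃ t, d (some t) ≠ 0 := by
      by_contra hcon
      push Not at hcon
      apply hne
      have h2 : d.degree = b₀ := by
        have := hP (mem_support_iff.1 hd)
        rw [← this, Finsupp.degree_eq_weight_one]
        rfl
      have h3 : d.some = 0 := by
        ext t
        simpa using hcon t
      rw [elim_deg, h3, map_zero, add_zero] at h2
      ext o
      rcases o with _ | t
      · simpa using h2
      · simpa using hcon t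
    obtain ⟨t, ht⟩ := h1
    rw [Finset.prod_eq_zero (Finset.mem_univ (some t)), mul_zero]
    simp [ht]
  · intro h
    rw [notMem_support_iff] at h
    rw [h, zero_mul]

/-- one step of the elimination -/
theorem elim_step [Infinite k] {b₀ : ℕ} (hb₀ : 1 ≤ b₀) (L : Fin (m + 1) → MvPolynomial ι k)
    (hL : ∀ t, (L t).IsHomogeneous 1) (P₀ : MvPolynomial (Fin (m + 1)) k)
    (hP₀ : P₀.IsHomogeneous b₀) (hne : P₀ ≠ 0) (hI : bind₁ L P₀ ∈ I) :
    ∃ (A : MvPolynomial ι k) (L' : Fin m → MvPolynomial ι k), A.IsHomogeneous 1 ∧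
      (∀ t, (L' t).IsHomogeneous 1) ∧ (∀ t, L' t ∈ Submodule.span k (Set.range L)) ∧
      ∀ (b : ℕ) (P : MvPolynomial (Fin (m + 1)) k), P.IsHomogeneous b →
        ElRp I A L' b₀ b (bind₁ L P) := by
  obtain ⟨a, s, has, haP⟩ : ∃ (a : Fin (m + 1) → k) (s : Fin (m + 1)), a s = 1 ∧
      eval a P₀ ≠ 0 := by
    obtain ⟨a, ha⟩ : ∃ a, eval a P₀ ≠ 0 := by
      by_contra hcon
      push Not at hcon
      exact hne (MvPolynomial.funext fun x => by rw [hcon x, map_zero])
    obtain ⟨s, hs⟩ : ∃ s, a s ≠ 0 := by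
      by_contra hcon
      push Not at hcon
      apply ha
      have h1 := eval_smul_form hP₀ 0 a
      rw [zero_pow (by omega), zero_mul] at h1
      have h2 : (fun i => 0 * a i) = a := by
        funext i
        rw [hcon i, mul_zero]
      rwa [h2] at h1
    refine ⟨fun i => (a s)⁻¹ * a i, s, inv_mul_cancel₀ hs, ?_⟩
    rw [eval_smul_form hP₀]
    exact mul_ne_zero (pow_ne_zero _ (inv_ne_zero hs)) ha
  set L' : Fin m → MvPolynomial ι k := fun t =>
    L (s.succAbove t) - C (a (s.succAbove t)) * L s with hL'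
  set cv : Fin (m + 1) → MvPolynomial (Option (Fin m)) k :=
    Fin.insertNth (α := fun _ => MvPolynomial (Option (Fin m)) k) s (X none)
      (fun t => X (some t) + C (a (s.succAbove t)) * X none) with hcv
  have cv_s : cv s = X none := by rw [hcv, Fin.insertNth_apply_same]
  have cv_t : ∀ t, cv (s.succAbove t) = X (some t) + C (a (s.succAbove t)) * X none := by
    intro t
    rw [hcv, Fin.insertNth_apply_succAbove]
  have hcvh : ∀ i, (cv i).IsHomogeneous 1 := by
    rw [Fin.forall_iff_succAbove s]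
    refine ⟨?_, fun t => ?_⟩
    · rw [cv_s]
      exact isHomogeneous_X _ _
    · rw [cv_t]
      refine (isHomogeneous_X _ _).add ?_
      have := (isHomogeneous_C (Option (Fin m)) (a (s.succAbove t))).mul
        (isHomogeneous_X k (none : Option (Fin m)))
      rwa [zero_add] at this
  have hψ : ∀ i, bind₁ (fun o : Option (Fin m) => o.elim (L s) L') (cv i) = L i := by
    rw [Fin.forall_iff_succAbove s]
    refine ⟨?_, fun t => ?_⟩
    · rw [cv_s, bind₁_X_right]
      rfl
    · rw [cv_t, map_add, map_mul, bind₁_X_right, bind₁_X_right, bind₁_C_right]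
      simp only [Option.elim, hL']
      ring
  have hψb : ∀ P, bind₁ L P =
      bind₁ (fun o : Option (Fin m) => o.elim (L s) L') (bind₁ cv P) := by
    intro P
    rw [bind₁_bind₁]
    congr 1
    congr 1
    funext i
    exact (hψ i).symm
  have hdeg : ∀ {b : ℕ} {P : MvPolynomial (Fin (m + 1)) k}, P.IsHomogeneous b →
      (bind₁ cv P).IsHomogeneous b := by
    intro b P hP
    have := bind_hom hcvh hP
    rwa [one_mul] at this
  have hsum : ∀ P : MvPolynomial (Option (Fin m)) k,
      bind₁ (fun o : Option (Fin m) => o.elim (L s) L') P =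
        ∑ d ∈ P.support, L s ^ d none * bind₁ L' (monomial d.some (coeff d P)) := by
    intro P
    conv_lhs => rw [P.as_sum]
    rw [map_sum]
    exact Finset.sum_congr rfl fun d _ => elim_mono d _
  have hdd : ∀ {b : ℕ} {P : MvPolynomial (Option (Fin m)) k}, P.IsHomogeneous b →
      ∀ d ∈ P.support, d none + d.some.degree = b := by
    intro b P hP d hd
    rw [← elim_deg]
    have := hP (mem_support_iff.1 hd)
    rw [← this, Finsupp.degree_eq_weight_one]
    rfl
  -- the power
  have hpow : ElRp I (L s) L' b₀ b₀ (L s ^ b₀) := by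
    set P₁ := bind₁ cv P₀ with hP₁
    have hc : coeff (Finsupp.single none b₀) P₁ ≠ 0 := by
      rw [← elim_eval (hdeg hP₀), eval_bind]
      have e1 : (fun i => eval (fun o : Option (Fin m) => o.elim 1 fun _ => 0) (cv i)) = a := by
        funext i
        revert i
        rw [Fin.forall_iff_succAbove s]
        refine ⟨?_, fun t => ?_⟩
        · rw [cv_s, eval_X, has]
          rfl
        · rw [cv_t, map_add, map_mul, eval_X, eval_X, eval_C]
          simp
      rw [e1]
      exact haP
    set c := coeff (Finsupp.single none b₀) P₁ with hcdef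
    have hmem : (Finsupp.single none b₀) ∈ P₁.support := mem_support_iff.2 hc
    have h1 : ElRp I (L s) L' b₀ b₀ (C (-c⁻¹) * ∑ d ∈ P₁.support.erase (Finsupp.single none b₀),
        L s ^ d none * bind₁ L' (monomial d.some (coeff d P₁))) := by
      refine elim_smul _ (elim_sum _ _ fun d hd => ?_)
      rw [Finset.mem_erase] at hd
      have h2 := hdd (hdeg hP₀) d hd.2
      have h3 : d none < b₀ := by
        by_contra hcon
        apply hd.1
        have h4 : d.some.degree = 0 := by omega
        rw [Finsupp.degree_eq_zero_iff] at h4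
        have h5 : d none = b₀ := by
          rw [h4, map_zero, add_zero] at h2
          exact h2
        ext o
        rcases o with _ | t
        · simpa using h5
        · have h6 := DFunLike.congr_fun h4 t
          simpa using h6
      have h7 := elim_basic (I := I) (A := L s) (L := L') h3
        (isHomogeneous_monomial (coeff d P₁) (rfl : d.some.degree = d.some.degree))
      rwa [h2] at h7
    refine elim_congr ?_ h1
    have h8 := hsum P₁
    rw [← Finset.add_sum_erase _ _ hmem] at h8
    have h9 : L s ^ (Finsupp.single (none : Option (Fin m)) b₀) none *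
        bind₁ L' (monomial (Finsupp.single (none : Option (Fin m)) b₀).some
          (coeff (Finsupp.single none b₀) P₁)) = C c * L s ^ b₀ := by
      have e2 : (Finsupp.single (none : Option (Fin m)) b₀).some = 0 := by
        ext t
        simp
      rw [e2, Finsupp.single_eq_same, ← hcdef]
      rw [show (monomial (0 : Fin m →₀ ℕ) c : MvPolynomial (Fin m) k) = C c from rfl,
        bind₁_C_right, mul_comm]
    rw [h9, ← hψb] at h8
    have e3 : L s ^ b₀ - C (-c⁻¹) * ∑ d ∈ P₁.support.erase (Finsupp.single none b₀),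
        L s ^ d none * bind₁ L' (monomial d.some (coeff d P₁)) =
        C c⁻¹ * bind₁ L P₀ := by
      rw [h8, mul_add, ← mul_assoc, ← C_mul, inv_mul_cancel₀ hc, C_1, one_mul, C_neg]
      ring
    rw [e3]
    exact I.mul_mem_left _ hI
  refine ⟨L s, L', hL s, fun t => ?_, fun t => ?_, fun b P hP => ?_⟩
  · refine (hL _).sub ?_
    have := (isHomogeneous_C ι (a (s.succAbove t))).mul (hL s)
    rwa [zero_add] at this
  · refine Submodule.sub_mem _ (Submodule.subset_span ⟨_, rfl⟩) ?_
    rw [← smul_eq_C_mul]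
    exact Submodule.smul_mem _ _ (Submodule.subset_span ⟨_, rfl⟩)
  · rw [hψb, hsum]
    refine elim_sum _ _ fun d hd => ?_
    have h2 := hdd (hdeg hP) d hd
    have h3 := elim_red hpow (d none) _ _
      (isHomogeneous_monomial (coeff d (bind₁ cv P)) (rfl : d.some.degree = d.some.degree))
    rwa [h2] at h3

end

theorem elim_span {k ι : Type} [Field k] [Infinite k] [Finite ι] (I : Ideal (MvPolynomial ι k))
    (w b₀ : ℕ) (hb₀ : 1 ≤ b₀)
    (hrel : ∀ ℓ : Fin (w + 2) → MvPolynomial ι k, (∀ t, (ℓ t).IsHomogeneous 1) →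
      ∃ P : MvPolynomial (Fin (w + 2)) k, P.IsHomogeneous b₀ ∧ P ≠ 0 ∧ bind₁ ℓ P ∈ I)
    (m : ℕ) (L : Fin m → MvPolynomial ι k) (hL : ∀ t, (L t).IsHomogeneous 1) :
    ∃ (r : ℕ) (L' : Fin r → MvPolynomial ι k) (R : ℕ) (M : Fin R → MvPolynomial ι k)
      (μ : Fin R → ℕ), r ≤ w + 1 ∧ (∀ t, L' t ∈ Submodule.span k (Set.range L)) ∧
      R ≤ b₀ ^ m ∧ (∀ i, (M i).IsHomogeneous (μ i) ∧ μ i ≤ m * b₀) ∧
      ∀ (b : ℕ) (P : MvPolynomial (Fin m) k), P.IsHomogeneous b →
        ∃ Q : Fin R → MvPolynomial (Fin r) k,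
          (∀ i, (Q i).IsHomogeneous (b - μ i) ∧ (b < μ i → Q i = 0)) ∧
          bind₁ L P - ∑ i, M i * bind₁ L' (Q i) ∈ I := by
  classical
  have base : ∀ (m : ℕ) (L : Fin m → MvPolynomial ι k), m ≤ w + 1 →
      ∃ (r : ℕ) (L' : Fin r → MvPolynomial ι k) (R : ℕ) (M : Fin R → MvPolynomial ι k)
      (μ : Fin R → ℕ), r ≤ w + 1 ∧ (∀ t, L' t ∈ Submodule.span k (Set.range L)) ∧
      R ≤ b₀ ^ m ∧ (∀ i, (M i).IsHomogeneous (μ i) ∧ μ i ≤ m * b₀) ∧
      ∀ (b : ℕ) (P : MvPolynomial (Fin m) k), P.IsHomogeneous b →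
        ∃ Q : Fin R → MvPolynomial (Fin r) k,
          (∀ i, (Q i).IsHomogeneous (b - μ i) ∧ (b < μ i → Q i = 0)) ∧
          bind₁ L P - ∑ i, M i * bind₁ L' (Q i) ∈ I := by
    intro m L hm
    refine ⟨m, L, 1, fun _ => 1, fun _ => 0, hm, fun t => Submodule.subset_span ⟨t, rfl⟩,
      Nat.one_le_pow _ _ hb₀, fun i => ⟨isHomogeneous_one _ _, Nat.zero_le _⟩, ?_⟩
    intro b P hP
    refine ⟨fun _ => P, fun i => ⟨by simpa using hP, fun h => absurd h (Nat.not_lt_zero _)⟩, ?_⟩
    simp
  induction m with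
  | zero => exact base 0 L (by omega)
  | succ m ih =>
    by_cases hm : m + 1 ≤ w + 1
    · exact base (m + 1) L hm
    · have hle : w + 2 ≤ m + 1 := by omega
      obtain ⟨P, hP, hPne, hPI⟩ := hrel (fun t => L (Fin.castLE hle t)) fun t => hL _
      obtain ⟨A, L₁, hA, hL₁, hspan, hred⟩ := elim_step hb₀ L hL (rename (Fin.castLE hle) P)
        (hP.rename_isHomogeneous) (fun h => hPne (rename_injective _
          (Fin.castLE_injective hle) (by rw [h, map_zero]))) (by
          rw [bind₁_rename]
          exact hPI)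
      obtain ⟨r, L', R, M, μ, hr, hL', hR, hM, hQ⟩ := ih L₁ hL₁
      refine ⟨r, L', b₀ * R, fun i => A ^ ((finProdFinEquiv.symm i).1 : ℕ) *
        M (finProdFinEquiv.symm i).2,
        fun i => (finProdFinEquiv.symm i).1 + μ (finProdFinEquiv.symm i).2, hr, ?_, ?_, ?_, ?_⟩
      · intro t
        have h1 : Submodule.span k (Set.range L₁) ≤ Submodule.span k (Set.range L) := by
          rw [Submodule.span_le]
          rintro _ ⟨t, rfl⟩
          exact hspan t
        exact h1 (hL' t)
      · rw [pow_succ, mul_comm]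
        exact Nat.mul_le_mul_right _ hR
      · intro i
        refine ⟨?_, ?_⟩
        · have h1 := (hA.pow ((finProdFinEquiv.symm i).1 : ℕ)).mul
            (hM (finProdFinEquiv.symm i).2).1
          rwa [one_mul] at h1
        · have h1 := (finProdFinEquiv.symm i).1.2
          have h2 := (hM (finProdFinEquiv.symm i).2).2
          have h3 : (m + 1) * b₀ = m * b₀ + b₀ := by ring
          rw [h3]
          show ((finProdFinEquiv.symm i).1 : ℕ) + μ (finProdFinEquiv.symm i).2 ≤ m * b₀ + b₀
          omega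
      · intro b P hP
        obtain ⟨Q, hQ1, hQ2⟩ := hred b P hP
        have h4 : ∀ e : ℕ, ∃ Q' : Fin R → MvPolynomial (Fin r) k,
            (∀ i, (Q' i).IsHomogeneous (b - (e + μ i)) ∧ (b < e + μ i → Q' i = 0)) ∧
            bind₁ L₁ (Q e) - ∑ i, M i * bind₁ L' (Q' i) ∈ I := by
          intro e
          by_cases he : b < e
          · refine ⟨fun _ => 0, fun i => ⟨isHomogeneous_zero _ _ _, fun _ => rfl⟩, ?_⟩
            rw [(hQ1 e).2 he]
            simp
          · obtain ⟨Q', h5, h6⟩ := hQ (b - e) (Q e) (hQ1 e).1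
            refine ⟨Q', fun i => ⟨?_, fun h => (h5 i).2 (by omega)⟩, h6⟩
            have h7 := (h5 i).1
            rwa [Nat.sub_sub] at h7
        choose Q' h5 h6 using h4
        refine ⟨fun i => Q' (finProdFinEquiv.symm i).1 (finProdFinEquiv.symm i).2,
          fun i => h5 _ _, ?_⟩
        have e1 : ∑ i : Fin (b₀ * R), A ^ ((finProdFinEquiv.symm i).1 : ℕ) *
            M (finProdFinEquiv.symm i).2 *
            bind₁ L' (Q' (finProdFinEquiv.symm i).1 (finProdFinEquiv.symm i).2) =
            ∑ e ∈ Finset.range b₀, A ^ e * ∑ i, M i * bind₁ L' (Q' e i) := by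
          rw [Equiv.sum_comp finProdFinEquiv.symm (fun q : Fin b₀ × Fin R =>
            A ^ (q.1 : ℕ) * M q.2 * bind₁ L' (Q' q.1 q.2)), ← Finset.univ_product_univ,
            Finset.sum_product, Finset.sum_range]
          refine Finset.sum_congr rfl fun e _ => ?_
          rw [Finset.mul_sum]
          refine Finset.sum_congr rfl fun i _ => ?_
          rw [mul_assoc]
        rw [e1]
        have e2 : bind₁ L P - ∑ e ∈ Finset.range b₀, A ^ e * ∑ i, M i * bind₁ L' (Q' e i) =
            (bind₁ L P - ∑ e ∈ Finset.range b₀, A ^ e * bind₁ L₁ (Q e)) +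
            ∑ e ∈ Finset.range b₀, A ^ e * (bind₁ L₁ (Q e) -
              ∑ i, M i * bind₁ L' (Q' e i)) := by
          simp_rw [mul_sub]
          rw [Finset.sum_sub_distrib]
          ring
        rw [e2]
        exact I.add_mem hQ2 (I.sum_mem fun e _ => I.mul_mem_left _ (h6 e))

end Pool.Agent.GE
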