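import Pool.Agent.GE.Defs
import Pool.Agent.GT.Tools

/-!
Project GE (MP_e3c919_ag), row E3: primes above a polynomial with constant leading coefficient.
-/

set_option autoImplicit false

open Filter MvPolynomial

namespace Pool.Agent.GE

open Pool.Agent.GT

/-- pigeonhole along the factorisation of a polynomial over a field -/
theorem lift_split {A F K : Type} [CommRing A] [Field F] [Field K] (ψ : A →+* Polynomial F)
    (ev : ℕ → A →+* K) : ∀ (d : ℕ) (R : Polynomial F), R ≠ 0 → R.natDegree = d → 1 ≤ d →
      ∀ S : Finset ℕ, (∀ n ∈ S, ∀ G, R ∣ ψ G → ev n G = 0) →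
      ∃ Q, Irreducible Q ∧ Q ∣ R ∧ ∃ S' ⊆ S, S.card ≤ d * S'.card ∧
        ∀ n ∈ S', ∀ G, Q ∣ ψ G → ev n G = 0 := by
  classical
  intro d
  induction d using Nat.strong_induction_on with
  | _ d ih =>
    intro R hR hd hd1 S hS
    by_cases hirr : Irreducible R
    · exact ⟨R, hirr, dvd_refl R, S, Finset.Subset.refl S, Nat.le_mul_of_pos_left _ hd1, hS⟩
    · have hu : ¬ IsUnit R := by
        intro h
        have := Polynomial.natDegree_eq_zero_of_isUnit h
        omega
      obtain ⟨R₁, R₂, h12, hR1, hR2⟩ : ∃ R₁ R₂, R = R₁ * R₂ ∧ ¬ IsUnit R₁ ∧ ¬ IsUnit R₂ := by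
        by_contra hcon
        push Not at hcon
        refine hirr ⟨hu, fun a b hab => ?_⟩
        by_contra h
        push Not at h
        exact h.2 (hcon a b hab h.1)
      have n1 : R₁ ≠ 0 := by rintro rfl; exact hR (by rw [h12, zero_mul])
      have n2 : R₂ ≠ 0 := by rintro rfl; exact hR (by rw [h12, mul_zero])
      have p1 : 0 < R₁.natDegree := by
        rw [Nat.pos_iff_ne_zero]
        intro h
        apply hR1
        rw [Polynomial.isUnit_iff_degree_eq_zero, Polynomial.degree_eq_natDegree n1, h]
        rfl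
      have p2 : 0 < R₂.natDegree := by
        rw [Nat.pos_iff_ne_zero]
        intro h
        apply hR2
        rw [Polynomial.isUnit_iff_degree_eq_zero, Polynomial.degree_eq_natDegree n2, h]
        rfl
      have hsum : R₁.natDegree + R₂.natDegree = d := by
        rw [← hd, h12, Polynomial.natDegree_mul n1 n2]
      set S₁ := S.filter (fun n => ∀ G, R₁ ∣ ψ G → ev n G = 0) with hS₁
      set S₂ := S.filter (fun n => ∀ G, R₂ ∣ ψ G → ev n G = 0) with hS₂
      have hcov : S ⊆ S₁ ∪ S₂ := by
        intro n hn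
        rw [Finset.mem_union, hS₁, hS₂, Finset.mem_filter, Finset.mem_filter]
        by_contra hcon
        push Not at hcon
        obtain ⟨G₁, g1, g1'⟩ := hcon.1 hn
        obtain ⟨G₂, g2, g2'⟩ := hcon.2 hn
        have h := hS n hn (G₁ * G₂) (by rw [h12, map_mul]; exact mul_dvd_mul g1 g2)
        rw [map_mul, mul_eq_zero] at h
        rcases h with h | h
        · exact g1' h
        · exact g2' h
      have hcard : S.card ≤ S₁.card + S₂.card :=
        (Finset.card_le_card hcov).trans (Finset.card_union_le _ _)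
      have hcase : R₁.natDegree * S.card ≤ d * S₁.card ∨ R₂.natDegree * S.card ≤ d * S₂.card := by
        by_contra hcon
        push Not at hcon
        have h1 : d * (S₁.card + S₂.card) < (R₁.natDegree + R₂.natDegree) * S.card := by
          rw [mul_add, add_mul]
          exact Nat.add_lt_add hcon.1 hcon.2
        rw [hsum] at h1
        exact absurd (Nat.mul_le_mul_left d hcard) (not_le.mpr h1)
      have key : ∀ (R' : Polynomial F) (T : Finset ℕ), R' ∣ R → R' ≠ 0 → 0 < R'.natDegree →
          R'.natDegree < d → T ⊆ S → (∀ n ∈ T, ∀ G, R' ∣ ψ G → ev n G = 0) →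
          R'.natDegree * S.card ≤ d * T.card →
          ∃ Q, Irreducible Q ∧ Q ∣ R ∧ ∃ S' ⊆ S, S.card ≤ d * S'.card ∧
            ∀ n ∈ S', ∀ G, Q ∣ ψ G → ev n G = 0 := by
        intro R' T hdvd h0 hpos hlt hT hv hc
        obtain ⟨Q, hQ, hQR, S', hS', hS'c, hS'v⟩ := ih R'.natDegree hlt R' h0 rfl hpos T hv
        refine ⟨Q, hQ, hQR.trans hdvd, S', hS'.trans hT, ?_, hS'v⟩
        have h1 : R'.natDegree * S.card ≤ R'.natDegree * (d * S'.card) :=
          calc R'.natDegree * S.card ≤ d * T.card := hc
            _ ≤ d * (R'.natDegree * S'.card) := Nat.mul_le_mul_left d hS'c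
            _ = R'.natDegree * (d * S'.card) := by ring
        exact Nat.le_of_mul_le_mul_left h1 hpos
      rcases hcase with h | h
      · exact key R₁ S₁ ⟨R₂, h12⟩ n1 p1 (by omega) (Finset.filter_subset _ _)
          (fun n hn => (Finset.mem_filter.mp hn).2) h
      · exact key R₂ S₂ ⟨R₁, by rw [h12, mul_comm]⟩ n2 p2 (by omega) (Finset.filter_subset _ _)
          (fun n hn => (Finset.mem_filter.mp hn).2) h

/-- the dimension of a finite sum of subspaces -/
theorem lift_finrank_sup {K V : Type} [Field K] [AddCommGroup V] [Module K V]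
    (T : Finset ℕ) (W : ℕ → Submodule K V) (hW : ∀ e ∈ T, FiniteDimensional K (W e)) :
    FiniteDimensional K (↥(⨆ e ∈ T, W e)) ∧
      Module.finrank K (↥(⨆ e ∈ T, W e)) ≤ ∑ e ∈ T, Module.finrank K (W e) := by
  classical
  induction T using Finset.induction_on with
  | empty =>
    have h : (⨆ e ∈ (∅ : Finset ℕ), W e) = ⊥ := by simp
    rw [h]
    exact ⟨inferInstance, by simp⟩
  | insert a T ha ih =>
    obtain ⟨h1, h2⟩ := ih fun e he => hW e (Finset.mem_insert_of_mem he)
    have h3 := hW a (Finset.mem_insert_self a T)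
    have h4 : (⨆ e ∈ insert a T, W e) = W a ⊔ ⨆ e ∈ T, W e := by
      rw [Finset.iSup_insert]
    rw [h4, Finset.sum_insert ha]
    refine ⟨inferInstance, ?_⟩
    exact (Submodule.finrank_add_le_finrank_add_finrank _ _).trans (Nat.add_le_add_left h2 _)

/-- a monomial of degree `b` in the support of a form -/
theorem lift_deg {K τ : Type} [Field K] {b : ℕ} {P : MvPolynomial τ K} (hP : P.IsHomogeneous b)
    {m : τ →₀ ℕ} (hm : m ∈ P.support) : m.degree = b := by
  have h := hP (mem_support_iff.mp hm)
  rw [← h, Finsupp.degree_eq_weight_one]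
  rfl

theorem lift_decomp {ι : Type} (m : Option ι →₀ ℕ) :
    m = Finsupp.single none (m none) + m.some.mapDomain some := by
  classical
  ext i
  cases i with
  | none =>
    rw [Finsupp.add_apply, Finsupp.single_eq_same, Finsupp.mapDomain_of_notMem_range]
    · rw [add_zero]
    · simp
  | some i =>
    rw [Finsupp.add_apply, Finsupp.mapDomain_apply (Option.some_injective ι),
      Finsupp.single_eq_of_ne (by simp), zero_add, Finsupp.some_apply]

/-- splitting off the power of the first variable -/
theorem lift_mon {K ι : Type} [Field K] (m : Option ι →₀ ℕ) :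
    (monomial m (1 : K)) = X none ^ (m none) * rename some (monomial m.some (1 : K)) := by
  classical
  rw [rename_monomial, X_pow_eq_monomial, monomial_mul, one_mul, ← lift_decomp]

theorem lift_some_degree {ι : Type} (m : Option ι →₀ ℕ) : m none + m.some.degree = m.degree := by
  classical
  have h := Finsupp.sum_option_index m (fun _ a => a) (fun _ => rfl) (fun _ _ _ => rfl)
  exact h.symm

/-- the Hilbert function of a prime which contains a polynomial with constant leading
coefficient -/
theorem lift_HF {K ι : Type} [Field K] [Finite ι] {𝔭' : Ideal (MvPolynomial ι K)}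
    {𝔭 : Ideal (MvPolynomial (Option ι) K)} (hle : 𝔭' ≤ 𝔭.comap (rename some : _ →ₐ[K] _))
    (b₀ : ℕ) (P : MvPolynomial (Option ι) K) (hP : P.IsHomogeneous b₀)
    (hlead : coeff (Finsupp.single none b₀) P ≠ 0) (hP𝔭 : P ∈ 𝔭) (b : ℕ) :
    HF 𝔭 b ≤ ∑ e ∈ Finset.range b₀, if e ≤ b then HF 𝔭' (b - e) else 0 := by
  classical
  let f : (MvPolynomial ι K ⧸ 𝔭') →ₐ[K] (MvPolynomial (Option ι) K ⧸ 𝔭) :=
    Ideal.quotientMapₐ 𝔭 (rename some) hle
  let q := (Ideal.Quotient.mkₐ K 𝔭)
  let W : ℕ → Submodule K (MvPolynomial (Option ι) K ⧸ 𝔭) := fun e =>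
    ((homogeneousSubmodule ι K (b - e)).map (Ideal.Quotient.mkₐ K 𝔭').toLinearMap).map
      ((LinearMap.mulLeft K (q (X none ^ e))).comp f.toLinearMap)
  have hfin : ∀ e, FiniteDimensional K
      ((homogeneousSubmodule ι K (b - e)).map (Ideal.Quotient.mkₐ K 𝔭').toLinearMap) := by
    intro e
    have h : (homogeneousSubmodule ι K (b - e)).FG :=
      homogeneousSubmodule_fg (σ := ι) (R := K) (b - e)
    exact Module.Finite.iff_fg.mpr (h.map _)
  set T := (Finset.range b₀).filter (fun e => e ≤ b) with hT
  have hW : ∀ e ∈ T, FiniteDimensional K (W e) := by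
    intro e _
    have := hfin e
    exact inferInstanceAs (FiniteDimensional K (Submodule.map _ _))
  obtain ⟨hWf, hWr⟩ := lift_finrank_sup T W hW
  have hsum : ∑ e ∈ T, Module.finrank K (W e) ≤
      ∑ e ∈ Finset.range b₀, if e ≤ b then HF 𝔭' (b - e) else 0 := by
    rw [hT, Finset.sum_filter]
    refine Finset.sum_le_sum fun e _ => ?_
    split_ifs
    · have := hfin e
      exact Submodule.finrank_map_le _ _
    · exact le_refl _
  refine le_trans ?_ (hWr.trans hsum)
  refine Submodule.finrank_mono ?_
  -- the monomials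
  have hmon : ∀ (e : ℕ) (m : Option ι →₀ ℕ), m none = e → m.degree = b →
      q (monomial m 1) ∈ ⨆ e ∈ T, W e := by
    intro e
    induction e using Nat.strong_induction_on with
    | _ e ih =>
      intro m hme hmd
      by_cases heb : e < b₀
      · have hsd := lift_some_degree m
        have heT : e ∈ T := by
          rw [hT, Finset.mem_filter, Finset.mem_range]
          exact ⟨heb, by omega⟩
        refine Submodule.mem_iSup_of_mem e (Submodule.mem_iSup_of_mem heT ?_)
        rw [lift_mon m, map_mul, hme]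
        refine ⟨Ideal.Quotient.mkₐ K 𝔭' (monomial m.some 1),
          ⟨monomial m.some 1, ?_, rfl⟩, rfl⟩
        rw [SetLike.mem_coe, mem_homogeneousSubmodule]
        apply isHomogeneous_monomial
        omega
      · set s : Option ι →₀ ℕ := Finsupp.single none b₀ with hs
        set m₀ := m - s with hm₀
        have hle : s ≤ m := by
          rw [hs, Finsupp.single_le_iff]
          omega
        have hms : m₀ + s = m := tsub_add_cancel_of_le hle
        have hdeg : m₀.degree + b₀ = b := by
          have := congrArg Finsupp.degree hms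
          rw [map_add, hs, Finsupp.degree_single, hmd] at this
          exact this
        have hnone : m₀ none + b₀ = e := by
          have := congrArg (fun g : Option ι →₀ ℕ => g none) hms
          simp only [Finsupp.add_apply, hs, Finsupp.single_eq_same] at this
          omega
        have h0 : q (monomial m₀ 1 * P) = 0 := by
          rw [map_mul]
          have : q P = 0 := Ideal.Quotient.eq_zero_iff_mem.mpr hP𝔭
          rw [this, mul_zero]
        have hs1 : s ∈ P.support := mem_support_iff.mpr hlead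
        have h1 : q (monomial m₀ 1 * P) = coeff s P • q (monomial m 1) +
            ∑ m' ∈ P.support.erase s, coeff m' P • q (monomial (m₀ + m') 1) := by
          have h2 : ∀ m', q (monomial m₀ 1 * monomial m' (coeff m' P)) =
              coeff m' P • q (monomial (m₀ + m') 1) := by
            intro m'
            rw [monomial_mul, one_mul, ← map_smul, smul_monomial, smul_eq_mul, mul_one]
          conv_lhs => rw [P.as_sum, Finset.mul_sum, map_sum]
          rw [← Finset.add_sum_erase _ _ hs1, h2, hms]
          congr 1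
          exact Finset.sum_congr rfl fun m' _ => h2 m'
        have h3 : ∀ m' ∈ P.support.erase s, q (monomial (m₀ + m') 1) ∈ ⨆ e ∈ T, W e := by
          intro m' hm'
          rw [Finset.mem_erase] at hm'
          have h4 := lift_deg hP hm'.2
          have h5 := lift_some_degree m'
          have h6 : m' none < b₀ := by
            by_contra hcon
            have h7 : m' none = b₀ := by omega
            have h8 : m'.some.degree = 0 := by omega
            rw [Finsupp.degree_eq_zero_iff] at h8
            apply hm'.1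
            ext i
            cases i with
            | none => rw [h7, hs, Finsupp.single_eq_same]
            | some i =>
              rw [← Finsupp.some_apply, h8, hs, Finsupp.single_eq_of_ne (by simp)]
              rfl
          refine ih (m₀ none + m' none) (by omega) (m₀ + m') (by rw [Finsupp.add_apply]) ?_
          rw [map_add]
          omega
        rw [h1] at h0
        have h4 : coeff s P • q (monomial m 1) ∈ ⨆ e ∈ T, W e := by
          rw [eq_neg_of_add_eq_zero_left h0]
          exact Submodule.neg_mem _ (Submodule.sum_mem _ fun m' hm' =>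
            Submodule.smul_mem _ _ (h3 m' hm'))
        exact (Submodule.smul_mem_iff _ hlead).mp h4
  rintro _ ⟨G, hG, rfl⟩
  have hG' : G.IsHomogeneous b := (mem_homogeneousSubmodule b G).1 hG
  rw [G.as_sum, map_sum]
  refine Submodule.sum_mem _ fun m hm => ?_
  have h1 : monomial m (coeff m G) = coeff m G • monomial m (1 : K) := by
    rw [smul_monomial, smul_eq_mul, mul_one]
  rw [h1, map_smul]
  exact Submodule.smul_mem _ _ (hmon _ m rfl (lift_deg hG' hm))

theorem lift_rename {K ι : Type} [Field K] (H : MvPolynomial ι K) :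
    optionEquivLeft K ι (rename some H) = Polynomial.C H := by
  have h : ((optionEquivLeft K ι : MvPolynomial (Option ι) K →ₐ[K] _).comp (rename some)) =
      IsScalarTower.toAlgHom K (MvPolynomial ι K) (Polynomial (MvPolynomial ι K)) := by
    apply MvPolynomial.algHom_ext
    intro i
    simp
  exact DFunLike.congr_fun h H

/-- the leading coefficient -/
theorem lift_lead {K ι : Type} [Field K] (b₀ : ℕ) (P : MvPolynomial (Option ι) K)
    (hP : P.IsHomogeneous b₀) :
    (optionEquivLeft K ι P).natDegree ≤ b₀ ∧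
      (optionEquivLeft K ι P).coeff b₀ = C (coeff (Finsupp.single none b₀) P) := by
  classical
  constructor
  · rw [natDegree_optionEquivLeft]
    exact (degreeOf_le_totalDegree _ _).trans hP.totalDegree_le
  · ext d
    rw [optionEquivLeft_coeff_coeff, coeff_C]
    split_ifs with h
    · subst h
      congr 1
    · by_contra hcon
      have h1 := lift_deg hP (mem_support_iff.mpr hcon)
      rw [← lift_some_degree, Finsupp.optionElim_apply_none] at h1
      have h2 : (Finsupp.optionElim b₀ d).some.degree = 0 := by omega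
      rw [Finsupp.degree_eq_zero_iff] at h2
      apply h
      rw [← h2]
      simp only [Finsupp.some_optionElim]

attribute [local instance] MvPolynomial.gradedAlgebra

theorem lift_dec {k ι : Type} [Field k] (G : MvPolynomial ι k) (b : ℕ) :
    ((DirectSum.decompose (homogeneousSubmodule ι k) G b : homogeneousSubmodule ι k b) :
      MvPolynomial ι k) = homogeneousComponent b G :=
  decomposition.decompose'_apply G b

/-- the homogeneous core of a prime -/
theorem lift_core {k ι : Type} [Field k] {𝔓 : Ideal (MvPolynomial ι k)} (h𝔓 : 𝔓.IsPrime) :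
    ∃ 𝔭 : Ideal (MvPolynomial ι k), HPrime 𝔭 ∧ 𝔭 ≤ 𝔓 ∧
      ∀ (b : ℕ) (G : MvPolynomial ι k), G.IsHomogeneous b → G ∈ 𝔓 → G ∈ 𝔭 := by
  refine ⟨(𝔓.homogeneousCore (homogeneousSubmodule ι k)).toIdeal, ⟨?_, ?_⟩, ?_, ?_⟩
  · exact Ideal.IsPrime.homogeneousCore h𝔓
  · intro G hG b
    have h := (𝔓.homogeneousCore (homogeneousSubmodule ι k)).isHomogeneous b hG
    rwa [lift_dec] at h
  · exact Ideal.toIdeal_homogeneousCore_le _ _
  · intro b G hG hG𝔓
    exact Ideal.mem_homogeneousCore_of_homogeneous_of_mem
      ⟨b, (mem_homogeneousSubmodule b G).mpr hG⟩ hG𝔓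

theorem lift_prime {K ι : Type} [Field K] [Finite ι] {𝔭' : Ideal (MvPolynomial ι K)}
    (h𝔭' : HPrime 𝔭') (b₀ : ℕ) (hb₀ : 1 ≤ b₀) (P : MvPolynomial (Option ι) K)
    (hP : P.IsHomogeneous b₀) (hlead : coeff (Finsupp.single none b₀) P ≠ 0)
    (y : ℕ → Option ι → K) (S : Finset ℕ)
    (hS : ∀ n ∈ S, (∀ G ∈ 𝔭', eval (fun i => y n (some i)) G = 0) ∧ eval (y n) P = 0) :
    ∃ (𝔭 : Ideal (MvPolynomial (Option ι) K)) (S' : Finset ℕ), HPrime 𝔭 ∧ S' ⊆ S ∧
      S.card ≤ b₀ * S'.card ∧ (∀ G ∈ 𝔭, ∀ n ∈ S', eval (y n) G = 0) ∧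
      ∀ b, HF 𝔭 b ≤ ∑ e ∈ Finset.range b₀, if e ≤ b then HF 𝔭' (b - e) else 0 := by
  classical
  have hprime := h𝔭'.prime
  let F := FractionRing (MvPolynomial ι K ⧸ 𝔭')
  let ρ : MvPolynomial ι K →+* F := (algebraMap (MvPolynomial ι K ⧸ 𝔭') F).comp
    (Ideal.Quotient.mk 𝔭')
  have hρ : ∀ G, ρ G = 0 ↔ G ∈ 𝔭' := by
    intro G
    change algebraMap (MvPolynomial ι K ⧸ 𝔭') F (Ideal.Quotient.mk 𝔭' G) = 0 ↔ _
    rw [FaithfulSMul.algebraMap_eq_zero_iff, Ideal.Quotient.eq_zero_iff_mem]
  let ψ : MvPolynomial (Option ι) K →+* Polynomial F :=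
    (Polynomial.mapRingHom ρ).comp (optionEquivLeft K ι :
      MvPolynomial (Option ι) K →+* Polynomial (MvPolynomial ι K))
  have hψ : ∀ G, ψ G = (optionEquivLeft K ι G).map ρ := fun G => rfl
  set c := coeff (Finsupp.single none b₀) P with hc
  obtain ⟨hd, hco⟩ := lift_lead b₀ P hP
  set p : Polynomial (MvPolynomial ι K) := Polynomial.C (C c⁻¹) * optionEquivLeft K ι P with hp
  have hmon : p.Monic := by
    refine Polynomial.monic_of_natDegree_le_of_coeff_eq_one b₀ ?_ ?_
    · exact (Polynomial.natDegree_C_mul_le _ _).trans hd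
    · rw [hp, Polynomial.coeff_C_mul, hco, ← C_mul, inv_mul_cancel₀ hlead, C_1]
  have hpd : p.natDegree = b₀ := by
    apply le_antisymm
    · exact (Polynomial.natDegree_C_mul_le _ _).trans hd
    · apply Polynomial.le_natDegree_of_ne_zero
      rw [hp, Polynomial.coeff_C_mul, hco, ← C_mul, inv_mul_cancel₀ hlead, C_1]
      exact one_ne_zero
  have hRm : (p.map ρ).Monic := hmon.map ρ
  have hRd : (p.map ρ).natDegree = b₀ := by rw [hmon.natDegree_map, hpd]
  have hev : ∀ n G, eval (y n) G = Polynomial.eval (y n none)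
      (Polynomial.map (eval fun i => y n (some i)) (optionEquivLeft K ι G)) := by
    intro n G
    rw [← optionEquivLeft_elim_eval]
    congr 2
    funext x
    cases x <;> rfl
  have hmain : ∀ n ∈ S, ∀ G, p.map ρ ∣ ψ G → eval (y n) G = 0 := by
    intro n hn G hG
    obtain ⟨h1, h2⟩ := hS n hn
    rw [hψ] at hG
    have hdiv := Polynomial.modByMonic_add_div (optionEquivLeft K ι G) p
    have h3 : p.map ρ ∣ (optionEquivLeft K ι G %ₘ p).map ρ := by
      rw [← hdiv, Polynomial.map_add, Polynomial.map_mul (f := ρ) (p := p)] at hG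
      exact (dvd_add_left (dvd_mul_right _ _)).mp hG
    have h4 : (optionEquivLeft K ι G %ₘ p).map ρ = 0 := by
      apply Polynomial.eq_zero_of_dvd_of_degree_lt h3
      calc ((optionEquivLeft K ι G %ₘ p).map ρ).degree
          ≤ (optionEquivLeft K ι G %ₘ p).degree := Polynomial.degree_map_le
        _ < p.degree := Polynomial.degree_modByMonic_lt _ hmon
        _ = (p.map ρ).degree := (hmon.degree_map ρ).symm
    have h5 : (optionEquivLeft K ι G %ₘ p).map (eval fun i => y n (some i)) = 0 := by
      ext i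
      rw [Polynomial.coeff_map, Polynomial.coeff_zero]
      apply h1
      rw [← hρ, ← Polynomial.coeff_map, h4, Polynomial.coeff_zero]
    rw [hev, ← hdiv, Polynomial.map_add, Polynomial.map_mul, h5, zero_add, Polynomial.eval_mul,
      hp, Polynomial.map_mul, Polynomial.eval_mul, ← hev, h2, mul_zero, zero_mul]
  obtain ⟨Q, hQ, hQR, S', hS', hS'c, hS'v⟩ := lift_split ψ (fun n => eval (y n)) b₀ (p.map ρ)
    hRm.ne_zero hRd hb₀ S hmain
  have hQp : (Ideal.span {Q}).IsPrime :=
    (Ideal.span_singleton_prime hQ.ne_zero).mpr hQ.prime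
  have h𝔓 : ((Ideal.span {Q}).comap ψ).IsPrime := Ideal.comap_isPrime ψ (Ideal.span {Q})
  obtain ⟨𝔭, h𝔭, hle, hform⟩ := lift_core h𝔓
  have hmem : ∀ G, G ∈ (Ideal.span {Q}).comap ψ ↔ Q ∣ ψ G := by
    intro G
    rw [Ideal.mem_comap, Ideal.mem_span_singleton]
  have hP𝔭 : P ∈ 𝔭 := by
    apply hform b₀ P hP
    rw [hmem, hψ]
    have h1 : optionEquivLeft K ι P = Polynomial.C (C c) * p := by
      rw [hp, ← mul_assoc, ← Polynomial.C_mul, ← C_mul, mul_inv_cancel₀ hlead, C_1,
        Polynomial.C_1, one_mul]
    rw [h1, Polynomial.map_mul]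
    exact hQR.trans (dvd_mul_left _ _)
  have hcomap : 𝔭' ≤ 𝔭.comap (rename some : _ →ₐ[K] _) := by
    intro G hG
    rw [Ideal.mem_comap, ← sum_homogeneousComponent G, map_sum]
    refine Ideal.sum_mem _ fun b _ => ?_
    apply hform b _ ((homogeneousComponent_isHomogeneous b G).rename_isHomogeneous)
    rw [hmem, hψ, lift_rename, Polynomial.map_C, (hρ _).mpr (h𝔭'.comp G hG b), Polynomial.C_0]
    exact dvd_zero _
  refine ⟨𝔭, S', h𝔭, hS', hS'c, ?_, fun b => lift_HF hcomap b₀ P hP hlead hP𝔭 b⟩
  intro G hG n hn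
  exact hS'v n hn G ((hmem G).mp (hle hG))

end Pool.Agent.GE
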