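import Pool.Agent.GE.Comap
import Pool.Agent.GE.Lift

/-!
Row GE-E4: effective linear Noether normalisation of a finite set of points.
-/

set_option autoImplicit false

open Filter MvPolynomial

namespace Pool.Agent.GE

open Pool.Agent.GT

/-- the exponents determined by the exponents of the first variables and the degree -/
def extrExp (w b m : ℕ) (g : Fin w → Fin (b + 1)) (i : Fin m) : ℕ :=
  if i.val + 1 = m then
    b - ∑ j : Fin m, if j.val + 1 = m then 0 else if h : j.val < w then (g ⟨j.val, h⟩ : ℕ) else 0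
  else if h : i.val < w then (g ⟨i.val, h⟩ : ℕ) else 0

theorem extr_exp (w b m : ℕ) (hm : m ≤ w + 1) (e : Fin m → ℕ) (he : ∑ i, e i = b) :
    ∃ g : Fin w → Fin (b + 1), ∀ i, extrExp w b m g i = e i := by
  classical
  have hle : ∀ i, e i ≤ b := fun i => by
    rw [← he]
    exact Finset.single_le_sum (fun j _ => Nat.zero_le (e j)) (Finset.mem_univ i)
  refine ⟨fun t => if h : t.val < m then ⟨e ⟨t.val, h⟩, Nat.lt_succ_of_le (hle _)⟩ else 0, ?_⟩
  have h1 : ∀ j : Fin m, j.val + 1 ≠ m → (if h : j.val < w then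
      (((fun t : Fin w => if h : t.val < m then (⟨e ⟨t.val, h⟩, Nat.lt_succ_of_le (hle _)⟩ :
        Fin (b + 1)) else 0) ⟨j.val, h⟩ : Fin (b + 1)) : ℕ) else 0) = e j := by
    intro j hj
    have h2 : j.val < w := by have := j.isLt; omega
    rw [dif_pos h2]
    beta_reduce
    rw [dif_pos j.isLt]
  intro i
  unfold extrExp
  by_cases hi : i.val + 1 = m
  · rw [if_pos hi]
    have h3 : (∑ j : Fin m, if j.val + 1 = m then 0 else if h : j.val < w then
      (((fun t : Fin w => if h : t.val < m then (⟨e ⟨t.val, h⟩, Nat.lt_succ_of_le (hle _)⟩ :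
        Fin (b + 1)) else 0) ⟨j.val, h⟩ : Fin (b + 1)) : ℕ) else 0) + e i = b := by
      refine Eq.trans ?_ he
      rw [← Finset.sum_erase_add Finset.univ e (Finset.mem_univ i),
        ← Finset.sum_erase_add Finset.univ _ (Finset.mem_univ i), if_pos hi, add_zero]
      congr 1
      refine Finset.sum_congr rfl fun j hj => ?_
      have h4 : j.val + 1 ≠ m := by
        intro h5
        exact (Finset.ne_of_mem_erase hj) (Fin.ext (by omega))
      rw [if_neg h4, h1 j h4]
    omega
  · rw [if_neg hi]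
    exact h1 i hi

theorem extr_span (K : Type) [Field K] (w b m : ℕ) (hm : m ≤ w + 1) :
    homogeneousSubmodule (Fin m) K b ≤ Submodule.span K (Set.range
      fun g : Fin w → Fin (b + 1) => (monomial (Finsupp.equivFunOnFinite.symm
        fun i => extrExp w b m g i) 1 : MvPolynomial (Fin m) K)) := by
  classical
  intro G hG
  rw [mem_homogeneousSubmodule] at hG
  rw [G.as_sum]
  refine Submodule.sum_mem _ fun e he => ?_
  have h1 : ∑ i, e i = b := by
    have h2 := hG (mem_support_iff.1 he)
    rw [← h2, Finsupp.weight_apply, Finsupp.sum_fintype _ _ (by simp)]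
    simp
  obtain ⟨g, hg⟩ := extr_exp w b m hm (fun i => e i) h1
  have h2 : (Finsupp.equivFunOnFinite.symm fun i => extrExp w b m g i : Fin m →₀ ℕ) = e := by
    ext i
    exact hg i
  have h3 : monomial e (coeff e G) = coeff e G • (monomial (Finsupp.equivFunOnFinite.symm
      fun i => extrExp w b m g i) 1 : MvPolynomial (Fin m) K) := by
    rw [h2, smul_monomial, smul_eq_mul, mul_one]
  rw [h3]
  exact Submodule.smul_mem _ _ (Submodule.subset_span ⟨g, rfl⟩)

theorem extr_HF_bot {K : Type} [Field K] (w b m : ℕ) (hm : m ≤ w + 1) :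
    HF (⊥ : Ideal (MvPolynomial (Fin m) K)) b ≤ (b + 1) ^ w := by
  classical
  unfold HF rk
  set f := (Ideal.Quotient.mkₐ K (⊥ : Ideal (MvPolynomial (Fin m) K))).toLinearMap with hf
  set v := fun g : Fin w → Fin (b + 1) => (monomial (Finsupp.equivFunOnFinite.symm
        fun i => extrExp w b m g i) 1 : MvPolynomial (Fin m) K) with hv
  have h1 : (homogeneousSubmodule (Fin m) K b).map f ≤
      Submodule.span K (Set.range (f ∘ v)) := by
    refine (Submodule.map_mono (extr_span K w b m hm)).trans ?_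
    rw [Submodule.map_span, ← Set.range_comp]
  have h2 : Module.Finite K (Submodule.span K (Set.range (f ∘ v))) :=
    Module.Finite.span_of_finite K (Set.finite_range _)
  have h3 := Submodule.finrank_mono h1
  have h4 := finrank_range_le_card (R := K) (f ∘ v)
  refine h3.trans (h4.trans (le_of_eq ?_))
  rw [Fintype.card_fun, Fintype.card_fin, Fintype.card_fin]

theorem extr_hprime_bot {K ι : Type} [Field K] : HPrime (⊥ : Ideal (MvPolynomial ι K)) := by
  refine ⟨Ideal.isPrime_bot, fun G hG b => ?_⟩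
  rw [Ideal.mem_bot] at hG ⊢
  rw [hG, map_zero]

/-- the value at a unit vector is the coefficient of the power -/
theorem extr_coeff {K ι : Type} [Field K] [Fintype ι] (P : MvPolynomial (Option ι) K) (b₀ : ℕ)
    (hP : P.IsHomogeneous b₀) :
    eval (fun o => if o = none then (1 : K) else 0) P = coeff (Finsupp.single none b₀) P := by
  classical
  rw [eval_eq']
  have key : ∀ m ∈ P.support, m ≠ Finsupp.single none b₀ →
      coeff m P * ∏ i : Option ι, (if i = none then (1 : K) else 0) ^ m i = 0 := by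
    intro m hm hne
    have h1 : ∑ i, m i = b₀ := by
      have h2 := hP (mem_support_iff.1 hm)
      rw [← h2, Finsupp.weight_apply, Finsupp.sum_fintype _ _ (by simp)]
      simp
    have h2 : ∃ t : ι, m (some t) ≠ 0 := by
      by_contra hcon
      push Not at hcon
      apply hne
      ext i
      rcases i with _ | t
      · rw [Finsupp.single_eq_same, ← h1, Fintype.sum_option]
        simp [hcon]
      · rw [Finsupp.single_eq_of_ne (by simp), hcon t]
    obtain ⟨t, ht⟩ := h2
    rw [Finset.prod_eq_zero (Finset.mem_univ (some t)), mul_zero]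
    rw [if_neg (by simp), zero_pow ht]
  by_cases hmem : Finsupp.single none b₀ ∈ P.support
  · rw [Finset.sum_eq_single_of_mem _ hmem key]
    rw [Fintype.prod_option]
    simp
  · rw [Finset.sum_eq_zero fun m hm => key m hm fun h => hmem (h ▸ hm)]
    rw [notMem_support_iff.1 hmem]

/-- a form of positive degree that is not zero does not vanish at some vector with a
coordinate different from zero -/
theorem extr_exists {K : Type} [Field K] [Infinite K] {r b₀ : ℕ} (hb₀ : 1 ≤ b₀)
    (P : MvPolynomial (Fin r) K) (hP : P.IsHomogeneous b₀) (h0 : P ≠ 0) :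
    ∃ (a : Fin r → K) (s : Fin r), eval a P ≠ 0 ∧ a s ≠ 0 := by
  have h1 : ∃ a : Fin r → K, eval a P ≠ 0 := by
    by_contra hcon
    push Not at hcon
    exact h0 (MvPolynomial.funext fun a => by rw [hcon a, map_zero])
  obtain ⟨a, ha⟩ := h1
  by_contra hcon
  push Not at hcon
  have h2 : ∀ s, a s = 0 := fun s => hcon a s ha
  have h3 := eval_smul_form hP (0 : K) a
  rw [zero_pow (by omega), zero_mul] at h3
  apply ha
  rw [← h3]
  congr 2
  funext i
  rw [h2 i, mul_zero]

theorem extract_fin {K : Type} [Field K] [Infinite K] (w b₀ : ℕ) (hb₀ : 1 ≤ b₀) (m : ℕ)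
    (y : ℕ → Fin m → K) (S : Finset ℕ)
    (hrel : ∀ ℓ : Fin (w + 2) → MvPolynomial (Fin m) K, (∀ t, (ℓ t).IsHomogeneous 1) →
      ∃ P : MvPolynomial (Fin (w + 2)) K, P.IsHomogeneous b₀ ∧ P ≠ 0 ∧
        ∀ n ∈ S, eval (y n) (bind₁ ℓ P) = 0) :
    ∃ (𝔭 : Ideal (MvPolynomial (Fin m) K)) (S' : Finset ℕ), HPrime 𝔭 ∧ S' ⊆ S ∧
      S.card ≤ b₀ ^ m * S'.card ∧ (∀ G ∈ 𝔭, ∀ n ∈ S', eval (y n) G = 0) ∧
      ∀ b, HF 𝔭 b ≤ b₀ ^ m * (b + 1) ^ w := by
  classical
  have base : ∀ (m : ℕ) (S : Finset ℕ) (y : ℕ → Fin m → K), m ≤ w + 1 →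
      ∃ (𝔭 : Ideal (MvPolynomial (Fin m) K)) (S' : Finset ℕ), HPrime 𝔭 ∧ S' ⊆ S ∧
      S.card ≤ b₀ ^ m * S'.card ∧ (∀ G ∈ 𝔭, ∀ n ∈ S', eval (y n) G = 0) ∧
      ∀ b, HF 𝔭 b ≤ b₀ ^ m * (b + 1) ^ w := by
    intro m S y hm
    have h1 : 1 ≤ b₀ ^ m := Nat.one_le_pow _ _ hb₀
    refine ⟨⊥, S, extr_hprime_bot, Finset.Subset.refl S, ?_, ?_, fun b => ?_⟩
    · calc S.card = 1 * S.card := (one_mul _).symm
        _ ≤ b₀ ^ m * S.card := Nat.mul_le_mul_right _ h1
    · intro G hG n _
      rw [Ideal.mem_bot] at hG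
      rw [hG, map_zero]
    · calc HF (⊥ : Ideal (MvPolynomial (Fin m) K)) b ≤ (b + 1) ^ w := extr_HF_bot w b m hm
        _ = 1 * (b + 1) ^ w := (one_mul _).symm
        _ ≤ b₀ ^ m * (b + 1) ^ w := Nat.mul_le_mul_right _ h1
  induction m with
  | zero => exact base 0 S y (by omega)
  | succ m ih =>
    by_cases hm : m + 1 ≤ w + 1
    · exact base (m + 1) S y hm
    have hm' : w + 2 ≤ m + 1 := by omega
    -- the relation between the first variables
    obtain ⟨P₀, hP₀, hP₀0, hP₀S⟩ := hrel (fun t => X (Fin.castLE hm' t))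
      (fun t => isHomogeneous_X K _)
    obtain ⟨a, s, ha, has⟩ := extr_exists hb₀ P₀ hP₀ hP₀0
    set s' : Fin (m + 1) := Fin.castLE hm' s with hs'
    set A : Fin (m + 1) → K := fun i => if h : i.val < w + 2 then a ⟨i.val, h⟩ else 0 with hA
    have hAc : ∀ t : Fin (w + 2), A (Fin.castLE hm' t) = a t := by
      intro t
      rw [hA]
      beta_reduce
      rw [dif_pos (show (Fin.castLE hm' t).val < w + 2 from t.isLt)]
      rfl
    have hAs : A s' ≠ 0 := by rw [hs', hAc]; exact has
    set Ψ : Fin (m + 1) → MvPolynomial (Option (Fin m)) K := fun i =>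
      C (A i) * X none + (match finSuccEquiv' s' i with
        | none => 0
        | some t => X (some t)) with hΨ
    set Θ : Fin m → MvPolynomial (Fin (m + 1)) K := fun t =>
      X (s'.succAbove t) - C (A (s'.succAbove t) * (A s')⁻¹) * X s' with hΘ
    have hΨh : ∀ i, (Ψ i).IsHomogeneous 1 := by
      intro i
      rw [hΨ]
      beta_reduce
      refine IsHomogeneous.add (isHomogeneous_C_mul_X _ _) ?_
      rcases finSuccEquiv' s' i with _ | t
      · exact isHomogeneous_zero _ _ _
      · exact isHomogeneous_X K _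
    have hΘh : ∀ t, (Θ t).IsHomogeneous 1 := by
      intro t
      rw [hΘ]
      exact IsHomogeneous.sub (isHomogeneous_X K _) (isHomogeneous_C_mul_X _ _)
    -- the new points
    set y' : ℕ → Option (Fin m) → K := fun n o => match o with
      | none => (A s')⁻¹ * y n s'
      | some t => y n (s'.succAbove t) - A (s'.succAbove t) * (A s')⁻¹ * y n s' with hy'
    have hy'Ψ : ∀ n i, eval (y' n) (Ψ i) = y n i := by
      intro n i
      rcases Fin.eq_self_or_eq_succAbove s' i with h | ⟨t, h⟩
      · subst h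
        rw [hΨ, hy']
        simp only [finSuccEquiv'_at, map_mul, eval_C, eval_X, add_zero]
        field_simp
      · subst h
        rw [hΨ, hy']
        simp only [finSuccEquiv'_succAbove, map_add, map_mul, eval_C, eval_X]
        ring
    have hy'Θ : ∀ n t, eval (y n) (Θ t) = y' n (some t) := by
      intro n t
      rw [hΘ, hy']
      simp only [map_sub, map_mul, eval_C, eval_X]
    -- induction hypothesis
    obtain ⟨𝔭', S', h𝔭', hS'S, hcard, hvan, hHF⟩ := ih (fun n t => y' n (some t)) (by
      intro ℓ' hℓ'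
      obtain ⟨P, hP, hP0, hPS⟩ := hrel (fun t => bind₁ Θ (ℓ' t)) (fun t => by
        have := bind_hom hΘh (hℓ' t)
        rwa [one_mul] at this)
      refine ⟨P, hP, hP0, fun n hn => ?_⟩
      have h1 := hPS n hn
      rw [eval_bind] at h1 ⊢
      rw [← h1]
      congr 2
      funext t
      rw [eval_bind]
      congr 2
      funext j
      rw [hy'Θ])
    -- the relation in the new coordinates
    set P : MvPolynomial (Option (Fin m)) K := bind₁ (fun t => Ψ (Fin.castLE hm' t)) P₀ with hP
    have hPh : P.IsHomogeneous b₀ := by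
      have := bind_hom (f := fun t => Ψ (Fin.castLE hm' t)) (fun t => hΨh _) hP₀
      rwa [one_mul] at this
    have hlead : coeff (Finsupp.single none b₀) P ≠ 0 := by
      rw [← extr_coeff P b₀ hPh, hP, eval_bind]
      intro h0
      apply ha
      rw [← h0]
      congr 2
      funext t
      rw [hΨ, ← hAc t]
      simp only [map_add, map_mul, eval_C, eval_X]
      rcases finSuccEquiv' s' (Fin.castLE hm' t) with _ | t'
      · simp
      · simp
    obtain ⟨𝔓, S'', h𝔓, hS'', hcard', hvan', hHF'⟩ := lift_prime h𝔭' b₀ hb₀ P hPh hlead y' S'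
      (fun n hn => ⟨fun G hG => hvan G hG n hn, by
        rw [hP, eval_bind]
        have h1 := hP₀S n (hS'S hn)
        rw [eval_bind] at h1
        rw [← h1]
        congr 2
        funext t
        rw [hy'Ψ, eval_X]⟩)
    refine ⟨𝔓.comap (bind₁ Ψ), S'', hprime_comap' h𝔓 Ψ 1 le_rfl hΨh, hS''.trans hS'S, ?_, ?_, ?_⟩
    · calc S.card ≤ b₀ ^ m * S'.card := hcard
        _ ≤ b₀ ^ m * (b₀ * S''.card) := Nat.mul_le_mul_left _ hcard'
        _ = b₀ ^ (m + 1) * S''.card := by rw [pow_succ, mul_assoc]
    · intro G hG n hn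
      have h1 := hvan' (bind₁ Ψ G) (Ideal.mem_comap.1 hG) n hn
      rw [eval_bind] at h1
      rw [← h1]
      congr 2
      funext i
      rw [hy'Ψ]
    · intro b
      have h1 := HF_comap' 𝔓 Ψ 1 hΨh b
      rw [one_mul] at h1
      calc HF (𝔓.comap (bind₁ Ψ)) b ≤ HF 𝔓 b := h1
        _ ≤ ∑ e ∈ Finset.range b₀, if e ≤ b then HF 𝔭' (b - e) else 0 := hHF' b
        _ ≤ ∑ _e ∈ Finset.range b₀, b₀ ^ m * (b + 1) ^ w := by
          refine Finset.sum_le_sum fun e _ => ?_
          split_ifs
          · exact (hHF (b - e)).trans (Nat.mul_le_mul_left _ (Nat.pow_le_pow_left (by omega) w))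
          · exact Nat.zero_le _
        _ = b₀ ^ (m + 1) * (b + 1) ^ w := by
          rw [Finset.sum_const, Finset.card_range, smul_eq_mul, pow_succ]
          ring

end Pool.Agent.GE
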