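import Pool.Agent.GE.Defs
import Pool.Agent.GT.Tools
import Pool.Agent.GT.Drop

/-!
Project GE (MP_e3c919_ag), row E2: the ideal of a finite set of points and its Hilbert function
(helper49).
-/

set_option autoImplicit false

open Filter MvPolynomial

namespace Pool.Agent.GE

open Pool.Agent.GT

/-- membership in `IS` -/
theorem is_mem {K ι : Type} [Field K] (y : ℕ → ι → K) (S : Finset ℕ) (G : MvPolynomial ι K) :
    G ∈ IS y S ↔ ∀ n ∈ S, ∀ t : K, eval (fun i => t * y n i) G = 0 := by
  simp only [IS, Submodule.mem_iInf, RingHom.mem_ker]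

theorem mem_IS_form {K ι : Type} [Field K] (y : ℕ → ι → K) (S : Finset ℕ) (b : ℕ)
    (G : MvPolynomial ι K) (hG : G.IsHomogeneous b) :
    G ∈ IS y S ↔ ∀ n ∈ S, eval (y n) G = 0 := by
  rw [is_mem]
  constructor
  · intro h n hn
    have h1 := h n hn 1
    simpa using h1
  · intro h n hn t
    rw [eval_smul_form hG, h n hn, mul_zero]

/-- the values on a line through the origin -/
theorem is_line {K ι : Type} [Field K] (z : ι → K) (G : MvPolynomial ι K) (t : K) :
    eval (fun i => t * z i) G = Polynomial.eval t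
      (∑ b ∈ Finset.range (G.totalDegree + 1),
        Polynomial.C (eval z (homogeneousComponent b G)) * Polynomial.X ^ b) := by
  conv_lhs => rw [← sum_homogeneousComponent G]
  rw [map_sum, Polynomial.eval_finset_sum]
  refine Finset.sum_congr rfl fun b _ => ?_
  rw [eval_smul_form (homogeneousComponent_isHomogeneous b G)]
  simp only [Polynomial.eval_mul, Polynomial.eval_C, Polynomial.eval_pow, Polynomial.eval_X]
  ring

theorem IS_comp {K ι : Type} [Field K] [Infinite K] (y : ℕ → ι → K) (S : Finset ℕ) :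
    ∀ G ∈ IS y S, ∀ b, homogeneousComponent b G ∈ IS y S := by
  intro G hG b
  rw [mem_IS_form y S b _ (homogeneousComponent_isHomogeneous b G)]
  intro n hn
  rw [is_mem] at hG
  rcases Nat.lt_or_ge G.totalDegree b with hb | hb
  · rw [homogeneousComponent_eq_zero _ _ hb, map_zero]
  · have h1 : (∑ b ∈ Finset.range (G.totalDegree + 1),
        Polynomial.C (eval (y n) (homogeneousComponent b G)) * Polynomial.X ^ b) = 0 := by
      refine Polynomial.funext fun t => ?_
      rw [← is_line, hG n hn t, Polynomial.eval_zero]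
    have h2 := congrArg (fun p => Polynomial.coeff p b) h1
    simp only [Polynomial.finset_sum_coeff, Polynomial.coeff_C_mul, Polynomial.coeff_X_pow,
      Polynomial.coeff_zero] at h2
    rw [Finset.sum_eq_single b] at h2
    · simpa using h2
    · intro c _ hc
      rw [if_neg (fun h => hc h.symm), mul_zero]
    · intro h
      exact absurd (Finset.mem_range.2 (by omega)) h

/-- ranks and kernels -/
theorem is_rank {K V W W' : Type} [Field K] [AddCommGroup V] [Module K V] [Module.Finite K V]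
    [AddCommGroup W] [Module K W] [AddCommGroup W'] [Module K W'] (f : V →ₗ[K] W)
    (g : V →ₗ[K] W') (h : LinearMap.ker g ≤ LinearMap.ker f) :
    Module.finrank K (LinearMap.range f) ≤ Module.finrank K (LinearMap.range g) := by
  have h1 := LinearMap.finrank_range_add_finrank_ker f
  have h2 := LinearMap.finrank_range_add_finrank_ker g
  have h3 := Submodule.finrank_mono h
  omega

/-- the Hilbert function as the rank of a map -/
theorem is_HF {K ι : Type} [Field K] (I : Ideal (MvPolynomial ι K)) (b : ℕ) :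
    HF I b = Module.finrank K (LinearMap.range
      ((Ideal.Quotient.mkₐ K I).toLinearMap.domRestrict (homogeneousSubmodule ι K b))) := by
  unfold HF rk
  rw [LinearMap.range_domRestrict]

theorem is_ker {K ι : Type} [Field K] (I : Ideal (MvPolynomial ι K)) (b : ℕ)
    (v : homogeneousSubmodule ι K b) :
    v ∈ LinearMap.ker
      ((Ideal.Quotient.mkₐ K I).toLinearMap.domRestrict (homogeneousSubmodule ι K b)) ↔
      (v : MvPolynomial ι K) ∈ I := by
  rw [LinearMap.mem_ker, LinearMap.domRestrict_apply]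
  exact Ideal.Quotient.eq_zero_iff_mem

theorem is_fin {K ι : Type} [Field K] [Finite ι] (b : ℕ) :
    Module.Finite K (homogeneousSubmodule ι K b) :=
  Module.Finite.iff_fg.mpr (homogeneousSubmodule_fg (σ := ι) (R := K) b)

theorem HF_IS_le {K ι : Type} [Field K] [Finite ι] (y : ℕ → ι → K) (S : Finset ℕ)
    (I : Ideal (MvPolynomial ι K)) (b : ℕ)
    (h : ∀ G ∈ I, G.IsHomogeneous b → ∀ n ∈ S, eval (y n) G = 0) :
    HF (IS y S) b ≤ HF I b := by
  have := is_fin (K := K) (ι := ι) b
  rw [is_HF, is_HF]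
  refine is_rank _ _ fun v hv => ?_
  rw [is_ker] at hv ⊢
  have hb : (v : MvPolynomial ι K).IsHomogeneous b := (mem_homogeneousSubmodule _ _).1 v.2
  rw [mem_IS_form y S b _ hb]
  exact h _ hv hb

/-- a linear form which does not vanish at the given points -/
theorem is_lin {K ι : Type} [Field K] [Infinite K] [Finite ι] (y : ℕ → ι → K)
    (S : Finset ℕ) (hy : ∀ n ∈ S, y n ≠ 0) :
    ∃ l : MvPolynomial ι K, l.IsHomogeneous 1 ∧ ∀ n ∈ S, eval (y n) l ≠ 0 := by
  classical
  have := Fintype.ofFinite ι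
  -- the polynomials in the coefficients of the form
  have h1 : (∏ n ∈ S, ∑ i, C (y n i) * X i : MvPolynomial ι K) ≠ 0 := by
    rw [Finset.prod_ne_zero_iff]
    intro n hn h0
    obtain ⟨j, hj⟩ := Function.ne_iff.1 (hy n hn)
    apply hj
    have h2 := congrArg (eval (Pi.single j (1 : K))) h0
    simp only [map_sum, map_mul, eval_C, eval_X, map_zero] at h2
    rw [Finset.sum_eq_single j] at h2
    · simpa using h2
    · intro i _ hi
      rw [Pi.single_eq_of_ne hi, mul_zero]
    · intro h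
      exact absurd (Finset.mem_univ j) h
  obtain ⟨a, ha⟩ : ∃ a : ι → K, eval a (∏ n ∈ S, ∑ i, C (y n i) * X i : MvPolynomial ι K) ≠ 0 := by
    by_contra hc
    push Not at hc
    refine h1 (MvPolynomial.funext fun x => ?_)
    rw [hc x, map_zero]
  rw [map_prod, Finset.prod_ne_zero_iff] at ha
  refine ⟨∑ i, C (a i) * X i, ?_, fun n hn => ?_⟩
  · refine IsHomogeneous.sum _ _ _ fun i _ => ?_
    have h2 := (isHomogeneous_C ι (a i)).mul (isHomogeneous_X K i)
    rwa [zero_add] at h2
  · have h2 := ha n hn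
    simp only [map_sum, map_mul, eval_C, eval_X] at h2 ⊢
    intro h3
    apply h2
    rw [← h3]
    exact Finset.sum_congr rfl fun i _ => mul_comm _ _

theorem HF_IS_mono {K ι : Type} [Field K] [Infinite K] [Finite ι] (y : ℕ → ι → K)
    (S : Finset ℕ) (hy : ∀ n ∈ S, y n ≠ 0) {b b' : ℕ} (hb : b ≤ b') :
    HF (IS y S) b ≤ HF (IS y S) b' := by
  obtain ⟨l, hl, hl0⟩ := is_lin y S hy
  refine monotone_nat_of_le_succ (f := HF (IS y S)) (fun b => ?_) hb
  have := is_fin (K := K) (ι := ι) b
  have := is_fin (K := K) (ι := ι) (b + 1)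
  rw [is_HF, is_HF]
  set f := (Ideal.Quotient.mkₐ K (IS y S)).toLinearMap.domRestrict (homogeneousSubmodule ι K b)
    with hf
  set g := (Ideal.Quotient.mkₐ K (IS y S)).toLinearMap.domRestrict
    (homogeneousSubmodule ι K (b + 1)) with hg
  have hmul : ∀ v ∈ homogeneousSubmodule ι K b,
      LinearMap.mulLeft K l v ∈ homogeneousSubmodule ι K (b + 1) := by
    intro v hv
    rw [mem_homogeneousSubmodule] at hv ⊢
    have h1 := hl.mul hv
    rw [add_comm] at h1
    exact h1
  set m : homogeneousSubmodule ι K b →ₗ[K] homogeneousSubmodule ι K (b + 1) :=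
    (LinearMap.mulLeft K l).restrict hmul with hm
  have h1 : Module.finrank K (LinearMap.range f) ≤
      Module.finrank K (LinearMap.range (g.comp m)) := by
    refine is_rank _ _ fun v hv => ?_
    have hv1 : m v ∈ LinearMap.ker g := by
      rw [LinearMap.mem_ker] at hv ⊢
      exact hv
    rw [hg, is_ker] at hv1
    rw [hf, is_ker]
    have hb1 : (v : MvPolynomial ι K).IsHomogeneous b := (mem_homogeneousSubmodule _ _).1 v.2
    have hb2 : ((m v : homogeneousSubmodule ι K (b + 1)) : MvPolynomial ι K).IsHomogeneous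
      (b + 1) := (mem_homogeneousSubmodule _ _).1 (m v).2
    rw [mem_IS_form y S (b + 1) _ hb2] at hv1
    rw [mem_IS_form y S b _ hb1]
    intro n hn
    have h2 := hv1 n hn
    have h3 : ((m v : homogeneousSubmodule ι K (b + 1)) : MvPolynomial ι K) = l * v := rfl
    rw [h3, map_mul] at h2
    exact (mul_eq_zero.1 h2).resolve_left (hl0 n hn)
  refine h1.trans (Submodule.finrank_mono ?_)
  exact LinearMap.range_comp_le_range m g

theorem is_step {K ι : Type} [Field K] [Infinite K] [Finite ι] (y : ℕ → ι → K)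
    {𝔭 : Ideal (MvPolynomial ι K)} (h𝔭 : HPrime 𝔭) (g : ℕ)
    (G : MvPolynomial ι K) (hG : G.IsHomogeneous g) (hG𝔭 : G ∉ 𝔭) (e : ℕ) (S : Finset ℕ)
    (hS : ∀ P ∈ 𝔭, P.IsHomogeneous (e + g) → ∀ n ∈ S, eval (y n) P = 0)
    (hGS : ∀ n ∈ S, eval (y n) G = 0) :
    HF (IS y S) (e + g) + HF 𝔭 e ≤ HF 𝔭 (e + g) := by
  have h1 := drop_step (𝔮 := 𝔭 ⊔ Ideal.span {G}) h𝔭 le_sup_left g G hG
    (Ideal.mem_sup_right (Ideal.mem_span_singleton_self G)) hG𝔭 e
  refine le_trans (Nat.add_le_add_right ?_ _) h1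
  refine HF_IS_le y S _ _ ?_
  intro P hP hPh n hn
  obtain ⟨P₁, hP₁, P₂, hP₂, rfl⟩ := Submodule.mem_sup.1 hP
  obtain ⟨Q, rfl⟩ := Ideal.mem_span_singleton'.1 hP₂
  have h2 : homogeneousComponent (e + g) (P₁ + Q * G) = P₁ + Q * G := by
    rw [homogeneousComponent_of_mem ((mem_homogeneousSubmodule _ _).2 hPh), if_pos rfl]
  have h3 : G ∈ IS y S := (mem_IS_form y S g G hG).2 hGS
  have h4 : homogeneousComponent (e + g) (Q * G) ∈ IS y S :=
    IS_comp y S _ (Ideal.mul_mem_left _ _ h3) _
  rw [mem_IS_form y S (e + g) _ (homogeneousComponent_isHomogeneous _ _)] at h4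
  rw [← h2, map_add, map_add, hS _ (h𝔭.comp _ hP₁ _) (homogeneousComponent_isHomogeneous _ _) n hn,
    h4 n hn, add_zero]

theorem drop_set {K ι : Type} [Field K] [Infinite K] [Finite ι] (y : ℕ → ι → K)
    {𝔭 : Ideal (MvPolynomial ι K)} (h𝔭 : HPrime 𝔭) (w c : ℕ) (hc : HBc 𝔭 (w + 1) c) (g : ℕ)
    (G : MvPolynomial ι K) (hG : G.IsHomogeneous g) (hG𝔭 : G ∉ 𝔭) (b : ℕ) (S : Finset ℕ)
    (hy : ∀ n ∈ S, y n ≠ 0)
    (hS : ∀ e ≤ 2 * b, ∀ P ∈ 𝔭, P.IsHomogeneous e → ∀ n ∈ S, eval (y n) P = 0)
    (hGS : ∀ n ∈ S, eval (y n) G = 0) :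
    b * HF (IS y S) b ≤ g * c * 2 ^ w * b ^ w := by
  rcases Nat.eq_zero_or_pos b with rfl | hb
  · rw [zero_mul]
    exact Nat.zero_le _
  rcases Nat.eq_zero_or_pos g with rfl | hg
  · -- a nonzero constant
    have h1 : G = C (coeff 0 G) := (totalDegree_eq_zero_iff_eq_C).1
      (Nat.le_zero.1 hG.totalDegree_le)
    have h2 : S = ∅ := by
      rw [Finset.eq_empty_iff_forall_notMem]
      intro n hn
      have h3 := hGS n hn
      rw [h1, eval_C] at h3
      apply hG𝔭
      rw [h1, h3, C_0]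
      exact 𝔭.zero_mem
    subst h2
    have h3 := HF_IS_le y ∅ ⊤ b (by simp)
    have h4 : HF (⊤ : Ideal (MvPolynomial ι K)) b = 0 := by
      unfold HF rk
      have : Subsingleton (MvPolynomial ι K ⧸ (⊤ : Ideal (MvPolynomial ι K))) :=
        Ideal.Quotient.subsingleton_iff.2 rfl
      exact Module.finrank_zero_of_subsingleton
    have h5 : HF (IS y ∅) b = 0 := by omega
    rw [h5, mul_zero]
    exact Nat.zero_le _
  have hmono : ∀ {e : ℕ}, b ≤ e → HF (IS y S) b ≤ HF (IS y S) e := fun h => HF_IS_mono y S hy h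
  have hind : ∀ i, i * g ≤ b → i * HF (IS y S) b + HF 𝔭 (2 * b - i * g) ≤ HF 𝔭 (2 * b) := by
    intro i
    induction i with
    | zero => intro _; simp
    | succ i ih =>
      intro hi
      have hi1 : (i + 1) * g = i * g + g := by ring
      rw [hi1] at hi ⊢
      have h1 := ih (by omega)
      have h2 := is_step y h𝔭 g G hG hG𝔭 (2 * b - (i * g + g)) S
        (fun P hP hPh => hS _ (by omega) P hP hPh) hGS
      have h3 : 2 * b - (i * g + g) + g = 2 * b - i * g := by omega
      rw [h3] at h2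
      have h4 := hmono (e := 2 * b - i * g) (by omega)
      rw [add_mul, one_mul]
      omega
  have h1 := hind (b / g) (Nat.div_mul_le_self b g)
  have h2 : b / g * g ≤ b := Nat.div_mul_le_self b g
  have h3 := hmono (e := 2 * b - b / g * g) (by omega)
  have h4 : HF (IS y S) (2 * b - b / g * g) ≤ HF 𝔭 (2 * b - b / g * g) :=
    HF_IS_le y S 𝔭 _ fun P hP hPh => hS _ (by omega) P hP hPh
  have h5 : (b / g + 1) * HF (IS y S) b ≤ HF 𝔭 (2 * b) := by
    rw [add_mul, one_mul]
    omega
  have h6 : b ≤ (b / g + 1) * g := by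
    have h7 := Nat.div_add_mod b g
    have h8 := Nat.mod_lt b hg
    have h9 : (b / g + 1) * g = g * (b / g) + g := by ring
    omega
  have h7 := hc (2 * b)
  have h8 : HF 𝔭 (2 * b) ≤ c * (2 * b) ^ w := by
    refine Nat.le_of_mul_le_mul_left ?_ (show 0 < 2 * b by omega)
    calc 2 * b * HF 𝔭 (2 * b) ≤ c * (2 * b) ^ (w + 1) := h7
      _ = 2 * b * (c * (2 * b) ^ w) := by ring
  calc b * HF (IS y S) b ≤ (b / g + 1) * g * HF (IS y S) b := Nat.mul_le_mul_right _ h6
    _ = g * ((b / g + 1) * HF (IS y S) b) := by ring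
    _ ≤ g * HF 𝔭 (2 * b) := Nat.mul_le_mul_left _ h5
    _ ≤ g * (c * (2 * b) ^ w) := Nat.mul_le_mul_left _ h8
    _ = g * c * 2 ^ w * b ^ w := by rw [mul_pow]; ring

end Pool.Agent.GE
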