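import Pool.Agent.GE.Comap
import Pool.Agent.GE.IS
import Pool.Agent.GE.Extract
import Pool.Agent.GE.Count
import Pool.Agent.GT.Tools

/-!
Extraction of a homogeneous prime of small Hilbert function which vanishes at many points.
-/

set_option autoImplicit false
set_option maxHeartbeats 400000

open Filter MvPolynomial Height Height.AdmissibleAbsValues

namespace Pool.Agent.GE

open Pool.Agent.GT

theorem Extract2_bz_pos (w c : ℕ) : 1 ≤ bz w c := by
  unfold bz
  exact Nat.mul_pos (Nat.succ_pos _) (Nat.succ_pos _)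

theorem extract {K ι : Type} [Field K] [Infinite K] [Fintype ι] (w c : ℕ) (y : ℕ → ι → K)
    (S : Finset ℕ) (hc : bz w c * HF (IS y S) (bz w c) ≤ c * bz w c ^ (w + 1)) :
    ∃ (𝔭 : Ideal (MvPolynomial ι K)) (S' : Finset ℕ), HPrime 𝔭 ∧ S' ⊆ S ∧
      S.card ≤ bz w c ^ Fintype.card ι * S'.card ∧ (∀ G ∈ 𝔭, ∀ n ∈ S', eval (y n) G = 0) ∧
      HBc 𝔭 (w + 1) (bz w c ^ Fintype.card ι * 2 ^ w) := by
  classical
  have e : ι ≃ Fin (Fintype.card ι) := Fintype.equivFin ι
  obtain ⟨𝔭, S', h𝔭, hsub, hcard, hvan, hHF⟩ :=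
    extract_fin w (bz w c) (Extract2_bz_pos w c) (Fintype.card ι)
      (fun n j => y n (e.symm j)) S (by
        intro ℓ hℓ
        have hℓ' : ∀ t, (rename e.symm (ℓ t)).IsHomogeneous 1 := fun t =>
          (hℓ t).rename_isHomogeneous
        obtain ⟨P, hP, hP0, hPI⟩ :=
          exists_form_relation (IS y S) w c hc (fun t => rename e.symm (ℓ t)) hℓ'
        refine ⟨P, hP, hP0, fun n hn => ?_⟩
        have h1 := (mem_IS_form y S _ _ (bind_hom hℓ' hP)).mp hPI n hn
        rw [eval_bind] at h1 ⊢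
        rw [← h1]
        congr 1
        congr 1
        funext t
        rw [MvPolynomial.eval_rename]
        rfl)
  have hΦ : ∀ i, (X (e i) : MvPolynomial (Fin (Fintype.card ι)) K).IsHomogeneous 1 := fun i =>
    isHomogeneous_X K (e i)
  refine ⟨𝔭.comap (bind₁ fun i => X (e i)), S',
    hprime_comap' h𝔭 (fun i => X (e i)) 1 le_rfl hΦ, hsub, hcard, ?_, ?_⟩
  · intro G hG n hn
    have h1 := hvan _ (Ideal.mem_comap.mp hG) n hn
    rw [eval_bind] at h1
    simpa using h1
  · intro b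
    rcases Nat.eq_zero_or_pos b with rfl | hb
    · simp
    · have h1 := HF_comap' 𝔭 (fun i => X (e i)) 1 hΦ b
      rw [one_mul] at h1
      have h2 : HF (𝔭.comap (bind₁ fun i => X (e i))) b ≤
          bz w c ^ Fintype.card ι * (b + 1) ^ w := h1.trans (hHF b)
      have h3 : (b + 1) ^ w ≤ (2 * b) ^ w := Nat.pow_le_pow_left (by omega) w
      calc b * HF (𝔭.comap (bind₁ fun i => X (e i))) b
          ≤ b * (bz w c ^ Fintype.card ι * (2 * b) ^ w) :=
            Nat.mul_le_mul_left _ (h2.trans (Nat.mul_le_mul_left _ h3))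
        _ = bz w c ^ Fintype.card ι * 2 ^ w * b ^ (w + 1) := by
            rw [mul_pow]; ring

end Pool.Agent.GE
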