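import Pool.Agent.GE.SetupEff
import Pool.Agent.GE.Extract2
import Pool.Agent.GT.PrimeAbove

/-!
Families of primes, few zeros.
-/

set_option autoImplicit false

open Filter MvPolynomial

namespace Pool.Agent.GE

open Pool.Agent.GT

theorem small_bz {σ : ℕ → ℕ} (hσ : Inf σ) (w : ℕ) (c : ℕ → ℕ) (hc : Small σ fun k => c k) :
    Small σ fun k => (bz w (c k) : ℕ) := by
  have h1 : Small σ fun k => ((w : ℝ) + 1) * ((c k : ℝ) * ((w : ℝ) + 1) ^ w + 1) := by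
    refine small_mul hσ (Eventually.of_forall fun k => by positivity)
      (Eventually.of_forall fun k => by positivity) (small_const hσ _) ?_
    refine small_add hσ ?_ (small_const hσ 1)
    exact small_mul hσ (Eventually.of_forall fun k => by positivity)
      (Eventually.of_forall fun k => by positivity) hc (small_const hσ _)
  refine small_of_le (Eventually.of_forall fun k => le_of_eq ?_) h1
  unfold bz
  push_cast
  rfl

theorem extract_seq {K ι : Type} [Field K] [Infinite K] [Fintype ι] {σ : ℕ → ℕ} (hσ : Inf σ)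
    (y : ℕ → ℕ → ι → K) (w : ℕ) (θ : ℝ) (S : ℕ → Finset ℕ) (hL : LargeS σ θ S)
    (hHB : HBf σ y S (w + 1)) :
    ∃ (𝔭 : ℕ → Ideal (MvPolynomial ι K)) (S' : ℕ → Finset ℕ) (c : ℕ → ℕ),
      Small σ (fun k => c k) ∧ LargeS σ θ S' ∧
      ∀ᶠ k in U, S' k ⊆ S k ∧ HPrime (𝔭 k) ∧ (∀ G ∈ 𝔭 k, ∀ n ∈ S' k, eval (y k n) G = 0) ∧
        HBc (𝔭 k) (w + 1) (c k) := by
  obtain ⟨c, hc, h1⟩ := hHB
  have h2 := h1 (fun k => bz w (c k)) (small_bz hσ w c hc)
  have h3 : ∀ᶠ k in U, ∃ q : Ideal (MvPolynomial ι K) × Finset ℕ, HPrime q.1 ∧ q.2 ⊆ S k ∧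
      (S k).card ≤ bz w (c k) ^ Fintype.card ι * q.2.card ∧
      (∀ G ∈ q.1, ∀ n ∈ q.2, eval (y k n) G = 0) ∧
      HBc q.1 (w + 1) (bz w (c k) ^ Fintype.card ι * 2 ^ w) := by
    filter_upwards [h2] with k hk
    obtain ⟨𝔭, S', h4, h5, h6, h7, h8⟩ := extract w (c k) (y k) (S k) hk
    exact ⟨(𝔭, S'), h4, h5, h6, h7, h8⟩
  obtain ⟨q, hq⟩ := exists_fun h3
  have hsm : Small σ fun k => ((bz w (c k) : ℕ) : ℝ) ^ Fintype.card ι :=
    small_pow hσ (Eventually.of_forall fun k => Nat.cast_nonneg _) (small_bz hσ w c hc) _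
  refine ⟨fun k => (q k).1, fun k => (q k).2, fun k => bz w (c k) ^ Fintype.card ι * 2 ^ w,
    ?_, ?_, ?_⟩
  · refine small_of_le (Eventually.of_forall fun k => le_of_eq ?_)
      (small_mul hσ (Eventually.of_forall fun k => by positivity)
        (Eventually.of_forall fun k => by positivity) hsm (small_const hσ ((2 : ℝ) ^ w)))
    push_cast
    rfl
  · refine largeS_factor hσ hL _ hsm ?_
    filter_upwards [hq] with k hk
    exact_mod_cast hk.2.2.1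
  · filter_upwards [hq] with k hk
    exact ⟨hk.2.1, hk.1, hk.2.2.2.1, hk.2.2.2.2⟩

/-- forms of small degree which vanish on a large family lie in the prime -/
theorem few_large {K ι : Type} [Field K] [Infinite K] [Finite ι] {σ : ℕ → ℕ} (hσ : Inf σ)
    (y : ℕ → ℕ → ι → K) (hy : ∀ k n, y k n ≠ 0) (w : ℕ) (θ : ℝ) (hmin : MinF σ y w θ) (κ : ℕ)
    (Z : ℕ → Finset ℕ) (hZ : InWS σ κ Z) (hZL : LargeS σ θ Z)
    (𝔭 : ℕ → Ideal (MvPolynomial ι K)) (c : ℕ → ℕ) (hc : Small σ fun k => c k)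
    (h𝔭 : ∀ᶠ k in U, HPrime (𝔭 k) ∧ HBc (𝔭 k) (w + 1) (c k))
    (hv : ∀ b : ℕ → ℕ, Small σ (fun k => b k) → ∀ᶠ k in U, ∀ e ≤ b k, ∀ P ∈ 𝔭 k,
      P.IsHomogeneous e → ∀ n ∈ Z k, eval (y k n) P = 0)
    (g : ℕ → ℕ) (hg : Small σ fun k => g k) (e : ℕ → ℕ) (G : ℕ → MvPolynomial ι K) :
    ∀ᶠ k in U, e k ≤ g k → (G k).IsHomogeneous (e k) → (∀ n ∈ Z k, eval (y k n) (G k) = 0) →
      G k ∈ 𝔭 k := by
  by_contra hcon
  rw [ev_not] at hcon
  refine hmin κ Z hZ hZL ⟨fun k => g k * c k * 2 ^ w, ?_, ?_⟩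
  · refine small_of_le (Eventually.of_forall fun k => le_of_eq ?_)
      (small_mul hσ (Eventually.of_forall fun k => by positivity)
        (Eventually.of_forall fun k => by positivity)
        (small_mul hσ (Eventually.of_forall fun k => by positivity)
          (Eventually.of_forall fun k => by positivity) hg hc) (small_const hσ ((2 : ℝ) ^ w)))
    push_cast
    rfl
  · intro b hb
    have hb2 : Small σ fun k => ((2 * b k : ℕ) : ℝ) := by
      refine small_of_le (Eventually.of_forall fun k => le_of_eq ?_)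
        (small_mul hσ (Eventually.of_forall fun k => by positivity)
          (Eventually.of_forall fun k => by positivity) (small_const hσ 2) hb)
      push_cast
      rfl
    filter_upwards [hcon, h𝔭, hv _ hb2] with k h1 h2 h3
    push Not at h1
    obtain ⟨h4, h5, h6, h7⟩ := h1
    have h8 := drop_set (y k) h2.1 w (c k) h2.2 (e k) (G k) h5 h7 (b k) (Z k) (fun n _ => hy k n)
      h3 h6
    refine h8.trans ?_
    gcongr

/-- few zeros -/
theorem few_zeros_eff {K ι : Type} [Field K] [Infinite K] [Finite ι] {σ : ℕ → ℕ} (hσ : Inf σ)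
    (y : ℕ → ℕ → ι → K) (hy : ∀ k n, y k n ≠ 0) (w : ℕ) (θ : ℝ) (hmin : MinF σ y w θ) (κ : ℕ)
    (S : ℕ → Finset ℕ) (hS : InWS σ κ S)
    (𝔭 : ℕ → Ideal (MvPolynomial ι K)) (c : ℕ → ℕ) (hc : Small σ fun k => c k)
    (h𝔭 : ∀ᶠ k in U, HPrime (𝔭 k) ∧ HBc (𝔭 k) (w + 1) (c k))
    (hv : ∀ᶠ k in U, ∀ G ∈ 𝔭 k, ∀ n ∈ S k, eval (y k n) G = 0)
    (g : ℕ → ℕ) (hg : Small σ fun k => g k) :
    ∀ᶠ k in U, ∀ e ≤ g k, ∀ G : MvPolynomial ι K, G.IsHomogeneous e → G ∉ 𝔭 k →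
      ∀ Z ⊆ S k, (∀ n ∈ Z, eval (y k n) G = 0) → (Z.card : ℝ) < (σ k : ℝ) ^ (1 - θ) := by
  by_contra hcon
  rw [ev_not] at hcon
  have h1 : ∀ᶠ k in U, ∃ q : ℕ × MvPolynomial ι K × Finset ℕ, q.1 ≤ g k ∧
      q.2.1.IsHomogeneous q.1 ∧ q.2.1 ∉ 𝔭 k ∧ q.2.2 ⊆ S k ∧
      (∀ n ∈ q.2.2, eval (y k n) q.2.1 = 0) ∧ (σ k : ℝ) ^ (1 - θ) ≤ (q.2.2.card : ℝ) := by
    filter_upwards [hcon] with k hk
    push Not at hk
    obtain ⟨e, h2, G, h3, h4, Z, h5, h6, h7⟩ := hk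
    exact ⟨(e, G, Z), h2, h3, h4, h5, h6, h7⟩
  obtain ⟨q, hq⟩ := exists_fun h1
  have h2 := few_large hσ y hy w θ hmin κ (fun k => (q k).2.2) (by
      unfold InWS
      filter_upwards [hS, hq] with k h3 h4 n hn
      exact h3 n (h4.2.2.2.1 hn)) (by
      intro ε hε
      filter_upwards [hq, hσ 1] with k h3 h4
      refine le_trans ?_ h3.2.2.2.2.2
      exact Real.rpow_le_rpow_of_exponent_le (by exact_mod_cast h4) (by linarith))
    𝔭 c hc h𝔭 (by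
      intro b _
      filter_upwards [hv, hq] with k h3 h4 e _ P hP _ n hn
      exact h3 P hP n (h4.2.2.2.1 hn)) g hg (fun k => (q k).1) (fun k => (q k).2.1)
  obtain ⟨k, h3, h4⟩ := (h2.and hq).exists
  exact h4.2.2.1 (h3 h4.1 h4.2.1 h4.2.2.2.2.1)

theorem van_sh {K ι : Type} [Field K] {y : ℕ → ι → K} {𝔭 : Ideal (MvPolynomial ι K)}
    (S : Finset ℕ) (hv : ∀ G ∈ 𝔭, ∀ n ∈ S, eval (y n) G = 0) (l : ℕ)
    (Φ : ι → MvPolynomial ι K) (e : ℕ) (G : MvPolynomial ι K) (hG : G.IsHomogeneous e)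
    (h : bind₁ Φ G ∈ 𝔭) : ∀ n ∈ sh y S l Φ, eval (y n) G = 0 := by
  classical
  intro n hn
  unfold sh at hn
  obtain ⟨n', hn', rfl⟩ := Finset.mem_image.mp hn
  rw [Finset.mem_sdiff] at hn'
  have h1 := hv _ h n' hn'.1
  have h2 : ∃ c : K, c ≠ 0 ∧ ∀ i, eval (y n') (Φ i) = c * y (n' + l) i := by
    by_contra hcon
    exact hn'.2 (Finset.mem_filter.mpr ⟨hn'.1, hcon⟩)
  obtain ⟨c, hc, h3⟩ := h2
  rw [eval_bind, show (fun i => eval (y n') (Φ i)) = fun i => c * y (n' + l) i from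
    funext h3, eval_smul_form hG] at h1
  exact (mul_eq_zero.mp h1).resolve_left (pow_ne_zero _ hc)

theorem card_sh {K ι : Type} [Field K] (y : ℕ → ι → K) (S : Finset ℕ) (l : ℕ)
    (Φ : ι → MvPolynomial ι K) :
    ((sh y S l Φ).card : ℝ) = (S.card : ℝ) - ((bad y S l Φ).card : ℝ) := by
  classical
  have h1 : (sh y S l Φ).card = (S \ bad y S l Φ).card :=
    Finset.card_image_of_injective _ fun a b hab => Nat.add_right_cancel hab
  have h2 : bad y S l Φ ⊆ S := Finset.filter_subset _ _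
  have h3 := Finset.card_sdiff_add_card_eq_card h2
  rw [h1, ← h3]
  push_cast
  ring

theorem HBc_comap {k ι : Type} [Field k] [Finite ι] {𝔭 : Ideal (MvPolynomial ι k)} (w c a C : ℕ)
    (ha : 1 ≤ a) (haC : a ≤ C) (hc : HBc 𝔭 (w + 1) c) (Φ : ι → MvPolynomial ι k)
    (hΦ : ∀ i, (Φ i).IsHomogeneous a) :
    HBc (𝔭.comap (bind₁ Φ)) (w + 1) (c * C ^ (w + 1)) := by
  intro b
  calc b * HF (𝔭.comap (bind₁ Φ)) b ≤ b * HF 𝔭 (a * b) :=
        Nat.mul_le_mul_left _ (HF_comap 𝔭 Φ a hΦ b)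
    _ ≤ (a * b) * HF 𝔭 (a * b) := Nat.mul_le_mul_right _ (Nat.le_mul_of_pos_left _ ha)
    _ ≤ c * (a * b) ^ (w + 1) := hc (a * b)
    _ ≤ c * (C * b) ^ (w + 1) := by gcongr
    _ = c * C ^ (w + 1) * b ^ (w + 1) := by rw [mul_pow]; ring

end Pool.Agent.GE
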