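import Pool.Agent.GE.Defs

/-!
Project GE (MP_e3c919_ag), row E12: a numeric lemma (helper54).
-/

set_option autoImplicit false

open Filter MvPolynomial

namespace Pool.Agent.GE

theorem exists_jt (m : ℕ) (η : ℝ) (hη : 0 < η) : ∃ C₀ : ℕ, ∀ R : ℝ, 1 ≤ R →
    ∃ j t : ℕ, 1 ≤ t ∧ 2 * R * j < η * t ∧ 2 * t ^ m ≤ 2 ^ j ∧
      (j : ℝ) ≤ C₀ * (1 + Real.log R) := by
  obtain ⟨A, hA⟩ := exists_nat_ge (2 / η + 1)
  have hA1 : (1 : ℝ) ≤ A := by
    have : 0 < 2 / η := by positivity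
    linarith
  -- the constant
  have hlim := tendsto_pow_const_div_const_pow_of_one_lt m (show (1 : ℝ) < 2 by norm_num)
  have hε : (0 : ℝ) < 1 / (2 * (8 * A) ^ m) := by positivity
  obtain ⟨C, hC, hC1⟩ := ((hlim.eventually (gt_mem_nhds hε)).and
    (eventually_ge_atTop 1)).exists
  have hCR : (1 : ℝ) ≤ C := by exact_mod_cast hC1
  have hC' : 2 * ((A : ℝ) * C) ^ m * 8 ^ m ≤ 2 ^ C := by
    have h1 : ((C : ℝ) ^ m / 2 ^ C) * (2 * (8 * A) ^ m) ≤ 1 := by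
      have h2 := mul_le_mul_of_nonneg_right hC.le (show (0 : ℝ) ≤ 2 * (8 * A) ^ m by positivity)
      rwa [one_div, inv_mul_cancel₀ (by positivity)] at h2
    have h3 : (0 : ℝ) < 2 ^ C := by positivity
    rw [div_mul_eq_mul_div, div_le_one h3] at h1
    calc 2 * ((A : ℝ) * C) ^ m * 8 ^ m = (C : ℝ) ^ m * (2 * (8 * A) ^ m) := by
          rw [mul_pow, mul_pow]; ring
      _ ≤ _ := h1
  refine ⟨2 * C, fun R hR => ?_⟩
  have hR0 : 0 < R := by linarith
  set L : ℝ := 1 + Real.log R with hL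
  have hL1 : 1 ≤ L := by
    have := Real.log_nonneg hR
    linarith
  set l : ℕ := ⌈L⌉₊ with hl
  have hl1 : L ≤ l := Nat.le_ceil L
  have hl2 : (l : ℝ) ≤ 2 * L := by
    have := Nat.ceil_lt_add_one (show 0 ≤ L by linarith)
    linarith
  have hl0 : 1 ≤ l := by
    have : (1 : ℝ) ≤ l := hL1.trans hl1
    exact_mod_cast this
  -- R is at most 4 ^ l
  have hR4 : R ≤ 4 ^ l := by
    have h1 : Real.log R ≤ l := by linarith
    have h2 : R ≤ Real.exp l := by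
      rw [← Real.exp_log hR0]
      exact Real.exp_le_exp.2 h1
    have h3 : Real.exp (l : ℝ) = Real.exp 1 ^ l := by
      rw [← Real.exp_nat_mul, mul_one]
    have h4 : Real.exp 1 ≤ 4 := by
      have := Real.exp_one_lt_d9
      linarith
    rw [h3] at h2
    exact h2.trans (pow_le_pow_left₀ (Real.exp_pos 1).le h4 l)
  have hl3 : (l : ℝ) ≤ 2 ^ l := by
    exact_mod_cast (Nat.lt_two_pow_self (n := l)).le
  have hj1 : (1 : ℝ) ≤ ((C * l : ℕ) : ℝ) := by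
    exact_mod_cast Nat.one_le_iff_ne_zero.2 (by positivity)
  set x : ℝ := 2 * R * ((C * l : ℕ) : ℝ) / η with hx
  have hx0 : 0 ≤ x := by positivity
  refine ⟨C * l, ⌊x⌋₊ + 1, by omega, ?_, ?_, ?_⟩
  · have h1 : x < (⌊x⌋₊ + 1 : ℕ) := by
      push_cast
      exact Nat.lt_floor_add_one x
    have h2 := mul_lt_mul_of_pos_left h1 hη
    calc 2 * R * ((C * l : ℕ) : ℝ) = η * x := by rw [hx]; field_simp
      _ < _ := h2
  · have h1 : ((⌊x⌋₊ + 1 : ℕ) : ℝ) ≤ A * (R * ((C * l : ℕ) : ℝ)) := by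
      push_cast
      have h2 := Nat.floor_le hx0
      have h3 : (1 : ℝ) ≤ R * ((C * l : ℕ) : ℝ) := by
        nlinarith
      have h4 : x = 2 / η * (R * ((C * l : ℕ) : ℝ)) := by rw [hx]; ring
      have h5 : (2 / η + 1) * (R * ((C * l : ℕ) : ℝ)) ≤ A * (R * ((C * l : ℕ) : ℝ)) :=
        mul_le_mul_of_nonneg_right hA (by linarith)
      push_cast at h2 h3 h4 h5 ⊢
      nlinarith
    have h6 : ((⌊x⌋₊ + 1 : ℕ) : ℝ) ≤ A * C * 8 ^ l := by
      refine h1.trans ?_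
      have h7 : R * (l : ℝ) ≤ 4 ^ l * 2 ^ l :=
        mul_le_mul hR4 hl3 (Nat.cast_nonneg _) (by positivity)
      have h8 : (4 : ℝ) ^ l * 2 ^ l = 8 ^ l := by
        rw [← mul_pow]; norm_num
      rw [h8] at h7
      calc (A : ℝ) * (R * ((C * l : ℕ) : ℝ)) = A * C * (R * l) := by push_cast; ring
        _ ≤ _ := mul_le_mul_of_nonneg_left h7 (by positivity)
    have h9 : (2 : ℝ) * ((⌊x⌋₊ + 1 : ℕ) : ℝ) ^ m ≤ 2 ^ (C * l) := by
      calc (2 : ℝ) * ((⌊x⌋₊ + 1 : ℕ) : ℝ) ^ m ≤ 2 * (A * C * 8 ^ l) ^ m :=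
            mul_le_mul_of_nonneg_left (pow_le_pow_left₀ (Nat.cast_nonneg _) h6 m) (by norm_num)
        _ = (2 * ((A : ℝ) * C) ^ m) * (8 ^ m) ^ l := by
            rw [mul_pow, ← pow_mul, ← pow_mul, mul_comm l m]; ring
        _ ≤ (2 * ((A : ℝ) * C) ^ m) ^ l * (8 ^ m) ^ l := by
            refine mul_le_mul_of_nonneg_right ?_ (by positivity)
            refine le_self_pow₀ ?_ (by omega)
            have h10 : (1 : ℝ) ≤ ((A : ℝ) * C) ^ m := one_le_pow₀ (by nlinarith)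
            linarith
        _ = (2 * ((A : ℝ) * C) ^ m * 8 ^ m) ^ l := (mul_pow _ _ _).symm
        _ ≤ (2 ^ C) ^ l := pow_le_pow_left₀ (by positivity) hC' l
        _ = 2 ^ (C * l) := by rw [← pow_mul]
    exact_mod_cast h9
  · push_cast
    have h1 := mul_le_mul_of_nonneg_left hl2 (show (0 : ℝ) ≤ C by linarith)
    linarith

end Pool.Agent.GE
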