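import Pool.Agent.GE.FamA
import Pool.Agent.GE.CLEff
import Pool.Agent.GE.JT
import Pool.Agent.GE.BC

/-!
Representations of many shifts by forms of small degree.
-/

set_option autoImplicit false

open Filter MvPolynomial Height Height.AdmissibleAbsValues

namespace Pool.Agent.GE

open Pool.Agent.GT

theorem inf_tendsto {σ : ℕ → ℕ} (hσ : Inf σ) : Tendsto σ U atTop :=
  tendsto_atTop.mpr hσ

theorem small_dg {σ : ℕ → ℕ} (hσ : Inf σ) (m d : ℕ) (R : ℕ → ℝ) (hR1 : ∀ k, 1 ≤ R k)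
    (hR : Small σ R) (C₀ : ℕ) (j : ℕ → ℕ)
    (hj : ∀ᶠ k : ℕ in U, (j k : ℝ) ≤ C₀ * (1 + Real.log (R k))) :
    Small σ fun k => (dg m d (j k) : ℕ) := by
  have hΔ : (1 : ℝ) ≤ 1 + (d : ℝ) * ((m : ℝ) + 1) := by
    have : (0 : ℝ) ≤ (d : ℝ) * ((m : ℝ) + 1) := by positivity
    linarith
  have h1 : Small σ fun k => ((1 : ℝ) + (d : ℝ) * ((m : ℝ) + 1)) ^ j k :=
    small_exp_log hσ hR hR1 _ hΔ C₀ (Nat.cast_nonneg _) j hj
  refine small_of_le (Eventually.of_forall fun k => le_of_eq ?_)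
    (small_add hσ (small_mul hσ (Eventually.of_forall fun k => by positivity)
      (Eventually.of_forall fun k => by positivity) (small_const hσ (m : ℝ)) h1)
      (small_const hσ 1))
  unfold dg
  push_cast
  rfl

theorem small_jr {σ : ℕ → ℕ} (hσ : Inf σ) (R : ℕ → ℝ) (hR1 : ∀ k, 1 ≤ R k)
    (hR : Small σ R) (C₀ : ℕ) (j : ℕ → ℕ)
    (hj : ∀ᶠ k : ℕ in U, (j k : ℝ) ≤ C₀ * (1 + Real.log (R k))) :
    Small σ fun k => (j k : ℝ) := by
  refine small_of_le hj (small_mul hσ (Eventually.of_forall fun k => by positivity)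
    (Eventually.of_forall fun k => by have := Real.log_nonneg (hR1 k); positivity)
    (small_const hσ _) ?_)
  refine small_add hσ (small_const hσ 1) (small_of_le (Eventually.of_forall fun k => ?_) hR)
  exact (Real.log_le_sub_one_of_pos (by linarith [hR1 k])).trans (by linarith)

/-- the number of exceptions is negligible -/
theorem exc_negl {σ : ℕ → ℕ} (hσ : Inf σ) (η α β : ℝ) (hη : 0 < η) (h : α + η < β)
    (c : ℕ → ℝ) (hc0 : ∀ᶠ k in U, 0 ≤ c k) (hc : Small σ c) :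
    ∀ᶠ k : ℕ in U, c k * ((3 * (⌊(σ k : ℝ) ^ η⌋₊ : ℝ) + 1) * (σ k : ℝ) ^ α) ≤
      (σ k : ℝ) ^ β := by
  filter_upwards [small_negl hσ hc0 hc h 4 (by norm_num), hσ 1, hc0] with k h1 h2 h3
  have h6 : (0 : ℝ) < σ k := by exact_mod_cast h2
  have h7 : (1 : ℝ) ≤ (σ k : ℝ) ^ η := Real.one_le_rpow (by exact_mod_cast h2) hη.le
  have h8 : (⌊(σ k : ℝ) ^ η⌋₊ : ℝ) ≤ (σ k : ℝ) ^ η := Nat.floor_le (by linarith)
  refine le_trans ?_ h1
  have h9 : (σ k : ℝ) ^ (α + η) = (σ k : ℝ) ^ η * (σ k : ℝ) ^ α := by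
    rw [← Real.rpow_add h6]
    congr 1
    ring
  rw [h9]
  have h10 : 0 ≤ (σ k : ℝ) ^ α := Real.rpow_nonneg h6.le _
  calc c k * ((3 * (⌊(σ k : ℝ) ^ η⌋₊ : ℝ) + 1) * (σ k : ℝ) ^ α)
      ≤ c k * ((4 * (σ k : ℝ) ^ η) * (σ k : ℝ) ^ α) := by
        gcongr
        linarith
    _ = 4 * (c k * ((σ k : ℝ) ^ η * (σ k : ℝ) ^ α)) := by ring

/-- outside of few exceptions the heights are small -/
def FewHigh {K ι : Type} [Field K] [NumberField K] [Finite ι] (σ : ℕ → ℕ) (y : ℕ → ℕ → ι → K)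
    (R : ℕ → ℝ) (ρ : ℝ) : Prop :=
  ∀ κ : ℕ, ∀ᶠ k in U, (((Finset.range (κ * σ k + 1)).filter fun n =>
    R k * Real.log (σ k) < logHeight (y k n)).card : ℝ) ≤ (σ k : ℝ) ^ (1 - ρ)

/-- most elements of a large family have small heights along a segment of the orbit -/
theorem good_sub {K ι : Type} [Field K] [NumberField K] [Finite ι] {σ : ℕ → ℕ} (hσ : Inf σ)
    (y : ℕ → ℕ → ι → K) (R : ℕ → ℝ) (ρ : ℝ) (hht : FewHigh σ y R ρ) (η θ : ℝ) (hη : 0 < η)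
    (hη1 : η ≤ 1) (hθ : θ + η < ρ) (κ : ℕ) (S : ℕ → Finset ℕ) (hS : InWS σ κ S)
    (hL : LargeS σ θ S) :
    ∃ S' : ℕ → Finset ℕ, ∀ᶠ k in U, S' k ⊆ S k ∧ ((S k).card : ℝ) ≤ 2 * ((S' k).card : ℝ) ∧
      ∀ n ∈ S' k, ∀ m ≤ ⌊(σ k : ℝ) ^ η⌋₊, logHeight (y k (n + m)) ≤ R k * Real.log (σ k) := by
  classical
  refine ⟨fun k => (S k).filter fun n => ∀ m ≤ ⌊(σ k : ℝ) ^ η⌋₊,
    logHeight (y k (n + m)) ≤ R k * Real.log (σ k), ?_⟩
  have hneg := small_negl hσ (c := fun _ => 1) (Eventually.of_forall fun k => zero_le_one)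
    (small_const hσ 1) (show 1 - ρ + η < 1 - θ - (ρ - θ - η) / 2 by linarith) 4 (by norm_num)
  filter_upwards [hS, hL ((ρ - θ - η) / 2) (by linarith), hht (κ + 1), hneg, hσ 1]
    with k h1 h2 h3 h4 h5
  have h6 : (0 : ℝ) < σ k := by exact_mod_cast h5
  have hσ1 : (1 : ℝ) ≤ σ k := by exact_mod_cast h5
  refine ⟨Finset.filter_subset _ _, ?_, fun n hn => (Finset.mem_filter.mp hn).2⟩
  set L := ⌊(σ k : ℝ) ^ η⌋₊ with hLdef
  set E := (Finset.range ((κ + 1) * σ k + 1)).filter fun n =>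
    R k * Real.log (σ k) < logHeight (y k n) with hE
  have hη2 : (1 : ℝ) ≤ (σ k : ℝ) ^ η := Real.one_le_rpow hσ1 hη.le
  have hLle : (L : ℝ) ≤ (σ k : ℝ) ^ η := Nat.floor_le (by linarith)
  have hLσ : L ≤ σ k := by
    have : (L : ℝ) ≤ σ k := by
      refine hLle.trans ?_
      calc (σ k : ℝ) ^ η ≤ (σ k : ℝ) ^ (1 : ℝ) :=
            Real.rpow_le_rpow_of_exponent_le hσ1 hη1
        _ = σ k := Real.rpow_one _
    exact_mod_cast this
  have hsub : (S k).filter (fun n => ¬ ∀ m ≤ L,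
      logHeight (y k (n + m)) ≤ R k * Real.log (σ k)) ⊆
      (Finset.range (L + 1)).biUnion fun m => (S k).filter fun n => n + m ∈ E := by
    intro n hn
    obtain ⟨hnS, hn2⟩ := Finset.mem_filter.mp hn
    push Not at hn2
    obtain ⟨m, hm, hm2⟩ := hn2
    refine Finset.mem_biUnion.mpr ⟨m, Finset.mem_range.mpr (by omega),
      Finset.mem_filter.mpr ⟨hnS, Finset.mem_filter.mpr ⟨Finset.mem_range.mpr ?_, hm2⟩⟩⟩
    have h7 := h1 n hnS
    rw [add_mul]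
    omega
  have hcard : ((S k).filter (fun n => ¬ ∀ m ≤ L,
      logHeight (y k (n + m)) ≤ R k * Real.log (σ k))).card ≤ (L + 1) * E.card := by
    refine (Finset.card_le_card hsub).trans (Finset.card_biUnion_le.trans ?_)
    calc ∑ m ∈ Finset.range (L + 1), ((S k).filter fun n => n + m ∈ E).card
        ≤ ∑ _m ∈ Finset.range (L + 1), E.card := by
          refine Finset.sum_le_sum fun m _ => ?_
          refine Finset.card_le_card_of_injOn (fun n => n + m) ?_ ?_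
          · intro n hn
            exact (Finset.mem_filter.mp hn).2
          · intro a _ b _ hab
            exact Nat.add_right_cancel hab
      _ = (L + 1) * E.card := by rw [Finset.sum_const, Finset.card_range, smul_eq_mul]
  have hsplit := Finset.card_filter_add_card_filter_not (s := S k) (p := fun n => ∀ m ≤ L,
    logHeight (y k (n + m)) ≤ R k * Real.log (σ k))
  have hcardR : (((S k).filter (fun n => ¬ ∀ m ≤ L,
      logHeight (y k (n + m)) ≤ R k * Real.log (σ k))).card : ℝ) ≤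
      2 * ((σ k : ℝ) ^ (1 - ρ + η)) := by
    calc (((S k).filter (fun n => ¬ ∀ m ≤ L,
          logHeight (y k (n + m)) ≤ R k * Real.log (σ k))).card : ℝ)
        ≤ ((L + 1) * E.card : ℕ) := by exact_mod_cast hcard
      _ = ((L : ℝ) + 1) * E.card := by push_cast; ring
      _ ≤ (2 * (σ k : ℝ) ^ η) * (σ k : ℝ) ^ (1 - ρ) := by
          gcongr
          linarith
      _ = 2 * ((σ k : ℝ) ^ (1 - ρ + η)) := by
          rw [Real.rpow_add h6]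
          ring
  have hsplitR : (((S k).filter (fun n => ∀ m ≤ L,
      logHeight (y k (n + m)) ≤ R k * Real.log (σ k))).card : ℝ) +
      (((S k).filter (fun n => ¬ ∀ m ≤ L,
      logHeight (y k (n + m)) ≤ R k * Real.log (σ k))).card : ℝ) = ((S k).card : ℝ) := by
    exact_mod_cast hsplit
  linarith

/-- the relations along a large subfamily -/
theorem cl_seq {K T ι : Type} [Field K] [NumberField K] [Finite T] [Fintype ι] [Nonempty ι]
    {δ : T → ℕ} {F : T → ι → MvPolynomial ι K} (hF : ∀ t i, (F t i).IsHomogeneous (δ t)) :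
    ∃ c₁ : ℝ, 0 < c₁ ∧ ∀ y : ℕ → ℕ → ι → K, (∀ k, Orb δ F (y k)) → ∀ η : ℝ, 0 < η → η ≤ 1 →
      ∀ (σ : ℕ → ℕ), Inf σ → ∀ R : ℕ → ℝ, (∀ k, 1 ≤ R k) → Small σ R →
        ∀ ρ : ℝ, FewHigh σ y R ρ →
        ∀ (θ : ℝ), θ + η < ρ → ∀ (κ : ℕ) (S : ℕ → Finset ℕ), InWS σ κ S → LargeS σ θ S →
          ∃ S' : ℕ → Finset ℕ, LargeS σ (θ + c₁ * η) S' ∧ ∀ᶠ k in U, S' k ⊆ S k ∧
            ∀ j t : ℕ, 1 ≤ t → 2 * R k * j < η * t →
              ∀ lam : Fin j → ℕ, (∀ i, (lam i : ℝ) ≤ (σ k : ℝ) ^ η) →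
                ∀ φ : Fin (2 * t ^ Fintype.card ι) → Fin j → ι,
                  ∃ c : Fin (2 * t ^ Fintype.card ι) → K, c ≠ 0 ∧
                    ∀ n ∈ S' k, ∑ u, c u * ∏ i, y k (n + lam i) (φ u i) = 0 := by
  obtain ⟨c₁, hc₁, hCL⟩ := cl_eff hF
  refine ⟨c₁, hc₁, ?_⟩
  intro y hy η hη hη1 σ hσ R hR1 hR ρ hht θ hθ κ S hS hL
  obtain ⟨C, hC, h1⟩ := hCL η hη hη1 κ
  obtain ⟨S₀, hS₀⟩ := good_sub hσ y R ρ hht η θ hη hη1 hθ κ S hS hL
  have h2 := (inf_tendsto hσ).eventually h1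
  have hlog : ∀ᶠ k in U, (1 : ℝ) ≤ Real.log (σ k) := by
    filter_upwards [inf_real hσ (Real.exp 1)] with k hk
    have := Real.log_le_log (Real.exp_pos 1) hk
    rwa [Real.log_exp] at this
  have hRn : ∀ᶠ k in U, 0 ≤ R k := Eventually.of_forall fun k => by linarith [hR1 k]
  have hln : ∀ᶠ k in U, 0 ≤ Real.log (σ k) := hlog.mono fun k hk => by linarith
  have hsm : Small σ fun k => C * (R k * Real.log (σ k)) :=
    small_mul hσ (Eventually.of_forall fun k => hC.le)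
      (by filter_upwards [hRn, hln] with k h3 h4 using mul_nonneg h3 h4) (small_const hσ C)
      (small_mul hσ hRn hln hR (small_log hσ))
  have h3 : ∀ᶠ k in U, ∃ S' : Finset ℕ, S' ⊆ S₀ k ∧
      ((S₀ k).card : ℝ) ≤ C * (σ k : ℝ) ^ (c₁ * η) * S'.card ∧
      ∀ j t : ℕ, 1 ≤ t → 2 * R k * j < η * t →
        ∀ lam : Fin j → ℕ, (∀ i, (lam i : ℝ) ≤ (σ k : ℝ) ^ η) →
          ∀ φ : Fin (2 * t ^ Fintype.card ι) → Fin j → ι,
            ∃ c : Fin (2 * t ^ Fintype.card ι) → K, c ≠ 0 ∧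
              ∀ n ∈ S', ∑ u, c u * ∏ i, y k (n + lam i) (φ u i) = 0 := by
    filter_upwards [h2, hlog, hsm (η / 2) (by linarith), hS₀, hS]
      with k h4 h5 h6 h7 h8
    obtain ⟨S', h9, h10, h11⟩ := h4 (y k) (hy k) (R k * Real.log (σ k))
      (by nlinarith [hR1 k]) h6 (S₀ k) (fun n hn => h8 n (h7.1 hn)) h7.2.2
    refine ⟨S', h9, h10, ?_⟩
    intro j t ht hjt
    apply h11 j t ht
    calc 2 * (R k * Real.log (σ k)) * j = (2 * R k * j) * Real.log (σ k) := by ring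
      _ < (η * t) * Real.log (σ k) := mul_lt_mul_of_pos_right hjt (by linarith)
  obtain ⟨S', hS'⟩ := exists_fun h3
  refine ⟨S', ?_, ?_⟩
  · refine largeS_power hσ hL (fun _ => 2 * C) (small_const hσ (2 * C)) ?_
    filter_upwards [hS', hS₀] with k hk hk0
    calc ((S k).card : ℝ) ≤ 2 * ((S₀ k).card : ℝ) := hk0.2.1
      _ ≤ 2 * (C * (σ k : ℝ) ^ (c₁ * η) * (S' k).card) :=
          mul_le_mul_of_nonneg_left hk.2.1 (by norm_num)
      _ = 2 * C * (σ k : ℝ) ^ (c₁ * η) * (S' k).card := by ring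
  · filter_upwards [hS', hS₀] with k hk hk0
    exact ⟨hk.1.trans hk0.1, hk.2.2⟩

theorem reps_seq {K T ι : Type} [Field K] [NumberField K] [Finite T] [Fintype ι] [Nonempty ι]
    {δ : T → ℕ} {F : T → ι → MvPolynomial ι K} {y : ℕ → ℕ → ι → K} (h : ∀ k, Orb δ F (y k)) (d : ℕ)
    (hd : ∀ t, δ t ≤ d) {σ : ℕ → ℕ} (hσ : Inf σ) (R : ℕ → ℝ) (hR1 : ∀ k, 1 ≤ R k)
    (hR : Small σ R) (c₁ θ : ℝ) (hθ : 0 < θ) (S S₁ : ℕ → Finset ℕ)
    (hS₁ : LargeS σ (θ + c₁ * (3 * θ)) S₁)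
    (𝔭 : ℕ → Ideal (MvPolynomial ι K)) (h𝔭 : ∀ᶠ k in U, HPrime (𝔭 k))
    (hv : ∀ᶠ k in U, ∀ G ∈ 𝔭 k, ∀ n ∈ S k, eval (y k n) G = 0)
    (hFZ : ∀ g : ℕ → ℕ, Small σ (fun k => g k) →
      ∀ᶠ k in U, ∀ e ≤ g k, ∀ G : MvPolynomial ι K, G.IsHomogeneous e → G ∉ 𝔭 k →
        ∀ Z ⊆ S k, (∀ n ∈ Z, eval (y k n) G = 0) →
          (Z.card : ℝ) < (σ k : ℝ) ^ (1 - (3 * c₁ + 5) * θ))
    (hCL : ∀ᶠ k in U, S₁ k ⊆ S k ∧
            ∀ j t : ℕ, 1 ≤ t → 2 * R k * j < (3 * θ) * t →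
              ∀ lam : Fin j → ℕ, (∀ i, (lam i : ℝ) ≤ (σ k : ℝ) ^ (3 * θ)) →
                ∀ φ : Fin (2 * t ^ Fintype.card ι) → Fin j → ι,
                  ∃ c : Fin (2 * t ^ Fintype.card ι) → K, c ≠ 0 ∧
                    ∀ n ∈ S₁ k, ∑ u, c u * ∏ i, y k (n + lam i) (φ u i) = 0) :
    ∃ C : ℕ → ℕ, Small σ (fun k => C k) ∧ ∀ᶠ k in U, ∃ (a : ℕ → ℕ)
      (Φ : ℕ → ι → MvPolynomial ι K), ∀ l ≤ ⌊(σ k : ℝ) ^ (3 * θ)⌋₊, 1 ≤ a l ∧ a l ≤ C k ∧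
        (∀ i, (Φ l i).IsHomogeneous (a l)) ∧
        ((bad (y k) (S k) l (Φ l)).card : ℝ) ≤
          (3 * (l : ℝ) + 1) * (σ k : ℝ) ^ (1 - (3 * c₁ + 5) * θ) := by
  obtain ⟨C₀, hjt⟩ := exists_jt (Fintype.card ι) (3 * θ) (by linarith)
  choose! j t h1 using hjt
  have hj : ∀ᶠ k : ℕ in U, (j (R k) : ℝ) ≤ C₀ * (1 + Real.log (R k)) :=
    Eventually.of_forall fun k => (h1 (R k) (hR1 k)).2.2.2
  have hdg := small_dg hσ (Fintype.card ι) d R hR1 hR C₀ (fun k => j (R k)) hj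
  have hjs := small_jr hσ R hR1 hR C₀ (fun k => j (R k)) hj
  refine ⟨fun k => dg (Fintype.card ι) d (j (R k)), hdg, ?_⟩
  have hg : Small σ fun k => (((d + 1) * dg (Fintype.card ι) d (j (R k)) : ℕ) : ℝ) := by
    refine small_of_le (Eventually.of_forall fun k => le_of_eq ?_)
      (small_mul hσ (Eventually.of_forall fun k => by positivity)
        (Eventually.of_forall fun k => by positivity) (small_const hσ ((d : ℝ) + 1)) hdg)
    push_cast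
    rfl
  have hexc := exc_negl hσ (3 * θ) (1 - (3 * c₁ + 5) * θ)
    (1 - (θ + c₁ * (3 * θ)) - θ / 2) (by linarith) (by linarith)
    (fun k => 2 + (j (R k) : ℝ)) (Eventually.of_forall fun k => by positivity)
    (small_add hσ (small_const hσ 2) hjs)
  filter_upwards [h𝔭, hv, hFZ _ hg, hCL, hexc, hS₁ (θ / 2) (by linarith), hσ 1]
    with k h2 h3 h4 h5 h6 h7 h8
  have hpos : (0 : ℝ) < σ k := by exact_mod_cast h8
  obtain ⟨ht1, hjt2, hst, -⟩ := h1 (R k) (hR1 k)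
  have hx : 0 < (σ k : ℝ) ^ (1 - (3 * c₁ + 5) * θ) := Real.rpow_pos_of_pos hpos _
  have hbc := bc_fin (h k) d hd h2 (S k) h3 ((σ k : ℝ) ^ (1 - (3 * c₁ + 5) * θ))
    hx ⌊(σ k : ℝ) ^ (3 * θ)⌋₊ (j (R k))
    (2 * t (R k) ^ Fintype.card ι) ((d + 1) * dg (Fintype.card ι) d (j (R k))) hst le_rfl h4
    (S₁ k) h5.1 (by
      refine le_trans ?_ (h6.trans h7)
      have hL : (0 : ℝ) ≤ (⌊(σ k : ℝ) ^ (3 * θ)⌋₊ : ℝ) := Nat.cast_nonneg _
      have : (2 : ℝ) + (j (R k) : ℝ) * (3 * (⌊(σ k : ℝ) ^ (3 * θ)⌋₊ : ℝ) + 1) ≤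
          (2 + (j (R k) : ℝ)) * (3 * (⌊(σ k : ℝ) ^ (3 * θ)⌋₊ : ℝ) + 1) := by
        nlinarith
      calc (σ k : ℝ) ^ (1 - (3 * c₁ + 5) * θ) *
            (2 + (j (R k) : ℝ) * (3 * (⌊(σ k : ℝ) ^ (3 * θ)⌋₊ : ℝ) + 1))
          ≤ (σ k : ℝ) ^ (1 - (3 * c₁ + 5) * θ) *
            ((2 + (j (R k) : ℝ)) * (3 * (⌊(σ k : ℝ) ^ (3 * θ)⌋₊ : ℝ) + 1)) :=
            mul_le_mul_of_nonneg_left this hx.le
        _ = _ := by ring)
    (fun lam hlam φ => h5.2 (j (R k)) (t (R k)) ht1 hjt2 lam (fun i =>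
      (Nat.cast_le.mpr (hlam i)).trans (Nat.floor_le (Real.rpow_nonneg hpos.le _))) φ)
  choose! a ha1 ha2 Φ hΦ hb using hbc
  exact ⟨a, Φ, fun l hl => ⟨ha1 l hl, ha2 l hl, hΦ l hl, hb l hl⟩⟩

end Pool.Agent.GE
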