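import Pool.Agent.GE.Comap
import Pool.Agent.GE.Count
import Pool.Agent.GE.Elim
import Pool.Agent.GT.NoetherPt
import Pool.Agent.GT.Hilb
import Pool.Agent.GT.Drop
import Pool.Agent.GT.PrimeAbove

/-!
Project GE (MP_e3c919_ag), row E8: the effective hull lemma.
-/

set_option autoImplicit false

open Filter MvPolynomial

namespace Pool.Agent.GE

open Pool.Agent.GT

/-- the relation of degree `d` for `x` which comes from a form of degree `d` -/
theorem lce_relation {k σ B R : Type} [Field k] [Fintype σ] [CommRing B] [CommRing R]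
    [Algebra k B] [Algebra k R] (f : B →ₐ[k] R) (P : MvPolynomial σ k) (d : ℕ)
    (hP : P.IsHomogeneous d) (c : σ → k) (hc : eval c P ≠ 0) (y : σ → B) (x : R)
    (h : aeval (fun t => f (y t) + algebraMap k R (c t) * x) P = 0) :
    ∃ a : Fin d → B, x ^ d = ∑ i, f (a i) * x ^ (i : ℕ) := by
  classical
  have hdeg : ∀ m ∈ P.support, ∑ i, m i = d := npt_deg hP
  set Q : Polynomial B := ∑ m ∈ P.support, Polynomial.C (algebraMap k B (coeff m P)) *
    ∏ t, (Polynomial.C (y t) + Polynomial.C (algebraMap k B (c t)) * Polynomial.X) ^ m t with hQ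
  have hQd : Q.natDegree ≤ d := by
    apply Polynomial.natDegree_sum_le_of_forall_le
    intro m hm
    apply (Polynomial.natDegree_C_mul_le _ _).trans
    rw [← hdeg m hm]
    exact (npt_coeff Finset.univ m y _).1
  have hQc : Q.coeff d = algebraMap k B (eval c P) := by
    rw [hQ, Polynomial.finsetSum_coeff, eval_eq', map_sum]
    refine Finset.sum_congr rfl fun m hm => ?_
    rw [Polynomial.coeff_C_mul, ← hdeg m hm, (npt_coeff Finset.univ m y _).2, map_mul, map_prod]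
    congr 1
    refine Finset.prod_congr rfl fun t _ => ?_
    rw [map_pow]
  have hQe : Q.eval₂ f.toRingHom x = 0 := by
    rw [← h, aeval_def, eval₂_eq', hQ, Polynomial.eval₂_finsetSum]
    refine Finset.sum_congr rfl fun m _ => ?_
    rw [Polynomial.eval₂_mul, Polynomial.eval₂_C, Polynomial.eval₂_finsetProd]
    congr 1
    · exact f.commutes _
    · refine Finset.prod_congr rfl fun t _ => ?_
      rw [Polynomial.eval₂_pow, Polynomial.eval₂_add, Polynomial.eval₂_mul, Polynomial.eval₂_C,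
        Polynomial.eval₂_C, Polynomial.eval₂_X]
      congr 2
      exact congrArg (· * x) (f.commutes _)
  rw [Polynomial.eval₂_eq_sum_range' f.toRingHom (Nat.lt_succ_of_le hQd),
    Finset.sum_range_succ, hQc] at hQe
  have h1 : f.toRingHom (algebraMap k B (eval c P)) = algebraMap k R (eval c P) := f.commutes _
  rw [h1] at hQe
  refine ⟨fun i => - algebraMap k B (eval c P)⁻¹ * Q.coeff i, ?_⟩
  have h2 : ∀ i : ℕ, f (- algebraMap k B (eval c P)⁻¹ * Q.coeff i) * x ^ i =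
      - algebraMap k R (eval c P)⁻¹ * (f.toRingHom (Q.coeff i) * x ^ i) := by
    intro i
    have h3 : f (algebraMap k B (eval c P)⁻¹) = algebraMap k R (eval c P)⁻¹ := f.commutes _
    rw [map_mul, map_neg, h3, mul_assoc]
    rfl
  have h3 : algebraMap k R (eval c P)⁻¹ * algebraMap k R (eval c P) = 1 := by
    rw [← map_mul, inv_mul_cancel₀ hc, map_one]
  rw [Finset.sum_congr rfl fun (i : Fin d) _ => h2 i, ← Finset.mul_sum,
    Fin.sum_univ_eq_sum_range (fun i => f.toRingHom (Q.coeff i) * x ^ i) d]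
  have h4 : ∑ i ∈ Finset.range d, f.toRingHom (Q.coeff i) * x ^ i =
      - (algebraMap k R (eval c P) * x ^ d) := by
    rw [eq_neg_iff_add_eq_zero]
    exact hQe
  rw [h4, neg_mul_neg, ← mul_assoc, h3, one_mul]

/-- a ring generated by a polynomial ring and an element with a monic relation -/
theorem lce_gen {k τ ι R : Type} [Field k] [CommRing R] [Algebra k R]
    (f : MvPolynomial τ k →ₐ[k] R) (π : MvPolynomial ι k →ₐ[k] R)
    (x : R) (e : ℕ) (he : 0 < e) (a : Fin e → MvPolynomial τ k)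
    (hx : x ^ e = ∑ i, f (a i) * x ^ (i : ℕ))
    (hX : ∀ j, ∃ p q : MvPolynomial τ k, π (X j) = f p + f q * x) (F : MvPolynomial ι k) :
    ∃ p : Fin e → MvPolynomial τ k, π F = ∑ i, f (p i) * x ^ (i : ℕ) := by
  classical
  let D : AddSubmonoid R :=
    { carrier := {u | ∃ p : Fin e → MvPolynomial τ k, u = ∑ i, f (p i) * x ^ (i : ℕ)}
      add_mem' := by
        rintro u v ⟨p, rfl⟩ ⟨q, rfl⟩
        refine ⟨p + q, ?_⟩
        rw [← Finset.sum_add_distrib]
        refine Finset.sum_congr rfl fun i _ => ?_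
        rw [Pi.add_apply, map_add, add_mul]
      zero_mem' := ⟨0, by simp⟩ }
  have hsm : ∀ (q : MvPolynomial τ k) (u : R), u ∈ D → f q * u ∈ D := by
    rintro q u ⟨p, rfl⟩
    refine ⟨fun i => q * p i, ?_⟩
    rw [Finset.mul_sum]
    refine Finset.sum_congr rfl fun i _ => ?_
    rw [map_mul, mul_assoc]
  have hpow : ∀ j < e, x ^ j ∈ D := by
    intro j hj
    refine ⟨Pi.single ⟨j, hj⟩ 1, ?_⟩
    rw [Finset.sum_eq_single (⟨j, hj⟩ : Fin e)]
    · rw [Pi.single_eq_same, map_one, one_mul]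
    · intro i _ hi
      rw [Pi.single_eq_of_ne hi, map_zero, zero_mul]
    · intro h
      exact absurd (Finset.mem_univ _) h
  have hxe : x ^ e ∈ D := ⟨a, hx⟩
  have hmx : ∀ u ∈ D, u * x ∈ D := by
    rintro u ⟨p, rfl⟩
    rw [Finset.sum_mul]
    refine D.sum_mem fun i _ => ?_
    rw [mul_assoc, ← pow_succ]
    apply hsm
    rcases Nat.lt_or_ge ((i : ℕ) + 1) e with h | h
    · exact hpow _ h
    · have h1 : (i : ℕ) + 1 = e := le_antisymm i.2 h
      rw [h1]
      exact hxe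
  induction F using MvPolynomial.induction_on with
  | C c =>
    have h1 : π (C c) = f (C c) * x ^ 0 := by
      have h2 : π (C c) = algebraMap k R c := π.commutes c
      have h3 : f (C c) = algebraMap k R c := f.commutes c
      rw [h2, h3, pow_zero, mul_one]
    rw [h1]
    exact hsm _ _ (hpow 0 he)
  | add p q hp hq =>
    rw [map_add]
    exact D.add_mem hp hq
  | mul_X p j hp =>
    obtain ⟨q, r, hqr⟩ := hX j
    rw [map_mul, hqr]
    have h1 : π p * (f q + f r * x) = f q * π p + f r * (π p * x) := by ring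
    rw [h1]
    exact D.add_mem (hsm _ _ hp) (hsm _ _ (hmx _ hp))

/-- elimination without degrees and with exactly `w + 1` linear forms -/
theorem lce_elim {k ι : Type} [Field k] [Infinite k] [Finite ι] (I : Ideal (MvPolynomial ι k))
    (w b₀ : ℕ) (hb₀ : 1 ≤ b₀)
    (hrel : ∀ ℓ : Fin (w + 2) → MvPolynomial ι k, (∀ t, (ℓ t).IsHomogeneous 1) →
      ∃ P : MvPolynomial (Fin (w + 2)) k, P.IsHomogeneous b₀ ∧ P ≠ 0 ∧ bind₁ ℓ P ∈ I)
    (m : ℕ) (L : Fin m → MvPolynomial ι k) (hL : ∀ t, (L t).IsHomogeneous 1) :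
    ∃ (L' : Fin (w + 1) → MvPolynomial ι k) (R : ℕ) (M : Fin R → MvPolynomial ι k)
      (μ : Fin R → ℕ), (∀ t, L' t ∈ Submodule.span k (Set.range L)) ∧
      R ≤ b₀ ^ m ∧ (∀ i, (M i).IsHomogeneous (μ i)) ∧
      ∀ P : MvPolynomial (Fin m) k,
        ∃ Q : Fin R → MvPolynomial (Fin (w + 1)) k,
          bind₁ L P - ∑ i, M i * bind₁ L' (Q i) ∈ I := by
  classical
  obtain ⟨r, L', R, M, μ, hr, hL', hR, hM, h⟩ := elim_span I w b₀ hb₀ hrel m L hL
  refine ⟨fun t => if ht : (t : ℕ) < r then L' ⟨t, ht⟩ else 0, R, M, μ, ?_, hR,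
    fun i => (hM i).1, ?_⟩
  · intro t
    by_cases ht : (t : ℕ) < r
    · simp only [dif_pos ht]
      exact hL' _
    · simp only [dif_neg ht]
      exact Submodule.zero_mem _
  intro P
  have h1 : ∀ b, ∃ Q : Fin R → MvPolynomial (Fin r) k,
      bind₁ L (homogeneousComponent b P) - ∑ i, M i * bind₁ L' (Q i) ∈ I := by
    intro b
    obtain ⟨Q, -, hQ⟩ := h b _ (homogeneousComponent_isHomogeneous b P)
    exact ⟨Q, hQ⟩
  choose Q hQ using h1
  refine ⟨fun i => rename (Fin.castLE hr)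
    (∑ b ∈ Finset.range (P.totalDegree + 1), Q b i), ?_⟩
  have h2 : ∀ A : MvPolynomial (Fin r) k,
      bind₁ (fun t : Fin (w + 1) => if ht : (t : ℕ) < r then L' ⟨t, ht⟩ else 0)
        (rename (Fin.castLE hr) A) = bind₁ L' A := by
    intro A
    rw [bind₁_rename]
    congr 2
    funext t
    simp only [Function.comp_apply, Fin.val_castLE, t.2, dif_pos, Fin.eta]
  have h3 : bind₁ L P - ∑ i, M i * bind₁ L' (∑ b ∈ Finset.range (P.totalDegree + 1), Q b i) =
      ∑ b ∈ Finset.range (P.totalDegree + 1),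
        (bind₁ L (homogeneousComponent b P) - ∑ i, M i * bind₁ L' (Q b i)) := by
    rw [Finset.sum_sub_distrib, ← map_sum, sum_homogeneousComponent, Finset.sum_comm]
    congr 1
    refine Finset.sum_congr rfl fun i _ => ?_
    rw [map_sum, Finset.mul_sum]
  rw [Finset.sum_congr rfl fun i _ => by rw [h2], h3]
  exact Ideal.sum_mem _ fun b _ => hQ b

/-- generators of the coordinate ring over the polynomials in linear forms vanishing at `z` -/
theorem lce_struct {k ι : Type} [Field k] [Infinite k] [Fintype ι] (w b₀ : ℕ) (hb₀ : 1 ≤ b₀)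
    {𝔮 : Ideal (MvPolynomial ι k)}
    (hrel : ∀ ℓ : Fin (w + 2) → MvPolynomial ι k, (∀ t, (ℓ t).IsHomogeneous 1) →
      ∃ P : MvPolynomial (Fin (w + 2)) k, P.IsHomogeneous b₀ ∧ P ≠ 0 ∧ bind₁ ℓ P ∈ 𝔮)
    (z : ι → k) (i₀ : ι) (hi₀ : z i₀ ≠ 0) (e : ℕ) (he : 0 < e) (G : MvPolynomial ι k)
    (hG : G.IsHomogeneous e) (hG𝔮 : G ∈ 𝔮) (hGz : eval z G ≠ 0) :
    ∃ (R : ℕ) (M : Fin R → MvPolynomial ι k) (μ : Fin R → ℕ)
      (L : Fin (w + 1) → MvPolynomial ι k),
      R ≤ e * b₀ ^ Fintype.card ι ∧ (∀ s, (M s).IsHomogeneous (μ s)) ∧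
      (∀ t, (L t).IsHomogeneous 1 ∧ eval z (L t) = 0) ∧
      ∀ F : MvPolynomial ι k, ∃ Q : Fin R → MvPolynomial (Fin (w + 1)) k,
        F - ∑ s, M s * bind₁ L (Q s) ∈ 𝔮 := by
  classical
  let eq := Fintype.equivFin ι
  let T : Fin (Fintype.card ι) → MvPolynomial ι k := fun t =>
    C (z i₀) * X (eq.symm t) - C (z (eq.symm t)) * X i₀
  have hT : ∀ t, (T t).IsHomogeneous 1 ∧ eval z (T t) = 0 := by
    intro t
    refine ⟨?_, ?_⟩
    · apply IsHomogeneous.sub
      · have h1 := (isHomogeneous_C ι (z i₀)).mul (isHomogeneous_X k (eq.symm t))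
        rwa [zero_add] at h1
      · have h1 := (isHomogeneous_C ι (z (eq.symm t))).mul (isHomogeneous_X k i₀)
        rwa [zero_add] at h1
    · simp only [T, map_sub, map_mul, eval_C, eval_X]
      ring
  set f := (Ideal.Quotient.mkₐ k 𝔮).comp (bind₁ T) with hfd
  have h0 : ∀ c : k, algebraMap k (MvPolynomial ι k ⧸ 𝔮) c =
      Ideal.Quotient.mk 𝔮 (C c) := fun c => rfl
  have hf : ∀ t, f (X t) = Ideal.Quotient.mk 𝔮 (T t) := by
    intro t
    rw [hfd, AlgHom.comp_apply, bind₁_X_right]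
    rfl
  have hfC : ∀ c : k, f (C c) = Ideal.Quotient.mk 𝔮 (C c) := by
    intro c
    show Ideal.Quotient.mk 𝔮 (bind₁ T (C c)) = _
    rw [bind₁_C_right]
  obtain ⟨a, ha⟩ := lce_relation f G e hG z hGz (fun j => X (eq j))
    (Ideal.Quotient.mk 𝔮 (X i₀)) (by
      have h1 : (fun t => f (X (eq t)) +
          algebraMap k (MvPolynomial ι k ⧸ 𝔮) (z t) * Ideal.Quotient.mk 𝔮 (X i₀)) =
          fun t => Ideal.Quotient.mk 𝔮 (C (z i₀)) * Ideal.Quotient.mkₐ k 𝔮 (X t) := by
        funext t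
        rw [hf, h0, ← map_mul, ← map_add]
        show Ideal.Quotient.mk 𝔮 _ = Ideal.Quotient.mk 𝔮 _ * Ideal.Quotient.mk 𝔮 _
        rw [← map_mul]
        congr 1
        simp only [T, Equiv.symm_apply_apply]
        ring
      rw [h1, npt_smul hG]
      have h2 : aeval (fun t => Ideal.Quotient.mkₐ k 𝔮 (X t)) G =
          Ideal.Quotient.mkₐ k 𝔮 G := by
        rw [← MvPolynomial.comp_aeval_apply, aeval_X_left_apply]
      rw [h2]
      have h3 : Ideal.Quotient.mkₐ k 𝔮 G = 0 := Ideal.Quotient.eq_zero_iff_mem.2 hG𝔮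
      rw [h3, mul_zero])
  have hX : ∀ j, ∃ p q : MvPolynomial (Fin (Fintype.card ι)) k,
      Ideal.Quotient.mkₐ k 𝔮 (X j) = f p + f q * Ideal.Quotient.mk 𝔮 (X i₀) := by
    intro j
    refine ⟨C (z i₀)⁻¹ * X (eq j), C (z i₀)⁻¹ * C (z j), ?_⟩
    rw [map_mul f, map_mul f, hfC, hfC, hf, ← map_mul, ← map_mul, ← map_mul, ← map_add]
    show Ideal.Quotient.mk 𝔮 _ = _
    congr 1
    simp only [T, Equiv.symm_apply_apply]
    have h2 : C (z i₀)⁻¹ * C (z i₀) = (1 : MvPolynomial ι k) := by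
      rw [← map_mul, inv_mul_cancel₀ hi₀, map_one]
    linear_combination -h2 * X j
  have hgen := lce_gen f (Ideal.Quotient.mkₐ k 𝔮) (Ideal.Quotient.mk 𝔮 (X i₀)) e he a ha hX
  obtain ⟨L, R, M, μ, hL, hR, hM, helim⟩ := lce_elim 𝔮 w b₀ hb₀ hrel _ T fun t => (hT t).1
  have hLV : Submodule.span k (Set.range T) ≤
      homogeneousSubmodule ι k 1 ⊓ LinearMap.ker (aeval z : MvPolynomial ι k →ₐ[k] k).toLinearMap := by
    rw [Submodule.span_le]
    rintro _ ⟨t, rfl⟩
    refine ⟨(mem_homogeneousSubmodule _ _).2 (hT t).1, ?_⟩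
    exact (hT t).2
  refine ⟨e * R, fun s => X i₀ ^ ((finProdFinEquiv.symm s).1 : ℕ) * M (finProdFinEquiv.symm s).2,
    fun s => ((finProdFinEquiv.symm s).1 : ℕ) + μ (finProdFinEquiv.symm s).2, L,
    Nat.mul_le_mul_left e hR, fun s => ?_, fun t => ?_, fun F => ?_⟩
  · exact (isHomogeneous_X_pow i₀ _).mul (hM _)
  · have h1 := hLV (hL t)
    exact ⟨(mem_homogeneousSubmodule _ _).1 h1.1, h1.2⟩
  · obtain ⟨p, hp⟩ := hgen F
    have h1 : ∀ a, ∃ Q : Fin R → MvPolynomial (Fin (w + 1)) k,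
        bind₁ T (p a) - ∑ i, M i * bind₁ L (Q i) ∈ 𝔮 := fun a => helim (p a)
    choose Q hQ using h1
    refine ⟨fun s => Q (finProdFinEquiv.symm s).1 (finProdFinEquiv.symm s).2, ?_⟩
    rw [Equiv.sum_comp finProdFinEquiv.symm (fun s : Fin e × Fin R =>
      X i₀ ^ (s.1 : ℕ) * M s.2 * bind₁ L (Q s.1 s.2)), Fintype.sum_prod_type]
    have h2 : F - ∑ a : Fin e, ∑ i, X i₀ ^ (a : ℕ) * M i * bind₁ L (Q a i) =
        (F - ∑ a, bind₁ T (p a) * X i₀ ^ (a : ℕ)) +
          ∑ a : Fin e, X i₀ ^ (a : ℕ) * (bind₁ T (p a) - ∑ i, M i * bind₁ L (Q a i)) := by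
      have h3 : ∀ a : Fin e, X i₀ ^ (a : ℕ) * (bind₁ T (p a) - ∑ i, M i * bind₁ L (Q a i)) =
          bind₁ T (p a) * X i₀ ^ (a : ℕ) - ∑ i, X i₀ ^ (a : ℕ) * M i * bind₁ L (Q a i) := by
        intro a
        rw [mul_sub, Finset.mul_sum]
        congr 1
        · ring
        · refine Finset.sum_congr rfl fun i _ => ?_
          ring
      rw [Finset.sum_congr rfl fun a _ => h3 a, Finset.sum_sub_distrib]
      ring
    rw [h2]
    refine 𝔮.add_mem ?_ (Ideal.sum_mem _ fun a _ => 𝔮.mul_mem_left _ (hQ a))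
    rw [← Ideal.Quotient.eq_zero_iff_mem, map_sub, sub_eq_zero, map_sum]
    have h4 : Ideal.Quotient.mk 𝔮 F = Ideal.Quotient.mkₐ k 𝔮 F := rfl
    rw [h4, hp]
    refine Finset.sum_congr rfl fun i _ => ?_
    rw [map_mul, map_pow]
    rfl

attribute [local instance] MvPolynomial.gradedAlgebra in
/-- homogeneous components of a product with a form -/
theorem lce_comp_mul {k ι : Type} [Field k] {a : ℕ} {A : MvPolynomial ι k}
    (hA : A.IsHomogeneous a) (B : MvPolynomial ι k) (n : ℕ) :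
    homogeneousComponent n (A * B) =
      if a ≤ n then A * homogeneousComponent (n - a) B else 0 := by
  classical
  have h := DirectSum.coe_decompose_mul_of_left_mem (homogeneousSubmodule ι k) n (b := B)
    ((mem_homogeneousSubmodule a A).2 hA)
  rw [n1_dec, n1_dec] at h
  exact h

/-- the graded version of `lce_struct` -/
theorem lce_graded {k ι : Type} [Field k] {w R : ℕ} {𝔮 : Ideal (MvPolynomial ι k)}
    (h𝔮 : HPrime 𝔮) (M : Fin R → MvPolynomial ι k) (μ : Fin R → ℕ)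
    (hM : ∀ s, (M s).IsHomogeneous (μ s)) (L : Fin w → MvPolynomial ι k)
    (hL : ∀ t, (L t).IsHomogeneous 1) (b : ℕ) (F : MvPolynomial ι k) (hF : F.IsHomogeneous b)
    (h : ∃ Q : Fin R → MvPolynomial (Fin w) k, F - ∑ s, M s * bind₁ L (Q s) ∈ 𝔮) :
    ∃ Q : Fin R → MvPolynomial (Fin w) k,
      (∀ s, (Q s).IsHomogeneous (b - μ s) ∧ (b < μ s → Q s = 0)) ∧
        F - ∑ s, M s * bind₁ L (Q s) ∈ 𝔮 := by
  classical
  obtain ⟨Q, hQ⟩ := h
  refine ⟨fun s => if μ s ≤ b then homogeneousComponent (b - μ s) (Q s) else 0,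
    fun s => ?_, ?_⟩
  · by_cases hs : μ s ≤ b
    · simp only [if_pos hs]
      exact ⟨homogeneousComponent_isHomogeneous _ _, fun h => absurd hs (not_le.2 h)⟩
    · simp only [if_neg hs]
      exact ⟨isHomogeneous_zero _ _ _, fun _ => trivial⟩
  · have h1 := h𝔮.comp _ hQ b
    rw [map_sub, map_sum, homogeneousComponent_of_mem ((mem_homogeneousSubmodule _ _).2 hF),
      if_pos rfl] at h1
    convert h1 using 2
    refine Finset.sum_congr rfl fun s _ => ?_
    rw [lce_comp_mul (hM s)]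
    by_cases hs : μ s ≤ b
    · simp only [if_pos hs]
      rw [npt_bind L hL]
    · simp only [if_neg hs]
      rw [map_zero, mul_zero]

/-- the characteristic polynomial of the multiplication by `Φ 0` -/
theorem lce_charpoly {k ι : Type} [Field k] [Infinite k] {w R : ℕ}
    {𝔮 : Ideal (MvPolynomial ι k)} (h𝔮 : 𝔮.IsPrime) (Φ : Fin (w + 1) → MvPolynomial ι k)
    (M : Fin R → MvPolynomial ι k) (μ : Fin R → ℕ) (hM : ∃ s, M s ∉ 𝔮)
    (Q : Fin R → Fin R → MvPolynomial (Fin w) k)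
    (hQ : ∀ s t, (Q s t).IsHomogeneous (μ s + 1 - μ t) ∧ (μ s + 1 < μ t → Q s t = 0))
    (hQM : ∀ s, Φ 0 * M s - ∑ t, M t * bind₁ (fun i => Φ (Fin.succ i)) (Q s t) ∈ 𝔮) :
    ∃ P : MvPolynomial (Fin (w + 1)) k, P.IsHomogeneous R ∧ bind₁ Φ P ∈ 𝔮 ∧
      eval (Pi.single 0 1) P ≠ 0 := by
  classical
  let A : Matrix (Fin R) (Fin R) (MvPolynomial (Fin (w + 1)) k) := fun s t =>
    (if s = t then X 0 else 0) - rename Fin.succ (Q s t)
  have hA : ∀ s t, (A s t).IsHomogeneous (μ s + 1 - μ t) ∧ (μ s + 1 < μ t → A s t = 0) := by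
    intro s t
    refine ⟨?_, fun h => ?_⟩
    · refine IsHomogeneous.sub ?_ ((hQ s t).1.rename_isHomogeneous)
      by_cases hst : s = t
      · subst hst
        rw [if_pos rfl, Nat.add_sub_cancel_left]
        exact isHomogeneous_X _ _
      · rw [if_neg hst]
        exact isHomogeneous_zero _ _ _
    · have hst : s ≠ t := by
        rintro rfl
        omega
      simp only [A, if_neg hst, (hQ s t).2 h, map_zero, sub_zero]
  have hdet : A.det.IsHomogeneous R := by
    rw [Matrix.det_apply]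
    refine IsHomogeneous.sum _ _ _ fun σ _ => ?_
    have h1 : (∏ i, A (σ i) i).IsHomogeneous R := by
      by_cases h : ∀ i, μ i ≤ μ (σ i) + 1
      · have h2 := IsHomogeneous.prod Finset.univ (fun i => A (σ i) i)
          (fun i => μ (σ i) + 1 - μ i) fun i _ => (hA _ _).1
        have h3 : ∑ i, (μ (σ i) + 1 - μ i) = R := by
          have h4 : ∑ i, (μ (σ i) + 1 - μ i) + ∑ i, μ i = ∑ i, (μ (σ i) + 1) := by
            rw [← Finset.sum_add_distrib]
            refine Finset.sum_congr rfl fun i _ => ?_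
            have := h i
            omega
          rw [Finset.sum_add_distrib, Equiv.sum_comp σ μ] at h4
          simp only [Finset.sum_const, Finset.card_univ, Fintype.card_fin, smul_eq_mul,
            mul_one] at h4
          omega
        rw [h3] at h2
        exact h2
      · push Not at h
        obtain ⟨i, hi⟩ := h
        have h5 : ∏ i, A (σ i) i = 0 :=
          Finset.prod_eq_zero (Finset.mem_univ i) ((hA (σ i) i).2 hi)
        rw [h5]
        exact isHomogeneous_zero _ _ _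
    rcases Int.units_eq_one_or (Equiv.Perm.sign σ) with h2 | h2
    · rw [h2, one_smul]
      exact h1
    · rw [h2, Units.neg_smul, one_smul]
      exact h1.neg
  refine ⟨A.det, hdet, ?_, ?_⟩
  · have hdom : IsDomain (MvPolynomial ι k ⧸ 𝔮) := Ideal.Quotient.isDomain 𝔮
    let φ : MvPolynomial (Fin (w + 1)) k →+* MvPolynomial ι k ⧸ 𝔮 :=
      (Ideal.Quotient.mk 𝔮).comp (bind₁ Φ).toRingHom
    have h1 : φ A.det = 0 := by
      rw [RingHom.map_det]
      rw [← Matrix.exists_mulVec_eq_zero_iff]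
      refine ⟨fun t => Ideal.Quotient.mk 𝔮 (M t), ?_, ?_⟩
      · intro h
        obtain ⟨s, hs⟩ := hM
        exact hs (Ideal.Quotient.eq_zero_iff_mem.1 (congrFun h s))
      · funext s
        have h2 := Ideal.Quotient.eq_zero_iff_mem.2 (hQM s)
        rw [map_sub, map_sum] at h2
        rw [Pi.zero_apply, ← h2]
        show ∑ t, φ (A s t) * Ideal.Quotient.mk 𝔮 (M t) = _
        have h3 : ∀ t, φ (A s t) * Ideal.Quotient.mk 𝔮 (M t) =
            (if s = t then Ideal.Quotient.mk 𝔮 (Φ 0 * M s) else 0) -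
              Ideal.Quotient.mk 𝔮 (M t * bind₁ (fun i => Φ (Fin.succ i)) (Q s t)) := by
          intro t
          have h4 : φ (rename Fin.succ (Q s t)) =
              Ideal.Quotient.mk 𝔮 (bind₁ (fun i => Φ (Fin.succ i)) (Q s t)) := by
            show Ideal.Quotient.mk 𝔮 (bind₁ Φ (rename Fin.succ (Q s t))) = _
            rw [bind₁_rename]
            rfl
          have h5 : φ (X 0) = Ideal.Quotient.mk 𝔮 (Φ 0) := by
            show Ideal.Quotient.mk 𝔮 (bind₁ Φ (X 0)) = _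
            rw [bind₁_X_right]
          show φ ((if s = t then X 0 else 0) - rename Fin.succ (Q s t)) * _ = _
          rw [map_sub, h4]
          by_cases hst : s = t
          · subst hst
            rw [if_pos rfl, if_pos rfl, h5, map_mul, map_mul]
            ring
          · rw [if_neg hst, if_neg hst, map_zero, map_mul]
            ring
        rw [Finset.sum_congr rfl fun t _ => h3 t, Finset.sum_sub_distrib,
          Finset.sum_ite_eq, if_pos (Finset.mem_univ _)]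
    exact Ideal.Quotient.eq_zero_iff_mem.1 h1
  · intro h0
    let C₀ : Matrix (Fin R) (Fin R) k := fun s t => eval (fun _ => (0 : k)) (Q s t)
    have h1 : C₀.charpoly = 0 := by
      refine Polynomial.funext fun t => ?_
      rw [Matrix.eval_charpoly, Polynomial.eval_zero]
      have h2 : eval (fun i => t * (Pi.single 0 1 : Fin (w + 1) → k) i) A.det = 0 := by
        rw [eval_smul_form hdet, h0, mul_zero]
      rw [RingHom.map_det] at h2
      rw [← h2]
      congr 1
      ext s s'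
      show (Matrix.scalar (Fin R) t) s s' - C₀ s s' = eval _ (A s s')
      have h3 : eval (fun i => t * (Pi.single 0 1 : Fin (w + 1) → k) i)
          (rename Fin.succ (Q s s')) = C₀ s s' := by
        rw [eval_rename]
        show eval _ (Q s s') = eval _ (Q s s')
        congr 2
        funext i
        simp
      show _ = eval _ ((if s = s' then X 0 else 0) - rename Fin.succ (Q s s'))
      rw [map_sub, h3]
      congr 1
      by_cases hs : s = s'
      · subst hs
        simp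
      · rw [if_neg hs, map_zero]
        simp [Matrix.diagonal_apply_ne _ hs]
    exact (Matrix.charpoly_monic C₀).ne_zero h1

/-- dimension count -/
theorem lce_HF {k ι : Type} [Field k] [Finite ι] {w R : ℕ} {𝔮 : Ideal (MvPolynomial ι k)}
    (Φ : Fin w → MvPolynomial ι k) (M : Fin R → MvPolynomial ι k) (μ : Fin R → ℕ) (b c : ℕ)
    (hc : ∀ d ≤ b, HF (𝔮.comap (bind₁ Φ)) d ≤ c)
    (h : ∀ F : MvPolynomial ι k, F.IsHomogeneous b → ∃ Q : Fin R → MvPolynomial (Fin w) k,
      (∀ s, (Q s).IsHomogeneous (b - μ s)) ∧ F - ∑ s, M s * bind₁ Φ (Q s) ∈ 𝔮) :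
    HF 𝔮 b ≤ R * c := by
  classical
  set 𝔯 := 𝔮.comap (bind₁ Φ) with h𝔯
  let g : (MvPolynomial (Fin w) k ⧸ 𝔯) →ₐ[k] (MvPolynomial ι k ⧸ 𝔮) :=
    Ideal.quotientMapₐ 𝔮 (bind₁ Φ) le_rfl
  let V : Fin R → Submodule k (MvPolynomial (Fin w) k ⧸ 𝔯) := fun s =>
    (homogeneousSubmodule (Fin w) k (b - μ s)).map (Ideal.Quotient.mkₐ k 𝔯).toLinearMap
  have hfin : ∀ s, Module.Finite k (V s) := fun s => hilb_fin 𝔯 (b - μ s)
  let Λ : ((s : Fin R) → V s) →ₗ[k] (MvPolynomial ι k ⧸ 𝔮) :=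
    ∑ s, (LinearMap.mulLeft k (Ideal.Quotient.mk 𝔮 (M s))).comp
      (g.toLinearMap.comp ((V s).subtype.comp (LinearMap.proj s)))
  have hΛ : ∀ v, Λ v = ∑ s, Ideal.Quotient.mk 𝔮 (M s) * g (v s) := by
    intro v
    simp only [Λ, LinearMap.sum_apply]
    rfl
  have hle : (homogeneousSubmodule ι k b).map (Ideal.Quotient.mkₐ k 𝔮).toLinearMap ≤
      LinearMap.range Λ := by
    rintro _ ⟨F, hF, rfl⟩
    obtain ⟨Q, hQ, hFQ⟩ := h F ((mem_homogeneousSubmodule _ _).1 hF)
    refine ⟨fun s => ⟨Ideal.Quotient.mk 𝔯 (Q s), Q s, (mem_homogeneousSubmodule _ _).2 (hQ s),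
      rfl⟩, ?_⟩
    rw [hΛ]
    have h1 := Ideal.Quotient.eq_zero_iff_mem.2 hFQ
    rw [map_sub, map_sum, sub_eq_zero] at h1
    show _ = Ideal.Quotient.mk 𝔮 F
    rw [h1]
    refine Finset.sum_congr rfl fun s _ => ?_
    rw [map_mul]
    rfl
  have h1 := Submodule.finrank_mono hle
  have h2 := LinearMap.finrank_range_le Λ
  rw [Module.finrank_pi_fintype] at h2
  have h3 : ∑ s, Module.finrank k (V s) ≤ ∑ _s : Fin R, c :=
    Finset.sum_le_sum fun s _ => hc _ (Nat.sub_le _ _)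
  rw [Finset.sum_const, Finset.card_univ, Fintype.card_fin, smul_eq_mul] at h3
  exact h1.trans (h2.trans h3)

theorem lce_HF_bot {k : Type} [Field k] (n b : ℕ) :
    HF (⊥ : Ideal (MvPolynomial (Fin (n + 1)) k)) b ≤ (b + 1) ^ n := by
  classical
  unfold HF rk
  set f := (Ideal.Quotient.mkₐ k (⊥ : Ideal (MvPolynomial (Fin (n + 1)) k))).toLinearMap with hf
  let mon : (Fin n → Fin (b + 1)) → MvPolynomial (Fin (n + 1)) k := fun g =>
    monomial (Finsupp.equivFunOnFinite.symm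
      (Fin.cons (b - ∑ i, (g i : ℕ)) (fun i => (g i : ℕ)) : Fin (n + 1) → ℕ)) 1
  have hspan : homogeneousSubmodule (Fin (n + 1)) k b ≤ Submodule.span k (Set.range mon) := by
    intro G hG
    rw [mem_homogeneousSubmodule] at hG
    rw [G.as_sum]
    refine Submodule.sum_mem _ fun m hm => ?_
    have h1 : ∑ i, m i = b := npt_deg hG m hm
    rw [Fin.sum_univ_succ] at h1
    have h2 : ∀ i : Fin n, m i.succ < b + 1 := by
      intro i
      have h3 := Finset.single_le_sum (f := fun j : Fin n => m j.succ)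
        (fun j _ => Nat.zero_le _) (Finset.mem_univ i)
      omega
    have h3 : (Finsupp.equivFunOnFinite.symm (Fin.cons (b - ∑ i : Fin n, m i.succ)
        (fun i => m i.succ) : Fin (n + 1) → ℕ)) = m := by
      ext i
      refine Fin.cases ?_ (fun i => ?_) i
      · show b - _ = m 0
        omega
      · rfl
    have h4 : monomial m (coeff m G) = coeff m G • mon (fun i => ⟨m i.succ, h2 i⟩) := by
      show _ = coeff m G • monomial (Finsupp.equivFunOnFinite.symm
        (Fin.cons (b - ∑ i : Fin n, m i.succ) (fun i => m i.succ) : Fin (n + 1) → ℕ)) 1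
      rw [h3, smul_monomial, smul_eq_mul, mul_one]
    rw [h4]
    exact Submodule.smul_mem _ _ (Submodule.subset_span ⟨_, rfl⟩)
  have h1 : (homogeneousSubmodule (Fin (n + 1)) k b).map f ≤
      Submodule.span k (Set.range (f ∘ mon)) := by
    refine (Submodule.map_mono hspan).trans ?_
    rw [Submodule.map_span, ← Set.range_comp]
  have h2 : Module.Finite k (Submodule.span k (Set.range (f ∘ mon))) :=
    Module.Finite.span_of_finite k (Set.finite_range _)
  have h3 := Submodule.finrank_mono h1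
  have h4 := finrank_range_le_card (R := k) (f ∘ mon)
  refine h3.trans (h4.trans (le_of_eq ?_))
  rw [Fintype.card_fun, Fintype.card_fin, Fintype.card_fin]

theorem lce_HBc_bot {k : Type} [Field k] (n : ℕ) :
    HBc (⊥ : Ideal (MvPolynomial (Fin (n + 1)) k)) (n + 1) (2 ^ n) := by
  intro b
  rcases Nat.eq_zero_or_pos b with rfl | hb
  · rw [zero_mul]
    exact Nat.zero_le _
  · calc b * HF (⊥ : Ideal (MvPolynomial (Fin (n + 1)) k)) b ≤ b * (b + 1) ^ n :=
          Nat.mul_le_mul_left b (lce_HF_bot n b)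
      _ ≤ b * (2 * b) ^ n := Nat.mul_le_mul_left b (Nat.pow_le_pow_left (by omega) _)
      _ = 2 ^ n * b ^ (n + 1) := by rw [mul_pow, pow_succ]; ring

/-- a nonzero form of least degree in a homogeneous prime generates a prime ideal -/
theorem lce_least {k σ : Type} [Field k] [Finite σ] {𝔯 : Ideal (MvPolynomial σ k)}
    (h𝔯 : HPrime 𝔯) (q : ℕ) (Q : MvPolynomial σ k) (hQ : Q.IsHomogeneous q) (hQ0 : Q ≠ 0)
    (hQ𝔯 : Q ∈ 𝔯)
    (hmin : ∀ q' < q, ∀ Q' : MvPolynomial σ k, Q'.IsHomogeneous q' → Q' ∈ 𝔯 → Q' = 0) :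
    HPrime (Ideal.span {Q}) := by
  classical
  have hle : ∀ A : MvPolynomial σ k, A ∈ 𝔯 → A ≠ 0 → q ≤ A.totalDegree := by
    intro A hA hA0
    by_contra hlt
    push Not at hlt
    apply hA0
    rw [← sum_homogeneousComponent A]
    refine Finset.sum_eq_zero fun i hi => ?_
    rw [Finset.mem_range] at hi
    exact hmin i (by omega) _ (homogeneousComponent_isHomogeneous i A) (h𝔯.comp A hA i)
  have hQd : Q.totalDegree = q := hQ.totalDegree hQ0
  have hu : ∀ A : MvPolynomial σ k, A ≠ 0 → A.totalDegree = 0 → IsUnit A := by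
    intro A hA0 hA
    rw [totalDegree_eq_zero_iff_eq_C] at hA
    rw [hA]
    refine IsUnit.map C (IsUnit.mk0 _ ?_)
    intro h
    rw [h, map_zero] at hA
    exact hA0 hA
  have hirr : Irreducible Q := by
    constructor
    · intro h
      exact h𝔯.prime.ne_top (Ideal.eq_top_of_isUnit_mem _ hQ𝔯 h)
    · intro A B hAB
      have hA0 : A ≠ 0 := by
        rintro rfl
        rw [zero_mul] at hAB
        exact hQ0 hAB
      have hB0 : B ≠ 0 := by
        rintro rfl
        rw [mul_zero] at hAB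
        exact hQ0 hAB
      have hd := totalDegree_mul_of_isDomain hA0 hB0
      rw [← hAB, hQd] at hd
      rw [hAB] at hQ𝔯
      rcases h𝔯.prime.mem_or_mem hQ𝔯 with h | h
      · exact Or.inr (hu B hB0 (by have := hle A h hA0; omega))
      · exact Or.inl (hu A hA0 (by have := hle B h hB0; omega))
  refine ⟨(Ideal.span_singleton_prime hQ0).2 hirr.prime, ?_⟩
  intro G hG b
  have h1 := comp_sup (⊥ : Ideal (MvPolynomial σ k)) hprime_bot.comp q Q hQ G
    (by rw [bot_sup_eq]; exact hG) b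
  rwa [bot_sup_eq] at h1

theorem lemC_eff {k ι : Type} [Field k] [Infinite k] [Fintype ι] (w c g : ℕ)
    {𝔮 : Ideal (MvPolynomial ι k)} (h𝔮 : HPrime 𝔮) (hc : HBc 𝔮 (w + 1) c)
    (hlow : ∃ b, eb (Fintype.card ι) w c g * b ^ w < b * HF 𝔮 b) (z : ι → k) (e : ℕ)
    (he : e ≤ g) (G : MvPolynomial ι k) (hG : G.IsHomogeneous e) (hG𝔮 : G ∈ 𝔮)
    (hGz : eval z G ≠ 0) :
    ∃ e' ≤ bz w c, ∃ G' : MvPolynomial ι k, G'.IsHomogeneous e' ∧ G' ∈ 𝔮 ∧ eval z G' ≠ 0 := by
  classical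
  have hb₀ : 1 ≤ bz w c := by
    unfold bz
    exact Nat.mul_pos (Nat.succ_pos w) (Nat.succ_pos _)
  have hone : (1 : MvPolynomial ι k) ∉ 𝔮 := fun h =>
    h𝔮.prime.ne_top ((Ideal.eq_top_iff_one 𝔮).2 h)
  have he0 : 0 < e := by
    rcases Nat.eq_zero_or_pos e with rfl | h
    · exfalso
      have h1 : G = C (coeff 0 G) := by
        have h2 := homogeneousComponent_of_mem (m := 0) hG
        rw [if_pos rfl, homogeneousComponent_zero] at h2
        exact h2.symm
      have h2 : coeff 0 G ≠ 0 := by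
        intro h
        rw [h1, h, map_zero, map_zero] at hGz
        exact hGz rfl
      rw [h1] at hG𝔮
      have h4 := 𝔮.mul_mem_left (C (coeff 0 G)⁻¹) hG𝔮
      rw [← map_mul, inv_mul_cancel₀ h2, map_one] at h4
      exact hone h4
    · exact h
  obtain ⟨i₀, hi₀⟩ : ∃ i, z i ≠ 0 := by
    by_contra hcon
    push Not at hcon
    apply hGz
    have h1 := npt_smul (R := k) hG (0 : k) z
    rw [zero_pow he0.ne', zero_mul] at h1
    have h2 : (fun i => (0 : k) * z i) = z := by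
      funext i
      rw [hcon i, mul_zero]
    rw [h2] at h1
    exact h1
  by_cases hX : X i₀ ∈ 𝔮
  · exact ⟨1, hb₀, X i₀, isHomogeneous_X k i₀, hX, by rwa [eval_X]⟩
  have hrel := fun (ℓ : Fin (w + 2) → MvPolynomial ι k) (hℓ : ∀ t, (ℓ t).IsHomogeneous 1) =>
    exists_form_relation 𝔮 w c (hc (bz w c)) ℓ hℓ
  obtain ⟨R, M, μ, L, hR, hM, hL, hgen⟩ := lce_struct w (bz w c) hb₀ hrel z i₀ hi₀ e he0 G hG
    hG𝔮 hGz
  have hgr := fun (b : ℕ) (F : MvPolynomial ι k) (hF : F.IsHomogeneous b) =>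
    lce_graded h𝔮 M μ hM L (fun t => (hL t).1) b F hF (hgen F)
  let Φ : Fin (w + 2) → MvPolynomial ι k := Fin.cons (X i₀) L
  have hΦ0 : Φ 0 = X i₀ := rfl
  have hΦs : ∀ t, Φ (Fin.succ t) = L t := fun t => rfl
  have hΦ : ∀ t, (Φ t).IsHomogeneous 1 := by
    intro t
    refine Fin.cases ?_ (fun t => ?_) t
    · exact isHomogeneous_X k i₀
    · exact (hL t).1
  set 𝔯 := 𝔮.comap (bind₁ Φ) with h𝔯d
  have h𝔯 : HPrime 𝔯 := hprime_comap' h𝔮 Φ 1 le_rfl hΦ
  have hX𝔯 : (X 0 : MvPolynomial (Fin (w + 2)) k) ∉ 𝔯 := by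
    intro h
    rw [h𝔯d, Ideal.mem_comap, bind₁_X_right] at h
    exact hX h
  have hMne : ∃ s, M s ∉ 𝔮 := by
    by_contra hcon
    push Not at hcon
    obtain ⟨Q, hQ⟩ := hgen 1
    apply hone
    have h1 : ∑ s, M s * bind₁ L (Q s) ∈ 𝔮 :=
      Ideal.sum_mem _ fun s _ => 𝔮.mul_mem_right _ (hcon s)
    have h2 := 𝔮.add_mem hQ h1
    rwa [sub_add_cancel] at h2
  have hrow : ∀ s, ∃ Q : Fin R → MvPolynomial (Fin (w + 1)) k,
      (∀ t, (Q t).IsHomogeneous (μ s + 1 - μ t) ∧ (μ s + 1 < μ t → Q t = 0)) ∧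
        X i₀ * M s - ∑ t, M t * bind₁ L (Q t) ∈ 𝔮 := by
    intro s
    refine hgr (μ s + 1) (X i₀ * M s) ?_
    have h1 := (isHomogeneous_X k i₀).mul (hM s)
    rwa [add_comm] at h1
  choose Q hQ hQM using hrow
  obtain ⟨P, hP, hP𝔮, hP1⟩ := lce_charpoly h𝔮.prime Φ M μ hMne Q hQ hQM
  -- a nonzero form of least degree
  have hex : ∃ q, ∃ Q' : MvPolynomial (Fin (w + 2)) k, Q'.IsHomogeneous q ∧ Q' ≠ 0 ∧ Q' ∈ 𝔯 := by
    obtain ⟨Q', h1, h2, h3⟩ := hrel Φ hΦ
    exact ⟨bz w c, Q', h1, h2, h3⟩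
  have hqb : Nat.find hex ≤ bz w c := by
    obtain ⟨Q', h1, h2, h3⟩ := hrel Φ hΦ
    exact Nat.find_min' hex ⟨Q', h1, h2, h3⟩
  obtain ⟨Q₀, hQ₀h, hQ₀0, hQ₀𝔯⟩ := Nat.find_spec hex
  have hmin : ∀ q' < Nat.find hex, ∀ Q' : MvPolynomial (Fin (w + 2)) k, Q'.IsHomogeneous q' →
      Q' ∈ 𝔯 → Q' = 0 := by
    intro q' hq' Q' h1 h2
    by_contra h3
    exact Nat.find_min hex hq' ⟨Q', h1, h3, h2⟩
  set q := Nat.find hex with hq
  by_cases hdvd : Q₀ ∣ P
  · obtain ⟨A, hA⟩ := hdvd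
    refine ⟨q, hqb, bind₁ Φ Q₀, ?_, hQ₀𝔯, ?_⟩
    · have h1 := bind_hom hΦ hQ₀h
      rwa [one_mul] at h1
    · rw [eval_bind]
      have h1 : (fun t => eval z (Φ t)) = fun t => z i₀ * (Pi.single 0 1 : Fin (w + 2) → k) t := by
        funext t
        refine Fin.cases ?_ (fun t => ?_) t
        · rw [hΦ0, eval_X, Pi.single_eq_same, mul_one]
        · rw [hΦs, (hL t).2, Pi.single_eq_of_ne (Fin.succ_ne_zero t), mul_zero]
      rw [h1, eval_smul_form hQ₀h]
      refine mul_ne_zero (pow_ne_zero _ hi₀) ?_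
      intro h2
      apply hP1
      rw [hA, map_mul, h2, zero_mul]
  · exfalso
    have hsp := lce_least h𝔯 q Q₀ hQ₀h hQ₀0 hQ₀𝔯 hmin
    have hsle : Ideal.span {Q₀} ≤ 𝔯 := by
      rw [Ideal.span_le]
      rintro x hx
      rw [Set.mem_singleton_iff] at hx
      rw [hx]
      exact hQ₀𝔯
    have h1 := HBc_drop hprime_bot hsp bot_le q Q₀ hQ₀h (Ideal.mem_span_singleton_self Q₀)
      (fun h => hQ₀0 (Ideal.mem_bot.1 h)) 0 (fun h => hX𝔯 (hsle h)) (w + 1) (2 ^ (w + 1))
      (lce_HBc_bot (w + 1))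
    have h2 := HBc_drop hsp h𝔯 hsle R P hP hP𝔮
      (fun h => hdvd (Ideal.mem_span_singleton.1 h)) 0 hX𝔯 w _ h1
    have hmono : Monotone (HF 𝔯) := monotone_nat_of_le_succ (drop_mono h𝔯 0 hX𝔯)
    obtain ⟨b, hb⟩ := hlow
    have h3 : HF 𝔮 b ≤ R * HF 𝔯 b := by
      refine lce_HF Φ M μ b (HF 𝔯 b) (fun d hd => hmono hd) ?_
      intro F hF
      obtain ⟨Q', hQ', hFQ'⟩ := hgr b F hF
      refine ⟨fun s => rename Fin.succ (Q' s), fun s => (hQ' s).1.rename_isHomogeneous, ?_⟩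
      have h4 : ∀ s, bind₁ Φ (rename Fin.succ (Q' s)) = bind₁ L (Q' s) := by
        intro s
        rw [bind₁_rename]
        rfl
      rw [Finset.sum_congr rfl fun s _ => by rw [h4]]
      exact hFQ'
    have h4 := h2 b
    have hR' : R ≤ g * bz w c ^ Fintype.card ι := hR.trans (Nat.mul_le_mul_right _ he)
    have h5 : b * HF 𝔮 b ≤ R * (R * (q * 2 ^ (w + 1) * 2 ^ (w + 1)) * 2 ^ w * b ^ w) := by
      calc b * HF 𝔮 b ≤ b * (R * HF 𝔯 b) := Nat.mul_le_mul_left _ h3
        _ = R * (b * HF 𝔯 b) := by ring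
        _ ≤ _ := Nat.mul_le_mul_left _ h4
    have h6 : R * (R * (q * 2 ^ (w + 1) * 2 ^ (w + 1)) * 2 ^ w * b ^ w) ≤
        eb (Fintype.card ι) w c g * b ^ w := by
      have h7 : R * (R * (q * 2 ^ (w + 1) * 2 ^ (w + 1)) * 2 ^ w * b ^ w) =
          R ^ 2 * q * (2 ^ (w + 1) * 2 ^ (w + 1) * 2 ^ w) * b ^ w := by ring
      have h8 : (8 : ℕ) ^ (w + 1) = 2 ^ (w + 1) * 2 ^ (w + 1) * 2 ^ (w + 1) := by
        rw [← mul_pow, ← mul_pow]
        norm_num
      rw [h7]
      unfold eb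
      rw [h8]
      refine Nat.mul_le_mul_right _ (Nat.mul_le_mul (Nat.mul_le_mul ?_ ?_) ?_)
      · exact Nat.pow_le_pow_left (by omega) 2
      · have h9 : bz w c ≤ (Fintype.card ι + 2) * bz w c :=
          Nat.le_mul_of_pos_left _ (by omega)
        omega
      · exact Nat.mul_le_mul_left _ (Nat.pow_le_pow_right (by omega) (by omega))
    omega

end Pool.Agent.GE
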