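import Pool.Agent.GE.Images
import Pool.Agent.GT.Whole

/-!
Row GE-E16: propagation of the hulls along the orbit (effective version).
-/

set_option autoImplicit false

open Filter MvPolynomial

namespace Pool.Agent.GE

open Pool.Agent.GT

theorem propfin_card_sh {K ι : Type} [Field K] (y : ℕ → ι → K) (S : Finset ℕ) (l : ℕ)
    (Φ : ι → MvPolynomial ι K) : S.card ≤ (sh y S l Φ).card + (bad y S l Φ).card := by
  classical
  unfold sh
  rw [Finset.card_image_of_injective _ (add_left_injective l)]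
  have h := Finset.le_card_sdiff (bad y S l Φ) S
  omega

theorem prop_fin {K T ι : Type} [Field K] [Finite ι] {δ : T → ℕ}
    {F : T → ι → MvPolynomial ι K} {y : ℕ → ι → K} (h : Orb δ F y) (hirr : Irr y) (d : ℕ)
    (hd : ∀ t, δ t ≤ d) {𝔭 : Ideal (MvPolynomial ι K)} (S : Finset ℕ)
    (hv : ∀ G ∈ 𝔭, ∀ n ∈ S, eval (y n) G = 0) (x : ℝ) (hx : 0 < x) (g L C D : ℕ)
    (hFZ : ∀ e ≤ g, ∀ G : MvPolynomial ι K, G.IsHomogeneous e → G ∉ 𝔭 →
      ∀ Z ⊆ S, (∀ n ∈ Z, eval (y n) G = 0) → (Z.card : ℝ) < x)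
    (a : ℕ → ℕ) (Φ : ℕ → ι → MvPolynomial ι K)
    (hΦ : ∀ l ≤ L, a l ≤ C ∧ (∀ i, (Φ l i).IsHomogeneous (a l)) ∧
      ((bad y S l (Φ l)).card : ℝ) ≤ (3 * (l : ℝ) + 1) * x)
    (hcard : 2 * ((3 * (L : ℝ) + 1) * x) + x ≤ S.card) (hg : C * ((d + 1) * D) ≤ g)
    (hhull : ∀ l ≤ L, ∀ z : ι → K,
      (∀ e ≤ D, ∀ G : MvPolynomial ι K, G.IsHomogeneous e → bind₁ (Φ l) G ∈ 𝔭 → eval z G = 0) →
      ∀ e ≤ d * D, ∀ G : MvPolynomial ι K, G.IsHomogeneous e → bind₁ (Φ l) G ∈ 𝔭 →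
        eval z G = 0)
    (l l' : ℕ) (hl : l < l') (hl' : l' ≤ L)
    (hpair : x ≤ ((sh y S l (Φ l) ∩ sh y S l' (Φ l')).card : ℝ)) :
    ∃ k, l ≤ k ∧ k < l' ∧ ∀ n, ∀ e ≤ D, ∀ G : MvPolynomial ι K, G.IsHomogeneous e →
      bind₁ (Φ k) G ∈ 𝔭 → eval (y n) G = 0 := by
  classical
  have hdeg : ∀ k ≤ L, ∀ e ≤ D, a k * e ≤ g := by
    intro k hk e he
    calc a k * e ≤ C * D := Nat.mul_le_mul (hΦ k hk).1 he
      _ ≤ C * ((d + 1) * D) := by
        refine Nat.mul_le_mul_left _ ?_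
        calc D = 1 * D := (one_mul D).symm
          _ ≤ (d + 1) * D := Nat.mul_le_mul_right _ (by omega)
      _ ≤ g := hg
  have hbad : ∀ k ≤ L, ((bad y S k (Φ k)).card : ℝ) ≤ (3 * (L : ℝ) + 1) * x := by
    intro k hk
    refine (hΦ k hk).2.2.trans ?_
    have h1 : (k : ℝ) ≤ L := by exact_mod_cast hk
    nlinarith
  have hLx : 0 < (3 * (L : ℝ) + 1) * x := by positivity
  have hshc : ∀ k ≤ L, x ≤ ((sh y S k (Φ k)).card : ℝ) := by
    intro k hk
    have h1 : (S.card : ℝ) ≤ (sh y S k (Φ k)).card + (bad y S k (Φ k)).card := by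
      exact_mod_cast propfin_card_sh y S k (Φ k)
    have h2 := hbad k hk
    linarith
  -- the hull in terms of the ideal
  have hmem : ∀ k ≤ L, ∀ e ≤ D, ∀ G : MvPolynomial ι K, G.IsHomogeneous e →
      (bind₁ (Φ k) G ∈ 𝔭 ↔ ∀ n ∈ sh y S k (Φ k), eval (y n) G = 0) := by
    intro k hk e he G hG
    have h1 := img_iff S hv x g hFZ k (a k) (Φ k) (hΦ k hk).2.1 e (hdeg k hk e he) G hG
    exact ⟨h1.1, fun h2 => h1.2 _ (Finset.Subset.refl _) (hshc k hk) h2⟩
  have hhull' : ∀ k ≤ L, ∀ z : ι → K, Hull y D (sh y S k (Φ k)) z ↔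
      ∀ e ≤ D, ∀ G : MvPolynomial ι K, G.IsHomogeneous e → bind₁ (Φ k) G ∈ 𝔭 →
        eval z G = 0 := by
    intro k hk z
    constructor
    · intro h1 e he G hG hG𝔭
      exact h1 e he G hG ((hmem k hk e he G hG).1 hG𝔭)
    · intro h1 e he G hG hG0
      exact h1 e he G hG ((hmem k hk e he G hG).2 hG0)
  -- one step
  have hstep : ∀ k < L, ∀ n, Hull y D (sh y S k (Φ k)) (y n) →
      ∀ e ≤ D, ∀ G : MvPolynomial ι K, G.IsHomogeneous e → bind₁ (Φ (k + 1)) G ∈ 𝔭 →
        eval (y (n + 1)) G = 0 := by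
    intro k hk n hn e he G hG hG𝔭
    obtain ⟨t, i, hti⟩ := h.step n
    obtain ⟨c, hc⟩ := h.prop n t
    have hc0 : c ≠ 0 := by
      rintro rfl
      rw [hc i, zero_mul] at hti
      exact hti rfl
    have h1 : bind₁ (Φ k) (bind₁ (F t) G) ∈ 𝔭 := by
      refine img_step h d hd S hv x g hFZ k (a k) (a (k + 1)) (Φ k) (Φ (k + 1))
        (hΦ k hk.le).2.1 (hΦ (k + 1) hk).2.1 ?_ e ?_ G hG hG𝔭 t
      · have h2 := hbad k hk.le
        have h3 := hbad (k + 1) hk
        linarith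
      · calc a k * (d * e) ≤ C * ((d + 1) * D) :=
            Nat.mul_le_mul (hΦ k hk.le).1 (Nat.mul_le_mul (by omega) he)
          _ ≤ g := hg
    have h2 : (bind₁ (F t) G).IsHomogeneous (δ t * e) := bind_hom (h.hom t) hG
    have h3 := hhull k hk.le (y n) ((hhull' k hk.le (y n)).1 hn) (δ t * e)
      (Nat.mul_le_mul (hd t) he) (bind₁ (F t) G) h2 h1
    rw [eval_bind] at h3
    have h4 : (fun i => eval (y n) (F t i)) = fun i => c * y (n + 1) i := funext hc
    rw [h4, eval_smul_form hG] at h3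
    exact (mul_eq_zero.1 h3).resolve_left (pow_ne_zero _ hc0)
  -- the start
  have hne : (sh y S l (Φ l) ∩ sh y S l' (Φ l')).Nonempty := by
    rw [← Finset.card_pos]
    exact_mod_cast lt_of_lt_of_le hx hpair
  obtain ⟨μ, hμ⟩ := hne
  rw [Finset.mem_inter] at hμ
  have hp : 0 < l' - l := by omega
  have main : ∀ m, Hull y D (sh y S (l + m % (l' - l)) (Φ (l + m % (l' - l)))) (y (μ + m)) := by
    intro m
    induction m with
    | zero =>
      rw [Nat.zero_mod, add_zero, add_zero]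
      intro e he G hG hG0
      exact hG0 μ hμ.1
    | succ m ih =>
      have hk : m % (l' - l) < l' - l := Nat.mod_lt m hp
      set r := m % (l' - l) with hr
      have hkL : l + r < L := by omega
      by_cases hr1 : r + 1 < l' - l
      · have h1 : (m + 1) % (l' - l) = r + 1 := by
          rw [Nat.add_mod, ← hr]
          rcases Nat.lt_or_ge 1 (l' - l) with h2 | h2
          · rw [Nat.mod_eq_of_lt h2, Nat.mod_eq_of_lt hr1]
          · omega
        rw [h1, hhull' (l + (r + 1)) (by omega)]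
        intro e he G hG hG𝔭
        exact hstep (l + r) hkL (μ + m) ih e he G hG hG𝔭
      · have h1 : (m + 1) % (l' - l) = 0 := by
          have h2 : r + 1 = l' - l := by omega
          rw [← Nat.mod_add_mod, ← hr, h2, Nat.mod_self]
        rw [h1, add_zero, hhull' l (by omega)]
        intro e he G hG hG𝔭
        have h3 : bind₁ (Φ l') G ∈ 𝔭 := by
          have h4 := img_iff S hv x g hFZ l' (a l') (Φ l') (hΦ l' hl').2.1 e
            (hdeg l' hl' e he) G hG
          refine h4.2 _ Finset.inter_subset_right hpair fun n hn => ?_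
          exact (hmem l (by omega) e he G hG).1 hG𝔭 n (Finset.mem_inter.1 hn).1
        have h5 : l + r + 1 = l' := by omega
        refine hstep (l + r) hkL (μ + m) ih e he G hG ?_
        rw [h5]
        exact h3
  obtain ⟨k, hk1, hk2, hk3⟩ := whole y h.ne hirr D l l' μ hl (fun k => sh y S k (Φ k))
    (fun m => ⟨l + m % (l' - l), by omega, by
      have hk : m % (l' - l) < l' - l := Nat.mod_lt m hp
      omega, main m⟩)
  refine ⟨k, hk1, hk2, fun n => ?_⟩
  exact (hhull' k (by omega) (y n)).1 (hk3 n)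

end Pool.Agent.GE
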