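import Pool.Agent.GE.FamB
import Pool.Agent.GE.LemCEff
import Pool.Agent.GE.Prop
import Pool.Agent.GT.PairCount

/-!
Forms of small degree which vanish on a large family vanish on the orbit.
-/

set_option autoImplicit false

open Filter MvPolynomial Height Height.AdmissibleAbsValues

namespace Pool.Agent.GE

open Pool.Agent.GT

theorem sh_large {K ι : Type} [Field K] {y : ℕ → ℕ → ι → K} {σ : ℕ → ℕ} (hσ : Inf σ)
    (θ θ₂ : ℝ) (hθ : 0 < θ) (hθ₂ : 5 * θ ≤ θ₂) (S : ℕ → Finset ℕ) (hL : LargeS σ θ S)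
    (Φ : ℕ → ℕ → ι → MvPolynomial ι K)
    (hbad : ∀ᶠ k in U, ∀ l ≤ ⌊(σ k : ℝ) ^ (3 * θ)⌋₊,
        ((bad (y k) (S k) l (Φ k l)).card : ℝ) ≤ (3 * (l : ℝ) + 1) * (σ k : ℝ) ^ (1 - θ₂)) :
    (∀ᶠ k in U, 2 * ((3 * (⌊(σ k : ℝ) ^ (3 * θ)⌋₊ : ℝ) + 1) * (σ k : ℝ) ^ (1 - θ₂)) +
      (σ k : ℝ) ^ (1 - θ₂) ≤ ((S k).card : ℝ)) ∧
    ∀ᶠ k in U, ∀ l ≤ ⌊(σ k : ℝ) ^ (3 * θ)⌋₊,
      (σ k : ℝ) ^ (1 - 5 * θ / 4) ≤ ((sh (y k) (S k) l (Φ k l)).card : ℝ) := by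
  have hexc := exc_negl hσ (3 * θ) (1 - θ₂) (1 - θ - θ / 8) (by linarith) (by linarith)
    (fun _ => 3) (Eventually.of_forall fun k => by norm_num) (small_const hσ 3)
  constructor
  · filter_upwards [hexc, hL (θ / 8) (by linarith), hσ 1] with k h1 h2 h3
    have h6 : (0 : ℝ) < σ k := by exact_mod_cast h3
    have h7 : 0 < (σ k : ℝ) ^ (1 - θ₂) := Real.rpow_pos_of_pos h6 _
    have h8 : (0 : ℝ) ≤ (⌊(σ k : ℝ) ^ (3 * θ)⌋₊ : ℝ) := Nat.cast_nonneg _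
    have h9 : (σ k : ℝ) ^ (1 - θ₂) ≤
        (3 * (⌊(σ k : ℝ) ^ (3 * θ)⌋₊ : ℝ) + 1) * (σ k : ℝ) ^ (1 - θ₂) := by
      nlinarith
    linarith
  · filter_upwards [hexc, hL (θ / 8) (by linarith), hσ 1, hbad,
      inf_rpow hσ 2 (θ / 8) (by linarith)] with k h1 h2 h3 h4 h5 l hl
    have h6 : (0 : ℝ) < σ k := by exact_mod_cast h3
    rw [card_sh]
    have h7 : 0 < (σ k : ℝ) ^ (1 - θ₂) := Real.rpow_pos_of_pos h6 _
    have h8 : ((bad (y k) (S k) l (Φ k l)).card : ℝ) ≤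
        (3 * (⌊(σ k : ℝ) ^ (3 * θ)⌋₊ : ℝ) + 1) * (σ k : ℝ) ^ (1 - θ₂) := by
      refine (h4 l hl).trans ?_
      have : (l : ℝ) ≤ (⌊(σ k : ℝ) ^ (3 * θ)⌋₊ : ℝ) := by exact_mod_cast hl
      gcongr
    have h9 : (σ k : ℝ) ^ (1 - θ - θ / 8) =
        (σ k : ℝ) ^ (θ / 8) * (σ k : ℝ) ^ (1 - 5 * θ / 4) := by
      rw [← Real.rpow_add h6]
      congr 1
      ring
    have h10 : 0 < (σ k : ℝ) ^ (1 - 5 * θ / 4) := Real.rpow_pos_of_pos h6 _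
    rw [h9] at h1 h2
    nlinarith

theorem sh_inW {K ι : Type} [Field K] {y : ℕ → ι → K} (κ N : ℕ) (η : ℝ) (hη : η ≤ 1)
    (hN : 1 ≤ N) (S : Finset ℕ) (hS : ∀ n ∈ S, n ≤ κ * N) (l : ℕ)
    (hl : l ≤ ⌊(N : ℝ) ^ η⌋₊) (Φ : ι → MvPolynomial ι K) :
    ∀ n ∈ sh y S l Φ, n ≤ (κ + 1) * N := by
  classical
  intro n hn
  unfold sh at hn
  obtain ⟨n', hn', rfl⟩ := Finset.mem_image.mp hn
  rw [Finset.mem_sdiff] at hn'
  have h1 := hS n' hn'.1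
  have h2 : (l : ℝ) ≤ N := by
    have h3 : (l : ℝ) ≤ (N : ℝ) ^ η :=
      (Nat.cast_le.mpr hl).trans (Nat.floor_le (Real.rpow_nonneg (Nat.cast_nonneg _) _))
    refine h3.trans ?_
    calc (N : ℝ) ^ η ≤ (N : ℝ) ^ (1 : ℝ) :=
          Real.rpow_le_rpow_of_exponent_le (by exact_mod_cast hN) hη
      _ = N := Real.rpow_one _
  have h3 : l ≤ N := by exact_mod_cast h2
  rw [add_mul]
  omega

theorem pair_seq {K ι : Type} [Field K] {y : ℕ → ℕ → ι → K} {σ : ℕ → ℕ} (hσ : Inf σ)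
    (θ θ₂ : ℝ) (hθ : 0 < θ) (hθ1 : 3 * θ ≤ 1) (hθ₂ : 5 * θ ≤ θ₂) (κ : ℕ) (S : ℕ → Finset ℕ)
    (hS : InWS σ κ S) (Φ : ℕ → ℕ → ι → MvPolynomial ι K)
    (hsh : ∀ᶠ k in U, ∀ l ≤ ⌊(σ k : ℝ) ^ (3 * θ)⌋₊,
      (σ k : ℝ) ^ (1 - 5 * θ / 4) ≤ ((sh (y k) (S k) l (Φ k l)).card : ℝ)) :
    ∀ᶠ k in U, ∃ l l', l < l' ∧ l' ≤ ⌊(σ k : ℝ) ^ (3 * θ)⌋₊ ∧
      (σ k : ℝ) ^ (1 - θ₂) ≤ ((sh (y k) (S k) l (Φ k l) ∩ sh (y k) (S k) l' (Φ k l')).card : ℝ) := by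
  classical
  have hneg := small_negl hσ (c := fun _ => 1) (Eventually.of_forall fun k => zero_le_one)
    (small_const hσ 1) (show 1 - 3 * θ < 1 - 5 * θ / 2 by linarith)
    (((κ : ℝ) + 2) * (κ + 3)) (by positivity)
  filter_upwards [hS, hsh, hneg, hσ 1] with k h1 h2 h3 h4
  have h6 : (0 : ℝ) < σ k := by exact_mod_cast h4
  have hσ1 : (1 : ℝ) ≤ σ k := by exact_mod_cast h4
  have hx : 0 < (σ k : ℝ) ^ (1 - 5 * θ / 4) := Real.rpow_pos_of_pos h6 _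
  have hg0 : 0 < (σ k : ℝ) ^ (1 - θ₂) := Real.rpow_pos_of_pos h6 _
  obtain ⟨l, l', h7, h8, h9⟩ := pair_count (⌊(σ k : ℝ) ^ (3 * θ)⌋₊ + 1) (Nat.succ_pos _)
    (Finset.range ((κ + 1) * σ k + 1)) (fun l => sh (y k) (S k) l (Φ k l))
    (fun l hl n hn => Finset.mem_range.mpr (Nat.lt_succ_of_le
      (sh_inW κ (σ k) (3 * θ) hθ1 h4 (S k) h1 l (Nat.lt_succ_iff.mp hl) (Φ k l) n hn)))
    ((σ k : ℝ) ^ (1 - 5 * θ / 4)) ((σ k : ℝ) ^ (1 - θ₂)) hx.le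
    (fun l hl => h2 l (Nat.lt_succ_iff.mp hl)) hg0 (by
      rw [Finset.card_range]
      have hΩ : (((κ + 1) * σ k + 1 : ℕ) : ℝ) ≤ ((κ : ℝ) + 2) * σ k := by
        push_cast
        linarith
      have hΩ0 : (0 : ℝ) < (((κ + 1) * σ k + 1 : ℕ) : ℝ) := by positivity
      have hLl : (σ k : ℝ) ^ (3 * θ) ≤ ((⌊(σ k : ℝ) ^ (3 * θ)⌋₊ + 1 : ℕ) : ℝ) := by
        push_cast
        exact (Nat.lt_floor_add_one _).le
      have hL0 : 0 < (σ k : ℝ) ^ (3 * θ) := Real.rpow_pos_of_pos h6 _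
      have e1 : (((κ + 1) * σ k + 1 : ℕ) : ℝ) / ((⌊(σ k : ℝ) ^ (3 * θ)⌋₊ + 1 : ℕ) : ℝ) ≤
          ((κ : ℝ) + 2) * (σ k : ℝ) ^ (1 - 3 * θ) := by
        calc (((κ + 1) * σ k + 1 : ℕ) : ℝ) / ((⌊(σ k : ℝ) ^ (3 * θ)⌋₊ + 1 : ℕ) : ℝ)
            ≤ (((κ : ℝ) + 2) * σ k) / (σ k : ℝ) ^ (3 * θ) := by gcongr
          _ = ((κ : ℝ) + 2) * (σ k : ℝ) ^ (1 - 3 * θ) := by
              rw [Real.rpow_sub h6, Real.rpow_one, mul_div_assoc]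
      have e2 : (σ k : ℝ) ^ (1 - 5 * θ / 2) / ((κ : ℝ) + 2) ≤
          ((σ k : ℝ) ^ (1 - 5 * θ / 4)) ^ 2 / (((κ + 1) * σ k + 1 : ℕ) : ℝ) := by
        have e3 : ((σ k : ℝ) ^ (1 - 5 * θ / 4)) ^ 2 = (σ k : ℝ) ^ (1 - 5 * θ / 2) * σ k := by
          rw [← Real.rpow_natCast, ← Real.rpow_mul h6.le]
          nth_rewrite 3 [← Real.rpow_one (σ k : ℝ)]
          rw [← Real.rpow_add h6]
          congr 1
          push_cast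
          ring
        rw [e3, div_le_div_iff₀ (by positivity) hΩ0]
        have e4 : 0 ≤ (σ k : ℝ) ^ (1 - 5 * θ / 2) := Real.rpow_nonneg h6.le _
        calc (σ k : ℝ) ^ (1 - 5 * θ / 2) * (((κ + 1) * σ k + 1 : ℕ) : ℝ)
            ≤ (σ k : ℝ) ^ (1 - 5 * θ / 2) * (((κ : ℝ) + 2) * σ k) :=
              mul_le_mul_of_nonneg_left hΩ e4
          _ = _ := by ring
      have e5 : (σ k : ℝ) ^ (1 - θ₂) ≤ (σ k : ℝ) ^ (1 - 3 * θ) :=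
        Real.rpow_le_rpow_of_exponent_le hσ1 (by linarith)
      have e6 : ((κ : ℝ) + 3) * (σ k : ℝ) ^ (1 - 3 * θ) ≤
          (σ k : ℝ) ^ (1 - 5 * θ / 2) / ((κ : ℝ) + 2) := by
        rw [le_div_iff₀ (by positivity)]
        calc ((κ : ℝ) + 3) * (σ k : ℝ) ^ (1 - 3 * θ) * ((κ : ℝ) + 2)
            = ((κ : ℝ) + 2) * (κ + 3) * (1 * (σ k : ℝ) ^ (1 - 3 * θ)) := by ring
          _ ≤ _ := h3
      linarith)
  exact ⟨l, l', h7, Nat.lt_succ_iff.mp h8, h9⟩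

theorem small_cC {σ : ℕ → ℕ} (hσ : Inf σ) (w : ℕ) (c C : ℕ → ℕ) (hc : Small σ fun k => c k)
    (hC : Small σ fun k => C k) : Small σ fun k => ((c k * C k ^ (w + 1) : ℕ) : ℝ) := by
  refine small_of_le (Eventually.of_forall fun k => le_of_eq ?_)
    (small_mul hσ (Eventually.of_forall fun k => by positivity)
      (Eventually.of_forall fun k => by positivity) hc
      (small_pow hσ (Eventually.of_forall fun k => Nat.cast_nonneg _) hC (w + 1)))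
  push_cast
  rfl

theorem small_eb {σ : ℕ → ℕ} (hσ : Inf σ) (m w : ℕ) (c g : ℕ → ℕ) (hc : Small σ fun k => c k)
    (hg : Small σ fun k => g k) : Small σ fun k => (eb m w (c k) (g k) : ℕ) := by
  have h0 : ∀ f : ℕ → ℝ, (∀ k, 0 ≤ f k) → ∀ᶠ k in U, 0 ≤ f k := fun f h =>
    Eventually.of_forall h
  have hbz := small_bz hσ w c hc
  have h1 : Small σ fun k => ((g k : ℝ) * (bz w (c k) : ℕ) ^ m + 1) :=
    small_add hσ (small_mul hσ (h0 _ fun k => by positivity) (h0 _ fun k => by positivity) hg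
      (small_pow hσ (h0 _ fun k => by positivity) hbz m)) (small_const hσ 1)
  have h2 : Small σ fun k => ((g k : ℝ) + ((m : ℝ) + 2) * (bz w (c k) : ℕ) + 1) :=
    small_add hσ (small_add hσ hg (small_mul hσ (h0 _ fun k => by positivity)
      (h0 _ fun k => by positivity) (small_const hσ _) hbz)) (small_const hσ 1)
  have h3 := small_mul hσ (h0 _ fun k => by positivity) (h0 _ fun k => by positivity)
    (small_mul hσ (h0 _ fun k => by positivity) (h0 _ fun k => by positivity)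
      (small_pow hσ (h0 _ fun k => by positivity) h1 2) h2) (small_const hσ ((8 : ℝ) ^ (w + 1)))
  refine small_of_le (Eventually.of_forall fun k => le_of_eq ?_) h3
  unfold eb
  push_cast
  rfl

/-- the image primes have full dimension -/
theorem hlow_seq {K ι : Type} [Field K] [Fintype ι] {y : ℕ → ℕ → ι → K} {σ : ℕ → ℕ} (hσ : Inf σ)
    (w : ℕ) (θ θ₂ : ℝ) (hθ : 0 < θ) (hθ1 : 3 * θ ≤ 1) (hθ₂ : 5 * θ ≤ θ₂)
    (hmin : MinF σ y w θ₂) (κ : ℕ) (S : ℕ → Finset ℕ) (hS : InWS σ κ S)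
    (𝔭 : ℕ → Ideal (MvPolynomial ι K))
    (hv : ∀ᶠ k in U, ∀ G ∈ 𝔭 k, ∀ n ∈ S k, eval (y k n) G = 0)
    (Φ : ℕ → ℕ → ι → MvPolynomial ι K)
    (hsh : ∀ᶠ k in U, ∀ l ≤ ⌊(σ k : ℝ) ^ (3 * θ)⌋₊,
      (σ k : ℝ) ^ (1 - 5 * θ / 4) ≤ ((sh (y k) (S k) l (Φ k l)).card : ℝ))
    (E : ℕ → ℕ) (hE : Small σ fun k => E k) :
    ∀ᶠ k in U, ∀ l ≤ ⌊(σ k : ℝ) ^ (3 * θ)⌋₊, ∃ b,
      E k * b ^ w < b * HF ((𝔭 k).comap (bind₁ (Φ k l))) b := by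
  by_contra hcon
  rw [ev_not] at hcon
  have h1 : ∀ᶠ k in U, ∃ l : ℕ, l ≤ ⌊(σ k : ℝ) ^ (3 * θ)⌋₊ ∧ ∀ b,
      b * HF ((𝔭 k).comap (bind₁ (Φ k l))) b ≤ E k * b ^ w := by
    filter_upwards [hcon] with k hk
    push Not at hk
    exact hk
  obtain ⟨l, hl⟩ := exists_fun h1
  refine hmin (κ + 1) (fun k => sh (y k) (S k) (l k) (Φ k (l k))) ?_ ?_ ⟨E, hE, ?_⟩
  · unfold InWS
    filter_upwards [hS, hl, hσ 1] with k h2 h3 h4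
    exact sh_inW κ (σ k) (3 * θ) hθ1 h4 (S k) h2 (l k) h3.1 _
  · intro ε hε
    filter_upwards [hsh, hl, hσ 1] with k h2 h3 h4
    refine le_trans ?_ (h2 (l k) h3.1)
    exact Real.rpow_le_rpow_of_exponent_le (by exact_mod_cast h4) (by linarith)
  · intro b _
    filter_upwards [hl, hv] with k h3 h4
    refine le_trans (Nat.mul_le_mul_left _ ?_) (h3.2 (b k))
    apply HF_IS_le
    intro G hG hGb
    exact van_sh (S k) h4 (l k) (Φ k (l k)) (b k) G hGb (Ideal.mem_comap.mp hG)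

/-- a shift such that the forms of small degree in its image prime vanish on the orbit -/
theorem prop_seq {K T ι : Type} [Field K] [Infinite K] [Finite T] [Fintype ι]
    {δ : T → ℕ} {F : T → ι → MvPolynomial ι K} {y : ℕ → ℕ → ι → K} (h : ∀ k, Orb δ F (y k)) (hirr : ∀ k, Irr (y k))
    (d : ℕ) (hd : ∀ t, δ t ≤ d) {σ : ℕ → ℕ} (hσ : Inf σ) (w : ℕ) (θ θ₂ : ℝ) (hθ : 0 < θ)
    (hθ1 : 3 * θ ≤ 1) (hθ₂ : 5 * θ ≤ θ₂) (hmin : MinF σ y w θ₂) (κ : ℕ) (S : ℕ → Finset ℕ)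
    (hS : InWS σ κ S) (hL : LargeS σ θ S) (𝔭 : ℕ → Ideal (MvPolynomial ι K)) (c C : ℕ → ℕ)
    (hc : Small σ fun k => c k) (hC : Small σ fun k => C k)
    (h𝔭 : ∀ᶠ k in U, HPrime (𝔭 k) ∧ (∀ G ∈ 𝔭 k, ∀ n ∈ S k, eval (y k n) G = 0) ∧
      HBc (𝔭 k) (w + 1) (c k))
    (hFZ : ∀ g : ℕ → ℕ, Small σ (fun k => g k) →
      ∀ᶠ k in U, ∀ e ≤ g k, ∀ G : MvPolynomial ι K, G.IsHomogeneous e → G ∉ 𝔭 k →
        ∀ Z ⊆ S k, (∀ n ∈ Z, eval (y k n) G = 0) → (Z.card : ℝ) < (σ k : ℝ) ^ (1 - θ₂))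
    (a : ℕ → ℕ → ℕ) (Φ : ℕ → ℕ → ι → MvPolynomial ι K)
    (hΦ : ∀ᶠ k in U, ∀ l ≤ ⌊(σ k : ℝ) ^ (3 * θ)⌋₊, 1 ≤ a k l ∧ a k l ≤ C k ∧
        (∀ i, (Φ k l i).IsHomogeneous (a k l)) ∧
        ((bad (y k) (S k) l (Φ k l)).card : ℝ) ≤ (3 * (l : ℝ) + 1) * (σ k : ℝ) ^ (1 - θ₂)) :
    ∃ 𝔮 : ℕ → Ideal (MvPolynomial ι K),
      (∀ᶠ k in U, HPrime (𝔮 k) ∧ HBc (𝔮 k) (w + 1) (c k * C k ^ (w + 1))) ∧
      ∀ b : ℕ → ℕ, Small σ (fun k => b k) → ∀ᶠ k in U, ∀ e ≤ b k, ∀ P ∈ 𝔮 k,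
        P.IsHomogeneous e → ∀ n, eval (y k n) P = 0 := by
  have hvv : ∀ᶠ k in U, ∀ G ∈ 𝔭 k, ∀ n ∈ S k, eval (y k n) G = 0 := h𝔭.mono fun k hk => hk.2.1
  obtain ⟨hcard, hsh⟩ := sh_large (y := y) hσ θ θ₂ hθ hθ₂ S hL Φ (by
    filter_upwards [hΦ] with k hk l hl
    exact (hk l hl).2.2.2)
  have hpair := pair_seq (y := y) hσ θ θ₂ hθ hθ1 hθ₂ κ S hS Φ hsh
  have hcC := small_cC hσ w c C hc hC
  have hD := small_bz hσ w (fun k => c k * C k ^ (w + 1)) hcC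
  -- the primes
  have hq : ∀ᶠ k in U, ∀ l ≤ ⌊(σ k : ℝ) ^ (3 * θ)⌋₊, HPrime ((𝔭 k).comap (bind₁ (Φ k l))) ∧
      HBc ((𝔭 k).comap (bind₁ (Φ k l))) (w + 1) (c k * C k ^ (w + 1)) := by
    filter_upwards [h𝔭, hΦ] with k h1 h2 l hl
    obtain ⟨h3, h4, h5, -⟩ := h2 l hl
    exact ⟨hprime_comap h1.1 (Φ k l) (a k l) h3 h5,
      HBc_comap w (c k) (a k l) (C k) h3 h4 h1.2.2 (Φ k l) h5⟩
  -- the hull property for forms of small degree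
  have hhull : ∀ g : ℕ → ℕ, Small σ (fun k => g k) → ∀ᶠ k in U,
      ∀ l ≤ ⌊(σ k : ℝ) ^ (3 * θ)⌋₊, ∀ z : ι → K,
      (∀ e ≤ bz w (c k * C k ^ (w + 1)), ∀ G : MvPolynomial ι K, G.IsHomogeneous e →
        bind₁ (Φ k l) G ∈ 𝔭 k → eval z G = 0) →
      ∀ e ≤ g k, ∀ G : MvPolynomial ι K, G.IsHomogeneous e → bind₁ (Φ k l) G ∈ 𝔭 k →
        eval z G = 0 := by
    intro g hg
    have hlow := hlow_seq hσ w θ θ₂ hθ hθ1 hθ₂ hmin κ S hS 𝔭 hvv Φ hsh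
      (fun k => eb (Fintype.card ι) w (c k * C k ^ (w + 1)) (g k))
      (small_eb hσ (Fintype.card ι) w (fun k => c k * C k ^ (w + 1)) g hcC hg)
    filter_upwards [hq, hlow] with k h1 h2 l hl z hz e he G hG hGq
    by_contra hGz
    obtain ⟨e', he', G', hG', hG'q, hG'z⟩ := lemC_eff w (c k * C k ^ (w + 1)) (g k)
      (h1 l hl).1 (h1 l hl).2 (h2 l hl) z e he G hG (Ideal.mem_comap.mpr hGq) hGz
    exact hG'z (hz e' he' G' hG' (Ideal.mem_comap.mp hG'q))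
  have hdD : Small σ fun k => ((d * bz w (c k * C k ^ (w + 1)) : ℕ) : ℝ) := by
    refine small_of_le (Eventually.of_forall fun k => le_of_eq ?_)
      (small_mul hσ (Eventually.of_forall fun k => by positivity)
        (Eventually.of_forall fun k => by positivity) (small_const hσ (d : ℝ)) hD)
    push_cast
    rfl
  have hgg : Small σ fun k =>
      ((C k * ((d + 1) * bz w (c k * C k ^ (w + 1))) : ℕ) : ℝ) := by
    refine small_of_le (Eventually.of_forall fun k => le_of_eq ?_)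
      (small_mul hσ (Eventually.of_forall fun k => by positivity)
        (Eventually.of_forall fun k => by positivity) hC
        (small_mul hσ (Eventually.of_forall fun k => by positivity)
        (Eventually.of_forall fun k => by positivity) (small_const hσ ((d : ℝ) + 1)) hD))
    push_cast
    rfl
  have hfin : ∀ᶠ k in U, ∃ l : ℕ, l ≤ ⌊(σ k : ℝ) ^ (3 * θ)⌋₊ ∧
      ∀ n, ∀ e ≤ bz w (c k * C k ^ (w + 1)), ∀ G : MvPolynomial ι K, G.IsHomogeneous e →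
        bind₁ (Φ k l) G ∈ 𝔭 k → eval (y k n) G = 0 := by
    filter_upwards [hhull _ hdD, hFZ _ hgg, hvv, hΦ, hcard, hpair, hσ 1]
      with k h1 h2 h3 h4 h5 h6 h7
    obtain ⟨l, l', h8, h9, h10⟩ := h6
    obtain ⟨q, h11, h12, h13⟩ := prop_fin (h k) (hirr k) d hd (S k) h3 ((σ k : ℝ) ^ (1 - θ₂))
      (Real.rpow_pos_of_pos (by exact_mod_cast h7) _)
      (C k * ((d + 1) * bz w (c k * C k ^ (w + 1)))) ⌊(σ k : ℝ) ^ (3 * θ)⌋₊ (C k)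
      (bz w (c k * C k ^ (w + 1))) h2 (a k) (Φ k)
      (fun l hl => ⟨(h4 l hl).2.1, (h4 l hl).2.2.1, (h4 l hl).2.2.2⟩) h5 le_rfl
      h1 l l' h8 h9 h10
    exact ⟨q, by omega, h13⟩
  obtain ⟨lam, hlam⟩ := exists_fun hfin
  refine ⟨fun k => (𝔭 k).comap (bind₁ (Φ k (lam k))), ?_, ?_⟩
  · filter_upwards [hq, hlam] with k h1 h2
    exact h1 (lam k) h2.1
  · intro b hb
    filter_upwards [hhull b hb, hlam] with k h1 h2 e he P hP hPe n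
    exact h1 (lam k) h2.1 (y k n) (fun e he G hG hGq => h2.2 n e he G hG hGq) e he P hPe
      (Ideal.mem_comap.mp hP)

/-- forms of small degree vanishing on a large family vanish on the orbit -/
theorem ze_eff {K T ι : Type} [Field K] [NumberField K] [Finite T] [Fintype ι] [Nonempty ι]
    {δ : T → ℕ} {F : T → ι → MvPolynomial ι K} {y : ℕ → ℕ → ι → K} (h : ∀ k, Orb δ F (y k)) (hirr : ∀ k, Irr (y k))
    (d : ℕ) (hd : ∀ t, δ t ≤ d) {σ : ℕ → ℕ} (hσ : Inf σ) (R : ℕ → ℝ) (hR1 : ∀ k, 1 ≤ R k)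
    (hR : Small σ R) (ρ : ℝ) (hρ : 0 < ρ) (hρ1 : ρ ≤ 1) (hht : FewHigh σ y R ρ) :
    ∃ θ₂ : ℝ, 0 < θ₂ ∧ ∀ (κ : ℕ) (B : ℕ → Finset ℕ), InWS σ κ B → LargeS σ θ₂ B →
      ∀ g : ℕ → ℕ, Small σ (fun k => g k) → ∀ᶠ k in U, ∀ e ≤ g k, ∀ G : MvPolynomial ι K,
        G.IsHomogeneous e → (∀ n ∈ B k, eval (y k n) G = 0) → ∀ n, eval (y k n) G = 0 := by
  obtain ⟨c₁, hc₁, hCL⟩ := cl_seq (h 0).hom
  obtain ⟨w, θ, hθ, hθ6, hmin, κ, S₀, hS₀, hL₀, hHB⟩ := setup_eff σ hσ y (fun k => (h k).ne) (3 * c₁ + 5)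
    (by linarith) ρ hρ
  have hθθ : 5 * θ ≤ (3 * c₁ + 5) * θ := by nlinarith
  have hθ1 : 3 * θ ≤ 1 := by linarith
  obtain ⟨𝔭, S, c, hc, hL, h𝔭⟩ := extract_seq hσ y w θ S₀ hL₀ hHB
  have hS : InWS σ κ S := by
    unfold InWS
    filter_upwards [hS₀, h𝔭] with k h1 h2 n hn
    exact h1 n (h2.1 hn)
  obtain ⟨S₁, hL₁, hrel⟩ := hCL y h (3 * θ) (by linarith) hθ1 σ hσ R hR1 hR ρ hht θ
    (by linarith) κ S hS hL
  have hFZ := few_zeros_eff hσ y (fun k => (h k).ne) w ((3 * c₁ + 5) * θ) hmin κ S hS 𝔭 c hc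
    (h𝔭.mono fun k hk => ⟨hk.2.1, hk.2.2.2⟩) (h𝔭.mono fun k hk => hk.2.2.1)
  obtain ⟨C, hC, hreps⟩ := reps_seq h d hd hσ R hR1 hR c₁ θ hθ S S₁ hL₁ 𝔭
    (h𝔭.mono fun k hk => hk.2.1) (h𝔭.mono fun k hk => hk.2.2.1) hFZ hrel
  have hreps' : ∀ᶠ k in U, ∃ q : (ℕ → ℕ) × (ℕ → ι → MvPolynomial ι K),
      ∀ l ≤ ⌊(σ k : ℝ) ^ (3 * θ)⌋₊, 1 ≤ q.1 l ∧ q.1 l ≤ C k ∧
        (∀ i, (q.2 l i).IsHomogeneous (q.1 l)) ∧
        ((bad (y k) (S k) l (q.2 l)).card : ℝ) ≤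
          (3 * (l : ℝ) + 1) * (σ k : ℝ) ^ (1 - (3 * c₁ + 5) * θ) := by
    filter_upwards [hreps] with k hk
    obtain ⟨a, Φ, h1⟩ := hk
    exact ⟨(a, Φ), h1⟩
  obtain ⟨q, hq⟩ := exists_fun hreps'
  obtain ⟨𝔮, h𝔮, hvan⟩ := prop_seq h hirr d hd hσ w θ ((3 * c₁ + 5) * θ) hθ hθ1 hθθ hmin κ S hS hL
    𝔭 c C hc hC (h𝔭.mono fun k hk => hk.2) hFZ (fun k => (q k).1) (fun k => (q k).2) hq
  refine ⟨(3 * c₁ + 5) * θ, by positivity, ?_⟩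
  intro κ' B hB hBL g hg
  by_contra hcon
  rw [ev_not] at hcon
  have h1 : ∀ᶠ k in U, ∃ r : ℕ × MvPolynomial ι K, r.1 ≤ g k ∧ r.2.IsHomogeneous r.1 ∧
      (∀ n ∈ B k, eval (y k n) r.2 = 0) ∧ ∃ n, eval (y k n) r.2 ≠ 0 := by
    filter_upwards [hcon] with k hk
    push Not at hk
    obtain ⟨e, h2, G, h3, h4, h5⟩ := hk
    exact ⟨(e, G), h2, h3, h4, h5⟩
  obtain ⟨r, hr⟩ := exists_fun h1
  have h2 := few_large hσ y (fun k => (h k).ne) w ((3 * c₁ + 5) * θ) hmin κ' B hB hBL 𝔮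
    (fun k => c k * C k ^ (w + 1)) (small_cC hσ w c C hc hC) h𝔮
    (fun b hb => (hvan b hb).mono fun k hk e he P hP hPe n _ => hk e he P hP hPe n) g hg
    (fun k => (r k).1) (fun k => (r k).2)
  obtain ⟨k, h3, h4, h5⟩ := (h2.and (hr.and (hvan g hg))).exists
  obtain ⟨n, hn⟩ := h4.2.2.2
  exact hn (h5 (r k).1 h4.1 (r k).2 (h3 h4.1 h4.2.1 h4.2.2.1) h4.2.1 n)

end Pool.Agent.GE
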