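import Pool.Agent.GE.Defs
import Pool.Agent.GT.BadBound

/-!
Project GE, row E10: the number of places of large bad reduction at a point of the orbit is
bounded in terms of the height of the point.
-/

set_option autoImplicit false

open Filter MvPolynomial Height Height.AdmissibleAbsValues

namespace Pool.Agent.GE

open Pool.Agent.GT

theorem few_bad_eff {K T ι : Type} [Field K] [NumberField K] [Finite T] [Fintype ι] [Nonempty ι]
    {δ : T → ℕ} {F : T → ι → MvPolynomial ι K} {y : ℕ → ι → K} (h : Orb δ F y) :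
    ∃ C : ℝ, 0 < C ∧ ∀ (m : ℕ) (H Y : ℝ), 1 ≤ Y → logHeight (y m) ≤ H →
      ∀ V : Finset (AbsoluteValue K ℝ),
      (∀ v ∈ V, v ∈ nonarchAbsVal (K := K) ∧ ∀ t,
        (⨆ i, v (eval (y m) (F t i))) * Y ≤ (⨆ i, v (y m i)) ^ δ t) →
      (V.card : ℝ) * Real.log Y ≤ C + C * H := by
  classical
  have := Fintype.ofFinite T
  choose Cf hCf hb using fun t => bad_bound (δ t) (F t) (h.hom t)
  obtain ⟨E, hE⟩ : ∃ E : ℕ, ∀ t, δ t ≤ E := ⟨∑ t, δ t, fun t =>
    Finset.single_le_sum (f := δ) (fun _ _ => Nat.zero_le _) (Finset.mem_univ t)⟩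
  have hlog : ∀ t, 0 ≤ Real.log (Cf t) := fun t => Real.log_nonneg (hCf t)
  have hsum : 0 ≤ ∑ t, Real.log (Cf t) := Finset.sum_nonneg fun t _ => hlog t
  refine ⟨1 + E + ∑ t, Real.log (Cf t), by positivity, ?_⟩
  intro m H Y hY hH V hV
  obtain ⟨t, i, hti⟩ := h.step m
  have h1 := hb t (y m) (fun h0 => hti (congrFun h0 i)) V Y hY
    (fun v hv => ⟨(hV v hv).1, (hV v hv).2 t⟩)
  have hY0 : 0 < Y := lt_of_lt_of_le one_pos hY
  have hCf0 : 0 < Cf t := lt_of_lt_of_le one_pos (hCf t)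
  have hH0 : 0 ≤ logHeight (y m) := Real.log_nonneg (one_le_mulHeight _)
  have h2 := Real.log_le_log (pow_pos hY0 _) h1
  rw [Real.log_pow, Real.log_mul hCf0.ne' (pow_pos (mulHeight_pos _) _).ne', Real.log_pow] at h2
  have h3 : Real.log (Cf t) ≤ ∑ t, Real.log (Cf t) :=
    Finset.single_le_sum (f := fun t => Real.log (Cf t)) (fun t _ => hlog t) (Finset.mem_univ t)
  have h4 : (δ t : ℝ) * Real.log (mulHeight (y m)) ≤ E * H := by
    have h5 : (δ t : ℝ) ≤ E := by exact_mod_cast hE t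
    exact mul_le_mul h5 hH hH0 (Nat.cast_nonneg E)
  have hH1 : 0 ≤ H := hH0.trans hH
  have h6 : 0 ≤ (E : ℝ) := Nat.cast_nonneg E
  nlinarith [mul_nonneg hsum hH1, mul_nonneg h6 hH1]

end Pool.Agent.GE
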