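import Pool.Agent.GE.MainEff

/-!
The growth of heights along orbits of rational maps: lower bounds in terms of the degrees of the
iterates, uniformly in the orbit.
-/

set_option autoImplicit false

open Filter MvPolynomial Height Height.AdmissibleAbsValues

namespace Pool.Agent.GE

open Pool.Agent.GT

/-- the scale `N / (k + 1)` -/
theorem scale_facts (k N : ℕ) (h : (2 * (k + 1)) ^ (k + 3) ≤ N) :
    (2 * (k + 1)) ^ (k + 1) ≤ N / (k + 1) ∧ N ≤ 2 * (k + 1) * (N / (k + 1)) ∧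
      N ≤ (N / (k + 1)) ^ 2 := by
  have h0 : (2 * (k + 1)) ^ (k + 2) ≤ N / (k + 1) := by
    rw [Nat.le_div_iff_mul_le (Nat.succ_pos k)]
    refine le_trans ?_ h
    rw [pow_succ (2 * (k + 1)) (k + 2)]
    exact Nat.mul_le_mul_left _ (by omega)
  have h1 : (2 * (k + 1)) ^ (k + 1) ≤ (2 * (k + 1)) ^ (k + 2) :=
    Nat.pow_le_pow_right (by positivity) (by omega)
  have h5 : 2 * (k + 1) ≤ (2 * (k + 1)) ^ (k + 2) := by
    calc 2 * (k + 1) = (2 * (k + 1)) ^ 1 := (pow_one _).symm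
      _ ≤ (2 * (k + 1)) ^ (k + 2) := Nat.pow_le_pow_right (by positivity) (by omega)
  have h6 : 2 * (k + 1) ≤ N / (k + 1) := h5.trans h0
  have h2 := Nat.div_add_mod N (k + 1)
  have h3 := Nat.mod_lt N (Nat.succ_pos k)
  have h4 : N ≤ (k + 1) * (N / (k + 1)) + (k + 1) := by
    rw [Nat.succ_eq_add_one] at h3
    omega
  have h7 : N ≤ 2 * (k + 1) * (N / (k + 1)) := by nlinarith
  refine ⟨h1.trans h0, h7, h7.trans ?_⟩
  rw [pow_two]
  exact Nat.mul_le_mul_right _ h6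

theorem scales_ge (k : ℕ) : k + 1 ≤ (2 * (k + 1)) ^ (k + 3) := by
  calc k + 1 ≤ 2 * (k + 1) := by omega
    _ = (2 * (k + 1)) ^ 1 := (pow_one _).symm
    _ ≤ (2 * (k + 1)) ^ (k + 3) := Nat.pow_le_pow_right (by positivity) (by omega)

theorem scales_tendsto (N : ℕ → ℕ) (hN : ∀ k, (2 * (k + 1)) ^ (k + 3) ≤ N k) :
    Tendsto N atTop atTop := tendsto_atTop.mpr fun M => by
  filter_upwards [eventually_ge_atTop M] with k hk
  have h1 := (scales_ge k).trans (hN k)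
  omega

theorem inv_le_ev (ε : ℝ) (hε : 0 < ε) : ∀ᶠ k : ℕ in atTop, 1 / ((k : ℝ) + 1) ≤ ε := by
  have h1 : Tendsto (fun k : ℕ => (k : ℝ)) atTop atTop := tendsto_natCast_atTop_atTop
  filter_upwards [h1.eventually_ge_atTop (1 / ε)] with k hk
  rw [div_le_iff₀ (by positivity)]
  rw [div_le_iff₀ hε] at hk
  nlinarith

theorem final_key {K T ι : Type} [Field K] [NumberField K] [Finite T] [Fintype ι]
    {δ : T → ℕ} {F : T → ι → MvPolynomial ι K} {y : ℕ → ℕ → ι → K}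
    (h : ∀ k, Orb δ F (y k)) (hirr : ∀ k, Irr (y k))
    (ρ : ℝ) (hρ : 0 < ρ) (hρ1 : ρ ≤ 1)
    (N : ℕ → ℕ) (hN : ∀ k, (2 * (k + 1)) ^ (k + 3) ≤ N k) (R : ℕ → ℝ) (hR1 : ∀ k, 1 ≤ R k)
    (hR : ∀ ε : ℝ, 0 < ε → ∀ᶠ k : ℕ in atTop, R k ≤ (N k : ℝ) ^ ε)
    (hht : ∀ᶠ k in atTop, (((Finset.range (N k + 1)).filter fun n =>
      R k * Real.log (N k) / 2 < logHeight (y k n)).card : ℝ) ≤ (N k : ℝ) ^ (1 - ρ))
    (l B : ℕ → ℕ)
    (hB : ∀ k, ∀ e ≤ B k, ∀ Φ : ι → MvPolynomial ι K, ¬ Rep (y k) (l k) e Φ)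
    (hl : ∀ k, (l k : ℝ) ≤ (N k : ℝ) ^ (1 / ((k : ℝ) + 1)))
    (hBs : ∀ C₀ m d : ℕ, ∀ᶠ k : ℕ in atTop, ∀ j : ℕ, (j : ℝ) ≤ C₀ * (1 + Real.log (R k)) →
      dg m d j ≤ B k) : False := by
  classical
  have hne : Nonempty ι := by
    obtain ⟨i, -⟩ := Function.ne_iff.mp ((h 0).ne 0)
    exact ⟨i⟩
  obtain ⟨d, hd⟩ : ∃ d : ℕ, ∀ t, δ t ≤ d := by
    have := Fintype.ofFinite T
    exact ⟨Finset.univ.sup δ, fun t => Finset.le_sup (Finset.mem_univ t)⟩
  set σ : ℕ → ℕ := fun k => N k / (k + 1) with hσdef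
  have hσ2 : ∀ k, (2 * (k + 1)) ^ (k + 1) ≤ σ k ∧ N k ≤ 2 * (k + 1) * σ k ∧
      N k ≤ σ k ^ 2 := fun k => scale_facts k (N k) (hN k)
  have hσ1 : ∀ k, 2 * (k + 1) ≤ σ k := fun k => by
    calc 2 * (k + 1) = (2 * (k + 1)) ^ 1 := (pow_one _).symm
      _ ≤ (2 * (k + 1)) ^ (k + 1) := Nat.pow_le_pow_right (by positivity) (by omega)
      _ ≤ σ k := (hσ2 k).1
  have hσ : Inf σ := inf_of_tendsto (tendsto_atTop.mpr fun M => by
    filter_upwards [eventually_ge_atTop M] with k hk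
    have := hσ1 k
    omega)
  have hNσ : ∀ k, (N k : ℝ) ≤ (σ k : ℝ) ^ 2 := fun k => by exact_mod_cast (hσ2 k).2.2
  have hN0 : ∀ k, (1 : ℝ) ≤ N k := fun k => by
    have h1 := (scales_ge k).trans (hN k)
    have h3 : 1 ≤ N k := by omega
    exact_mod_cast h3
  have hσ0 : ∀ k, (1 : ℝ) ≤ σ k := fun k => by
    have h1 := hσ1 k
    have h3 : 1 ≤ σ k := by omega
    exact_mod_cast h3
  have hpow : ∀ k (ε : ℝ), 0 < ε → (N k : ℝ) ^ (ε / 2) ≤ (σ k : ℝ) ^ ε := by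
    intro k ε hε
    calc (N k : ℝ) ^ (ε / 2) ≤ ((σ k : ℝ) ^ 2) ^ (ε / 2) :=
          Real.rpow_le_rpow (by linarith [hN0 k]) (hNσ k) (by linarith)
      _ = (σ k : ℝ) ^ ε := by
          rw [← Real.rpow_natCast, ← Real.rpow_mul (Nat.cast_nonneg _)]
          congr 1
          push_cast
          ring
  have hRs : Small σ R := by
    intro ε hε
    apply ev_top
    filter_upwards [hR (ε / 2) (by linarith)] with k hk
    exact hk.trans (hpow k ε hε)
  refine main_eff h hirr d hd hσ R hR1 hRs (ρ / 2) (by linarith) (by linarith) ?_ l B hB ?_ ?_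
  · intro κ
    apply ev_top
    have hk2 : ∀ᶠ k : ℕ in atTop, 2 / ρ ≤ (k : ℝ) :=
      tendsto_natCast_atTop_atTop.eventually_ge_atTop _
    filter_upwards [hht, eventually_ge_atTop κ, hk2] with k h1 h2 h2'
    have h3 : κ * σ k ≤ N k := by
      calc κ * σ k ≤ (k + 1) * σ k := Nat.mul_le_mul_right _ (by omega)
        _ ≤ N k := Nat.mul_div_le (N k) (k + 1)
    have h4 : Real.log (N k) ≤ 2 * Real.log (σ k) := by
      have := Real.log_le_log (by linarith [hN0 k]) (hNσ k)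
      rw [Real.log_pow] at this
      exact_mod_cast this
    have h5 := hR1 k
    have h6 : ((Finset.range (κ * σ k + 1)).filter fun n =>
        R k * Real.log (σ k) < logHeight (y k n)) ⊆ (Finset.range (N k + 1)).filter fun n =>
        R k * Real.log (N k) / 2 < logHeight (y k n) := by
      intro n hn
      rw [Finset.mem_filter, Finset.mem_range] at hn ⊢
      refine ⟨by omega, lt_of_le_of_lt ?_ hn.2⟩
      nlinarith
    have h7 : (((Finset.range (κ * σ k + 1)).filter fun n =>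
        R k * Real.log (σ k) < logHeight (y k n)).card : ℝ) ≤ (N k : ℝ) ^ (1 - ρ) := by
      refine le_trans ?_ h1
      exact_mod_cast Finset.card_le_card h6
    refine h7.trans ?_
    have hB0 : (1 : ℝ) ≤ ((2 * (k + 1) : ℕ) : ℝ) := by
      have : 1 ≤ 2 * (k + 1) := by omega
      exact_mod_cast this
    have h8 : (N k : ℝ) ≤ ((2 * (k + 1) : ℕ) : ℝ) * σ k := by exact_mod_cast (hσ2 k).2.1
    have h9 : ((2 * (k + 1) : ℕ) : ℝ) ≤ (σ k : ℝ) ^ (1 / ((k : ℝ) + 1)) := by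
      have h10 : (((2 * (k + 1) : ℕ) : ℝ)) ^ (k + 1) ≤ (σ k : ℝ) := by
        exact_mod_cast (hσ2 k).1
      calc ((2 * (k + 1) : ℕ) : ℝ)
          = ((((2 * (k + 1) : ℕ) : ℝ)) ^ (k + 1)) ^ (1 / ((k : ℝ) + 1)) := by
            rw [← Real.rpow_natCast, ← Real.rpow_mul (by linarith)]
            push_cast
            rw [mul_one_div_cancel (by positivity), Real.rpow_one]
        _ ≤ (σ k : ℝ) ^ (1 / ((k : ℝ) + 1)) :=
            Real.rpow_le_rpow (by positivity) h10 (by positivity)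
    calc (N k : ℝ) ^ (1 - ρ) ≤ (((2 * (k + 1) : ℕ) : ℝ) * σ k) ^ (1 - ρ) :=
          Real.rpow_le_rpow (by linarith [hN0 k]) h8 (by linarith)
      _ = (((2 * (k + 1) : ℕ) : ℝ)) ^ (1 - ρ) * (σ k : ℝ) ^ (1 - ρ) :=
          Real.mul_rpow (by linarith) (by linarith [hσ0 k])
      _ ≤ (((2 * (k + 1) : ℕ) : ℝ)) * (σ k : ℝ) ^ (1 - ρ) := by
          apply mul_le_mul_of_nonneg_right _ (Real.rpow_nonneg (by linarith [hσ0 k]) _)
          calc (((2 * (k + 1) : ℕ) : ℝ)) ^ (1 - ρ) ≤ (((2 * (k + 1) : ℕ) : ℝ)) ^ (1 : ℝ) :=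
                Real.rpow_le_rpow_of_exponent_le hB0 (by linarith)
            _ = _ := Real.rpow_one _
      _ ≤ (σ k : ℝ) ^ (ρ / 2) * (σ k : ℝ) ^ (1 - ρ) := by
          apply mul_le_mul_of_nonneg_right _ (Real.rpow_nonneg (by linarith [hσ0 k]) _)
          refine h9.trans (Real.rpow_le_rpow_of_exponent_le (hσ0 k) ?_)
          rw [div_le_iff₀ (by positivity)]
          rw [div_le_iff₀ hρ] at h2'
          nlinarith
      _ = (σ k : ℝ) ^ (1 - ρ / 2) := by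
          rw [← Real.rpow_add (by linarith [hσ0 k])]
          congr 1
          ring
  · intro η hη
    apply ev_top
    filter_upwards [inv_le_ev (η / 2) (by linarith)] with k hk
    exact ((hl k).trans (Real.rpow_le_rpow_of_exponent_le (hN0 k) hk)).trans (hpow k η hη)
  · intro C₀
    exact ev_top (hBs C₀ (Fintype.card ι) d)

/-- the number of indices `n ≤ N` with `logHeight (y n) ≥ H` -/
noncomputable def highCount {K ι : Type} [Field K] [NumberField K] [Finite ι] (y : ℕ → ι → K)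
    (N : ℕ) (H : ℝ) : ℕ :=
  ((Finset.range (N + 1)).filter fun n => H ≤ logHeight (y n)).card

theorem high_filter {K ι : Type} [Field K] [NumberField K] [Finite ι] (y : ℕ → ι → K) (N : ℕ)
    (H H' : ℝ) (hH : H ≤ H') (B : ℝ) (h : (highCount y N H : ℝ) ≤ B) :
    (((Finset.range (N + 1)).filter fun n => H' < logHeight (y n)).card : ℝ) ≤ B := by
  classical
  refine le_trans ?_ h
  unfold highCount
  have h1 : ((Finset.range (N + 1)).filter fun n => H' < logHeight (y n)) ⊆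
      (Finset.range (N + 1)).filter fun n => H ≤ logHeight (y n) := by
    intro n hn
    rw [Finset.mem_filter] at hn ⊢
    exact ⟨hn.1, hH.trans hn.2.le⟩
  exact_mod_cast Finset.card_le_card h1

/-- the number of factors is logarithmic, so the degrees are at most a power of `R` -/
theorem dg_le_rpow (m d C₀ : ℕ) : ∃ c C : ℝ, 0 ≤ c ∧ 1 ≤ C ∧ ∀ (J : ℕ) (R : ℝ), 1 ≤ R →
    (J : ℝ) ≤ C₀ * (1 + Real.log R) → (dg m d J : ℝ) ≤ C * R ^ c := by
  have hΔ : (1 : ℝ) ≤ 1 + (d : ℝ) * ((m : ℝ) + 1) := by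
    have : (0 : ℝ) ≤ (d : ℝ) * ((m : ℝ) + 1) := by positivity
    linarith
  have hlΔ : 0 ≤ Real.log (1 + (d : ℝ) * ((m : ℝ) + 1)) := Real.log_nonneg hΔ
  set c : ℝ := C₀ * Real.log (1 + d * (m + 1)) with hc
  have hc0 : 0 ≤ c := by positivity
  refine ⟨c, m * Real.exp c + 1, hc0, ?_, ?_⟩
  · have : 0 ≤ (m : ℝ) * Real.exp c := by positivity
    linarith
  · intro J R hR hJ
    have hR0 : 0 < R := by linarith
    have h1 : ((1 : ℝ) + d * (m + 1)) ^ J ≤ Real.exp c * R ^ c := by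
      rw [← Real.exp_log (pow_pos (lt_of_lt_of_le one_pos hΔ) J), Real.log_pow,
        Real.rpow_def_of_pos hR0, ← Real.exp_add]
      apply Real.exp_le_exp.mpr
      calc (J : ℝ) * Real.log (1 + d * (m + 1)) ≤
            (C₀ * (1 + Real.log R)) * Real.log (1 + d * (m + 1)) :=
            mul_le_mul_of_nonneg_right hJ hlΔ
        _ = c + Real.log R * c := by rw [hc]; ring
    have h2 : (1 : ℝ) ≤ R ^ c := Real.one_le_rpow hR hc0
    unfold dg
    push_cast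
    have h3 : (m : ℝ) * ((1 : ℝ) + d * (m + 1)) ^ J ≤ m * (Real.exp c * R ^ c) :=
      mul_le_mul_of_nonneg_left h1 (Nat.cast_nonneg _)
    nlinarith

/-- Heights and degrees: if `f ^ l`, `l ≤ N ^ ε`, has no representation of degree at most `B`,
then many of the first `N` points of the orbit have height at least
`min (N, B) ^ ε * log N`. -/
theorem final_u {K T ι : Type} [Field K] [NumberField K] [Finite T] [Fintype ι]
    (δ : T → ℕ) (F : T → ι → MvPolynomial ι K) (ρ : ℝ) (hρ : 0 < ρ) :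
    ∃ ε : ℝ, 0 < ε ∧ ∃ N₀ : ℕ, ∀ y : ℕ → ι → K, Orb δ F y → Irr y → ∀ N l B : ℕ, N₀ ≤ N →
      N₀ ≤ B → (l : ℝ) ≤ (N : ℝ) ^ ε →
      (∀ e ≤ B, ∀ Φ : ι → MvPolynomial ι K, ¬ Rep y l e Φ) →
      (N : ℝ) ^ (1 - ρ) ≤ highCount y N (((min N B : ℕ) : ℝ) ^ ε * Real.log N) := by
  classical
  wlog hρ1 : ρ ≤ 1 generalizing ρ with H
  · obtain ⟨ε, hε, N₀, h1⟩ := H 1 one_pos le_rfl
    refine ⟨ε, hε, N₀ + 1, ?_⟩
    intro y hy hirr N l B hN hB hl hrep
    refine le_trans ?_ (h1 y hy hirr N l B (by omega) (by omega) hl hrep)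
    have hN1 : 1 ≤ N := by omega
    exact Real.rpow_le_rpow_of_exponent_le (by exact_mod_cast hN1) (by linarith)
  by_contra hcon
  push Not at hcon
  have hc : ∀ k : ℕ, ∃ (y : ℕ → ι → K) (N l B : ℕ), Orb δ F y ∧ Irr y ∧
      (2 * (k + 1)) ^ (k + 3) ≤ N ∧ (2 * (k + 1)) ^ (k + 3) ≤ B ∧
      (l : ℝ) ≤ (N : ℝ) ^ (1 / ((k : ℝ) + 1)) ∧
      (∀ e ≤ B, ∀ Φ : ι → MvPolynomial ι K, ¬ Rep y l e Φ) ∧
      (highCount y N (((min N B : ℕ) : ℝ) ^ (1 / ((k : ℝ) + 1)) * Real.log N) : ℝ) <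
        (N : ℝ) ^ (1 - ρ) := by
    intro k
    obtain ⟨y, h1, h2, N, l, B, h3, h4, h5, h6, h7⟩ :=
      hcon (1 / ((k : ℝ) + 1)) (by positivity) ((2 * (k + 1)) ^ (k + 3))
    exact ⟨y, N, l, B, h1, h2, h3, h4, h5, h6, h7⟩
  choose y N l B hy hirr hN hBk hl hB hhigh using hc
  have hNt := scales_tendsto N hN
  have hN1 : ∀ k, (1 : ℝ) ≤ N k := fun k => by
    have h3 := (scales_ge k).trans (hN k)
    have h5 : 1 ≤ N k := by omega
    exact_mod_cast h5
  have hB1 : ∀ k : ℕ, ((k : ℝ) + 1) ≤ B k := fun k => by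
    have h3 := (scales_ge k).trans (hBk k)
    exact_mod_cast h3
  have hNpow : ∀ ε : ℝ, 0 < ε → ∀ M : ℝ, ∀ᶠ k : ℕ in atTop, M ≤ (N k : ℝ) ^ ε := by
    intro ε hε M
    have h1 : Tendsto (fun k => (N k : ℝ) ^ ε) atTop atTop :=
      (tendsto_rpow_atTop hε).comp (tendsto_natCast_atTop_atTop.comp hNt)
    exact h1.eventually_ge_atTop M
  have hm1 : ∀ k, (1 : ℝ) ≤ ((min (N k) (B k) : ℕ) : ℝ) := fun k => by
    have h3 := (scales_ge k).trans (hN k)
    have h4 := (scales_ge k).trans (hBk k)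
    have h5 : 1 ≤ min (N k) (B k) := by omega
    exact_mod_cast h5
  set R : ℕ → ℝ := fun k => 2 * ((min (N k) (B k) : ℕ) : ℝ) ^ (1 / ((k : ℝ) + 1)) with hRdef
  have hR1 : ∀ k, 1 ≤ R k := fun k => by
    have h1 : (1 : ℝ) ≤ ((min (N k) (B k) : ℕ) : ℝ) ^ (1 / ((k : ℝ) + 1)) :=
      Real.one_le_rpow (hm1 k) (by positivity)
    simp only [hRdef]
    linarith
  refine final_key hy hirr ρ hρ hρ1 N hN R hR1 ?_ ?_ l B hB hl ?_
  · intro ε hε
    filter_upwards [inv_le_ev (ε / 2) (by linarith), hNpow (ε / 2) (by linarith) 2] with k h1 h2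
    have h3 : ((min (N k) (B k) : ℕ) : ℝ) ^ (1 / ((k : ℝ) + 1)) ≤ (N k : ℝ) ^ (ε / 2) := by
      calc ((min (N k) (B k) : ℕ) : ℝ) ^ (1 / ((k : ℝ) + 1)) ≤
            (N k : ℝ) ^ (1 / ((k : ℝ) + 1)) :=
            Real.rpow_le_rpow (Nat.cast_nonneg _) (by exact_mod_cast min_le_left _ _)
              (by positivity)
        _ ≤ (N k : ℝ) ^ (ε / 2) := Real.rpow_le_rpow_of_exponent_le (hN1 k) h1
    have h4 : (N k : ℝ) ^ ε = (N k : ℝ) ^ (ε / 2) * (N k : ℝ) ^ (ε / 2) := by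
      rw [← Real.rpow_add (by linarith [hN1 k])]
      congr 1
      ring
    simp only [hRdef]
    rw [h4]
    nlinarith
  · refine Eventually.of_forall fun k => ?_
    refine high_filter (y k) (N k) _ _ (le_of_eq ?_) _ (hhigh k).le
    simp only [hRdef]
    ring
  · intro C₀ m d
    obtain ⟨c, C, hc0, hC1, hdg⟩ := dg_le_rpow m d C₀
    set C₂ : ℝ := C * 2 ^ c with hC₂
    have hC₂0 : 0 ≤ C₂ := by positivity
    have hk1 : ∀ᶠ k : ℕ in atTop, C₂ ^ 2 ≤ (k : ℝ) :=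
      tendsto_natCast_atTop_atTop.eventually_ge_atTop _
    filter_upwards [inv_le_ev (1 / (2 * (c + 1))) (by positivity), hk1] with k h2 h3 j hj
    have hBr : (1 : ℝ) ≤ B k := by
      have := hB1 k
      have h4 : (0 : ℝ) ≤ k := Nat.cast_nonneg k
      linarith
    have h5 : R k ≤ 2 * (B k : ℝ) ^ (1 / ((k : ℝ) + 1)) := by
      have h6 : ((min (N k) (B k) : ℕ) : ℝ) ^ (1 / ((k : ℝ) + 1)) ≤
          (B k : ℝ) ^ (1 / ((k : ℝ) + 1)) :=
        Real.rpow_le_rpow (Nat.cast_nonneg _) (by exact_mod_cast min_le_right _ _)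
          (by positivity)
      simp only [hRdef]
      linarith
    have h6 : R k ^ c ≤ 2 ^ c * (B k : ℝ) ^ (1 / 2 : ℝ) := by
      have hR0 : 0 ≤ R k := le_trans zero_le_one (hR1 k)
      calc R k ^ c ≤ (2 * (B k : ℝ) ^ (1 / ((k : ℝ) + 1))) ^ c :=
            Real.rpow_le_rpow hR0 h5 hc0
        _ = 2 ^ c * (B k : ℝ) ^ (1 / ((k : ℝ) + 1) * c) := by
            rw [Real.mul_rpow (by norm_num) (Real.rpow_nonneg (by linarith) _),
              ← Real.rpow_mul (by linarith)]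
        _ ≤ 2 ^ c * (B k : ℝ) ^ (1 / 2 : ℝ) := by
            apply mul_le_mul_of_nonneg_left _ (by positivity)
            apply Real.rpow_le_rpow_of_exponent_le hBr
            calc 1 / ((k : ℝ) + 1) * c ≤ 1 / (2 * (c + 1)) * c :=
                  mul_le_mul_of_nonneg_right h2 hc0
              _ ≤ 1 / 2 := by
                  rw [div_mul_eq_mul_div, div_le_div_iff₀ (by positivity) (by norm_num)]
                  nlinarith
    have h7 : (dg m d j : ℝ) ≤ C₂ * (B k : ℝ) ^ (1 / 2 : ℝ) := by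
      calc (dg m d j : ℝ) ≤ C * R k ^ c := hdg j (R k) (hR1 k) hj
        _ ≤ C * (2 ^ c * (B k : ℝ) ^ (1 / 2 : ℝ)) :=
            mul_le_mul_of_nonneg_left h6 (by linarith)
        _ = C₂ * (B k : ℝ) ^ (1 / 2 : ℝ) := by rw [hC₂]; ring
    have h8 : C₂ ≤ (B k : ℝ) ^ (1 / 2 : ℝ) := by
      rw [← Real.sqrt_eq_rpow]
      apply Real.le_sqrt_of_sq_le
      have := hB1 k
      linarith
    have h9 : (B k : ℝ) ^ (1 / 2 : ℝ) * (B k : ℝ) ^ (1 / 2 : ℝ) = B k := by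
      rw [← Real.sqrt_eq_rpow]
      exact Real.mul_self_sqrt (by linarith)
    have h10 : (dg m d j : ℝ) ≤ B k := by
      calc (dg m d j : ℝ) ≤ C₂ * (B k : ℝ) ^ (1 / 2 : ℝ) := h7
        _ ≤ (B k : ℝ) ^ (1 / 2 : ℝ) * (B k : ℝ) ^ (1 / 2 : ℝ) :=
            mul_le_mul_of_nonneg_right h8 (Real.rpow_nonneg (by linarith) _)
        _ = B k := h9
    exact_mod_cast h10

end Pool.Agent.GE
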