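import Pool.Agent.GE.Defs
import Pool.Agent.GT.Greedy

/-!
Project GE (MP_e3c919_ag), row E17: the greedy choice of shifts whose products have large rank,
with bounds for the shifts and for the degrees.
-/

set_option autoImplicit false

open Filter MvPolynomial

namespace Pool.Agent.GE

open Pool.Agent.GT

/-- composing a representation of the shift by `l` with the map gives one of the shift by
`l + 1` -/
theorem greedyEff_comp {K T ι : Type} [Field K] {δ : T → ℕ}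
    {F : T → ι → MvPolynomial ι K} {y : ℕ → ι → K} (h : Orb δ F y) {l e : ℕ}
    {Φ : ι → MvPolynomial ι K} (hΦ : Rep y l e Φ) :
    ∃ (t : T) (Φ' : ι → MvPolynomial ι K), Rep y (l + 1) (e * δ t) Φ' := by
  obtain ⟨hΦ1, ⟨n, i, hi⟩, hΦ3⟩ := hΦ
  obtain ⟨c, hc⟩ := hΦ3 n
  have hc0 : c ≠ 0 := by
    intro h0
    rw [hc, h0, zero_mul] at hi
    exact hi rfl
  obtain ⟨t, i', hi'⟩ := h.step (n + l)
  have key : ∀ (m : ℕ) (c : K), (∀ i, eval (y m) (Φ i) = c * y (m + l) i) → ∀ j,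
      eval (y m) (bind₁ Φ (F t j)) = c ^ δ t * eval (y (m + l)) (F t j) := by
    intro m c hc j
    have e1 : (fun i => eval (y m) (Φ i)) = fun i => c * y (m + l) i := funext hc
    rw [greedy_eval_bind, e1, greedy_eval_smul (h.hom t j)]
  have hne : eval (y n) (bind₁ Φ (F t i')) ≠ 0 := by
    rw [key n c hc i']
    exact mul_ne_zero (pow_ne_zero _ hc0) hi'
  refine ⟨t, fun j => bind₁ Φ (F t j), fun j => greedy_hom_bind hΦ1 (h.hom t j),
    ⟨n, i', hne⟩, fun m => ?_⟩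
  obtain ⟨c1, hc1⟩ := hΦ3 m
  obtain ⟨c2, hc2⟩ := h.prop (m + l) t
  refine ⟨c1 ^ δ t * c2, fun j => ?_⟩
  rw [key m c1 hc1 j, hc2 j]
  have e2 : m + (l + 1) = m + l + 1 := rfl
  rw [e2, mul_assoc]

theorem greedyEff_aux {K T ι : Type} [Field K] [Fintype ι] {δ : T → ℕ}
    {F : T → ι → MvPolynomial ι K} {y : ℕ → ι → K} (h : Orb δ F y) (d : ℕ)
    (hd : ∀ t, δ t ≤ d) {𝔭 : Ideal (MvPolynomial ι K)} (h𝔭 : HPrime 𝔭)
    (hmem : ∀ (b : ℕ) (G : MvPolynomial ι K), G.IsHomogeneous b →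
      (G ∈ 𝔭 ↔ ∀ n, eval (y n) G = 0))
    (ψ : ℕ → ℕ) (hψ : Monotone ψ)
    (hunb : ∀ B, 1 ≤ B → ∃ l ≤ ψ B, ∀ e ≤ B, ∀ Φ : ι → MvPolynomial ι K, ¬ Rep y l e Φ)
    (j : ℕ) :
    ∃ (l a : Fin j → ℕ) (Φ : Fin j → ι → MvPolynomial ι K), (∀ i, Rep y (l i) (a i) (Φ i)) ∧
      (∀ i, l i ≤ ψ (dg (Fintype.card ι) d j)) ∧
      (∑ i, a i) + 1 ≤ (1 + d * (Fintype.card ι + 1)) ^ j ∧
      2 ^ j ≤ rk 𝔭 (prodSpan Φ) := by
  have hcard : 1 ≤ Fintype.card ι := by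
    obtain ⟨i, -⟩ := Function.ne_iff.1 (h.ne 0)
    exact Fintype.card_pos_iff.2 ⟨i⟩
  induction j with
  | zero =>
    refine ⟨Fin.elim0, Fin.elim0, fun i => i.elim0, fun i => i.elim0, fun i => i.elim0, ?_, ?_⟩
    · simp
    · rw [rk_prodSpan_zero h𝔭.prime, pow_zero]
  | succ j ih =>
    classical
    obtain ⟨l, a, Φ, hrep, hl, ha, hrk⟩ := ih
    set m := Fintype.card ι with hm
    set A := ∑ i, a i with hA
    set P := (1 + d * (m + 1)) ^ j with hP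
    have hPs : (1 + d * (m + 1)) ^ (j + 1) = P * (1 + d * (m + 1)) := pow_succ _ _
    have hdg : dg m d j ≤ dg m d (j + 1) := by
      unfold dg
      refine Nat.add_le_add_right (Nat.mul_le_mul_left _ ?_) 1
      exact Nat.pow_le_pow_right (by omega) (Nat.le_succ j)
    have hB : m * A + 1 ≤ dg m d j := by
      unfold dg
      rw [← hP]
      have : m * A ≤ m * P := Nat.mul_le_mul_left _ (by omega)
      omega
    have hex : ∃ l', ∀ e ≤ m * A + 1, ∀ Φ : ι → MvPolynomial ι K, ¬ Rep y l' e Φ := by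
      obtain ⟨l', -, hl'⟩ := hunb (m * A + 1) (by omega)
      exact ⟨l', hl'⟩
    set l' := Nat.find hex with hl'def
    have hl' := Nat.find_spec hex
    rw [← hl'def] at hl'
    have hl'ψ : l' ≤ ψ (m * A + 1) := by
      obtain ⟨l1, hl1, hl2⟩ := hunb (m * A + 1) (by omega)
      exact (Nat.find_min' hex hl2).trans hl1
    have hrep1 : ∃ e ≤ (m * A + 1) * d, ∃ Φ' : ι → MvPolynomial ι K, Rep y l' e Φ' := by
      rcases Nat.eq_zero_or_pos l' with h0 | h0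
      · exfalso
        obtain ⟨i, hi⟩ := Function.ne_iff.1 (h.ne 0)
        refine hl' 1 (by omega) X ⟨fun i => isHomogeneous_X K i, ⟨0, i, ?_⟩,
          fun m => ⟨1, fun i => ?_⟩⟩
        · rw [eval_X]
          exact hi
        · rw [eval_X, one_mul, h0]
          rfl
      · obtain ⟨l0, hl0⟩ : ∃ l0, l' = l0 + 1 := ⟨l' - 1, by omega⟩
        have hmin := Nat.find_min hex (m := l0) (by rw [← hl'def]; omega)
        push Not at hmin
        obtain ⟨e, he, Φ0, hΦ0⟩ := hmin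
        obtain ⟨t, Φ', hΦ'⟩ := greedyEff_comp h hΦ0
        exact ⟨e * δ t, Nat.mul_le_mul he (hd t), Φ', by rw [hl0]; exact hΦ'⟩
    obtain ⟨e, he, Φ', hΦ'⟩ := hrep1
    refine ⟨Fin.snoc (α := fun _ => ℕ) l l', Fin.snoc (α := fun _ => ℕ) a e,
      Fin.snoc (α := fun _ => ι → MvPolynomial ι K) Φ Φ', fun i => ?_, fun i => ?_, ?_, ?_⟩
    · refine Fin.lastCases ?_ (fun i => ?_) i
      · rw [Fin.snoc_last, Fin.snoc_last, Fin.snoc_last]
        exact hΦ'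
      · rw [Fin.snoc_castSucc, Fin.snoc_castSucc, Fin.snoc_castSucc]
        exact hrep i
    · refine Fin.lastCases ?_ (fun i => ?_) i
      · rw [Fin.snoc_last]
        exact hl'ψ.trans (hψ (hB.trans hdg))
      · rw [Fin.snoc_castSucc]
        exact (hl i).trans (hψ hdg)
    · have e1 : ∑ i, (Fin.snoc (α := fun _ => ℕ) a e : Fin (j + 1) → ℕ) i = A + e := by
        rw [Fin.sum_univ_castSucc, Fin.snoc_last]
        simp only [Fin.snoc_castSucc]
        rfl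
      rw [e1, hPs]
      have h1 : A + e + 1 ≤ A + (m * A + 1) * d + 1 := by omega
      refine h1.trans ?_
      have h2 : (A + 1) * (1 + d * (m + 1)) ≤ P * (1 + d * (m + 1)) :=
        Nat.mul_le_mul_right _ ha
      refine le_trans ?_ h2
      have h3 : (A + 1) * (1 + d * (m + 1)) =
          A + (m * A + 1) * d + 1 + (A * d + m * d) := by ring
      rw [h3]
      exact Nat.le_add_right _ _
    · by_contra hcon
      push Not at hcon
      rw [prodSpan_snoc] at hcon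
      have hpos : 1 ≤ rk 𝔭 (prodSpan Φ) := le_trans Nat.one_le_two_pow hrk
      have hlt : rk 𝔭 (prodSpan Φ * Submodule.span K (Set.range Φ')) <
          2 * rk 𝔭 (prodSpan Φ) := by
        refine lt_of_lt_of_le hcon ?_
        rw [pow_succ, mul_comm]
        exact Nat.mul_le_mul_left 2 hrk
      obtain ⟨n₀, i₀, hi₀⟩ := hΦ'.2.1
      have hi₀' : Φ' i₀ ∉ 𝔭 := fun hc => hi₀ ((hmem e _ (hΦ'.1 i₀)).1 hc n₀)
      obtain ⟨j₀, hj₀⟩ := Function.ne_iff.1 (h.ne 0)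
      have hj₀' : (X j₀ : MvPolynomial ι K) ∉ 𝔭 := fun hc => by
        have h1 := (hmem 1 _ (isHomogeneous_X K j₀)).1 hc 0
        rw [eval_X] at h1
        exact hj₀ h1
      obtain ⟨Ψ, V, b, hΨ1, hV1, hV2, hΨ2⟩ := doubling h𝔭.prime (∑ i, a i) e (prodSpan Φ)
        (prodSpan_hom Φ a fun i t => (hrep i).1 t) hpos Φ' hΦ'.1 i₀ hi₀' j₀ hj₀' hlt
      refine hl' _ le_rfl Ψ ⟨hΨ1, ?_, fun n => ?_⟩
      · by_contra hc
        push Not at hc
        have h1 : Ψ i₀ ∈ 𝔭 := (hmem _ _ (hΨ1 i₀)).2 fun n => hc n i₀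
        have h2 : Φ' i₀ * V ∈ 𝔭 := by
          have h3 := 𝔭.sub_mem (𝔭.mul_mem_right (Φ' i₀) h1) (hΨ2 i₀)
          rwa [sub_sub_cancel] at h3
        rcases h𝔭.prime.mem_or_mem h2 with h3 | h3
        · exact hi₀' h3
        · exact hV2 h3
      · obtain ⟨e2, Φn, hΦn, i1, hi1⟩ := exists_rep h l' n
        have hcross : ∀ i i', Ψ i * Φn i' - Ψ i' * Φn i ∈ 𝔭 := by
          intro i i'
          have h1 : (Ψ i * Φn i' - Ψ i' * Φn i) * Φ' i₀ ∈ 𝔭 := by
            have e3 : (Ψ i * Φn i' - Ψ i' * Φn i) * Φ' i₀ =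
                Φn i' * (Ψ i * Φ' i₀ - Φ' i * V) - Φn i * (Ψ i' * Φ' i₀ - Φ' i' * V) +
                  V * (Φ' i * Φn i' - Φ' i' * Φn i) := by ring
            rw [e3]
            exact 𝔭.add_mem (𝔭.sub_mem (𝔭.mul_mem_left _ (hΨ2 i)) (𝔭.mul_mem_left _ (hΨ2 i')))
              (𝔭.mul_mem_left _ (greedy_cross hmem hΦ' hΦn i i'))
          exact (h𝔭.prime.mem_or_mem h1).resolve_right hi₀'
        have hev : ∀ i i', eval (y n) (Ψ i) * eval (y n) (Φn i') =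
            eval (y n) (Ψ i') * eval (y n) (Φn i) := by
          intro i i'
          have h1 := (hmem _ _ (((hΨ1 i).mul (hΦn.1 i')).sub ((hΨ1 i').mul (hΦn.1 i)))).1
            (hcross i i') n
          rw [map_sub, map_mul, map_mul, sub_eq_zero] at h1
          exact h1
        obtain ⟨c, hc⟩ := hΦn.2.2 n
        refine ⟨eval (y n) (Ψ i1) / eval (y n) (Φn i1) * c, fun i => ?_⟩
        have h2 := hev i i1
        rw [hc i] at h2
        field_simp
        linear_combination h2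

theorem greedy_eff {K T ι : Type} [Field K] [Fintype ι] {δ : T → ℕ}
    {F : T → ι → MvPolynomial ι K} {y : ℕ → ι → K} (h : Orb δ F y) (d : ℕ)
    (hd : ∀ t, δ t ≤ d) {𝔭 : Ideal (MvPolynomial ι K)} (h𝔭 : HPrime 𝔭)
    (hmem : ∀ (b : ℕ) (G : MvPolynomial ι K), G.IsHomogeneous b →
      (G ∈ 𝔭 ↔ ∀ n, eval (y n) G = 0))
    (ψ : ℕ → ℕ) (hψ : Monotone ψ)
    (hunb : ∀ B, 1 ≤ B → ∃ l ≤ ψ B, ∀ e ≤ B, ∀ Φ : ι → MvPolynomial ι K, ¬ Rep y l e Φ)
    (j : ℕ) :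
    ∃ (l a : Fin j → ℕ) (Φ : Fin j → ι → MvPolynomial ι K), (∀ i, Rep y (l i) (a i) (Φ i)) ∧
      (∀ i, l i ≤ ψ (dg (Fintype.card ι) d j)) ∧ ∑ i, a i ≤ dg (Fintype.card ι) d j ∧
      2 ^ j ≤ rk 𝔭 (prodSpan Φ) := by
  obtain ⟨l, a, Φ, h1, h2, h3, h4⟩ := greedyEff_aux h d hd h𝔭 hmem ψ hψ hunb j
  refine ⟨l, a, Φ, h1, h2, ?_, h4⟩
  have hcard : 1 ≤ Fintype.card ι := by
    obtain ⟨i, -⟩ := Function.ne_iff.1 (h.ne 0)
    exact Fintype.card_pos_iff.2 ⟨i⟩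
  unfold dg
  have h5 : 1 * (1 + d * (Fintype.card ι + 1)) ^ j ≤
      Fintype.card ι * (1 + d * (Fintype.card ι + 1)) ^ j := Nat.mul_le_mul_right _ hcard
  omega

end Pool.Agent.GE
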