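import Pool.Agent.GE.Defs
import Pool.Agent.GT.Tools

/-!
Project GE (MP_e3c919_ag), row E15: images of the families under representations of the shifts.
-/

set_option autoImplicit false

open Filter MvPolynomial

namespace Pool.Agent.GE

open Pool.Agent.GT

theorem images_not_bad {K ι : Type} [Field K] {y : ℕ → ι → K} {S : Finset ℕ} {l : ℕ}
    {Φ : ι → MvPolynomial ι K} {m : ℕ} (hm : m ∈ S \ bad y S l Φ) :
    m ∈ S ∧ ∃ c : K, c ≠ 0 ∧ ∀ i, eval (y m) (Φ i) = c * y (m + l) i := by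
  classical
  rw [Finset.mem_sdiff] at hm
  refine ⟨hm.1, ?_⟩
  by_contra hcon
  apply hm.2
  unfold bad
  rw [Finset.mem_filter]
  exact ⟨hm.1, hcon⟩

theorem images_eval {K ι : Type} [Field K] {y : ℕ → ι → K} {l m : ℕ}
    {Φ : ι → MvPolynomial ι K} {c : K} (hc : ∀ i, eval (y m) (Φ i) = c * y (m + l) i) {e : ℕ}
    {G : MvPolynomial ι K} (hG : G.IsHomogeneous e) :
    eval (y m) (bind₁ Φ G) = c ^ e * eval (y (m + l)) G := by
  rw [eval_bind, ← eval_smul_form hG]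
  congr 2
  funext i
  exact hc i

theorem img_iff {K ι : Type} [Field K] [Finite ι] {y : ℕ → ι → K}
    {𝔭 : Ideal (MvPolynomial ι K)} (S : Finset ℕ) (hv : ∀ G ∈ 𝔭, ∀ n ∈ S, eval (y n) G = 0)
    (x : ℝ) (g : ℕ)
    (hFZ : ∀ e ≤ g, ∀ G : MvPolynomial ι K, G.IsHomogeneous e → G ∉ 𝔭 →
      ∀ Z ⊆ S, (∀ n ∈ Z, eval (y n) G = 0) → (Z.card : ℝ) < x)
    (l a : ℕ) (Φ : ι → MvPolynomial ι K) (hΦ : ∀ i, (Φ i).IsHomogeneous a) (e : ℕ)
    (he : a * e ≤ g) (G : MvPolynomial ι K) (hG : G.IsHomogeneous e) :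
    (bind₁ Φ G ∈ 𝔭 → ∀ n ∈ sh y S l Φ, eval (y n) G = 0) ∧
      ∀ Z ⊆ sh y S l Φ, x ≤ (Z.card : ℝ) → (∀ n ∈ Z, eval (y n) G = 0) → bind₁ Φ G ∈ 𝔭 := by
  classical
  constructor
  · intro hb n hn
    unfold sh at hn
    obtain ⟨m, hm, rfl⟩ := Finset.mem_image.1 hn
    obtain ⟨hmS, c, hc0, hc⟩ := images_not_bad hm
    have h1 := hv _ hb m hmS
    rw [images_eval hc hG] at h1
    exact (mul_eq_zero.1 h1).resolve_left (pow_ne_zero _ hc0)
  · intro Z hZ hxZ hGZ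
    by_contra hcon
    set Z' := (S \ bad y S l Φ).filter (fun m => m + l ∈ Z) with hZ'
    have h1 : Z ⊆ Z'.image fun m => m + l := by
      intro n hn
      have h2 := hZ hn
      unfold sh at h2
      obtain ⟨m, hm, rfl⟩ := Finset.mem_image.1 h2
      exact Finset.mem_image.2 ⟨m, Finset.mem_filter.2 ⟨hm, hn⟩, rfl⟩
    have h2 : Z.card ≤ Z'.card := (Finset.card_le_card h1).trans Finset.card_image_le
    have h3 := hFZ (a * e) he _ (bind_hom hΦ hG) hcon Z' (by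
      intro m hm
      exact (Finset.mem_sdiff.1 (Finset.mem_filter.1 hm).1).1) (by
      intro m hm
      obtain ⟨hm1, hm2⟩ := Finset.mem_filter.1 hm
      obtain ⟨-, c, -, hc⟩ := images_not_bad hm1
      rw [images_eval hc hG, hGZ _ hm2, mul_zero])
    have h4 : (Z.card : ℝ) ≤ Z'.card := by exact_mod_cast h2
    linarith

theorem img_step {K T ι : Type} [Field K] [Finite ι] {δ : T → ℕ}
    {F : T → ι → MvPolynomial ι K} {y : ℕ → ι → K} (h : Orb δ F y) (d : ℕ)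
    (hd : ∀ t, δ t ≤ d) {𝔭 : Ideal (MvPolynomial ι K)} (S : Finset ℕ)
    (hv : ∀ G ∈ 𝔭, ∀ n ∈ S, eval (y n) G = 0) (x : ℝ) (g : ℕ)
    (hFZ : ∀ e ≤ g, ∀ G : MvPolynomial ι K, G.IsHomogeneous e → G ∉ 𝔭 →
      ∀ Z ⊆ S, (∀ n ∈ Z, eval (y n) G = 0) → (Z.card : ℝ) < x)
    (l a a' : ℕ) (Φ Φ' : ι → MvPolynomial ι K) (hΦ : ∀ i, (Φ i).IsHomogeneous a)
    (hΦ' : ∀ i, (Φ' i).IsHomogeneous a')
    (hcard : ((bad y S l Φ).card : ℝ) + (bad y S (l + 1) Φ').card + x ≤ S.card) (e : ℕ)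
    (he : a * (d * e) ≤ g) (G : MvPolynomial ι K) (hG : G.IsHomogeneous e)
    (hG𝔭 : bind₁ Φ' G ∈ 𝔭) (t : T) : bind₁ Φ (bind₁ (F t) G) ∈ 𝔭 := by
  classical
  by_contra hcon
  have hFG : (bind₁ (F t) G).IsHomogeneous (δ t * e) := bind_hom (h.hom t) hG
  have hdeg : a * (δ t * e) ≤ g :=
    (Nat.mul_le_mul_left _ (Nat.mul_le_mul_right _ (hd t))).trans he
  set Z := S \ (bad y S l Φ ∪ bad y S (l + 1) Φ') with hZ
  have h1 := hFZ _ hdeg _ (bind_hom hΦ hFG) hcon Z Finset.sdiff_subset (by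
    intro m hm
    rw [hZ, Finset.mem_sdiff, Finset.mem_union] at hm
    have hm1 : m ∈ S \ bad y S l Φ := Finset.mem_sdiff.2 ⟨hm.1, fun hb => hm.2 (Or.inl hb)⟩
    have hm2 : m ∈ S \ bad y S (l + 1) Φ' :=
      Finset.mem_sdiff.2 ⟨hm.1, fun hb => hm.2 (Or.inr hb)⟩
    obtain ⟨hmS, c, hc0, hc⟩ := images_not_bad hm1
    obtain ⟨-, c', hc0', hc'⟩ := images_not_bad hm2
    obtain ⟨c'', hc''⟩ := h.prop (m + l) t
    have h2 := hv _ hG𝔭 m hm.1
    rw [images_eval hc' hG] at h2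
    have h3 := (mul_eq_zero.1 h2).resolve_left (pow_ne_zero _ hc0')
    have h4 : eval (y (m + l)) (bind₁ (F t) G) = c'' ^ e * eval (y (m + l + 1)) G :=
      images_eval (l := 1) hc'' hG
    rw [images_eval hc hFG, h4]
    rw [← add_assoc] at h3
    rw [h3, mul_zero, mul_zero])
  have h2 : S.card ≤ Z.card + ((bad y S l Φ).card + (bad y S (l + 1) Φ').card) := by
    have h3 : S ⊆ Z ∪ (bad y S l Φ ∪ bad y S (l + 1) Φ') := by
      intro m hm
      rw [Finset.mem_union]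
      by_cases hb : m ∈ bad y S l Φ ∪ bad y S (l + 1) Φ'
      · exact Or.inr hb
      · exact Or.inl (Finset.mem_sdiff.2 ⟨hm, hb⟩)
    calc S.card ≤ _ := Finset.card_le_card h3
      _ ≤ Z.card + (bad y S l Φ ∪ bad y S (l + 1) Φ').card := Finset.card_union_le _ _
      _ ≤ _ := Nat.add_le_add_left (Finset.card_union_le _ _) _
  have h3 : (S.card : ℝ) ≤ Z.card + ((bad y S l Φ).card + (bad y S (l + 1) Φ').card) := by
    exact_mod_cast h2
  linarith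

end Pool.Agent.GE
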