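import Pool.Agent.GE.FamC
import Pool.Agent.GE.Greedy2
import Pool.Agent.GT.OrbitPrime
import Pool.Agent.GT.ProdSpan

/-!
Orbits of small height at a sequence of scales: the degrees of the iterates are small.
-/

set_option autoImplicit false

open Filter MvPolynomial Height Height.AdmissibleAbsValues

namespace Pool.Agent.GE

open Pool.Agent.GT

theorem main_eff {K T ι : Type} [Field K] [NumberField K] [Finite T] [Fintype ι] [Nonempty ι]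
    {δ : T → ℕ} {F : T → ι → MvPolynomial ι K} {y : ℕ → ℕ → ι → K}
    (h : ∀ k, Orb δ F (y k)) (hirr : ∀ k, Irr (y k))
    (d : ℕ) (hd : ∀ t, δ t ≤ d) {σ : ℕ → ℕ} (hσ : Inf σ) (R : ℕ → ℝ) (hR1 : ∀ k, 1 ≤ R k)
    (hR : Small σ R) (ρ : ℝ) (hρ : 0 < ρ) (hρ1 : ρ ≤ 1) (hht : FewHigh σ y R ρ)
    (l B : ℕ → ℕ)
    (hB : ∀ k, ∀ e ≤ B k, ∀ Φ : ι → MvPolynomial ι K, ¬ Rep (y k) (l k) e Φ)
    (hl : ∀ η : ℝ, 0 < η → ∀ᶠ k in U, (l k : ℝ) ≤ (σ k : ℝ) ^ η)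
    (hBs : ∀ C₀ : ℕ, ∀ᶠ k in U, ∀ j : ℕ, (j : ℝ) ≤ C₀ * (1 + Real.log (R k)) →
      dg (Fintype.card ι) d j ≤ B k) : False := by
  classical
  have hKinf : Infinite K := Infinite.of_injective ((↑) : ℕ → K) Nat.cast_injective
  obtain ⟨θ₂, hθ₂, hZE⟩ := ze_eff h hirr d hd hσ R hR1 hR ρ hρ hρ1 hht
  obtain ⟨c₁, hc₁, hCL⟩ := cl_seq (h 0).hom
  obtain ⟨η, hη, hηρ, hη2⟩ : ∃ η : ℝ, 0 < η ∧ η ≤ ρ / 2 ∧ c₁ * η ≤ θ₂ := by
    refine ⟨min (ρ / 2) (θ₂ / c₁), lt_min (by linarith) (by positivity), min_le_left _ _, ?_⟩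
    calc c₁ * min (ρ / 2) (θ₂ / c₁) ≤ c₁ * (θ₂ / c₁) :=
          mul_le_mul_of_nonneg_left (min_le_right _ _) hc₁.le
      _ = θ₂ := by field_simp
  have hη1 : η ≤ 1 := by linarith
  have hS : InWS σ 2 fun k => Finset.Icc (σ k) (2 * σ k) :=
    Eventually.of_forall fun k n hn => (Finset.mem_Icc.mp hn).2
  obtain ⟨S₁, hL₁, hrel⟩ := hCL y h η hη hη1 σ hσ R hR1 hR ρ hht 0 (by linarith) 2
    (fun k => Finset.Icc (σ k) (2 * σ k)) hS (by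
      intro ε hε
      filter_upwards [hσ 1] with k hk
      have h1 : (σ k : ℝ) ^ (1 - 0 - ε) ≤ (σ k : ℝ) ^ (1 : ℝ) :=
        Real.rpow_le_rpow_of_exponent_le (by exact_mod_cast hk) (by linarith)
      rw [Real.rpow_one] at h1
      rw [Nat.card_Icc]
      refine h1.trans ?_
      have : σ k ≤ 2 * σ k + 1 - σ k := by omega
      exact_mod_cast this)
  obtain ⟨C₀, hjt⟩ := exists_jt (Fintype.card ι) η hη
  choose! j t h1 using hjt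
  have hj : ∀ᶠ k : ℕ in U, (j (R k) : ℝ) ≤ C₀ * (1 + Real.log (R k)) :=
    Eventually.of_forall fun k => (h1 (R k) (hR1 k)).2.2.2
  have hdg := small_dg hσ (Fintype.card ι) d R hR1 hR C₀ (fun k => j (R k)) hj
  have hS₁ : InWS σ 2 S₁ := by
    unfold InWS
    filter_upwards [hS, hrel] with k h2 h3 n hn
    exact h2 n (h3.1 hn)
  have hz := hZE 2 S₁ hS₁ (largeS_mono hσ (by linarith) hL₁) _ hdg
  obtain ⟨k, h2, h3, h4, h4'⟩ := (hz.and (hrel.and ((hBs C₀).and (hl η hη)))).exists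
  obtain ⟨ht1, hjt2, hst, hjC⟩ := h1 (R k) (hR1 k)
  obtain ⟨𝔭, h𝔭, hmem⟩ := orbit_prime (y k) (hirr k)
  obtain ⟨lam, a, Φ, hrep, hlam, ha, hrk⟩ := greedy2 (h k) d hd h𝔭 hmem (l k) (B k)
    ⟨l k, le_rfl, hB k⟩ (j (R k)) (h4 _ hjC)
  obtain ⟨φ, hφ⟩ := pick_indep 𝔭 Φ (hst.trans hrk)
  obtain ⟨c, hc0, hc⟩ := h3.2 (j (R k)) (t (R k)) ht1 hjt2 lam
    (fun i => (Nat.cast_le.mpr (hlam i)).trans h4') φ
  apply hc0
  apply hφ c
  have hGhom : (∑ u, C (c u) * ∏ i, Φ i (φ u i)).IsHomogeneous (∑ i, a i) :=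
    IsHomogeneous.sum _ _ _ fun u _ =>
      (IsHomogeneous.prod _ _ _ fun i _ => (hrep i).1 (φ u i)).C_mul _
  rw [hmem (∑ i, a i) _ hGhom]
  refine h2 _ ha _ hGhom ?_
  intro n hn
  rw [map_sum]
  choose e he using fun i => (hrep i).2.2
  have h6 : ∀ u, eval (y k n) (C (c u) * ∏ i, Φ i (φ u i)) =
      (∏ i, e i n) * (c u * ∏ i, y k (n + lam i) (φ u i)) := by
    intro u
    rw [map_mul, eval_C, map_prod, Finset.prod_congr rfl fun i _ => he i n (φ u i),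
      Finset.prod_mul_distrib]
    ring
  rw [Finset.sum_congr rfl fun u _ => h6 u, ← Finset.mul_sum, hc n hn, mul_zero]

end Pool.Agent.GE
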