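import Pool.Agent.GE.FewBadEff
import Pool.Agent.GT.Sel

/-!
Project GE (MP_e3c919_ag), row E11: choice of a place and of a pigeonhole class, with a bound for
the heights as a parameter (effective version of `Pool.Agent.GT.sel`).
-/

set_option autoImplicit false
set_option maxHeartbeats 400000

open Filter MvPolynomial Height Height.AdmissibleAbsValues

namespace Pool.Agent.GE

open Pool.Agent.GT

theorem selEff_num (η : ℝ) (hη : 0 < η) (Y₀ : ℕ) : ∀ᶠ N : ℕ in atTop,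
    3 ≤ N ∧ Y₀ ≤ ⌈(N : ℝ) ^ (2 * η)⌉₊ := by
  filter_upwards [eventually_ge_atTop 3, sl_num η hη 0 Y₀] with N h1 h2
  exact ⟨h1, h2.2.1⟩

/-- The number of places at one step of the orbit. -/
theorem selEff_card {η C' H : ℝ} (hη : 0 < η) (hC' : 0 < C') (hH : 1 ≤ H) {N : ℕ} (hN : 3 ≤ N)
    {c : ℕ} (hc : (c : ℝ) * Real.log ((N : ℝ) ^ (2 * η)) ≤ C' + C' * H) :
    c ≤ ⌊C' * H / η⌋₊ := by
  have hN3 : (3 : ℝ) ≤ N := by exact_mod_cast hN
  have hN0 : (0 : ℝ) < N := by linarith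
  have hlog : 1 ≤ Real.log N := by
    rw [Real.le_log_iff_exp_le hN0]
    exact Real.exp_one_lt_three.le.trans hN3
  rw [Real.log_rpow hN0] at hc
  apply Nat.le_floor
  rw [le_div_iff₀ hη]
  have h1 : (c : ℝ) * (2 * η) ≤ (c : ℝ) * (2 * η * Real.log N) := by
    apply mul_le_mul_of_nonneg_left _ (Nat.cast_nonneg c)
    nlinarith
  nlinarith

theorem selEff_loc {η C' C H : ℝ} (hη : 0 < η) (hC' : 0 < C') (hH : 1 ≤ H)
    (hC : 2 * C' / η ≤ C) {N : ℕ} (hN : 3 ≤ N) (hCH : C * H ≤ (N : ℝ) ^ (η / 2)) :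
    2 * (⌊(N : ℝ) ^ η⌋₊ * ⌊C' * H / η⌋₊) ≤ ⌈(N : ℝ) ^ (2 * η)⌉₊ := by
  have hN3 : (3 : ℝ) ≤ N := by exact_mod_cast hN
  have hN0 : (0 : ℝ) < N := by linarith
  have hN1 : (1 : ℝ) ≤ N := by linarith
  have h1 : (⌊(N : ℝ) ^ η⌋₊ : ℝ) ≤ (N : ℝ) ^ η := Nat.floor_le (by positivity)
  have h2 : (⌊C' * H / η⌋₊ : ℝ) ≤ C' * H / η := Nat.floor_le (by positivity)
  have h3 : 2 * (C' * H / η) ≤ (N : ℝ) ^ η := by
    calc 2 * (C' * H / η) = 2 * C' / η * H := by ring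
      _ ≤ C * H := mul_le_mul_of_nonneg_right hC (by linarith)
      _ ≤ (N : ℝ) ^ (η / 2) := hCH
      _ ≤ (N : ℝ) ^ η := Real.rpow_le_rpow_of_exponent_le hN1 (by linarith)
  have h4 : (N : ℝ) ^ (2 * η) = (N : ℝ) ^ η * (N : ℝ) ^ η := by
    rw [← Real.rpow_add hN0]
    congr 1
    ring
  have h5 : (2 * (⌊(N : ℝ) ^ η⌋₊ * ⌊C' * H / η⌋₊) : ℝ) ≤ (N : ℝ) ^ (2 * η) := by
    rw [h4]
    have h6 : (0 : ℝ) ≤ (N : ℝ) ^ η := by positivity
    calc (2 * (⌊(N : ℝ) ^ η⌋₊ * ⌊C' * H / η⌋₊) : ℝ)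
        = (⌊(N : ℝ) ^ η⌋₊ : ℝ) * (2 * ⌊C' * H / η⌋₊) := by ring
      _ ≤ (N : ℝ) ^ η * (N : ℝ) ^ η :=
        mul_le_mul h1 (by linarith) (by positivity) h6
  exact_mod_cast h5.trans (Nat.le_ceil _)

/-- The choice of a place and of a class; the heights are bounded only at the points of the orbit
which are used. -/
theorem sel_eff' {K T ι : Type} [Field K] [NumberField K] [Finite T] [Fintype ι] [Nonempty ι]
    {δ : T → ℕ} {F : T → ι → MvPolynomial ι K} {y : ℕ → ι → K} (h : Orb δ F y) :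
    ∃ c₁ : ℝ, 0 < c₁ ∧ ∀ η : ℝ, 0 < η → η ≤ 1 → ∀ κ : ℕ, ∃ C : ℝ, 0 < C ∧
      ∀ᶠ N : ℕ in atTop, ∀ H : ℝ, 1 ≤ H → C * H ≤ (N : ℝ) ^ (η / 2) →
        ∀ S : Finset ℕ, (∀ n ∈ S, n ≤ κ * N) →
        (∀ n ∈ S, ∀ m ≤ ⌊(N : ℝ) ^ η⌋₊, logHeight (y (n + m)) ≤ H) →
        ∃ S' ⊆ S, (S.card : ℝ) ≤ C * (N : ℝ) ^ (c₁ * η) * S'.card ∧
          ∃ v ∈ nonarchAbsVal (K := K), ∃ i₀,
            PCls δ F y v ((N : ℝ) ^ (2 * η)) ⌊(N : ℝ) ^ η⌋₊ i₀ S' := by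
  classical
  have := Fintype.ofFinite T
  set d := Module.finrank ℚ K with hd
  set r := Fintype.card ι with hr
  have hd1 : 0 < d := Module.finrank_pos
  have hr1 : 0 < r := Fintype.card_pos
  refine ⟨4 * d * r, by positivity, fun η hη hη1 κ => ?_⟩
  obtain ⟨B, hB, hBint⟩ := sl_int F
  obtain ⟨Y₁, hY₁⟩ := KST.finite_bad_primes B hB
  obtain ⟨Y₀, hY₀⟩ := many_primes
  obtain ⟨C', hC', hfew⟩ := few_bad_eff h
  have hpl : ∀ p : ℕ, ∃ v : AbsoluteValue K ℝ, p.Prime →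
      (v ∈ nonarchAbsVal (K := K) ∧ v (p : K) < 1 ∧ ∃ q : ℕ, p ≤ q ∧
      q ≤ p ^ d ∧ (∀ a : K, v a < 1 → v a ≤ 1 / (q : ℝ)) ∧
      ∃ cls : K → Fin q, ∀ a b, v a ≤ 1 → v b ≤ 1 → cls a = cls b → v (a - b) < 1) := by
    intro p
    by_cases hp : p.Prime
    · obtain ⟨v, hv, hv'⟩ := KST.exists_place K p hp
      exact ⟨v, fun _ => ⟨hv, hv'⟩⟩
    · exact ⟨AbsoluteValue.trivial, fun h => absurd h hp⟩
  choose v hv using hpl
  refine ⟨2 * (r * 2 ^ (2 * d * r)) + 2 * C' / η, by positivity, ?_⟩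
  filter_upwards [selEff_num η hη (Y₀ + Y₁)] with N hnum H hH hCH S hS hheight
  obtain ⟨hN, hYY⟩ := hnum
  set C₁ := ⌊C' * H / η⌋₊ with hC₁
  have hLC : 2 * (⌊(N : ℝ) ^ η⌋₊ * C₁) ≤ ⌈(N : ℝ) ^ (2 * η)⌉₊ :=
    selEff_loc hη hC' hH (le_add_of_nonneg_left (by positivity)) hN hCH
  have hN3 : (3 : ℝ) ≤ N := by exact_mod_cast hN
  have hN1 : (1 : ℝ) ≤ N := by linarith
  have hN0 : (0 : ℝ) < N := by linarith
  set L := ⌊(N : ℝ) ^ η⌋₊ with hL
  set Y := ⌈(N : ℝ) ^ (2 * η)⌉₊ with hY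
  have hYN : (N : ℝ) ^ (2 * η) ≤ Y := Nat.le_ceil _
  have hY1 : 1 ≤ (N : ℝ) ^ (2 * η) := Real.one_le_rpow hN1 (by linarith)
  have hY2 : 0 < (N : ℝ) ^ (2 * η) := Real.rpow_pos_of_pos hN0 _
  have hLN : L ≤ N := by
    have h1 : (N : ℝ) ^ η ≤ N := by
      calc (N : ℝ) ^ η ≤ (N : ℝ) ^ (1 : ℝ) := Real.rpow_le_rpow_of_exponent_le hN1 hη1
        _ = N := Real.rpow_one _
    have h2 : (L : ℝ) ≤ (N : ℝ) ^ η := Nat.floor_le (Real.rpow_nonneg hN0.le _)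
    exact_mod_cast h2.trans h1
  obtain ⟨P, hPc, hP⟩ := hY₀ Y (by omega)
  have hPne : P.Nonempty := by
    rw [← Finset.card_pos]
    have h1 : (0 : ℝ) < Y := hY2.trans_le hYN
    have h2 : 0 < Y := by exact_mod_cast h1
    omega
  have hint : ∀ p ∈ P, ∀ t i m, v p ((F t i).coeff m) ≤ 1 := by
    intro p hp
    obtain ⟨hpp, hYp, -⟩ := hP p hp
    obtain ⟨h1, h2, -⟩ := hv p hpp
    exact hBint (v p) h1 (hY₁ p hpp (by omega) (v p) h1 h2)
  have hinj : Set.InjOn v (P : Set ℕ) := by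
    intro p hp p' hp' hpp'
    obtain ⟨h1, h2, -⟩ := hv p (hP p hp).1
    obtain ⟨h1', h2', -⟩ := hv p' (hP p' hp').1
    rw [← hpp'] at h2'
    exact KST.place_unique (v p) (isNonarchimedean _ h1) p p' (hP p hp).1 (hP p' hp').1 h2 h2'
  have hone : ∀ m, logHeight (y m) ≤ H → (P.filter fun p => ∀ t,
      (⨆ i, v p (eval (y m) (F t i))) ≠ (⨆ i, v p (y m i)) ^ δ t).card ≤ C₁ := by
    intro m hm
    rw [← Finset.card_image_of_injOn (f := v) (hinj.mono fun p hp =>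
      Finset.mem_of_mem_filter p hp)]
    apply selEff_card hη hC' hH hN
    apply hfew m H _ hY1 hm
    intro w hw
    obtain ⟨p, hp, rfl⟩ := Finset.mem_image.mp hw
    obtain ⟨hpP, hpt⟩ := Finset.mem_filter.mp hp
    obtain ⟨hpp, hYp, -⟩ := hP p hpP
    obtain ⟨h1, h2, q, hq1, hq2, hq3, -⟩ := hv p hpp
    refine ⟨h1, fun t => ?_⟩
    have hq0 : (0 : ℝ) < q := by
      have : 0 < q := lt_of_lt_of_le hpp.pos hq1
      exact_mod_cast this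
    have hNq : (N : ℝ) ^ (2 * η) ≤ q := by
      refine hYN.trans ?_
      have : Y ≤ q := by omega
      exact_mod_cast this
    have h3 := sl_good (isNonarchimedean _ h1) hq0 hq3 (h.hom t) (hint p hpP t) (h.ne m) (hpt t)
    refine le_trans (mul_le_mul_of_nonneg_left hNq ?_) h3
    exact Real.iSup_nonneg fun i => (v p).nonneg _
  obtain ⟨p, hp, hpS⟩ := sl_double S P hPne (fun n p => ∀ m < L, ∃ t,
    (⨆ i, v p (eval (y (n + m)) (F t i))) = (⨆ i, v p (y (n + m) i)) ^ δ t) (by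
      intro n hn
      have h1 : (P.filter fun p => ¬ ∀ m < L, ∃ t,
          (⨆ i, v p (eval (y (n + m)) (F t i))) = (⨆ i, v p (y (n + m) i)) ^ δ t) ⊆
          (Finset.range L).biUnion fun m => P.filter fun p => ∀ t,
            (⨆ i, v p (eval (y (n + m)) (F t i))) ≠ (⨆ i, v p (y (n + m) i)) ^ δ t := by
        intro p hp
        obtain ⟨hpP, hp2⟩ := Finset.mem_filter.mp hp
        push Not at hp2
        obtain ⟨m, hm, hp3⟩ := hp2
        exact Finset.mem_biUnion.mpr ⟨m, Finset.mem_range.mpr hm,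
          Finset.mem_filter.mpr ⟨hpP, hp3⟩⟩
      have h2 := (Finset.card_le_card h1).trans (Finset.card_biUnion_le_card_mul
        (Finset.range L) _ C₁ (by
          intro m hm
          exact hone _ (hheight n hn m (Finset.mem_range.mp hm).le)))
      rw [Finset.card_range] at h2
      omega)
  obtain ⟨hpp, hYp, hpY⟩ := hP p hp
  obtain ⟨hvn, hvp, q, hq1, hq2, hq3, cls, hcls⟩ := hv p hpp
  have hq0 : 0 < q := lt_of_lt_of_le hpp.pos hq1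
  have hNq : (N : ℝ) ^ (2 * η) ≤ q := by
    refine hYN.trans ?_
    have : Y ≤ q := by omega
    exact_mod_cast this
  have hmax : ∀ n, ∃ i₀, ∀ i, v p (y n i) ≤ v p (y n i₀) := fun n =>
    Finite.exists_max fun i => v p (y n i)
  choose piv hpiv using hmax
  have hpiv0 : ∀ n, y n (piv n) ≠ 0 := by
    intro n h0
    apply h.ne n
    funext i
    have h1 := hpiv n i
    rw [h0, map_zero] at h1
    exact (v p).eq_zero.mp (le_antisymm h1 ((v p).nonneg _))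
  have : Nonempty (Fin q) := ⟨⟨0, hq0⟩⟩
  obtain ⟨⟨i₀, γ⟩, hb⟩ := sl_pigeon (S.filter fun n => ∀ m < L, ∃ t,
    (⨆ i, v p (eval (y (n + m)) (F t i))) = (⨆ i, v p (y (n + m) i)) ^ δ t)
    (fun n => (piv n, fun i => cls (y n i / y n (piv n))))
  set S₁ := S.filter fun n => ∀ m < L, ∃ t,
    (⨆ i, v p (eval (y (n + m)) (F t i))) = (⨆ i, v p (y (n + m) i)) ^ δ t with hS₁
  set S' := S₁.filter fun n => (piv n, fun i => cls (y n i / y n (piv n))) = (i₀, γ) with hS'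
  have hmem : ∀ n ∈ S', (∀ m < L, ∃ t,
      (⨆ i, v p (eval (y (n + m)) (F t i))) = (⨆ i, v p (y (n + m) i)) ^ δ t) ∧
      piv n = i₀ ∧ ∀ i, cls (y n i / y n i₀) = γ i := by
    intro n hn
    obtain ⟨h1, h2⟩ := Finset.mem_filter.mp hn
    obtain ⟨h3, h4⟩ := Finset.mem_filter.mp h1
    have h5 := (Prod.ext_iff.mp h2).1
    have h6 := (Prod.ext_iff.mp h2).2
    simp only at h5 h6
    refine ⟨h4, h5, fun i => ?_⟩
    rw [← h6, h5]
  refine ⟨S', (Finset.filter_subset _ _).trans (Finset.filter_subset _ _), ?_, v p, hvn, i₀, ?_⟩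
  · have hcard : Fintype.card (ι × (ι → Fin q)) = r * q ^ r := by
      simp [hr]
    rw [hcard] at hb
    have h1 : (S.card : ℝ) ≤ 2 * (((r * q ^ r : ℕ) : ℝ) * S'.card) := by
      have h2 : S.card ≤ 2 * (r * q ^ r * S'.card) := by omega
      exact_mod_cast h2
    have h2 := sl_count η hη d r N q p (by omega) hpY hq2
    have h3 : (0 : ℝ) ≤ S'.card := by positivity
    have h4 : (0 : ℝ) ≤ (N : ℝ) ^ (4 * d * r * η) := by positivity
    have h5 : (0 : ℝ) ≤ 2 * C' / η := by positivity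
    calc (S.card : ℝ) ≤ 2 * (((r * q ^ r : ℕ) : ℝ) * S'.card) := h1
      _ ≤ 2 * ((r * 2 ^ (2 * d * r) * (N : ℝ) ^ (4 * d * r * η)) * S'.card) := by
        apply mul_le_mul_of_nonneg_left _ (by norm_num)
        exact mul_le_mul_of_nonneg_right h2 h3
      _ = 2 * (r * 2 ^ (2 * d * r)) * (N : ℝ) ^ (4 * d * r * η) * S'.card := by ring
      _ ≤ (2 * (r * 2 ^ (2 * d * r)) + 2 * C' / η) * (N : ℝ) ^ (4 * d * r * η) * S'.card := by
        apply mul_le_mul_of_nonneg_right _ h3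
        apply mul_le_mul_of_nonneg_right _ h4
        linarith
  · refine ⟨hint p hp, ?_, fun n hn => (hmem n hn).1, ?_⟩
    · intro n hn
      obtain ⟨-, h2, -⟩ := hmem n hn
      rw [← h2]
      exact ⟨hpiv0 n, hpiv n⟩
    · have hle : ∀ n ∈ S', ∀ i, v p (y n i / y n i₀) ≤ 1 := by
        intro n hn i
        obtain ⟨-, h2, -⟩ := hmem n hn
        rw [← h2, map_div₀, div_le_one ((v p).pos (hpiv0 n))]
        exact hpiv n i
      intro n hn n' hn' i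
      have h1 := hcls _ _ (hle n hn i) (hle n' hn' i)
        (((hmem n hn).2.2 i).trans ((hmem n' hn').2.2 i).symm)
      refine (hq3 _ h1).trans ?_
      exact one_div_le_one_div_of_le hY2 hNq

theorem sel_eff {K T ι : Type} [Field K] [NumberField K] [Finite T] [Fintype ι] [Nonempty ι]
    {δ : T → ℕ} {F : T → ι → MvPolynomial ι K} {y : ℕ → ι → K} (h : Orb δ F y) :
    ∃ c₁ : ℝ, 0 < c₁ ∧ ∀ η : ℝ, 0 < η → η ≤ 1 → ∀ κ : ℕ, ∃ C : ℝ, 0 < C ∧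
      ∀ᶠ N : ℕ in atTop, ∀ H : ℝ, 1 ≤ H → C * H ≤ (N : ℝ) ^ (η / 2) →
        (∀ n ≤ (κ + 1) * N, logHeight (y n) ≤ H) →
        ∀ S : Finset ℕ, (∀ n ∈ S, n ≤ κ * N) →
        ∃ S' ⊆ S, (S.card : ℝ) ≤ C * (N : ℝ) ^ (c₁ * η) * S'.card ∧
          ∃ v ∈ nonarchAbsVal (K := K), ∃ i₀,
            PCls δ F y v ((N : ℝ) ^ (2 * η)) ⌊(N : ℝ) ^ η⌋₊ i₀ S' := by
  obtain ⟨c₁, hc₁, hsel⟩ := sel_eff' h
  refine ⟨c₁, hc₁, fun η hη hη1 κ => ?_⟩
  obtain ⟨C, hC, hN⟩ := hsel η hη hη1 κ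
  refine ⟨C, hC, ?_⟩
  filter_upwards [hN, eventually_ge_atTop 1] with N hN hN1 H hH hCH hheight S hS
  refine hN H hH hCH S hS fun n hn m hm => hheight _ ?_
  have hN1' : (1 : ℝ) ≤ N := by exact_mod_cast hN1
  have h1 : (N : ℝ) ^ η ≤ N := by
    calc (N : ℝ) ^ η ≤ (N : ℝ) ^ (1 : ℝ) := Real.rpow_le_rpow_of_exponent_le hN1' hη1
      _ = N := Real.rpow_one _
  have h2 : (⌊(N : ℝ) ^ η⌋₊ : ℝ) ≤ (N : ℝ) ^ η := Nat.floor_le (Real.rpow_nonneg (by linarith) _)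
  have h3 : ⌊(N : ℝ) ^ η⌋₊ ≤ N := by exact_mod_cast h2.trans h1
  have h4 := hS n hn
  nlinarith

end Pool.Agent.GE
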