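import Pool.Agent.GE.SmallLem
import Pool.Agent.GE.IS
import Pool.Agent.GT.Hilb

/-!
The choice of a large family of least dimension.
-/

set_option autoImplicit false

open Filter MvPolynomial

namespace Pool.Agent.GE

open Pool.Agent.GT

/-- the Hilbert functions of the sets `S k` of points of the orbits `y k` grow at most like the
one of a variety of dimension `w - 1` for small degrees -/
def HBf {K ι : Type} [Field K] (σ : ℕ → ℕ) (y : ℕ → ℕ → ι → K) (S : ℕ → Finset ℕ) (w : ℕ) :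
    Prop :=
  ∃ c : ℕ → ℕ, Small σ (fun k => c k) ∧ ∀ b : ℕ → ℕ, Small σ (fun k => b k) →
    ∀ᶠ k : ℕ in U, b k * HF (IS (y k) (S k)) (b k) ≤ c k * b k ^ w

/-- no large family has dimension `w - 1` -/
def MinF {K ι : Type} [Field K] (σ : ℕ → ℕ) (y : ℕ → ℕ → ι → K) (w : ℕ) (θ : ℝ) : Prop :=
  ∀ (κ : ℕ) (S : ℕ → Finset ℕ), InWS σ κ S → LargeS σ θ S → ¬ HBf σ y S w

theorem HF_zero_mem {k ι : Type} [Field k] [Finite ι] (I : Ideal (MvPolynomial ι k)) (b : ℕ)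
    (h : HF I b = 0) (G : MvPolynomial ι k) (hG : G.IsHomogeneous b) : G ∈ I := by
  unfold HF rk at h
  have h3 := hilb_fin I b
  rw [Submodule.finrank_eq_zero] at h
  have h4 : (Ideal.Quotient.mkₐ k I).toLinearMap G ∈
      (homogeneousSubmodule ι k b).map (Ideal.Quotient.mkₐ k I).toLinearMap :=
    Submodule.mem_map_of_mem ((mem_homogeneousSubmodule b G).mpr hG)
  rw [h, Submodule.mem_bot] at h4
  exact Ideal.Quotient.eq_zero_iff_mem.1 h4

theorem not_HBf_zero {K ι : Type} [Field K] [Finite ι] (σ : ℕ → ℕ) (hσ : Inf σ) (y : ℕ → ℕ → ι → K)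
    (hy : ∀ k n, y k n ≠ 0) (θ : ℝ) (S : ℕ → Finset ℕ) (hS : LargeS σ θ S) : ¬ HBf σ y S 0 := by
  rintro ⟨c, hc, h⟩
  have h1 : Small σ fun k => ((c k + 1 : ℕ) : ℝ) := by
    refine small_of_le (Eventually.of_forall fun k => le_of_eq ?_)
      (small_add hσ hc (small_const hσ 1))
    push_cast
    rfl
  obtain ⟨k, h2, n, hn⟩ := ((h (fun k => c k + 1) h1).and (largeS_nonempty hσ hS)).exists
  rw [pow_zero, mul_one] at h2
  have h3 : HF (IS (y k) (S k)) (c k + 1) = 0 := by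
    by_contra h3
    have h4 : 1 ≤ HF (IS (y k) (S k)) (c k + 1) := Nat.one_le_iff_ne_zero.2 h3
    have h5 : (c k + 1) * 1 ≤ (c k + 1) * HF (IS (y k) (S k)) (c k + 1) := Nat.mul_le_mul_left _ h4
    omega
  apply hy k n
  funext i
  have h4 := HF_zero_mem _ _ h3 (X i ^ (c k + 1)) (isHomogeneous_X_pow i (c k + 1))
  have h5 := (mem_IS_form (y k) (S k) (c k + 1) _ (isHomogeneous_X_pow i (c k + 1))).mp h4 n hn
  rw [map_pow, eval_X] at h5
  exact (pow_eq_zero_iff (Nat.succ_ne_zero _)).mp h5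

theorem setup_eff {K ι : Type} [Field K] [Fintype ι] (σ : ℕ → ℕ) (hσ : Inf σ) (y : ℕ → ℕ → ι → K)
    (hy : ∀ k n, y k n ≠ 0) (c₂ : ℝ) (hc₂ : 1 ≤ c₂) (ρ : ℝ) (hρ : 0 < ρ) :
    ∃ (w : ℕ) (θ : ℝ), 0 < θ ∧ 6 * (c₂ * θ) ≤ ρ ∧ MinF σ y w (c₂ * θ) ∧
      ∃ (κ : ℕ) (S : ℕ → Finset ℕ), InWS σ κ S ∧ LargeS σ θ S ∧ HBf σ y S (w + 1) := by
  classical
  set m := Fintype.card ι + 1 with hm
  set thr : ℕ → ℝ := fun w => (ρ / (6 * c₂ ^ m)) * c₂ ^ (m - w) with hthr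
  have hc₀ : 0 < c₂ := by linarith
  have hthr0 : ∀ w, 0 < thr w := by
    intro w
    simp only [hthr]
    positivity
  have hthr1 : ∀ w, 6 * thr w ≤ ρ := by
    intro w
    simp only [hthr]
    have h1 : c₂ ^ (m - w) ≤ c₂ ^ m := pow_le_pow_right₀ hc₂ (Nat.sub_le m w)
    have h2 : 0 < c₂ ^ m := pow_pos hc₀ m
    rw [show 6 * (ρ / (6 * c₂ ^ m) * c₂ ^ (m - w)) = ρ * (c₂ ^ (m - w) / c₂ ^ m) by
      field_simp]
    exact mul_le_of_le_one_right hρ.le ((div_le_one h2).mpr h1)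
  let P : ℕ → Prop := fun w => ∃ (κ : ℕ) (S : ℕ → Finset ℕ), InWS σ κ S ∧
    LargeS σ (thr w) S ∧ HBf σ y S w
  have hPm : P m := by
    refine ⟨2, fun k => Finset.Icc (σ k) (2 * σ k), ?_, ?_, ?_⟩
    · exact Eventually.of_forall fun k n hn => (Finset.mem_Icc.mp hn).2
    · intro ε hε
      filter_upwards [hσ 1] with k hk
      have h1 : (σ k : ℝ) ^ (1 - thr m - ε) ≤ (σ k : ℝ) ^ (1 : ℝ) :=
        Real.rpow_le_rpow_of_exponent_le (by exact_mod_cast hk) (by linarith [hthr0 m])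
      rw [Real.rpow_one] at h1
      rw [Nat.card_Icc]
      refine h1.trans ?_
      have : σ k ≤ 2 * σ k + 1 - σ k := by omega
      exact_mod_cast this
    · obtain ⟨c, hc⟩ := HB_bot (k := K) (ι := ι)
      refine ⟨fun _ => c, small_const hσ c, fun b _ => Eventually.of_forall fun k => ?_⟩
      refine le_trans (Nat.mul_le_mul_left _ ?_) (hc (b k))
      apply HF_IS_le
      intro G hG _ n _
      rw [Ideal.mem_bot.mp hG, map_zero]
  have hex : ∃ w, P w := ⟨m, hPm⟩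
  set w₀ := Nat.find hex with hw₀
  obtain ⟨κ, S, hS, hL, hHB⟩ := Nat.find_spec hex
  rw [← hw₀] at hHB hL
  have hle : w₀ ≤ m := Nat.find_min' hex hPm
  have hpos : w₀ ≠ 0 := by
    intro h0
    rw [h0] at hHB
    exact not_HBf_zero σ hσ y hy _ S hL hHB
  obtain ⟨w, hw⟩ := Nat.exists_eq_succ_of_ne_zero hpos
  have hthrw : thr w = c₂ * thr w₀ := by
    simp only [hthr]
    rw [show m - w = (m - w₀) + 1 by omega, pow_succ]
    ring
  refine ⟨w, thr w₀, hthr0 w₀, ?_, ?_, κ, S, hS, hL, ?_⟩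
  · rw [← hthrw]
    exact hthr1 w
  · rw [← hthrw]
    intro κ' S' hS' hL' hHB'
    exact Nat.find_min hex (show w < Nat.find hex by rw [← hw₀]; omega) ⟨κ', S', hS', hL', hHB'⟩
  · rw [← Nat.succ_eq_add_one, ← hw]
    exact hHB

end Pool.Agent.GE
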