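import Pool.Agent.GE.Defs
import Pool.Agent.GT.Tools

/-!
Closure properties of small sequences and large families.
-/

set_option autoImplicit false

open Filter MvPolynomial

namespace Pool.Agent.GE

open Pool.Agent.GT

/-- the scale tends to infinity along the ultrafilter -/
def Inf (σ : ℕ → ℕ) : Prop := ∀ M : ℕ, ∀ᶠ k : ℕ in U, M ≤ σ k

section small

variable {σ : ℕ → ℕ}

theorem inf_of_tendsto (h : Tendsto σ atTop atTop) : Inf σ := fun M =>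
  ev_top (h.eventually_ge_atTop M)

theorem inf_real (hσ : Inf σ) (x : ℝ) : ∀ᶠ k : ℕ in U, x ≤ (σ k : ℝ) := by
  filter_upwards [hσ ⌈x⌉₊] with k hk
  exact (Nat.le_ceil x).trans (by exact_mod_cast hk)

theorem inf_rpow (hσ : Inf σ) (x ε : ℝ) (hε : 0 < ε) : ∀ᶠ k : ℕ in U, x ≤ (σ k : ℝ) ^ ε := by
  filter_upwards [inf_real hσ (max x 1 ^ (1 / ε))] with k hk
  have h1 : (0 : ℝ) < max x 1 := lt_of_lt_of_le one_pos (le_max_right _ _)
  calc x ≤ max x 1 := le_max_left _ _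
    _ = (max x 1 ^ (1 / ε)) ^ ε := by
        rw [← Real.rpow_mul h1.le]
        rw [one_div, inv_mul_cancel₀ hε.ne', Real.rpow_one]
    _ ≤ (σ k : ℝ) ^ ε := Real.rpow_le_rpow (Real.rpow_nonneg h1.le _) hk hε.le

theorem small_const (hσ : Inf σ) (c : ℝ) : Small σ fun _ => c := fun ε hε => inf_rpow hσ c ε hε

theorem small_of_le {a b : ℕ → ℝ} (h : ∀ᶠ k : ℕ in U, a k ≤ b k) (hb : Small σ b) :
    Small σ a := by
  intro ε hε
  filter_upwards [h, hb ε hε] with k h1 h2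
  exact h1.trans h2

theorem small_mul (hσ : Inf σ) {a b : ℕ → ℝ} (ha0 : ∀ᶠ k : ℕ in U, 0 ≤ a k)
    (hb0 : ∀ᶠ k : ℕ in U, 0 ≤ b k) (ha : Small σ a) (hb : Small σ b) :
    Small σ fun k => a k * b k := by
  intro ε hε
  filter_upwards [ha0, hb0, ha (ε / 2) (by linarith), hb (ε / 2) (by linarith), hσ 1]
    with k h1 h2 h3 h4 h5
  have h6 : (0 : ℝ) < σ k := by exact_mod_cast h5
  calc a k * b k ≤ (σ k : ℝ) ^ (ε / 2) * (σ k : ℝ) ^ (ε / 2) := by gcongr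
    _ = (σ k : ℝ) ^ ε := by
        rw [← Real.rpow_add h6]
        congr 1
        ring

theorem small_add (hσ : Inf σ) {a b : ℕ → ℝ} (ha : Small σ a) (hb : Small σ b) :
    Small σ fun k => a k + b k := by
  intro ε hε
  filter_upwards [ha (ε / 2) (by linarith), hb (ε / 2) (by linarith), hσ 1,
    inf_rpow hσ 2 (ε / 2) (by linarith)] with k h3 h4 h5 h7
  have h6 : (0 : ℝ) < σ k := by exact_mod_cast h5
  have h8 : 0 ≤ (σ k : ℝ) ^ (ε / 2) := Real.rpow_nonneg h6.le _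
  calc a k + b k ≤ (σ k : ℝ) ^ (ε / 2) + (σ k : ℝ) ^ (ε / 2) := by linarith
    _ = 2 * (σ k : ℝ) ^ (ε / 2) := by ring
    _ ≤ (σ k : ℝ) ^ (ε / 2) * (σ k : ℝ) ^ (ε / 2) := by gcongr
    _ = (σ k : ℝ) ^ ε := by
        rw [← Real.rpow_add h6]
        congr 1
        ring

theorem small_pow (hσ : Inf σ) {a : ℕ → ℝ} (ha0 : ∀ᶠ k : ℕ in U, 0 ≤ a k) (ha : Small σ a)
    (n : ℕ) : Small σ fun k => a k ^ n := by
  induction n with
  | zero => simpa using small_const hσ 1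
  | succ n ih =>
    refine small_of_le (Eventually.of_forall fun k => le_of_eq (pow_succ _ _)) ?_
    exact small_mul hσ (ha0.mono fun k hk => pow_nonneg hk n) ha0 ih ha

theorem small_log (hσ : Inf σ) : Small σ fun k => Real.log (σ k) := by
  intro ε hε
  filter_upwards [hσ 1, inf_rpow hσ (2 / ε) (ε / 2) (by linarith)] with k h1 h2
  have h6 : (0 : ℝ) < σ k := by exact_mod_cast h1
  have h3 : Real.log ((σ k : ℝ) ^ (ε / 2)) ≤ (σ k : ℝ) ^ (ε / 2) :=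
    (Real.log_le_sub_one_of_pos (Real.rpow_pos_of_pos h6 _)).trans (by linarith)
  rw [Real.log_rpow h6] at h3
  have h4 : Real.log (σ k) ≤ (2 / ε) * (σ k : ℝ) ^ (ε / 2) := by
    calc Real.log (σ k) = (2 / ε) * (ε / 2 * Real.log (σ k)) := by
          field_simp
      _ ≤ _ := by gcongr
  calc Real.log (σ k) ≤ (2 / ε) * (σ k : ℝ) ^ (ε / 2) := h4
    _ ≤ (σ k : ℝ) ^ (ε / 2) * (σ k : ℝ) ^ (ε / 2) := by gcongr
    _ = (σ k : ℝ) ^ ε := by
        rw [← Real.rpow_add h6]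
        congr 1
        ring

/-- exponentials of logarithms of small sequences -/
theorem small_exp_log (hσ : Inf σ) {R : ℕ → ℝ} (hR : Small σ R) (hR1 : ∀ k, 1 ≤ R k)
    (Δ : ℝ) (hΔ : 1 ≤ Δ) (C₀ : ℝ) (hC₀ : 0 ≤ C₀) (j : ℕ → ℕ)
    (hj : ∀ᶠ k : ℕ in U, (j k : ℝ) ≤ C₀ * (1 + Real.log (R k))) :
    Small σ fun k => Δ ^ j k := by
  have hlΔ : 0 ≤ Real.log Δ := Real.log_nonneg hΔ
  intro ε hε
  set ε' := ε / (2 * (C₀ * Real.log Δ + 1)) with hε'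
  have hpos : 0 < C₀ * Real.log Δ + 1 := by positivity
  have hε'0 : 0 < ε' := by positivity
  filter_upwards [hj, hR ε' hε'0, hσ 1,
    inf_rpow hσ (Real.exp (C₀ * Real.log Δ)) (ε / 2) (by linarith)] with k h1 h2 h3 h4
  have h6 : (0 : ℝ) < σ k := by exact_mod_cast h3
  have hRk : 0 < R k := lt_of_lt_of_le one_pos (hR1 k)
  have h7 : Real.log (R k) ≤ ε' * Real.log (σ k) := by
    have := Real.log_le_log hRk h2
    rwa [Real.log_rpow h6] at this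
  have hls : 0 ≤ Real.log (σ k) := Real.log_nonneg (by exact_mod_cast h3)
  have h8 : Δ ^ j k ≤ Real.exp (C₀ * Real.log Δ) * (σ k : ℝ) ^ (ε / 2) := by
    rw [← Real.exp_log (pow_pos (lt_of_lt_of_le one_pos hΔ) (j k)), Real.log_pow,
      Real.rpow_def_of_pos h6, ← Real.exp_add]
    apply Real.exp_le_exp.mpr
    calc (j k : ℝ) * Real.log Δ ≤ C₀ * (1 + Real.log (R k)) * Real.log Δ := by gcongr
      _ = C₀ * Real.log Δ + (C₀ * Real.log Δ) * Real.log (R k) := by ring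
      _ ≤ C₀ * Real.log Δ + (C₀ * Real.log Δ) * (ε' * Real.log (σ k)) := by gcongr
      _ ≤ C₀ * Real.log Δ + (C₀ * Real.log Δ + 1) * (ε' * Real.log (σ k)) := by
          have : 0 ≤ ε' * Real.log (σ k) := by positivity
          nlinarith
      _ = C₀ * Real.log Δ + Real.log (σ k) * (ε / 2) := by
          rw [hε']
          field_simp
  calc Δ ^ j k ≤ Real.exp (C₀ * Real.log Δ) * (σ k : ℝ) ^ (ε / 2) := h8
    _ ≤ (σ k : ℝ) ^ (ε / 2) * (σ k : ℝ) ^ (ε / 2) := by gcongr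
    _ = (σ k : ℝ) ^ ε := by
        rw [← Real.rpow_add h6]
        congr 1
        ring

theorem largeS_mono (hσ : Inf σ) {θ θ' : ℝ} (h : θ ≤ θ') {S : ℕ → Finset ℕ}
    (hS : LargeS σ θ S) : LargeS σ θ' S := by
  intro ε hε
  filter_upwards [hS ε hε, hσ 1] with k h1 h2
  refine le_trans ?_ h1
  exact Real.rpow_le_rpow_of_exponent_le (by exact_mod_cast h2) (by linarith)

theorem largeS_nonempty (hσ : Inf σ) {θ : ℝ} {S : ℕ → Finset ℕ} (hS : LargeS σ θ S) :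
    ∀ᶠ k : ℕ in U, (S k).Nonempty := by
  filter_upwards [hS 1 one_pos, hσ 1] with k h1 h2
  rw [← Finset.card_pos]
  have h6 : (0 : ℝ) < σ k := by exact_mod_cast h2
  exact_mod_cast (Real.rpow_pos_of_pos h6 _).trans_le h1

/-- a subfamily of small index is large -/
theorem largeS_factor (hσ : Inf σ) {θ : ℝ} {S S' : ℕ → Finset ℕ} (hS : LargeS σ θ S)
    (c : ℕ → ℝ) (hc : Small σ c)
    (h : ∀ᶠ k : ℕ in U, ((S k).card : ℝ) ≤ c k * ((S' k).card : ℝ)) : LargeS σ θ S' := by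
  intro ε hε
  filter_upwards [hS (ε / 2) (by linarith), hc (ε / 2) (by linarith), h, hσ 1]
    with k h1 h2 h3 h4
  have h6 : (0 : ℝ) < σ k := by exact_mod_cast h4
  have h7 : (σ k : ℝ) ^ (1 - θ - ε / 2) =
      (σ k : ℝ) ^ (1 - θ - ε) * (σ k : ℝ) ^ (ε / 2) := by
    rw [← Real.rpow_add h6]
    congr 1
    ring
  have h8 : (0 : ℝ) < (σ k : ℝ) ^ (ε / 2) := Real.rpow_pos_of_pos h6 _
  have h9 : (σ k : ℝ) ^ (1 - θ - ε) * (σ k : ℝ) ^ (ε / 2) ≤
      ((S' k).card : ℝ) * (σ k : ℝ) ^ (ε / 2) := by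
    rw [← h7]
    refine (h1.trans h3).trans ?_
    rw [mul_comm]
    exact mul_le_mul_of_nonneg_left h2 (Nat.cast_nonneg _)
  exact le_of_mul_le_mul_right h9 h8

/-- a power factor -/
theorem largeS_power (hσ : Inf σ) {θ ρ : ℝ} {S S' : ℕ → Finset ℕ} (hS : LargeS σ θ S)
    (c : ℕ → ℝ) (hc : Small σ c)
    (h : ∀ᶠ k : ℕ in U, ((S k).card : ℝ) ≤ c k * (σ k : ℝ) ^ ρ * ((S' k).card : ℝ)) :
    LargeS σ (θ + ρ) S' := by
  intro ε hε
  filter_upwards [hS (ε / 2) (by linarith), hc (ε / 2) (by linarith), h, hσ 1]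
    with k h1 h2 h3 h4
  have h6 : (0 : ℝ) < σ k := by exact_mod_cast h4
  have h7 : (σ k : ℝ) ^ (1 - θ - ε / 2) =
      (σ k : ℝ) ^ (1 - (θ + ρ) - ε) * ((σ k : ℝ) ^ (ε / 2) * (σ k : ℝ) ^ ρ) := by
    rw [← Real.rpow_add h6, ← Real.rpow_add h6]
    congr 1
    ring
  have h8 : (0 : ℝ) < (σ k : ℝ) ^ (ε / 2) * (σ k : ℝ) ^ ρ :=
    mul_pos (Real.rpow_pos_of_pos h6 _) (Real.rpow_pos_of_pos h6 _)
  have h9 : (σ k : ℝ) ^ (1 - (θ + ρ) - ε) * ((σ k : ℝ) ^ (ε / 2) * (σ k : ℝ) ^ ρ) ≤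
      ((S' k).card : ℝ) * ((σ k : ℝ) ^ (ε / 2) * (σ k : ℝ) ^ ρ) := by
    rw [← h7]
    refine (h1.trans h3).trans ?_
    rw [mul_comm]
    apply mul_le_mul_of_nonneg_left _ (Nat.cast_nonneg _)
    exact mul_le_mul_of_nonneg_right h2 (Real.rpow_nonneg h6.le _)
  exact le_of_mul_le_mul_right h9 h8

/-- small multiples of a smaller power are negligible -/
theorem small_negl (hσ : Inf σ) {c : ℕ → ℝ} (hc0 : ∀ᶠ k : ℕ in U, 0 ≤ c k) (hc : Small σ c)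
    {α β : ℝ} (h : α < β) (D : ℝ) (hD : 0 ≤ D) :
    ∀ᶠ k : ℕ in U, D * (c k * (σ k : ℝ) ^ α) ≤ (σ k : ℝ) ^ β := by
  filter_upwards [hc ((β - α) / 2) (by linarith), hσ 1, hc0,
    inf_rpow hσ D ((β - α) / 2) (by linarith)] with k h1 h2 hck h3
  have h6 : (0 : ℝ) < σ k := by exact_mod_cast h2
  have hα : 0 ≤ (σ k : ℝ) ^ α := Real.rpow_nonneg h6.le _
  have hδ : 0 ≤ (σ k : ℝ) ^ ((β - α) / 2) := Real.rpow_nonneg h6.le _
  have h4 : (σ k : ℝ) ^ β =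
      (σ k : ℝ) ^ ((β - α) / 2) * ((σ k : ℝ) ^ ((β - α) / 2) * (σ k : ℝ) ^ α) := by
    rw [← Real.rpow_add h6, ← Real.rpow_add h6]
    congr 1
    ring
  rw [h4]
  gcongr

end small

end Pool.Agent.GE
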