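import Pool.Agent.GE.Final
import Pool.Agent.GT.Whole
import Pool.Agent.GT.Greedy

/-!
Heights and degrees in arbitrary windows of the orbit.
-/

set_option autoImplicit false

open Filter MvPolynomial Height Height.AdmissibleAbsValues

namespace Pool.Agent.GE

open Pool.Agent.GT

section shift

variable {K T ι : Type} [Field K] {δ : T → ℕ} {F : T → ι → MvPolynomial ι K} {y : ℕ → ι → K}

theorem orb_shift (h : Orb δ F y) (M : ℕ) : Orb δ F fun n => y (M + n) :=
  ⟨h.hom, fun n => h.ne _, fun n t => h.prop (M + n) t, fun n => h.step (M + n)⟩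

theorem irr_shift (h : Orb δ F y) (hirr : Irr y) (M : ℕ) : Irr fun n => y (M + n) := by
  intro a b G H hG hH hGH
  have h1 : ∀ n, eval (y n) (G * H) = 0 := tail_dense y h.ne hirr (a + b) M (G * H)
    (hG.mul hH) (fun n hn => by
      have h2 := hGH (n - M)
      simp only [Nat.add_sub_cancel' hn] at h2
      exact h2)
  rcases hirr a b G H hG hH h1 with h2 | h2
  · exact Or.inl fun n => h2 _
  · exact Or.inr fun n => h2 _

/-- a representation on a tail of the orbit is a representation on the orbit -/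
theorem rep_of_shift (h : Orb δ F y) (hirr : Irr y) (M l e : ℕ) (Φ : ι → MvPolynomial ι K)
    (hΦ : Rep (fun n => y (M + n)) l e Φ) : Rep y l e Φ := by
  obtain ⟨h1, ⟨n₀, i₀, h2⟩, h3⟩ := hΦ
  refine ⟨h1, ⟨M + n₀, i₀, h2⟩, ?_⟩
  intro n
  obtain ⟨b, Ψ, hΨ, i₁, hi₁⟩ := exists_rep h l n
  obtain ⟨c, hc⟩ := hΨ.2.2 n
  have hcross : ∀ i, eval (y n) (Φ i * Ψ i₁ - Φ i₁ * Ψ i) = 0 := by
    intro i
    refine tail_dense y h.ne hirr (e + b) M _
      (((h1 i).mul (hΨ.1 i₁)).sub ((h1 i₁).mul (hΨ.1 i))) ?_ n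
    intro m hm
    obtain ⟨c₁, hc₁⟩ := h3 (m - M)
    obtain ⟨c₂, hc₂⟩ := hΨ.2.2 m
    have e1 : M + (m - M) = m := Nat.add_sub_cancel' hm
    have e2 : M + (m - M + l) = m + l := by omega
    simp only [e1, e2] at hc₁
    rw [map_sub, map_mul, map_mul, hc₁, hc₁, hc₂, hc₂]
    ring
  refine ⟨eval (y n) (Φ i₁) / eval (y n) (Ψ i₁) * c, fun i => ?_⟩
  have h4 := hcross i
  rw [map_sub, map_mul, map_mul, sub_eq_zero, hc i] at h4
  field_simp
  linear_combination h4

end shift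

/-- the number of indices `n` with `M ≤ n ≤ M + N` and `logHeight (y n) ≥ H` -/
noncomputable def highIn {K ι : Type} [Field K] [NumberField K] [Finite ι] (y : ℕ → ι → K)
    (M N : ℕ) (H : ℝ) : ℕ :=
  ((Finset.Icc M (M + N)).filter fun n => H ≤ logHeight (y n)).card

theorem highCount_shift {K ι : Type} [Field K] [NumberField K] [Finite ι] (y : ℕ → ι → K)
    (M N : ℕ) (H : ℝ) : highCount (fun n => y (M + n)) N H ≤ highIn y M N H := by
  classical
  unfold highCount highIn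
  refine Finset.card_le_card_of_injOn (fun n => M + n) ?_ ?_
  · intro n hn
    have h1 := Finset.mem_filter.mp (Finset.mem_coe.mp hn)
    have h2 := Finset.mem_range.mp h1.1
    refine Finset.mem_coe.mpr (Finset.mem_filter.mpr ⟨Finset.mem_Icc.mpr ?_, h1.2⟩)
    show M ≤ M + n ∧ M + n ≤ M + N
    omega
  · intro a _ b _ hab
    exact Nat.add_left_cancel hab

/-- Heights and degrees, in every window of the orbit. -/
theorem final_w {K T ι : Type} [Field K] [NumberField K] [Finite T] [Fintype ι]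
    (δ : T → ℕ) (F : T → ι → MvPolynomial ι K) (ρ : ℝ) (hρ : 0 < ρ) :
    ∃ ε : ℝ, 0 < ε ∧ ∃ N₀ : ℕ, ∀ y : ℕ → ι → K, Orb δ F y → Irr y → ∀ M N l B : ℕ, N₀ ≤ N →
      N₀ ≤ B → (l : ℝ) ≤ (N : ℝ) ^ ε →
      (∀ e ≤ B, ∀ Φ : ι → MvPolynomial ι K, ¬ Rep y l e Φ) →
      (N : ℝ) ^ (1 - ρ) ≤ highIn y M N (((min N B : ℕ) : ℝ) ^ ε * Real.log N) := by
  obtain ⟨ε, hε, N₀, h⟩ := final_u δ F ρ hρ
  refine ⟨ε, hε, N₀, ?_⟩
  intro y hy hirr M N l B hN hB hl hrep
  refine (h (fun n => y (M + n)) (orb_shift hy M) (irr_shift hy hirr M) N l B hN hB hl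
    fun e he Φ hΦ => hrep e he Φ (rep_of_shift hy hirr M l e Φ hΦ)).trans ?_
  exact_mod_cast highCount_shift y M N _

end Pool.Agent.GE
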